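import Pool.Agent.Work.MP_a20dfd.Interface2

/-!
# Block AIN (MP_a20dfd_al): the a-function is invariant under inversion
-/

set_option autoImplicit false

namespace Pool.Agent.Work.MP_a20dfd

open LaurentPolynomial

theorem p_AIN (hAZF : Stmt_AZF) (hFLK : Stmt_FLK) : Stmt_AIN := by
  intro B W _ _ M cs K z
  have key : ∀ z : W, K.a z ≤ K.a z⁻¹ := by
    intro z
    obtain ⟨x, y, hxy⟩ := (hAZF K).2 z
    have h1 := (hFLK K).2 x y z
    rw [← h1] at hxy
    have h2 := ((hAZF K).1 y⁻¹ x⁻¹ z⁻¹ _ hxy).1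
    exact_mod_cast h2
  apply le_antisymm
  · have h := key z⁻¹
    rwa [inv_inv] at h
  · exact key z

end Pool.Agent.Work.MP_a20dfd
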