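import Pool.Agent.Work.MP_a20dfd.Interface2

/-!
# MP_a20dfd_al, block ASC: associativity
-/

set_option autoImplicit false

namespace Pool.Agent.Work.MP_a20dfd

theorem p_ASC : Stmt_ASC := by
  intro B W _ _ M cs K x y z v
  have hL : K.kl.repr (K.kl x * K.kl y * K.kl z) v = ∑ w : W, K.h x y w * K.h w z v := by
    have e : K.kl x * K.kl y = ∑ w : W, K.h x y w • K.kl w := (K.kl.sum_repr _).symm
    rw [e, Finset.sum_mul, map_sum, Finsupp.finsetSum_apply]
    apply Finset.sum_congr rfl
    intro w _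
    rw [smul_mul_assoc, map_smul, Finsupp.smul_apply, smul_eq_mul]
    rfl
  have hR : K.kl.repr (K.kl x * (K.kl y * K.kl z)) v = ∑ w : W, K.h y z w * K.h x w v := by
    have e : K.kl y * K.kl z = ∑ w : W, K.h y z w • K.kl w := (K.kl.sum_repr _).symm
    rw [e, Finset.mul_sum, map_sum, Finsupp.finsetSum_apply]
    apply Finset.sum_congr rfl
    intro w _
    rw [mul_smul_comm, map_smul, Finsupp.smul_apply, smul_eq_mul]
    rfl
  rw [← hL, ← hR, mul_assoc]

end Pool.Agent.Work.MP_a20dfd
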