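import Pool.Agent.Work.MP_a20dfd.Interface2

/-!
# Block AZF: facts on the a-function
-/

namespace Pool.Agent.Work.MP_a20dfd

open LaurentPolynomial

namespace Azf

theorem dg_le {B W : Type} [Group W] [Fintype W] {M : CoxeterMatrix B} {cs : CoxeterSystem M W}
    (K : KL cs) (x y z : W) : dg (K.h x y z) ≤ K.a z := by
  unfold KL.a
  refine le_trans ?_ (Finset.le_sup (f := fun x : W => Finset.univ.sup fun y : W => dg (K.h x y z))
    (Finset.mem_univ x))
  exact Finset.le_sup (f := fun y : W => dg (K.h x y z)) (Finset.mem_univ y)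

theorem attained {B W : Type} [Group W] [Fintype W] {M : CoxeterMatrix B} {cs : CoxeterSystem M W}
    (K : KL cs) (z : W) : ∃ x y : W, K.a z = dg (K.h x y z) := by
  obtain ⟨x, _, hx⟩ := Finset.exists_mem_eq_sup (Finset.univ : Finset W) ⟨1, Finset.mem_univ _⟩
    (fun x : W => Finset.univ.sup fun y : W => dg (K.h x y z))
  obtain ⟨y, _, hy⟩ := Finset.exists_mem_eq_sup (Finset.univ : Finset W) ⟨1, Finset.mem_univ _⟩
    (fun y : W => dg (K.h x y z))
  exact ⟨x, y, hx.trans hy⟩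

theorem co_one : co (1 : A) 0 = 1 := by
  unfold co
  simp

end Azf

theorem p_AZF (hLPF : Stmt_LPF) (hSYM : Stmt_SYM) (hCSI : Stmt_CSI) : Stmt_AZF := by
  intro B W _ _ M cs K
  obtain ⟨-, -, -, -, -, h6, h7⟩ := hLPF
  refine ⟨?_, ?_⟩
  · intro x y z k hk
    have hle : ((dg (K.h x y z) : ℕ) : ℤ) ≤ K.a z := by exact_mod_cast Azf.dg_le K x y z
    refine ⟨(h6 _ _ hk).trans hle, (h6 _ (-k) ?_).trans hle⟩
    rw [hSYM K x y z k]
    exact hk
  · intro z
    by_cases h0 : K.a z = 0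
    · refine ⟨1, z, ?_⟩
      have h1 : K.h 1 z z = 1 := by
        unfold KL.h
        rw [(hCSI K).1, one_mul, Module.Basis.repr_self, Finsupp.single_eq_same]
      rw [h1, h0]
      show co (1 : A) 0 ≠ 0
      rw [Azf.co_one]
      exact one_ne_zero
    · obtain ⟨x, y, hxy⟩ := Azf.attained K z
      refine ⟨x, y, ?_⟩
      rw [hxy] at h0 ⊢
      exact h7 _ h0

end Pool.Agent.Work.MP_a20dfd
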