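import Pool.Agent.Work.MP_a20dfd.Interface2

/-!
# BRU: the bar involution is unitriangular with respect to the length (helper91)
-/

namespace Pool.Agent.Work.MP_a20dfd

open LaurentPolynomial

namespace Bru

variable {B W : Type} [Group W] {M : CoxeterMatrix B} {cs : CoxeterSystem M W}

/-- the element `v⁻¹ - v` -/
noncomputable def cc : A := T (-1) - T 1

theorem bar_s (K : KL cs) (i : B) :
    K.bar (K.std (cs.simple i)) = K.std (cs.simple i) - cc • (1 : K.H) := by
  have h1 := K.bar_std i
  have h2 := K.std_sq i
  have h3 : K.std (cs.simple i) * (K.std (cs.simple i) - cc • (1 : K.H)) = 1 := by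
    rw [mul_sub, h2, mul_smul_comm, mul_one]
    simp [cc]
  calc K.bar (K.std (cs.simple i))
      = K.bar (K.std (cs.simple i)) *
          (K.std (cs.simple i) * (K.std (cs.simple i) - cc • (1 : K.H))) := by rw [h3, mul_one]
    _ = (K.bar (K.std (cs.simple i)) * K.std (cs.simple i)) *
          (K.std (cs.simple i) - cc • (1 : K.H)) := by rw [mul_assoc]
    _ = K.std (cs.simple i) - cc • (1 : K.H) := by rw [h1, one_mul]

open Classical in
/-- the coordinates of `H_s X` -/
theorem coordL (hHRL : Stmt_HRL) (K : KL cs) (i : B) (X : K.H) (z : W) :
    K.std.repr (K.std (cs.simple i) * X) z =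
      K.std.repr X (cs.simple i * z) +
        (if cs.length (cs.simple i * z) < cs.length z then cc else 0) * K.std.repr X z := by
  have key : (K.std.coord z) ∘ₗ (LinearMap.mulLeft A (K.std (cs.simple i))) =
      K.std.coord (cs.simple i * z) +
        (if cs.length (cs.simple i * z) < cs.length z then cc else 0) • K.std.coord z := by
    refine K.std.ext fun y => ?_
    simp only [LinearMap.comp_apply, LinearMap.mulLeft_apply, Module.Basis.coord_apply,
      LinearMap.add_apply, LinearMap.smul_apply, smul_eq_mul, Module.Basis.repr_self]
    have hs : ∀ a b : W, cs.simple i * a = b ↔ a = cs.simple i * b := by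
      intro a b
      constructor
      · intro h; rw [← h, cs.simple_mul_simple_cancel_left]
      · intro h; rw [h, cs.simple_mul_simple_cancel_left]
    rcases cs.length_simple_mul y i with h | h
    · rw [K.std_mul i y h, Module.Basis.repr_self]
      simp only [Finsupp.single_apply]
      by_cases hy : y = z
      · subst hy
        have h1 : ¬ cs.length (cs.simple i * y) < cs.length y := by omega
        simp only [h1, if_false, zero_mul, add_zero]
        simp only [hs]
      · simp only [hy, if_false, mul_zero, add_zero]
        simp only [hs]
    · have hlt : cs.length (cs.simple i * y) < cs.length y := by omega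
      rw [(hHRL K).1 i y hlt, map_add, map_smul, Module.Basis.repr_self, Module.Basis.repr_self]
      simp only [Finsupp.add_apply, Finsupp.smul_apply, Finsupp.single_apply, smul_eq_mul]
      by_cases hy : y = z
      · subst hy
        simp only [hlt, if_true, hs, cc]
      · simp only [hy, if_false, mul_zero, add_zero, hs]
  have := congrArg (fun f => f X) key
  simpa only [LinearMap.comp_apply, LinearMap.mulLeft_apply, Module.Basis.coord_apply,
      LinearMap.add_apply, LinearMap.smul_apply, smul_eq_mul] using this

end Bru

theorem p_BRU (hHRL : Stmt_HRL) : Stmt_BRU := by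
  intro B W _ M cs K w
  classical
  induction hn : cs.length w using Nat.strong_induction_on generalizing w with
  | _ n ih =>
    by_cases hw : w = 1
    · subst hw
      have hb1 : K.bar (K.std 1) = K.std 1 := by
        rw [K.std_one]
        exact K.bar.map_one
      rw [hb1, Module.Basis.repr_self]
      refine ⟨by simp, fun y hy _ => ?_⟩
      rw [Finsupp.single_apply, if_neg (Ne.symm hy)]
    · obtain ⟨i, hi⟩ := cs.exists_leftDescent_of_ne_one hw
      have hi' : cs.length (cs.simple i * w) + 1 = cs.length w := cs.isLeftDescent_iff.1 hi
      set w' := cs.simple i * w with hw'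
      have hsw : cs.simple i * w' = w := by rw [hw', cs.simple_mul_simple_cancel_left]
      have hstd : K.std w = K.std (cs.simple i) * K.std w' := by
        rw [K.std_mul i w' (by rw [hsw]; omega), hsw]
      obtain ⟨h1, h2⟩ := ih (cs.length w') (by omega) w' rfl
      have hb : K.bar (K.std w) = K.std (cs.simple i) * K.bar (K.std w') -
          Bru.cc • K.bar (K.std w') := by
        rw [hstd, map_mul, Bru.bar_s K i, sub_mul, smul_mul_assoc, one_mul]
      have hc : ∀ z : W, K.std.repr (K.bar (K.std w)) z =
          K.std.repr (K.bar (K.std w')) (cs.simple i * z) +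
          (if cs.length (cs.simple i * z) < cs.length z then Bru.cc else 0) *
            K.std.repr (K.bar (K.std w')) z - Bru.cc * K.std.repr (K.bar (K.std w')) z := by
        intro z
        rw [hb, map_sub, map_smul, Finsupp.sub_apply, Finsupp.smul_apply, smul_eq_mul,
          Bru.coordL hHRL K i]
      refine ⟨?_, fun z hz hlz => ?_⟩
      · rw [hc w, ← hw', h1, if_pos (by omega)]
        ring
      · have h3 : K.std.repr (K.bar (K.std w')) (cs.simple i * z) = 0 := by
          apply h2
          · intro h
            apply hz
            rw [← hsw, ← h, cs.simple_mul_simple_cancel_left]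
          · rcases cs.length_simple_mul z i with h | h <;> omega
        have h4 : K.std.repr (K.bar (K.std w')) z = 0 := by
          apply h2
          · intro h
            rw [h] at hlz
            omega
          · omega
        rw [hc z, h3, h4]
        ring

end Pool.Agent.Work.MP_a20dfd
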