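import Pool.Agent.Work.MP_a20dfd.Interface2

/-! # CBX: long and short coset representatives -/

set_option autoImplicit false

namespace Pool.Agent.Work.MP_a20dfd

theorem p_CBX (hADD : Stmt_ADD) (hLON : Stmt_LON) : Stmt_CBX := by
  intro B W _ M cs I w₀ wI hw₀ hwI
  have hL := hLON cs w₀ hw₀
  have hlt : ∀ i ∈ I, cs.length (wI * cs.simple i) < cs.length wI := by
    intro i hi
    have h1 : cs.simple i ∈ Par cs I := Subgroup.subset_closure ⟨i, hi, rfl⟩
    have h2 := hwI.2 _ ((Par cs I).mul_mem hwI.1 h1)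
    exact lt_of_le_of_ne h2 (cs.length_mul_simple_ne wI i)
  refine ⟨fun x => ?_, fun i hi => ?_, fun b hb => ⟨w₀ * wI * b⁻¹, ?_, ?_⟩⟩
  · constructor
    · intro h i hi
      have h1 := h i hi
      have h2 := hL x
      have h3 := hL (x * cs.simple i)
      rw [mul_assoc]
      omega
    · intro h i hi
      have h1 := h i hi
      have h2 := hL x
      have h3 := hL (x * cs.simple i)
      rw [mul_assoc] at h1
      omega
  · have h1 := hlt i hi
    have h2 := hL wI
    have h3 := hL (wI * cs.simple i)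
    rw [mul_assoc]
    omega
  · rw [inv_mul_cancel_right]
  · have h1 := hADD cs I b wI⁻¹ hb ((Par cs I).inv_mem hwI.1)
    rw [cs.length_inv] at h1
    have h2 : cs.length (wI * b⁻¹) = cs.length (b * wI⁻¹) := by
      rw [← cs.length_inv (wI * b⁻¹), mul_inv_rev, inv_inv]
    have h3 := hL wI
    have h4 := hL (wI * b⁻¹)
    rw [inv_mul_cancel_right, mul_assoc]
    omega

end Pool.Agent.Work.MP_a20dfd
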