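import Pool.Agent.Work.MP_a20dfd.Interface2

/-! # Block CDN (helper45) -/

set_option autoImplicit false

namespace Pool.Agent.Work.MP_a20dfd

open LaurentPolynomial

namespace Cdn

variable {B W : Type} [Group W] {M : CoxeterMatrix B} {cs : CoxeterSystem M W} (K : KL cs)

theorem coord (hL : ∀ (i : B) (w : W), cs.length (cs.simple i * w) < cs.length w →
      K.std (cs.simple i) * K.std w = K.std (cs.simple i * w) + (T (-1) - T 1 : A) • K.std w)
    (i : B) (X : K.H) (z : W) :
    ∃ c : A, K.std.repr (K.std (cs.simple i) * X) z = K.std.repr X (cs.simple i * z) +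
      c * K.std.repr X z := by
  classical
  obtain ⟨c, hc⟩ : ∃ c : A, c =
    if cs.length (cs.simple i * z) < cs.length z then (T (-1) - T 1 : A) else 0 := ⟨_, rfl⟩
  refine ⟨c, ?_⟩
  let L1 : K.H →ₗ[A] A := (Finsupp.lapply z) ∘ₗ (K.std.repr : K.H →ₗ[A] (W →₀ A)) ∘ₗ
    (LinearMap.mulLeft A (K.std (cs.simple i)))
  let L2 : K.H →ₗ[A] A := (Finsupp.lapply (cs.simple i * z)) ∘ₗ (K.std.repr : K.H →ₗ[A] (W →₀ A)) +
    c • ((Finsupp.lapply z) ∘ₗ (K.std.repr : K.H →ₗ[A] (W →₀ A)))
  have h : L1 = L2 := by
    apply K.std.ext
    intro y
    show K.std.repr (K.std (cs.simple i) * K.std y) z = K.std.repr (K.std y) (cs.simple i * z) +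
      c * K.std.repr (K.std y) z
    have e1 : cs.simple i * y = z ↔ y = cs.simple i * z := by
      constructor
      · rintro rfl
        rw [cs.simple_mul_simple_cancel_left]
      · rintro rfl
        rw [cs.simple_mul_simple_cancel_left]
    rcases cs.length_simple_mul y i with hl | hl
    · rw [K.std_mul i y hl]
      simp only [Module.Basis.repr_self, Finsupp.single_apply, e1]
      by_cases hyz : y = z
      · subst hyz
        have hc0 : c = 0 := by rw [hc, if_neg (by omega)]
        rw [hc0, zero_mul, add_zero]
      · rw [if_neg hyz, mul_zero, add_zero]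
    · rw [hL i y (by omega), map_add, map_smul]
      simp only [Module.Basis.repr_self, Finsupp.add_apply, Finsupp.smul_apply,
        Finsupp.single_apply, e1, smul_eq_mul]
      by_cases hyz : y = z
      · subst hyz
        have hc0 : c = T (-1) - T 1 := by rw [hc, if_pos (by omega)]
        rw [hc0]
      · rw [if_neg hyz, mul_zero, mul_zero]
  exact LinearMap.congr_fun h X

end Cdn

theorem p_CDN (hCSI : Stmt_CSI) (hCUP : Stmt_CUP) (hHRL : Stmt_HRL) (hTRI : Stmt_TRI) : Stmt_CDN := by
  classical
  intro B W _ M cs K i w
  have hsq : K.kl (cs.simple i) * K.kl (cs.simple i) =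
      (T 1 + T (-1) : A) • K.kl (cs.simple i) := by
    rw [(hCSI K).2 i, add_mul, mul_add, mul_add, K.std_sq i]
    simp only [smul_mul_assoc, mul_smul_comm, one_mul, mul_one, smul_add, smul_smul]
    have e : ((T 1 + T (-1)) * T 1 : A) = 1 + T 1 * T 1 := by
      have e2 : (T (-1) * T 1 : A) = 1 := by
        rw [← T_add]
        simp
      rw [add_mul, e2, add_comm]
    rw [e]
    module
  have main : ∀ n : ℕ, ∀ w : W, cs.length w = n → cs.length (cs.simple i * w) < cs.length w →
      K.kl (cs.simple i) * K.kl w = (T 1 + T (-1) : A) • K.kl w := by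
    intro n
    induction n using Nat.strong_induction_on with
    | _ n ih =>
      intro w hn hlt
      obtain ⟨w', hw'⟩ : ∃ w', w' = cs.simple i * w := ⟨_, rfl⟩
      have hw : cs.simple i * w' = w := by
        rw [hw', cs.simple_mul_simple_cancel_left]
      have hl : cs.length w = cs.length w' + 1 := by
        rw [← hw'] at hlt
        rcases cs.length_simple_mul w i with h | h <;> rw [← hw'] at h <;> omega
      obtain ⟨hint, hone⟩ := hCUP K i w' (by rw [hw]; omega)
      rw [hw] at hone
      obtain ⟨S, hS⟩ : ∃ S : Finset W, S = (K.kl.repr (K.kl (cs.simple i) * K.kl w')).support :=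
        ⟨_, rfl⟩
      have hX : K.kl (cs.simple i) * K.kl w' = ∑ z ∈ S, K.h (cs.simple i) w' z • K.kl z := by
        have h1 := K.kl.linearCombination_repr (K.kl (cs.simple i) * K.kl w')
        rw [Finsupp.linearCombination_apply, Finsupp.sum, ← hS] at h1
        exact h1.symm
      have hSh : ∀ z, z ∈ S ↔ K.h (cs.simple i) w' z ≠ 0 := by
        intro z
        rw [hS, Finsupp.mem_support_iff]
        exact Iff.rfl
      have hbig : ∀ z ∈ S, z ≠ w → cs.length z < cs.length w := by
        by_contra hcon
        push Not at hcon
        obtain ⟨z0, hz0, hz0w, hz0l⟩ := hcon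
        obtain ⟨z, hz, hmax⟩ := Finset.exists_max_image
          (S.filter fun z => z ≠ w ∧ cs.length w ≤ cs.length z) cs.length
          ⟨z0, Finset.mem_filter.2 ⟨hz0, hz0w, hz0l⟩⟩
        obtain ⟨hzS, hzw, hzl⟩ := Finset.mem_filter.1 hz
        apply (hSh z).1 hzS
        -- coordinate at `z` in two ways
        have c1 : K.std.repr (K.kl (cs.simple i) * K.kl w') z = K.h (cs.simple i) w' z := by
          rw [hX, map_sum, Finsupp.finset_sum_apply, Finset.sum_eq_single z]
          · rw [map_smul, Finsupp.smul_apply, K.kl_self, smul_eq_mul, mul_one]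
          · intro u hu huz
            rw [map_smul, Finsupp.smul_apply, smul_eq_mul]
            have h0 : K.p z u = 0 := by
              by_cases huw : u = w
              · rw [huw]
                exact hTRI K z w hzw hzl
              · apply hTRI K z u (Ne.symm huz)
                by_contra hlt'
                push Not at hlt'
                have := hmax u (Finset.mem_filter.2 ⟨hu, huw, by omega⟩)
                omega
            have h0' : K.std.repr (K.kl u) z = 0 := h0
            rw [h0', mul_zero]
          · intro h
            exact absurd hzS h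
        have z1 : K.std.repr (K.kl w') z = 0 := by
          have : K.p z w' = 0 := by
            apply hTRI K z w'
            · rintro rfl
              omega
            · omega
          exact this
        have z2 : K.std.repr (K.kl w') (cs.simple i * z) = 0 := by
          have : K.p (cs.simple i * z) w' = 0 := by
            apply hTRI K (cs.simple i * z) w'
            · intro h
              apply hzw
              rw [← hw, ← h, cs.simple_mul_simple_cancel_left]
            · rcases cs.length_simple_mul z i with h | h <;> omega
          exact this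
        have c2 : K.std.repr (K.kl (cs.simple i) * K.kl w') z = 0 := by
          rw [(hCSI K).2 i, add_mul, smul_mul_assoc, one_mul, map_add, map_smul,
            Finsupp.add_apply, Finsupp.smul_apply, z1, smul_zero, add_zero]
          obtain ⟨c, hc⟩ := Cdn.coord K (hHRL K).1 i (K.kl w') z
          rw [hc, z1, z2, mul_zero, add_zero]
        rw [← c1, c2]
      have hwS : w ∈ S := by
        rw [hSh, hone]
        exact one_ne_zero
      have hX2 : K.kl (cs.simple i) * K.kl w' =
          K.kl w + ∑ z ∈ S.erase w, K.h (cs.simple i) w' z • K.kl z := by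
        rw [hX, ← Finset.add_sum_erase S _ hwS, hone, one_smul]
      have hR : K.kl (cs.simple i) * (∑ z ∈ S.erase w, K.h (cs.simple i) w' z • K.kl z) =
          (T 1 + T (-1) : A) • ∑ z ∈ S.erase w, K.h (cs.simple i) w' z • K.kl z := by
        rw [Finset.mul_sum, Finset.smul_sum]
        refine Finset.sum_congr rfl fun z hz => ?_
        obtain ⟨hzw, hzS⟩ := Finset.mem_erase.1 hz
        have h1 := (hint z).2 ((hSh z).1 hzS)
        have h2 := ih (cs.length z) (by rw [← hn]; exact hbig z hzS hzw) z rfl h1
        rw [mul_smul_comm, h2, smul_comm]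
      have hXX : K.kl (cs.simple i) * (K.kl (cs.simple i) * K.kl w') =
          (T 1 + T (-1) : A) • (K.kl (cs.simple i) * K.kl w') := by
        rw [← mul_assoc, hsq, smul_mul_assoc]
      rw [hX2, mul_add, hR, smul_add] at hXX
      exact add_right_cancel hXX
  exact main _ w rfl

end Pool.Agent.Work.MP_a20dfd
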