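import Pool.Agent.Work.MP_a20dfd.Interface2

namespace Pool.Agent.Work.MP_a20dfd

open LaurentPolynomial

theorem p_CSI (hUNQ : Stmt_UNQ) (hHRL : Stmt_HRL) : Stmt_CSI := by
  intro B W _ M cs K
  classical
  have e : ∀ (f g : A) (k : ℤ), co (f - g) k = co f k - co g k := fun f g k => rfl
  have e2 : ∀ (f g : A) (k : ℤ), co (f + g) k = co f k + co g k := fun f g k => rfl
  have e0 : ∀ k : ℤ, co (0 : A) k = 0 := fun k => rfl
  have r1 : ∀ y : W, K.std.repr (1 : K.H) y = if y = 1 then 1 else 0 := by
    intro y
    rw [← K.std_one, Module.Basis.repr_self, Finsupp.single_apply]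
    by_cases h : y = 1
    · rw [if_pos h.symm, if_pos h]
    · rw [if_neg (fun h' => h h'.symm), if_neg h]
  refine ⟨?_, fun i => ?_⟩
  · have := hUNQ K (K.kl 1 - 1) (by rw [map_sub, K.bar_kl, map_one K.bar]) (by
      intro y k hk
      rw [map_sub, Finsupp.sub_apply, r1]
      by_cases h : y = 1
      · subst h
        rw [K.kl_self, if_pos rfl, sub_self]
        rfl
      · rw [if_neg h, sub_zero]
        exact K.kl_lt y 1 h k hk)
    exact sub_eq_zero.mp this
  · have hs1 : cs.simple i ≠ 1 := by
      intro h
      have := cs.length_simple i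
      rw [h, cs.length_one] at this
      exact absurd this (by norm_num)
    set c : A := T (-1) - T 1 with hc
    have hbs : K.bar (K.std (cs.simple i)) = K.std (cs.simple i) - c • (1 : K.H) := by
      have h1 := K.bar_std i
      have h2 := K.std_sq i
      have h3 : K.std (cs.simple i) * (K.std (cs.simple i) - c • (1 : K.H)) = 1 := by
        rw [mul_sub, h2, mul_smul_comm, mul_one, add_sub_cancel_right]
      calc K.bar (K.std (cs.simple i))
          = K.bar (K.std (cs.simple i)) * (K.std (cs.simple i) *
              (K.std (cs.simple i) - c • (1 : K.H))) := by rw [h3, mul_one]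
        _ = _ := by rw [← mul_assoc, h1, one_mul]
    have hbar : K.bar (K.std (cs.simple i) + (T 1 : A) • (1 : K.H)) =
        K.std (cs.simple i) + (T 1 : A) • (1 : K.H) := by
      rw [map_add, hbs, K.bar_smul, map_one, invert_T, hc, sub_smul]
      abel
    have := hUNQ K (K.kl (cs.simple i) - (K.std (cs.simple i) + (T 1 : A) • (1 : K.H)))
      (by rw [map_sub, K.bar_kl, hbar]) (by
      intro y k hk
      rw [map_sub, map_add, map_smul, Finsupp.sub_apply, Finsupp.add_apply, Finsupp.smul_apply,
        r1, Module.Basis.repr_self, Finsupp.single_apply]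
      by_cases h : y = cs.simple i
      · subst h
        rw [K.kl_self, if_pos rfl, if_neg hs1, smul_zero, add_zero, sub_self]
        rfl
      · rw [if_neg (fun h' => h h'.symm), zero_add, e, K.kl_lt y _ h k hk]
        by_cases h1 : y = 1
        · rw [if_pos h1, smul_eq_mul, mul_one]
          have : co (T 1 : A) k = 0 := by
            have hk1 : (1 : ℤ) ≠ k := by omega
            simp only [co, T]
            exact Finsupp.single_eq_of_ne' hk1
          rw [this, sub_zero]
        · rw [if_neg h1, smul_zero, e0, sub_zero])
    exact sub_eq_zero.mp this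

end Pool.Agent.Work.MP_a20dfd
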