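import Pool.Agent.Work.MP_a20dfd.Interface2

/-!
# Block CUP
-/

namespace Pool.Agent.Work.MP_a20dfd

open LaurentPolynomial

namespace Cup

theorem co_add (f g : A) (k : ℤ) : co (f + g) k = co f k + co g k := by simp [co]

theorem co_sub (f g : A) (k : ℤ) : co (f - g) k = co f k - co g k := by simp [co]

theorem co_zero (k : ℤ) : co 0 k = 0 := by simp [co]

theorem co_C_mul (m : ℤ) (f : A) (k : ℤ) : co (C m * f) k = m * co f k := by
  show ((AddMonoidAlgebra.single (0 : ℤ) m : A) * f).coeff k = m * f.coeff k
  rw [AddMonoidAlgebra.coeff_single_mul_apply, neg_zero, zero_add]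

theorem co_T_mul (j : ℤ) (f : A) (k : ℤ) : co (T j * f) k = co f (k - j) := by
  show ((AddMonoidAlgebra.single j (1 : ℤ) : A) * f).coeff k = f.coeff (k - j)
  rw [AddMonoidAlgebra.coeff_single_mul_apply, one_mul, neg_add_eq_sub]

theorem co_one (k : ℤ) : co 1 k = if k = 0 then 1 else 0 := by
  show (1 : A).coeff k = _
  rw [AddMonoidAlgebra.one_def, AddMonoidAlgebra.coeff_single, Finsupp.single_apply]
  exact if_congr eq_comm rfl rfl

theorem co_C (m k : ℤ) : co (C m) k = if k = 0 then m else 0 := by
  have := co_C_mul m 1 k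
  rw [mul_one] at this
  rw [this, co_one]
  split_ifs <;> simp

theorem co_sum {ι : Type} (S : Finset ι) (f : ι → A) (k : ℤ) :
    co (∑ x ∈ S, f x) k = ∑ x ∈ S, co (f x) k := by
  classical
  induction S using Finset.induction_on with
  | empty => simp [co_zero]
  | insert a s ha ih => rw [Finset.sum_insert ha, Finset.sum_insert ha, co_add, ih]

variable {B W : Type} [Group W] {M : CoxeterMatrix B} {cs : CoxeterSystem M W}

theorem coord (hHRL : Stmt_HRL) (K : KL cs) (i : B) (z : W) (x : K.H) :
    K.std.repr (K.std (cs.simple i) * x) z = K.std.repr x (cs.simple i * z) +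
      (if cs.length (cs.simple i * z) < cs.length z then (T (-1) - T 1 : A) * K.std.repr x z
        else 0) := by
  classical
  have hss : ∀ y : W, cs.simple i * (cs.simple i * y) = y := fun y => by
    rw [← mul_assoc, cs.simple_mul_simple_self, one_mul]
  -- both sides are linear
  let f1 : K.H →ₗ[A] A := (Finsupp.lapply z).comp
    (K.std.repr.toLinearMap.comp (LinearMap.mulLeft A (K.std (cs.simple i))))
  let f2 : K.H →ₗ[A] A := (Finsupp.lapply (cs.simple i * z)).comp K.std.repr.toLinearMap +
    (if cs.length (cs.simple i * z) < cs.length z then (T (-1) - T 1 : A) else 0) •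
      ((Finsupp.lapply z).comp K.std.repr.toLinearMap)
  have h12 : f1 = f2 := by
    apply K.std.ext
    intro y
    show K.std.repr (K.std (cs.simple i) * K.std y) z = K.std.repr (K.std y) (cs.simple i * z) +
      (if cs.length (cs.simple i * z) < cs.length z then (T (-1) - T 1 : A) else 0) *
        K.std.repr (K.std y) z
    have hiff : y = cs.simple i * z ↔ cs.simple i * y = z := by
      constructor
      · intro h; rw [h, hss]
      · intro h; rw [← h, hss]
    rw [Module.Basis.repr_self, Finsupp.single_apply, Finsupp.single_apply]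
    rcases lt_or_gt_of_ne (cs.length_simple_mul_ne y i) with h | h
    · rw [(hHRL K).1 i y h, map_add, map_smul, Finsupp.add_apply, Finsupp.smul_apply,
        Module.Basis.repr_self, Module.Basis.repr_self, Finsupp.single_apply, Finsupp.single_apply,
        smul_eq_mul]
      congr 1
      · exact if_congr hiff.symm rfl rfl
      · by_cases hyz : y = z
        · subst hyz
          rw [if_pos rfl, if_pos h]
        · rw [if_neg hyz, mul_zero, mul_zero]
    · have h1 : cs.length (cs.simple i * y) = cs.length y + 1 := by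
        rcases cs.length_simple_mul y i with h2 | h2 <;> omega
      rw [K.std_mul i y h1, Module.Basis.repr_self, Finsupp.single_apply]
      have h3 : (if cs.length (cs.simple i * z) < cs.length z then (T (-1) - T 1 : A) else 0) *
          (if y = z then (1 : A) else 0) = 0 := by
        by_cases hyz : y = z
        · subst hyz
          rw [if_neg (by omega), zero_mul]
        · rw [if_neg hyz, mul_zero]
      rw [h3, add_zero]
      exact if_congr hiff.symm rfl rfl
  have h := LinearMap.congr_fun h12 x
  have h' : K.std.repr (K.std (cs.simple i) * x) z = K.std.repr x (cs.simple i * z) +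
      (if cs.length (cs.simple i * z) < cs.length z then (T (-1) - T 1 : A) else 0) *
        K.std.repr x z := h
  rw [h', ite_mul, zero_mul]

theorem coord2 (hCSI : Stmt_CSI) (hHRL : Stmt_HRL) (K : KL cs) (i : B) (w z : W) :
    K.std.repr (K.kl (cs.simple i) * K.kl w) z = K.p (cs.simple i * z) w +
      (if cs.length (cs.simple i * z) < cs.length z then T (-1) * K.p z w else T 1 * K.p z w) := by
  rw [(hCSI K).2 i, add_mul, smul_mul_assoc, one_mul, map_add, map_smul, Finsupp.add_apply,
    Finsupp.smul_apply, coord hHRL, smul_eq_mul]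
  unfold KL.p
  split_ifs <;> ring

end Cup

theorem p_CUP (hCSI : Stmt_CSI) (hHRL : Stmt_HRL) (hTRI : Stmt_TRI) (hUNQ : Stmt_UNQ) :
    Stmt_CUP := by
  classical
  intro B W _ M cs K i w hw
  have hss : ∀ y : W, cs.simple i * (cs.simple i * y) = y := fun y => by
    rw [← mul_assoc, cs.simple_mul_simple_self, one_mul]
  have hpself : K.p w w = 1 := K.kl_self w
  have hp : ∀ y, y ≠ w → ∀ k : ℤ, k ≤ 0 → co (K.p y w) k = 0 := fun y hy => K.kl_lt y w hy
  have hp' : ∀ y, ∀ k : ℤ, k < 0 → co (K.p y w) k = 0 := by
    intro y k hk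
    by_cases hy : y = w
    · rw [hy, hpself, Cup.co_one, if_neg hk.ne]
    · exact hp y hy k hk.le
  have hpz : ∀ y z, y ≠ z → ∀ k : ℤ, k ≤ 0 → co (K.p y z) k = 0 := fun y z hy => K.kl_lt y z hy
  set X0 : K.H := K.kl (cs.simple i) * K.kl w with hX0
  have hc : ∀ z, K.std.repr X0 z = K.p (cs.simple i * z) w +
      (if cs.length (cs.simple i * z) < cs.length z then T (-1) * K.p z w else T 1 * K.p z w) :=
    fun z => Cup.coord2 hCSI hHRL K i w z
  have hneg : ∀ z, ∀ k : ℤ, k < 0 → co (K.std.repr X0 z) k = 0 := by
    intro z k hk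
    rw [hc, Cup.co_add, hp' _ k hk, zero_add]
    split_ifs with h
    · rw [Cup.co_T_mul]
      apply hp
      · rintro rfl; omega
      · omega
    · rw [Cup.co_T_mul]
      exact hp' _ _ (by omega)
  have hm0 : ∀ z, ¬ cs.length (cs.simple i * z) < cs.length z → co (K.std.repr X0 z) 0 = 0 := by
    intro z hz
    rw [hc, Cup.co_add, if_neg hz, Cup.co_T_mul, hp' z (0 - 1) (by norm_num), add_zero]
    apply hp _ _ _ le_rfl
    intro h
    apply hz
    have h1 : z = cs.simple i * w := by rw [← h, hss]
    rw [h, h1]
    exact hw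
  have hm1 : co (K.std.repr X0 (cs.simple i * w)) 0 = 1 := by
    rw [hc, hss, hpself, if_pos hw, hTRI K (cs.simple i * w) w (by
      intro h; rw [h] at hw; exact lt_irrefl _ hw) hw.le, mul_zero, add_zero, Cup.co_one,
      if_pos rfl]
  let S : Finset W := (K.std.repr X0).support
  let m : W → ℤ := fun z => co (K.std.repr X0 z) 0
  have hmS : ∀ z, z ∉ S → m z = 0 := by
    intro z hz
    have h1 : K.std.repr X0 z = 0 := Finsupp.notMem_support_iff.1 hz
    show co (K.std.repr X0 z) 0 = 0
    rw [h1, Cup.co_zero]
  have hbar : K.bar (X0 - ∑ z ∈ S, (C (m z) : A) • K.kl z) =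
      X0 - ∑ z ∈ S, (C (m z) : A) • K.kl z := by
    rw [map_sub, hX0, map_mul, K.bar_kl, K.bar_kl, map_sum]
    congr 1
    apply Finset.sum_congr rfl
    intro z _
    rw [K.bar_smul, K.bar_kl, LaurentPolynomial.invert_C]
  have hX : X0 - ∑ z ∈ S, (C (m z) : A) • K.kl z = 0 := by
    apply hUNQ K _ hbar
    intro y k hk
    rw [map_sub, Finsupp.sub_apply, Cup.co_sub, map_sum, Finsupp.finsetSum_apply, Cup.co_sum]
    have h1 : ∀ z, co (K.std.repr ((C (m z) : A) • K.kl z) y) k = m z * co (K.p y z) k := by
      intro z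
      rw [map_smul, Finsupp.smul_apply, smul_eq_mul, Cup.co_C_mul]
      rfl
    simp only [h1]
    rcases lt_or_eq_of_le hk with h | h
    · rw [hneg y k h, Finset.sum_eq_zero, sub_zero]
      intro z _
      by_cases hyz : y = z
      · subst hyz
        have : K.p y y = 1 := K.kl_self y
        rw [this, Cup.co_one, if_neg h.ne, mul_zero]
      · rw [hpz y z hyz k hk, mul_zero]
    · subst h
      have h2 : ∑ z ∈ S, m z * co (K.p y z) 0 = m y := by
        rw [Finset.sum_eq_single y]
        · have : K.p y y = 1 := K.kl_self y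
          rw [this, Cup.co_one, if_pos rfl, mul_one]
        · intro z _ hz
          rw [hpz y z hz.symm 0 le_rfl, mul_zero]
        · intro h
          rw [hmS y h, zero_mul]
      rw [h2]
      exact sub_self _
  have hX2 : X0 = ∑ z ∈ S, (C (m z) : A) • K.kl z := sub_eq_zero.1 hX
  have hh : ∀ z, K.h (cs.simple i) w z = C (m z) := by
    intro z
    show K.kl.repr X0 z = C (m z)
    rw [hX2, map_sum, Finsupp.finsetSum_apply]
    have h1 : ∀ y, K.kl.repr ((C (m y) : A) • K.kl y) z = if y = z then C (m y) else 0 := by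
      intro y
      rw [map_smul, Finsupp.smul_apply, Module.Basis.repr_self, Finsupp.single_apply, smul_eq_mul]
      split_ifs <;> simp
    simp only [h1]
    rw [Finset.sum_ite_eq']
    split_ifs with h
    · rfl
    · rw [hmS z h, map_zero]
  refine ⟨fun z => ⟨fun k hk => ?_, fun hz => ?_⟩, ?_⟩
  · rw [hh, Cup.co_C, if_neg hk]
  · by_contra hcon
    apply hz
    rw [hh]
    show C (co (K.std.repr X0 z) 0) = 0
    rw [hm0 z hcon, map_zero]
  · rw [hh]
    show C (co (K.std.repr X0 (cs.simple i * w)) 0) = 1
    rw [hm1, map_one]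

end Pool.Agent.Work.MP_a20dfd
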