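import Pool.Agent.Work.MP_a20dfd.Interface2

set_option autoImplicit false

namespace Pool.Agent.Work.MP_a20dfd

open LaurentPolynomial

/-- CUR: right versions of CUP and CDN -/
theorem p_CUR (hCUP : Stmt_CUP) (hCDN : Stmt_CDN) (hFLK : Stmt_FLK) : Stmt_CUR := by
  intro B W _ M cs K i w
  classical
  have hF := (hFLK K).2
  have hs : (cs.simple i)⁻¹ = cs.simple i := cs.inv_simple i
  have key : ∀ z, K.h w (cs.simple i) z = K.h (cs.simple i) w⁻¹ z⁻¹ := by
    intro z
    have h1 := hF w (cs.simple i) z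
    rw [hs] at h1
    exact h1.symm
  have hl1 : cs.length w⁻¹ = cs.length w := cs.length_inv w
  have hl2 : cs.length (cs.simple i * w⁻¹) = cs.length (w * cs.simple i) := by
    rw [← cs.length_inv, mul_inv_rev, inv_inv, hs]
  refine ⟨fun h => ?_, fun h => ?_⟩
  · have hC := hCUP K i w⁻¹ (by rw [hl1, hl2]; exact h)
    refine ⟨fun z k hk => ?_, ?_⟩
    · rw [key z]
      exact (hC.1 z⁻¹).1 k hk
    · rw [key, mul_inv_rev, hs]
      exact hC.2
  · have hC := hCDN K i w⁻¹ (by rw [hl1, hl2]; exact h)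
    refine K.kl.ext_elem fun z => ?_
    have h1 : K.kl.repr (K.kl w * K.kl (cs.simple i)) z = K.h w (cs.simple i) z := rfl
    have h2 : K.h (cs.simple i) w⁻¹ z⁻¹ =
        K.kl.repr (K.kl (cs.simple i) * K.kl w⁻¹) z⁻¹ := rfl
    rw [h1, key z, h2, hC, map_smul, map_smul, Finsupp.smul_apply, Finsupp.smul_apply,
      Module.Basis.repr_self, Module.Basis.repr_self, Finsupp.single_apply, Finsupp.single_apply]
    simp only [inv_inj]

end Pool.Agent.Work.MP_a20dfd
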