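import Pool.Agent.Work.MP_a20dfd.Interface2

set_option autoImplicit false

namespace Pool.Agent.Work.MP_a20dfd

theorem p_DEC (_hPAR : Stmt_PAR) (hADD : Stmt_ADD) : Stmt_DEC := by
  intro B W _ M cs I y
  -- an element of minimal length in the coset
  have hex : ∃ n : ℕ, ∃ x : W, x⁻¹ * y ∈ Par cs I ∧ cs.length x = n :=
    ⟨cs.length y, y, by simp [Subgroup.one_mem], rfl⟩
  classical
  obtain ⟨x, hx, hxl⟩ := Nat.find_spec hex
  have hmin : ∀ z : W, z⁻¹ * y ∈ Par cs I → cs.length x ≤ cs.length z := by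
    intro z hz
    rw [hxl]
    exact Nat.find_min' hex ⟨z, hz, rfl⟩
  have hxs : Short cs I x := by
    intro i hi
    have hs : cs.simple i ∈ Par cs I := Subgroup.subset_closure ⟨i, hi, rfl⟩
    have h1 : (x * cs.simple i)⁻¹ * y ∈ Par cs I := by
      rw [mul_inv_rev, mul_assoc]
      exact (Par cs I).mul_mem ((Par cs I).inv_mem hs) hx
    have h2 := hmin _ h1
    have h3 := cs.length_mul_simple_ne x i
    omega
  refine ⟨(x, x⁻¹ * y), ⟨hxs, hx, by simp⟩, ?_⟩
  rintro ⟨x', w'⟩ ⟨h1, h2, h3⟩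
  simp only at h1 h2 h3
  have hu : x⁻¹ * x' ∈ Par cs I := by
    have : x⁻¹ * x' = (x⁻¹ * y) * w'⁻¹ := by rw [← h3]; group
    rw [this]
    exact (Par cs I).mul_mem hx ((Par cs I).inv_mem h2)
  have e1 := hADD cs I x (x⁻¹ * x') hxs hu
  have e2 := hADD cs I x' (x⁻¹ * x')⁻¹ h1 ((Par cs I).inv_mem hu)
  rw [show x * (x⁻¹ * x') = x' by group] at e1
  rw [show x' * (x⁻¹ * x')⁻¹ = x by group] at e2
  have e3 : cs.length (x⁻¹ * x') = 0 := by omega
  rw [cs.length_eq_zero_iff] at e3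
  have e4 : x' = x := by
    have := congrArg (fun g => x * g) e3
    simpa using this
  subst e4
  rw [Prod.mk.injEq]
  exact ⟨rfl, by rw [← h3]; group⟩

end Pool.Agent.Work.MP_a20dfd
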