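import Pool.Agent.Work.MP_a20dfd.Interface2

/-!
Block DGB of MP_a20dfd_al: bound for the exponents of the structure constants h_{d,w,u} with d
short and w in the parabolic subgroup (helper12).
-/

namespace Pool.Agent.Work.MP_a20dfd

open LaurentPolynomial

namespace Dgb

theorem co_T_add (j : ℤ) (h : co (T 1 + T (-1) : A) j ≠ 0) : -j ≤ 1 := by
  by_contra hj
  apply h
  have h1 : (1 : ℤ) ≠ j := by omega
  have h2 : (-1 : ℤ) ≠ j := by omega
  unfold co
  rw [show ((T 1 + T (-1) : A)).coeff j = (T 1 : A).coeff j + (T (-1) : A).coeff j from rfl]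
  rw [T_apply, T_apply, if_neg h1, if_neg h2, add_zero]

variable {B W : Type} [Group W] {M : CoxeterMatrix B} {cs : CoxeterSystem M W}

theorem bound_simple (hCUR : Stmt_CUR) (K : KL cs) (t : W) (i : B) (u : W) (j : ℤ)
    (h : co (K.h t (cs.simple i) u) j ≠ 0) : -j ≤ 1 := by
  obtain ⟨hup, hdn⟩ := hCUR K i t
  rcases lt_or_ge (cs.length t) (cs.length (t * cs.simple i)) with hl | hl
  · have h0 : j = 0 := by
      by_contra hj
      exact h ((hup hl).1 u j hj)
    omega
  · have hl' : cs.length (t * cs.simple i) < cs.length t :=
      lt_of_le_of_ne hl (cs.length_mul_simple_ne t i)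
    have hk := hdn hl'
    have hh : K.h t (cs.simple i) u = (T 1 + T (-1) : A) * K.kl.repr (K.kl t) u := by
      unfold KL.h
      rw [hk, map_smul, Finsupp.smul_apply, smul_eq_mul]
    rw [hh, Module.Basis.repr_self] at h
    by_cases htu : t = u
    · subst htu
      rw [Finsupp.single_eq_same, mul_one] at h
      exact co_T_add j h
    · exfalso
      apply h
      rw [Finsupp.single_eq_of_ne (fun e => htu e.symm), mul_zero]
      rfl

end Dgb

theorem p_DGB (hLPF : Stmt_LPF) (hASC : Stmt_ASC) (hPAR : Stmt_PAR) (hCUR : Stmt_CUR) :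
    Stmt_DGB := by
  intro B W _ _ M cs K hP I d w u k hd hw hw1 hk
  obtain ⟨hmul, -, hfac, hcs, hsum, -, -⟩ := hLPF
  obtain ⟨ω, hred, hprod, hI⟩ := hPAR cs I w hw
  have key : ∀ ω : List B, ω ≠ [] → cs.IsReduced ω → (∀ i ∈ ω, i ∈ I) → ∀ (u : W) (k : ℤ),
      co (K.h d (cs.wordProd ω) u) k ≠ 0 → -k + 1 ≤ cs.length (cs.wordProd ω) := by
    intro ω
    induction ω using List.reverseRecOn with
    | nil => intro h; exact absurd rfl h
    | append_singleton ω i ih =>
      intro _ hr hmem u k hk
      have hprodw : cs.wordProd (ω ++ [i]) = cs.wordProd ω * cs.simple i := by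
        rw [cs.wordProd_append, cs.wordProd_singleton]
      have hiI : i ∈ I := hmem i (by simp)
      by_cases hω : ω = []
      · subst hω
        have hs : cs.wordProd ([] ++ [i]) = cs.simple i := by
          rw [List.nil_append, cs.wordProd_singleton]
        rw [hs] at hk ⊢
        have h1 : cs.length (cs.simple i) = 1 := cs.length_simple i
        have hup := ((hCUR K i d).1 (hd i hiI)).1 u
        have h0 : k = 0 := by
          by_contra hne
          exact hk (hup k hne)
        rw [h1]
        omega
      · have hr' : cs.IsReduced ω := by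
          have := hr.take ω.length
          simpa using this
        have hl : cs.length (cs.wordProd (ω ++ [i])) = cs.length (cs.wordProd ω) + 1 := by
          rw [hr.eq, hr'.eq, List.length_append]
          rfl
        have hlt : cs.length (cs.wordProd ω) < cs.length (cs.wordProd ω * cs.simple i) := by
          rw [← hprodw, hl]
          omega
        have hone := ((hCUR K i (cs.wordProd ω)).1 hlt).2
        have hasc := hASC K d (cs.wordProd ω) (cs.simple i) u
        have hnn : ∀ t ∈ (Finset.univ : Finset W),
            Nonneg (K.h (cs.wordProd ω) (cs.simple i) t * K.h d t u) := fun t _ =>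
          hmul _ _ (hP.2 _ _ _) (hP.2 _ _ _)
        have hle := (hsum Finset.univ
          (fun t => K.h (cs.wordProd ω) (cs.simple i) t * K.h d t u) hnn).2
          (cs.wordProd ω * cs.simple i) (Finset.mem_univ _) k
        simp only [hone, one_mul] at hle
        rw [← hasc] at hle
        have hpos : 0 < co (K.h d (cs.wordProd ω * cs.simple i) u) k := by
          rw [hprodw] at hk
          exact lt_of_le_of_ne (hP.2 _ _ _ k) (Ne.symm hk)
        have hne : co (∑ t : W, K.h d (cs.wordProd ω) t * K.h t (cs.simple i) u) k ≠ 0 := by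
          intro h0
          rw [h0] at hle
          omega
        have hex : ∃ t : W, co (K.h d (cs.wordProd ω) t * K.h t (cs.simple i) u) k ≠ 0 := by
          by_contra hall
          push Not at hall
          apply hne
          have hc : co (∑ t : W, K.h d (cs.wordProd ω) t * K.h t (cs.simple i) u) k =
              ∑ t : W, co (K.h d (cs.wordProd ω) t * K.h t (cs.simple i) u) k :=
            hcs _ _ _
          rw [hc]
          exact Finset.sum_eq_zero fun t _ => hall t
        obtain ⟨t, ht⟩ := hex
        obtain ⟨i1, i2, h12, h1, h2⟩ := hfac _ _ _ ht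
        have hb1 := ih hω hr' (fun j hj => hmem j (by simp [hj])) t i1 h1
        have hb2 := Dgb.bound_simple hCUR K t i u i2 h2
        rw [hl]
        push_cast
        omega
  have hne : ω ≠ [] := by
    rintro rfl
    apply hw1
    rw [← hprod, cs.wordProd_nil]
  rw [← hprod] at hk ⊢
  exact key ω hne hred hI u k hk

end Pool.Agent.Work.MP_a20dfd
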