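import Pool.Agent.Work.MP_a20dfd.Interface2

namespace Pool.Agent.Work.MP_a20dfd

open LaurentPolynomial

namespace Dscx

theorem mul_repr {B W : Type} [Group W] {M : CoxeterMatrix B} {cs : CoxeterSystem M W}
    (K : KL cs) (s z : W) (X : K.H) : K.kl.repr (K.kl s * X) z =
      ∑ u ∈ (K.kl.repr X).support, K.kl.repr X u * K.h s u z := by
  have h : K.kl s * X = ∑ u ∈ (K.kl.repr X).support, K.kl.repr X u • (K.kl s * K.kl u) := by
    conv_lhs => rw [← K.kl.linearCombination_repr X, Finsupp.linearCombination_apply, Finsupp.sum]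
    rw [Finset.mul_sum]
    apply Finset.sum_congr rfl
    intro u _
    rw [mul_smul_comm]
  rw [h, map_sum, Finsupp.finsetSum_apply]
  apply Finset.sum_congr rfl
  intro u _
  rw [map_smul, Finsupp.smul_apply, smul_eq_mul]
  rfl

theorem v_ne : (T 1 + T (-1) : A) ≠ 0 := by
  intro h
  have h1 : co (T 1 + T (-1) : A) 1 = 0 := by
    rw [h]
    simp [co]
  unfold co at h1
  rw [AddMonoidAlgebra.coeff_add, Finsupp.add_apply, T_apply, T_apply] at h1
  norm_num at h1

theorem left (hCUP : Stmt_CUP) (hCDN : Stmt_CDN) {B W : Type} [Group W] {M : CoxeterMatrix B}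
    {cs : CoxeterSystem M W} (K : KL cs) (x y z : W) (hh : K.h x y z ≠ 0) (i : B)
    (hx : cs.length (cs.simple i * x) < cs.length x) :
    cs.length (cs.simple i * z) < cs.length z := by
  by_contra hz
  apply hh
  have h1 := mul_repr K (cs.simple i) z (K.kl x * K.kl y)
  rw [← mul_assoc, hCDN K i x hx, smul_mul_assoc, map_smul, Finsupp.smul_apply, smul_eq_mul] at h1
  have h2 : ∑ u ∈ (K.kl.repr (K.kl x * K.kl y)).support,
      K.kl.repr (K.kl x * K.kl y) u * K.h (cs.simple i) u z = 0 := by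
    apply Finset.sum_eq_zero
    intro u _
    have h3 : K.h (cs.simple i) u z = 0 := by
      rcases lt_or_gt_of_ne (cs.length_simple_mul_ne u i) with h | h
      · unfold KL.h
        rw [hCDN K i u h, map_smul, Module.Basis.repr_self, Finsupp.smul_apply]
        by_cases huz : u = z
        · subst huz
          exact absurd h hz
        · rw [Finsupp.single_eq_of_ne (fun e => huz e.symm), smul_zero]
      · by_contra hne
        exact hz (((hCUP K i u h).1 z).2 hne)
    rw [h3, mul_zero]
  rw [h2] at h1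
  exact (mul_eq_zero.1 h1).resolve_left v_ne

end Dscx

theorem p_DSC (hCUP : Stmt_CUP) (hCDN : Stmt_CDN) (hFLK : Stmt_FLK) : Stmt_DSC := by
  intro B W _ M cs K x y z hh
  refine ⟨fun i hi => Dscx.left hCUP hCDN K x y z hh i hi, fun i hi => ?_⟩
  have h1 : K.h y⁻¹ x⁻¹ z⁻¹ ≠ 0 := by
    rw [(hFLK K).2]
    exact hh
  have e : ∀ w : W, cs.length (cs.simple i * w⁻¹) = cs.length (w * cs.simple i) := by
    intro w
    rw [← cs.length_inv (w * cs.simple i), mul_inv_rev, cs.inv_simple]
  have h2 := Dscx.left hCUP hCDN K y⁻¹ x⁻¹ z⁻¹ h1 i (by rw [e, cs.length_inv]; exact hi)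
  rw [e, cs.length_inv] at h2
  exact h2

end Pool.Agent.Work.MP_a20dfd
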