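import Pool.Agent.Work.MP_a20dfd.Interface2

/-!
Block DUF: Duflo elements.
-/

namespace Pool.Agent.Work.MP_a20dfd

open LaurentPolynomial

theorem p_DUF (hPTH : Stmt_PTH) (hQDN : Stmt_QDN) (hCYC : Stmt_CYC) (hFLK : Stmt_FLK)
    (hSYM : Stmt_SYM) (hAIN : Stmt_AIN) : Stmt_DUF := by
  intro B W _ _ M cs K hP z
  obtain ⟨_, hex, huniq⟩ := hPTH K hP
  obtain ⟨hp, hh⟩ := hFLK K
  obtain ⟨d, hd, hd2⟩ := hex z⁻¹
  have hd3 : co (K.h z z⁻¹ d) (-(K.a d : ℤ)) ≠ 0 := by simpa only [inv_inv] using hd2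
  have haz : K.a d = K.a z := hQDN K hP z d hd hd3
  have hdinv : IsDuf K d⁻¹ := by
    unfold IsDuf at hd ⊢
    have h1 := hp 1 d
    rw [inv_one] at h1
    rw [h1, hAIN K d]
    exact hd
  have hh1 : K.h z z⁻¹ d⁻¹ = K.h z z⁻¹ d := by
    have := hh z z⁻¹ d
    rw [inv_inv] at this
    exact this
  have hd4 : co (K.h (z⁻¹)⁻¹ z⁻¹ d⁻¹) (-(K.a d⁻¹ : ℤ)) ≠ 0 := by
    rw [inv_inv, hh1, hAIN K d]
    exact hd3
  have hself : d⁻¹ = d := (huniq z⁻¹ d d⁻¹ hd hd2 hdinv hd4).symm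
  obtain ⟨d', hd', hd5⟩ := hex d⁻¹
  rw [inv_inv] at hd5
  have hdd : K.a d' = K.a d := hQDN K hP d d' hd' hd5
  obtain ⟨hza, hc⟩ := hCYC K hP z z⁻¹ d d' hd' hd3 hd5 hdd
  refine ⟨d, hd, hself, haz, ?_, ?_⟩
  · intro h0
    apply hd3
    rw [h0]
    simp [co]
  · rw [hh d z z, hSYM K d z z (K.a z : ℤ)] at hc
    exact hc

end Pool.Agent.Work.MP_a20dfd
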