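import Pool.Agent.Work.MP_a20dfd.Interface2

/-! Block EDG: the key step (helper33). -/

set_option autoImplicit false

namespace Pool.Agent.Work.MP_a20dfd

open LaurentPolynomial

namespace Edg

theorem exists_co {f : A} (hf : f ≠ 0) : ∃ k : ℤ, co f k ≠ 0 := by
  by_contra hcon
  push Not at hcon
  apply hf
  ext k
  exact hcon k

theorem co_zero (k : ℤ) : co (0 : A) k = 0 := rfl

end Edg

theorem p_EDG (hLPF : Stmt_LPF) (hASC : Stmt_ASC) (hCUP : Stmt_CUP) (hDSC : Stmt_DSC) :
    Stmt_EDG := by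
  classical
  intro B W _ _ M cs K hpos i u v z x k hu huv hk
  obtain ⟨L1, L2, L3, L4, L5, -, -⟩ := hLPF
  -- the factor z
  have hzxu : K.h z x u ≠ 0 := by
    intro h
    apply hk
    rw [h]
    exact Edg.co_zero k
  have hz : cs.length z < cs.length (cs.simple i * z) := by
    by_contra hcon
    have hne := cs.length_simple_mul_ne z i
    have h1 : cs.length (cs.simple i * z) < cs.length z := by omega
    have h2 := (hDSC K z x u hzxu).1 i h1
    omega
  -- the constant term of the edge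
  have h0 : co (K.h (cs.simple i) u v) 0 ≠ 0 := by
    obtain ⟨m, hm⟩ := Edg.exists_co huv
    by_cases hm0 : m = 0
    · rw [hm0] at hm
      exact hm
    · exact absurd (((hCUP K i u hu).1 v).1 m hm0) hm
  have h0pos : 0 < co (K.h (cs.simple i) u v) 0 :=
    lt_of_le_of_ne (hpos.2 _ _ _ 0) (Ne.symm h0)
  have hkpos : 0 < co (K.h z x u) k := lt_of_le_of_ne (hpos.2 _ _ _ k) (Ne.symm hk)
  -- the right side
  have hR : 0 < co (∑ w : W, K.h z x w * K.h (cs.simple i) w v) k := by
    have h5 := (L5 (Finset.univ : Finset W) (fun w => K.h z x w * K.h (cs.simple i) w v)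
      (fun w _ => L1 _ _ (hpos.2 _ _ _) (hpos.2 _ _ _))).2 u (Finset.mem_univ _) k
    have h6 := L2 (K.h z x u) (K.h (cs.simple i) u v) (hpos.2 _ _ _) (hpos.2 _ _ _) k 0
    rw [add_zero] at h6
    have h7 : 0 < co (K.h z x u) k * co (K.h (cs.simple i) u v) 0 := mul_pos hkpos h0pos
    exact lt_of_lt_of_le h7 (h6.trans h5)
  rw [← hASC K (cs.simple i) z x v, L4] at hR
  obtain ⟨t, _, ht⟩ := Finset.exists_ne_zero_of_sum_ne_zero (ne_of_gt hR)
  obtain ⟨a, b, hab, ha, hb⟩ := L3 _ _ _ ht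
  have ha0 : a = 0 := by
    by_contra hne
    exact ha (((hCUP K i z hz).1 t).1 a hne)
  rw [ha0, zero_add] at hab
  rw [hab] at hb
  exact ⟨t, hb⟩

end Pool.Agent.Work.MP_a20dfd
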