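import Pool.Agent.Work.MP_a20dfd.Interface

/-! MP_a20dfd_al, block EXC: the strong exchange condition. helper74. -/

set_option autoImplicit false

namespace Pool.Agent.Work.MP_a20dfd

namespace EXC

variable {B W : Type} [Group W] {M : CoxeterMatrix B} (cs : CoxeterSystem M W)

open Classical in
/-- the involution attached to a generator -/
noncomputable def gen (i : B) : Equiv.Perm (W × ZMod 2) where
  toFun q := (cs.simple i * q.1 * cs.simple i, q.2 + if q.1 = cs.simple i then 1 else 0)
  invFun q := (cs.simple i * q.1 * cs.simple i, q.2 + if q.1 = cs.simple i then 1 else 0)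
  left_inv q := by
    have h1 : (cs.simple i * q.1 * cs.simple i = cs.simple i) ↔ q.1 = cs.simple i := by
      constructor
      · intro h
        have h2 : cs.simple i * q.1 = 1 := by
          have := mul_right_cancel (h.trans (one_mul (cs.simple i)).symm)
          exact this
        exact ((eq_inv_of_mul_eq_one_right h2).trans (cs.inv_simple i))
      · intro h
        rw [h]
        simp
    have h3 : cs.simple i * (cs.simple i * q.1 * cs.simple i) * cs.simple i = q.1 := by
      simp [mul_assoc]
    refine Prod.ext h3 ?_
    show (q.2 + if q.1 = cs.simple i then 1 else 0) +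
      (if cs.simple i * q.1 * cs.simple i = cs.simple i then 1 else 0) = q.2
    simp only [h1]
    split_ifs
    · rw [add_assoc]
      have : (1 : ZMod 2) + 1 = 0 := by decide
      rw [this, add_zero]
    · simp
  right_inv q := by
    have h1 : (cs.simple i * q.1 * cs.simple i = cs.simple i) ↔ q.1 = cs.simple i := by
      constructor
      · intro h
        have h2 : cs.simple i * q.1 = 1 := by
          have := mul_right_cancel (h.trans (one_mul (cs.simple i)).symm)
          exact this
        exact ((eq_inv_of_mul_eq_one_right h2).trans (cs.inv_simple i))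
      · intro h
        rw [h]
        simp
    have h3 : cs.simple i * (cs.simple i * q.1 * cs.simple i) * cs.simple i = q.1 := by
      simp [mul_assoc]
    refine Prod.ext h3 ?_
    show (q.2 + if q.1 = cs.simple i then 1 else 0) +
      (if cs.simple i * q.1 * cs.simple i = cs.simple i then 1 else 0) = q.2
    simp only [h1]
    split_ifs
    · rw [add_assoc]
      have : (1 : ZMod 2) + 1 = 0 := by decide
      rw [this, add_zero]
    · simp

open Classical in
theorem gen_apply (i : B) (t : W) (e : ZMod 2) :
    gen cs i (t, e) = (cs.simple i * t * cs.simple i, e + if t = cs.simple i then 1 else 0) := rfl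

open Classical in
theorem pow_apply (i j : B) (k : ℕ) : ∀ (t : W) (e : ZMod 2),
    ((gen cs i * gen cs j) ^ k) (t, e) =
      ((cs.simple i * cs.simple j) ^ k * t * ((cs.simple i * cs.simple j) ^ k)⁻¹,
        e + ∑ l ∈ Finset.range (2 * k),
          if t = (cs.simple j * cs.simple i) ^ l * cs.simple j then 1 else 0) := by
  induction k with
  | zero => intro t e; simp
  | succ k ih =>
    intro t e
    rw [pow_succ, Equiv.Perm.mul_apply, Equiv.Perm.mul_apply, gen_apply, gen_apply, ih]
    set a := cs.simple i with ha
    set b := cs.simple j with hb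
    have haa : a * a = 1 := by rw [ha]; simp
    have hbb : b * b = 1 := by rw [hb]; simp
    have hai : a⁻¹ = a := by rw [ha]; simp
    have hbi : b⁻¹ = b := by rw [hb]; simp
    refine Prod.ext ?_ ?_
    · show (a * b) ^ k * (a * (b * t * b) * a) * ((a * b) ^ k)⁻¹ = _
      rw [pow_succ, mul_inv_rev, mul_inv_rev, hai, hbi]
      simp only [mul_assoc]
    · show e + (if t = b then 1 else 0) + (if b * t * b = a then 1 else 0) +
        ∑ l ∈ Finset.range (2 * k), (if a * (b * t * b) * a = (b * a) ^ l * b then 1 else 0) = _
      have h1 : (b * t * b = a) ↔ t = (b * a) ^ 1 * b := by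
        rw [pow_one]
        constructor
        · intro h
          rw [← h]
          have : b * (b * t * b) * b = (b * b) * t * (b * b) := by simp only [mul_assoc]
          rw [this, hbb, one_mul, mul_one]
        · intro h
          rw [h]
          have : b * (b * a * b) * b = (b * b) * a * (b * b) := by simp only [mul_assoc]
          rw [this, hbb, one_mul, mul_one]
      have h2 : ∀ l, (a * (b * t * b) * a = (b * a) ^ l * b) ↔ t = (b * a) ^ (l + 2) * b := by
        intro l
        have e1 : (b * a) ^ (l + 2) * b = b * a * ((b * a) ^ l * b) * (a * b) := by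
          have c1 : (b * a) ^ (l + 2) = (b * a) * (b * a) ^ l * (b * a) := by
            rw [← pow_succ', ← pow_succ]
          rw [c1]
          simp only [mul_assoc]
        rw [e1]
        constructor
        · intro h
          rw [← h]
          have : b * a * (a * (b * t * b) * a) * (a * b)
              = b * (a * a) * b * t * b * (a * a) * b := by simp only [mul_assoc]
          rw [this, haa]
          simp only [mul_one]
          rw [hbb, one_mul, mul_assoc, hbb, mul_one]
        · intro h
          rw [h]
          have : a * (b * (b * a * ((b * a) ^ l * b) * (a * b)) * b) * a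
              = a * (b * b) * a * ((b * a) ^ l * b) * a * (b * b) * a := by simp only [mul_assoc]
          rw [this, hbb]
          simp only [mul_one]
          rw [haa, one_mul, mul_assoc, haa, mul_one]
      simp only [h1, h2]
      have h3 : 2 * (k + 1) = 2 * k + 2 := by ring
      rw [h3, Finset.sum_range_succ' _ (2 * k + 1), Finset.sum_range_succ' _ (2 * k)]
      simp only [pow_zero, one_mul, zero_add]
      ring

open Classical in
theorem liftable : M.IsLiftable (gen cs) := by
  intro i j
  ext q : 1
  obtain ⟨t, e⟩ := q
  rw [pow_apply, cs.simple_mul_simple_pow, Equiv.Perm.one_apply]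
  refine Prod.ext (by simp) ?_
  show e + _ = e
  rw [two_mul, Finset.sum_range_add]
  have h : ∀ l, (cs.simple j * cs.simple i) ^ (M i j + l) = (cs.simple j * cs.simple i) ^ l := by
    intro l
    have h1 : (cs.simple j * cs.simple i) ^ M i j = 1 := by
      rw [M.symmetric i j]
      exact cs.simple_mul_simple_pow j i
    rw [pow_add, h1, one_mul]
  simp only [h]
  have h2 : ∀ x : ZMod 2, x + x = 0 := by decide
  rw [h2, add_zero]

/-- the action of the group -/
noncomputable def act : W →* Equiv.Perm (W × ZMod 2) := cs.lift ⟨gen cs, liftable cs⟩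

theorem act_simple (i : B) : act cs (cs.simple i) = gen cs i :=
  cs.lift_apply_simple (liftable cs) i

open Classical in
theorem act_word (ω : List B) : ∀ (t : W) (e : ZMod 2), act cs (cs.wordProd ω) (t, e) =
    (cs.wordProd ω * t * (cs.wordProd ω)⁻¹, e + ((cs.rightInvSeq ω).count t : ZMod 2)) := by
  induction ω with
  | nil => intro t e; simp
  | cons i ω ih =>
    intro t e
    rw [cs.wordProd_cons, map_mul, Equiv.Perm.mul_apply, ih, act_simple, gen_apply]
    refine Prod.ext ?_ ?_
    · show cs.simple i * (cs.wordProd ω * t * (cs.wordProd ω)⁻¹) * cs.simple i = _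
      rw [mul_inv_rev, cs.inv_simple]
      simp only [mul_assoc]
    · show e + ((cs.rightInvSeq ω).count t : ZMod 2) +
        (if cs.wordProd ω * t * (cs.wordProd ω)⁻¹ = cs.simple i then 1 else 0) = _
      have h1 : cs.rightInvSeq (i :: ω) =
          ((cs.wordProd ω)⁻¹ * cs.simple i * cs.wordProd ω) :: cs.rightInvSeq ω := rfl
      rw [h1, List.count_cons]
      have h2 : (cs.wordProd ω * t * (cs.wordProd ω)⁻¹ = cs.simple i) ↔
          ((cs.wordProd ω)⁻¹ * cs.simple i * cs.wordProd ω = t) := by
        constructor
        · intro h
          rw [← h]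
          group
        · intro h
          rw [← h]
          group
      simp only [h2, beq_iff_eq]
      push_cast
      split_ifs <;> simp [add_assoc]

end EXC

open EXC in
theorem p_EXC : Stmt_EXC := by
  classical
  intro B W _ M cs ω t ht hlt
  -- the action of `t` on `(t, 0)`
  have htt : act cs t (t, 0) = (t, 1) := by
    obtain ⟨u, i, rfl⟩ := ht
    obtain ⟨μ, -, rfl⟩ := cs.exists_isReduced u
    have h1 := act_word cs μ (cs.simple i)
    set N : ZMod 2 := ((cs.rightInvSeq μ).count (cs.simple i) : ZMod 2)
    have h2 : (act cs (cs.wordProd μ))⁻¹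
        (cs.wordProd μ * cs.simple i * (cs.wordProd μ)⁻¹, 0) = (cs.simple i, -N) := by
      have h9 : ∀ x : ZMod 2, -x + x = 0 := by decide
      rw [Equiv.Perm.inv_eq_iff_eq, h1, h9]
    rw [map_mul, map_mul, map_inv, Equiv.Perm.mul_apply, Equiv.Perm.mul_apply, h2, act_simple,
      gen_apply, cs.simple_mul_simple_self, one_mul, h1]
    refine Prod.ext rfl ?_
    show -N + (if cs.simple i = cs.simple i then 1 else 0) + N = 1
    rw [if_pos rfl]
    ring
  have hN : ((cs.rightInvSeq ω).count t : ZMod 2) ≠ 0 := by
    intro h0
    obtain ⟨ω', hred, hw'⟩ := cs.exists_isReduced (cs.wordProd ω * t)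
    have h1 : act cs (cs.wordProd ω * t) (t, 0) =
        (cs.wordProd ω * t * (cs.wordProd ω)⁻¹, 1) := by
      rw [map_mul, Equiv.Perm.mul_apply, htt, act_word, h0, add_zero]
    rw [hw', act_word] at h1
    have h2 : ((cs.rightInvSeq ω').count t : ZMod 2) = 1 := by
      have := congrArg Prod.snd h1
      simpa using this
    have h3 : t ∈ cs.rightInvSeq ω' := by
      by_contra hn
      rw [List.count_eq_zero_of_not_mem hn] at h2
      simp at h2
    have h4 := cs.isRightInversion_of_mem_rightInvSeq hred h3
    have h5 := h4.2
    rw [← hw', mul_assoc, ht.mul_self, mul_one] at h5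
    omega
  have hmem : t ∈ cs.rightInvSeq ω := by
    by_contra hn
    rw [List.count_eq_zero_of_not_mem hn] at hN
    simp at hN
  obtain ⟨j, hj, hjt⟩ := List.mem_iff_getElem.1 hmem
  have hj' : j < ω.length := by simpa using hj
  refine ⟨j, hj', ?_⟩
  rw [← cs.wordProd_mul_getD_rightInvSeq ω j, List.getD_eq_getElem _ _ hj, hjt]

end Pool.Agent.Work.MP_a20dfd
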