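import Pool.Agent.Work.MP_a20dfd.Interface2

/-!
Block FIN of MP_a20dfd_al (helper3).
-/

set_option autoImplicit false

namespace Pool.Agent.Work.MP_a20dfd

open LaurentPolynomial

namespace Fin3

theorem co_zero (k : ℤ) : co 0 k = 0 := rfl

theorem ne_zero_of_co {f : A} {k : ℤ} (h : co f k ≠ 0) : f ≠ 0 := by
  rintro rfl
  exact h (co_zero k)

theorem exists_co {f : A} (h : f ≠ 0) : ∃ k : ℤ, co f k ≠ 0 := by
  by_contra hcon
  push Not at hcon
  apply h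
  apply LaurentPolynomial.ext
  intro k
  exact hcon k

theorem nonneg_zero : Nonneg 0 := fun k => by rw [co_zero]

end Fin3

theorem p_FIN (hLPF : Stmt_LPF) (hCBX : Stmt_CBX) (hRED : Stmt_RED)
    (hDUF : Stmt_DUF) (hLLE : Stmt_LLE) (hNDF : Stmt_NDF) (hNZR : Stmt_NZR) (hNFO : Stmt_NFO)
    (hDSC : Stmt_DSC) (hPFO : Stmt_PFO) (hASC : Stmt_ASC)
    (hFLK : Stmt_FLK) : Stmt_FIN := by
  classical
  intro B W _ _ M cs K hP I w₀ wI hw₀ hwI hn hneg b hb
  obtain ⟨L1, L2, L3, L4, L5, -, -⟩ := hLPF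
  obtain ⟨-, hcS, hcu⟩ := hCBX cs I w₀ wI hw₀ hwI
  obtain ⟨u, hub, hlen⟩ := hcu b hb
  set c := w₀ * wI with hc
  obtain ⟨d, hd, hdi, had, h1, h2⟩ := hDUF K hP c⁻¹
  rw [inv_inv] at h1
  have hacd : K.a c ≤ K.a d := (hPFO K hP c⁻¹ c d h1).2
  have hcdc : K.h c d c ≠ 0 := by
    have e := (hFLK K).2 d c⁻¹ c⁻¹
    rw [inv_inv, hdi] at e
    rw [e]
    exact Fin3.ne_zero_of_co h2
  have hdS : Short cs I d := by
    intro i hi
    by_contra hlt
    have hne := cs.length_mul_simple_ne d i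
    have hlt' : cs.length (d * cs.simple i) < cs.length d := by omega
    have h3 := (hDSC K c d c hcdc).2 i hlt'
    have h4 := hcS i hi
    omega
  have h1S : Short cs I (1 : W) := by
    intro i _
    rw [one_mul, cs.length_one, cs.length_simple]
    exact Nat.one_pos
  have hubc : K.h u b c = 1 := by
    have := hRED K u b hlen
    rwa [hub] at this
  obtain ⟨t, ht⟩ : ∃ t : W, K.h t b d ≠ 0 := by
    obtain ⟨k, hk⟩ := Fin3.exists_co h1
    have hA := hASC K c⁻¹ u b d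
    have h5 := (L5 Finset.univ (fun w : W => K.h u b w * K.h c⁻¹ w d)
      (fun w _ => L1 _ _ (hP.2 _ _ _) (hP.2 _ _ _))).2 c (Finset.mem_univ _) k
    rw [hubc, one_mul] at h5
    have h6 : 0 < co (K.h c⁻¹ c d) k := lt_of_le_of_ne (hP.2 _ _ _ k) (Ne.symm hk)
    rw [← hA, L4] at h5
    have h7 : ∑ x : W, co (K.h c⁻¹ u x * K.h x b d) k ≠ 0 := by
      intro h0
      rw [h0] at h5
      omega
    obtain ⟨t, -, ht⟩ := Finset.exists_ne_zero_of_sum_ne_zero h7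
    refine ⟨t, fun h0 => ht ?_⟩
    rw [h0, mul_zero]
    exact Fin3.co_zero k
  obtain ⟨z', hz'⟩ := hLLE K hP t b d ht
  have hnd := hNDF K hP I d hdS hd
  have hnd' : 0 < co (n K I 1 d) (K.a d) :=
    lt_of_le_of_ne (hn 1 d h1S hdS _) (Ne.symm hnd)
  have hz'' : 0 < co (K.h z' b d) (K.a b) := lt_of_le_of_ne (hP.2 _ _ _ _) (Ne.symm hz')
  have hF := hNFO K I b z'⁻¹
  rw [inv_inv] at hF
  have hterm : ∀ u : W, Nonneg (K.h z' b u * n K I 1 u) := by
    intro u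
    refine L1 _ _ (hP.2 _ _ _) ?_
    by_cases hu : Short cs I u
    · exact hn 1 u h1S hu
    · rw [hNZR K I 1 u h1S hu]
      exact Fin3.nonneg_zero
  have h8 := (L5 Finset.univ (fun u : W => K.h z' b u * n K I 1 u) (fun u _ => hterm u)).2 d
    (Finset.mem_univ _) ((K.a b : ℤ) + (K.a d : ℤ))
  have h9 := L2 (K.h z' b d) (n K I 1 d) (hP.2 _ _ _) (hn 1 d h1S hdS) (K.a b) (K.a d)
  have h10 : 0 < co (K.h z' b d) (K.a b) * co (n K I 1 d) (K.a d) := mul_pos hz'' hnd'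
  rw [← hF, L4] at h8
  have h11 : ∑ x ∈ Finset.univ.filter (fun x : W => Short cs I x),
      co (n K I x b * n K I x z'⁻¹) ((K.a b : ℤ) + (K.a d : ℤ)) ≠ 0 := by
    intro h0
    have h12 : co (K.h z' b d * n K I 1 d) ((K.a b : ℤ) + (K.a d : ℤ)) ≤ 0 := by
      refine h8.trans (le_of_eq ?_)
      convert h0 using 2
    omega
  obtain ⟨x, hx, hxne⟩ := Finset.exists_ne_zero_of_sum_ne_zero h11
  have hxS : Short cs I x := (Finset.mem_filter.1 hx).2
  obtain ⟨i, j, hij, hi, hj⟩ := L3 _ _ _ hxne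
  have hzS : Short cs I z'⁻¹ := by
    by_contra hz
    apply hj
    rw [hNZR K I x z'⁻¹ hxS hz]
    exact Fin3.co_zero j
  have hi0 : 0 ≤ i := by
    by_contra hlt
    push Not at hlt
    exact hi (hneg x b hxS hb i hlt)
  have hj0 : 0 ≤ j := by
    by_contra hlt
    push Not at hlt
    exact hj (hneg x z'⁻¹ hxS hzS j hlt)
  refine ⟨x, z'⁻¹, i.toNat, j.toNat, hxS, hzS, ?_, ?_, ?_⟩
  · rw [Int.toNat_of_nonneg hi0]
    exact hi
  · rw [Int.toNat_of_nonneg hj0]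
    exact hj
  · omega

end Pool.Agent.Work.MP_a20dfd
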