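import Pool.Agent.Work.MP_a20dfd.Interface2

/-!
Block FLK: the anti-automorphism and the Kazhdan-Lusztig basis.
-/

namespace Pool.Agent.Work.MP_a20dfd

open LaurentPolynomial

namespace Flk

theorem co_sub (f g : A) (k : ℤ) : co (f - g) k = co f k - co g k := rfl

variable {B W : Type} [Group W] {M : CoxeterMatrix B} {cs : CoxeterSystem M W}

theorem coord_F (K : KL cs) (F : K.H →ₗ[A] K.H) (hF1 : ∀ w, F (K.std w) = K.std w⁻¹) (x : K.H)
    (y : W) : K.std.repr (F x) y = K.std.repr x y⁻¹ := by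
  classical
  have h : (K.std.coord y) ∘ₗ F = K.std.coord y⁻¹ := by
    refine K.std.ext fun w => ?_
    simp only [LinearMap.comp_apply, Module.Basis.coord_apply, hF1, Module.Basis.repr_self,
      Finsupp.single_apply]
    by_cases h : w⁻¹ = y
    · rw [if_pos h, if_pos (by rw [← h, inv_inv])]
    · rw [if_neg h, if_neg (fun h2 => h (by rw [h2, inv_inv]))]
  exact LinearMap.congr_fun h x

theorem F_kl (hUNQ : Stmt_UNQ) (K : KL cs) (F : K.H →ₗ[A] K.H)
    (hF1 : ∀ w, F (K.std w) = K.std w⁻¹) (hF3 : ∀ x, K.bar (F x) = F (K.bar x)) (w : W) :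
    F (K.kl w) = K.kl w⁻¹ := by
  refine sub_eq_zero.mp (hUNQ K _ ?_ ?_)
  · rw [map_sub, hF3, K.bar_kl, K.bar_kl]
  · intro y k hk
    have e : K.std.repr (F (K.kl w) - K.kl w⁻¹) y
        = K.std.repr (K.kl w) y⁻¹ - K.std.repr (K.kl w⁻¹) y := by
      rw [map_sub, Finsupp.sub_apply, coord_F K F hF1]
    rw [e, co_sub]
    by_cases hy : y = w⁻¹
    · subst hy
      rw [inv_inv, K.kl_self, K.kl_self, sub_self]
    · rw [K.kl_lt y⁻¹ w (fun h => hy (by rw [← h, inv_inv])) k hk, K.kl_lt y w⁻¹ hy k hk, sub_self]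

end Flk

theorem p_FLK (hFLT : Stmt_FLT) (hUNQ : Stmt_UNQ) : Stmt_FLK := by
  intro B W _ M cs K
  obtain ⟨F, hF1, hF2, hF3⟩ := hFLT K
  have hC := Flk.F_kl hUNQ K F hF1 hF3
  constructor
  · intro y w
    have h := Flk.coord_F K F hF1 (K.kl w) y⁻¹
    rw [hC, inv_inv] at h
    exact h
  · intro x y z
    have h : (K.kl.coord z⁻¹) ∘ₗ F = K.kl.coord z := by
      classical
      refine K.kl.ext fun w => ?_
      simp only [LinearMap.comp_apply, Module.Basis.coord_apply, hC, Module.Basis.repr_self,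
        Finsupp.single_apply, inv_inj]
    have h2 := LinearMap.congr_fun h (K.kl x * K.kl y)
    rw [LinearMap.comp_apply, hF2, hC, hC] at h2
    exact h2

end Pool.Agent.Work.MP_a20dfd
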