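import Pool.Agent.Work.MP_a20dfd.Interface2

/-!
Block FLT of MP_a20dfd_al: the anti-automorphism H_w -> H_{w^-1} (helper79).
-/

namespace Pool.Agent.Work.MP_a20dfd

open LaurentPolynomial

namespace Flt

variable {B W : Type} [Group W] {M : CoxeterMatrix B} {cs : CoxeterSystem M W}

/-- the element of the basis at `s w` -/
theorem std_simple_mul (K : KL cs) (hHRL : Stmt_HRL) (i : B) (w : W) :
    ∃ c : A, K.std (cs.simple i * w) =
      K.std (cs.simple i) * K.std w + c • K.std w := by
  obtain ⟨h1, -, -⟩ := hHRL K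
  rcases cs.length_simple_mul w i with h | h
  · refine ⟨0, ?_⟩
    rw [zero_smul, add_zero, K.std_mul i w h]
  · refine ⟨-(T (-1) - T 1 : A), ?_⟩
    rw [h1 i w (by omega), neg_smul]
    abel

/-- a property which is closed under the operations of the algebra and true for the generators
is true everywhere -/
theorem gen (K : KL cs) (hHRL : Stmt_HRL) (P : K.H → Prop) (h1 : P 1)
    (hs : ∀ i, P (K.std (cs.simple i))) (hmul : ∀ x y, P x → P y → P (x * y))
    (hadd : ∀ x y, P x → P y → P (x + y)) (hsmul : ∀ (c : A) (x), P x → P (c • x)) (x : K.H) :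
    P x := by
  have hw : ∀ w, P (K.std w) := by
    intro w
    refine cs.simple_induction_left (p := fun w => P (K.std w)) w ?_ ?_
    · show P (K.std 1)
      rw [K.std_one]
      exact h1
    · intro w i hw
      obtain ⟨c, hc⟩ := std_simple_mul K hHRL i w
      show P (K.std (cs.simple i * w))
      rw [hc]
      exact hadd _ _ (hmul _ _ (hs i) hw) (hsmul _ _ hw)
  have hx : x ∈ Submodule.span A (Set.range K.std) := K.std.mem_span x
  induction hx using Submodule.span_induction with
  | mem x h =>
    obtain ⟨w, rfl⟩ := h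
    exact hw w
  | zero =>
    have h2 := hsmul 0 1 h1
    rwa [zero_smul] at h2
  | add x y _ _ hx hy => exact hadd _ _ hx hy
  | smul a x _ hx => exact hsmul _ _ hx

end Flt

open Flt in
theorem p_FLT (hHRL : Stmt_HRL) : Stmt_FLT := by
  intro B W _ M cs K
  obtain ⟨h1, h2, h3⟩ := hHRL K
  obtain ⟨F, hF⟩ : ∃ F : K.H →ₗ[A] K.H, ∀ w, F (K.std w) = K.std w⁻¹ :=
    ⟨K.std.constr A fun w => K.std w⁻¹, fun w => K.std.constr_basis A _ w⟩
  have hFs : ∀ i, F (K.std (cs.simple i)) = K.std (cs.simple i) := by
    intro i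
    rw [hF, cs.inv_simple]
  have hF1 : F 1 = 1 := by
    rw [← K.std_one, hF, inv_one]
  have c1 : ∀ (i : B) (w : W),
      F (K.std (cs.simple i) * K.std w) = F (K.std w) * K.std (cs.simple i) := by
    intro i w
    have hl : cs.length (w⁻¹ * cs.simple i) = cs.length (cs.simple i * w) := by
      rw [← cs.length_inv (cs.simple i * w), mul_inv_rev, cs.inv_simple]
    have hli : cs.length w⁻¹ = cs.length w := cs.length_inv w
    have hinv : (cs.simple i * w)⁻¹ = w⁻¹ * cs.simple i := by
      rw [mul_inv_rev, cs.inv_simple]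
    rcases cs.length_simple_mul w i with h | h
    · rw [K.std_mul i w h, hF, hF, hinv, h3 w⁻¹ (cs.simple i)]
      rw [hl, hli, cs.length_simple, h]
    · rw [h1 i w (by omega), map_add, map_smul, hF, hF, hinv, h2 i w⁻¹ (by omega)]
  have c2 : ∀ (i : B) (y : K.H), F (K.std (cs.simple i) * y) = F y * K.std (cs.simple i) := by
    intro i y
    have hy : y ∈ Submodule.span A (Set.range K.std) := K.std.mem_span y
    induction hy using Submodule.span_induction with
    | mem y h =>
      obtain ⟨w, rfl⟩ := h
      exact c1 i w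
    | zero => simp
    | add x y _ _ hx hy => rw [mul_add, map_add, map_add, add_mul, hx, hy]
    | smul a x _ hx => rw [mul_smul_comm, map_smul, map_smul, smul_mul_assoc, hx]
  have c3 : ∀ x y : K.H, F (x * y) = F y * F x := by
    intro x
    refine gen K hHRL (fun x => ∀ y, F (x * y) = F y * F x) ?_ ?_ ?_ ?_ ?_ x
    · intro y
      rw [one_mul, hF1, mul_one]
    · intro i y
      rw [c2, hFs]
    · intro x x' hx hx' y
      rw [mul_assoc, hx, hx', hx x', mul_assoc]
    · intro x x' hx hx' y
      rw [add_mul, map_add, map_add, hx, hx', mul_add]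
    · intro c x hx y
      rw [smul_mul_assoc, map_smul, map_smul, hx, mul_smul_comm]
  have hbs : ∀ i, K.bar (K.std (cs.simple i)) =
      K.std (cs.simple i) - (T (-1) - T 1 : A) • (1 : K.H) := by
    intro i
    have e1 : K.std (cs.simple i) *
        (K.std (cs.simple i) - (T (-1) - T 1 : A) • (1 : K.H)) = 1 := by
      rw [mul_sub, K.std_sq, mul_smul_comm, mul_one, add_sub_cancel_right]
    calc K.bar (K.std (cs.simple i))
        = K.bar (K.std (cs.simple i)) * (K.std (cs.simple i) *
          (K.std (cs.simple i) - (T (-1) - T 1 : A) • (1 : K.H))) := by rw [e1, mul_one]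
      _ = _ := by rw [← mul_assoc, K.bar_std, one_mul]
  refine ⟨F, hF, c3, ?_⟩
  intro x
  refine gen K hHRL (fun x => K.bar (F x) = F (K.bar x)) ?_ ?_ ?_ ?_ ?_ x
  · rw [hF1, map_one, hF1]
  · intro i
    rw [hFs, hbs, map_sub, map_smul, hFs, hF1]
  · intro x y hx hy
    rw [c3, map_mul, map_mul, c3, hx, hy]
  · intro x y hx hy
    rw [map_add, map_add, map_add, map_add, hx, hy]
  · intro c x hx
    rw [map_smul, K.bar_smul, K.bar_smul, map_smul, hx]

end Pool.Agent.Work.MP_a20dfd
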