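import Pool.Agent.Work.MP_a20dfd.Interface2

/-! Block GEN: chains of left edges (helper57). -/

set_option autoImplicit false

namespace Pool.Agent.Work.MP_a20dfd

open LaurentPolynomial

namespace Gen

theorem exists_co {f : A} (hf : f ≠ 0) : ∃ k : ℤ, co f k ≠ 0 := by
  by_contra hcon
  push Not at hcon
  apply hf
  ext k
  exact hcon k

end Gen

theorem p_GEN (hLPF : Stmt_LPF) (hASC : Stmt_ASC) (hCUP : Stmt_CUP) (hCDN : Stmt_CDN)
    (hCSI : Stmt_CSI) : Stmt_GEN := by
  classical
  intro B W _ _ M cs K hpos
  have main : ∀ (m : ℕ) (x y z : W), cs.length x ≤ m → K.h x y z ≠ 0 →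
      Relation.ReflTransGen (LE K) y z := by
    intro m
    induction m with
    | zero =>
      intro x y z hx hh
      have hx1 : x = 1 := cs.length_eq_zero_iff.mp (by omega)
      subst hx1
      have : z = y := by
        by_contra hne
        apply hh
        unfold KL.h
        rw [(hCSI K).1, one_mul, Module.Basis.repr_self, Finsupp.single_apply, if_neg (Ne.symm hne)]
      rw [this]
    | succ m ih =>
      intro x y z hx hh
      by_cases hx1 : x = 1
      · exact ih x y z (by rw [hx1, cs.length_one]; omega) hh
      · obtain ⟨i, hi⟩ := cs.exists_leftDescent_of_ne_one hx1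
        unfold CoxeterSystem.IsLeftDescent at hi
        set x' := cs.simple i * x with hx'
        have hxx : cs.simple i * x' = x := by rw [hx', cs.simple_mul_simple_cancel_left]
        have hl : cs.length x' < cs.length (cs.simple i * x') := by rw [hxx]; exact hi
        have h1 : K.h (cs.simple i) x' x = 1 := by
          have := (hCUP K i x' hl).2
          rwa [hxx] at this
        have hasc := hASC K (cs.simple i) x' y z
        obtain ⟨k, hk⟩ := Gen.exists_co hh
        have hnn : ∀ w ∈ (Finset.univ : Finset W), Nonneg (K.h (cs.simple i) x' w * K.h w y z) :=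
          fun w _ => hLPF.1 _ _ (hpos.2 _ _ _) (hpos.2 _ _ _)
        have h5 := (hLPF.2.2.2.2.1 (Finset.univ : Finset W)
          (fun w => K.h (cs.simple i) x' w * K.h w y z) hnn).2 x (Finset.mem_univ _) k
        simp only [h1, one_mul] at h5
        have hne : (∑ w : W, K.h (cs.simple i) x' w * K.h w y z) ≠ 0 := by
          intro h0
          rw [h0] at h5
          have h6 : co (0 : A) k = 0 := rfl
          rw [h6] at h5
          have h7 := hpos.2 x y z k
          exact hk (le_antisymm h5 h7)
        rw [hasc] at hne
        obtain ⟨w, _, hw⟩ := Finset.exists_ne_zero_of_sum_ne_zero hne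
        have hw1 : K.h x' y w ≠ 0 := left_ne_zero_of_mul hw
        have hw2 : K.h (cs.simple i) w z ≠ 0 := right_ne_zero_of_mul hw
        have hch := ih x' y w (by omega) hw1
        by_cases hd : cs.length w < cs.length (cs.simple i * w)
        · exact hch.tail ⟨i, hd, hw2⟩
        · have hd' : cs.length (cs.simple i * w) < cs.length w := by
            have := cs.length_simple_mul_ne w i
            omega
          have hz : z = w := by
            by_contra hne'
            apply hw2
            unfold KL.h
            rw [hCDN K i w hd', map_smul, Module.Basis.repr_self, Finsupp.smul_apply,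
              Finsupp.single_apply, if_neg (Ne.symm hne'), smul_zero]
          rw [hz]
          exact hch
  intro x y z hh
  exact main (cs.length x) x y z le_rfl hh

end Pool.Agent.Work.MP_a20dfd
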