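import Pool.Agent.Work.MP_a20dfd.Interface2

/-! Block LLE. -/

set_option autoImplicit false

namespace Pool.Agent.Work.MP_a20dfd

open LaurentPolynomial

theorem p_LLE (hGEN : Stmt_GEN) (hEDG : Stmt_EDG) (hDUF : Stmt_DUF) : Stmt_LLE := by
  intro B W _ _ M cs K hP u x y huxy
  have hchain := hGEN K hP u x y huxy
  obtain ⟨d, -, -, -, -, hd⟩ := hDUF K hP x
  clear huxy
  induction hchain with
  | refl => exact ⟨d, hd⟩
  | @tail b c _ hbc ih =>
    obtain ⟨z, hz⟩ := ih
    obtain ⟨i, hi, hne⟩ := hbc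
    exact hEDG K hP i b c z x (K.a x) hi hne hz

end Pool.Agent.Work.MP_a20dfd
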