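import Pool.Agent.Work.MP_a20dfd.Interface2

namespace Pool.Agent.Work.MP_a20dfd

theorem p_LON (hEXC : Stmt_EXC) : Stmt_LON := by
  intro B W _ M cs w₀ hw x
  have key : ∀ ω : List B, cs.IsReduced ω →
      cs.length (w₀ * cs.wordProd ω) + ω.length = cs.length w₀ := by
    intro ω
    induction ω using List.reverseRecOn with
    | nil => intro _; simp
    | append_singleton ω i ih =>
      intro hred
      have hred' : cs.IsReduced ω := by
        have h := hred.take ω.length
        rwa [List.take_left] at h
      have hih := ih hred'
      have hlen : cs.length (cs.wordProd (ω ++ [i])) = ω.length + 1 := by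
        rw [hred.eq]; simp
      rw [cs.wordProd_append, cs.wordProd_singleton] at hlen ⊢
      rw [List.length_append, List.length_singleton, ← mul_assoc]
      rcases cs.length_mul_simple (w₀ * cs.wordProd ω) i with h | h
      · exfalso
        obtain ⟨α, hα, hα2⟩ := cs.exists_isReduced (w₀ * cs.wordProd ω)
        have hαl : α.length = cs.length (w₀ * cs.wordProd ω) := by rw [hα2, hα.eq]
        have ht : cs.IsReflection (cs.wordProd ω * cs.simple i * (cs.wordProd ω)⁻¹) :=
          ⟨cs.wordProd ω, i, rfl⟩
        have hprod : cs.wordProd (α ++ ω.reverse) = w₀ := by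
          rw [cs.wordProd_append, cs.wordProd_reverse, ← hα2]
          group
        have hlt : cs.length (w₀ * (cs.wordProd ω * cs.simple i * (cs.wordProd ω)⁻¹)) <
            cs.length w₀ := lt_of_le_of_ne (hw _) (ht.length_mul_left_ne w₀)
        obtain ⟨j, hj, hj2⟩ := hEXC cs (α ++ ω.reverse)
          (cs.wordProd ω * cs.simple i * (cs.wordProd ω)⁻¹) ht (by rw [hprod]; exact hlt)
        rw [hprod] at hj2
        by_cases hjα : j < α.length
        · rw [List.eraseIdx_append_of_lt_length hjα, cs.wordProd_append,
            cs.wordProd_reverse] at hj2
          have h1 : w₀ * cs.wordProd ω * cs.simple i = cs.wordProd (α.eraseIdx j) := by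
            have h2 := congrArg (fun y => y * cs.wordProd ω) hj2
            simp only [mul_assoc, inv_mul_cancel, mul_one] at h2
            rw [mul_assoc]; exact h2
          have h3 := cs.length_wordProd_le (α.eraseIdx j)
          rw [List.length_eraseIdx_of_lt hjα, ← h1] at h3
          omega
        · rw [List.eraseIdx_append_of_length_le (not_lt.1 hjα), cs.wordProd_append,
            ← hα2] at hj2
          have h1 : (cs.wordProd ω * cs.simple i)⁻¹ =
              cs.wordProd (ω.reverse.eraseIdx (j - α.length)) := by
            have h2 : w₀ * cs.wordProd ω * (cs.simple i * (cs.wordProd ω)⁻¹) =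
                w₀ * cs.wordProd ω * cs.wordProd (ω.reverse.eraseIdx (j - α.length)) := by
              rw [← hj2]; group
            have h3 := mul_left_cancel h2
            rw [mul_inv_rev, cs.inv_simple]; exact h3
          have h3 := cs.length_wordProd_le (ω.reverse.eraseIdx (j - α.length))
          have hj' : j - α.length < ω.reverse.length := by
            rw [List.length_append] at hj; omega
          rw [List.length_eraseIdx_of_lt hj', ← h1, cs.length_inv, hlen,
            List.length_reverse] at h3
          omega
      · omega
  obtain ⟨ω, hω, hx⟩ := cs.exists_isReduced x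
  rw [hx, hω.eq]
  exact key ω hω

end Pool.Agent.Work.MP_a20dfd
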