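import Pool.Agent.Work.MP_a20dfd.Interface

/-!
# Block LPF: Laurent polynomials with nonnegative coefficients
-/

set_option autoImplicit false

namespace Pool.Agent.Work.MP_a20dfd

namespace Lpf

theorem co_mul (f g : A) (k : ℤ) : co (f * g) k = ∑ i ∈ f.coeff.support, co f i * co g (k - i) := by
  unfold co
  rw [AddMonoidAlgebra.coeff_mul, Finsupp.sum]
  apply Finset.sum_congr rfl
  intro i _
  rw [Finsupp.sum, Finset.sum_eq_single (k - i)]
  · rw [if_pos (by ring)]
  · intro b _ hb
    rw [if_neg]
    intro h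
    apply hb
    omega
  · intro h
    rw [if_pos (by ring), Finsupp.notMem_support_iff.1 h, mul_zero]

theorem co_sum {ι : Type} (S : Finset ι) (f : ι → A) (k : ℤ) : co (∑ x ∈ S, f x) k = ∑ x ∈ S, co (f x) k := by
  unfold co
  rw [AddMonoidAlgebra.coeff_sum, Finsupp.finset_sum_apply]

theorem co_zero_of_notMem (f : A) {k : ℤ} (h : k ∉ f.coeff.support) : co f k = 0 :=
  Finsupp.notMem_support_iff.1 h

end Lpf

theorem p_LPF : Stmt_LPF := by
  refine ⟨?_, ?_, ?_, ?_, ?_, ?_, ?_⟩
  · intro f g hf hg k
    rw [Lpf.co_mul]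
    exact Finset.sum_nonneg fun i _ => mul_nonneg (hf i) (hg _)
  · intro f g hf hg i j
    rw [Lpf.co_mul]
    by_cases h : i ∈ f.coeff.support
    · have h1 := Finset.single_le_sum (f := fun t => co f t * co g (i + j - t))
        (fun t _ => mul_nonneg (hf t) (hg _)) h
      have h2 : i + j - i = j := by ring
      simp only [h2] at h1
      exact h1
    · rw [Lpf.co_zero_of_notMem f h, zero_mul]
      exact Finset.sum_nonneg fun t _ => mul_nonneg (hf t) (hg _)
  · intro f g k h
    rw [Lpf.co_mul] at h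
    obtain ⟨i, _, hi⟩ := Finset.exists_ne_zero_of_sum_ne_zero h
    exact ⟨i, k - i, by ring, left_ne_zero_of_mul hi, right_ne_zero_of_mul hi⟩
  · intro ι S f k
    exact Lpf.co_sum S f k
  · intro ι S f hf
    refine ⟨fun k => ?_, fun x hx k => ?_⟩
    · rw [Lpf.co_sum]
      exact Finset.sum_nonneg fun x hx => hf x hx k
    · rw [Lpf.co_sum]
      exact Finset.single_le_sum (f := fun x => co (f x) k) (fun y hy => hf y hy k) hx
  · intro f k h
    have h1 : k ∈ f.coeff.support := Finsupp.mem_support_iff.2 h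
    have h2 : Int.toNat k ≤ dg f := Finset.le_sup (f := Int.toNat) h1
    have h3 := Int.self_le_toNat k
    omega
  · intro f h
    have h1 : f.coeff.support.Nonempty := by
      rw [Finset.nonempty_iff_ne_empty]
      intro h2
      apply h
      unfold dg
      rw [h2, Finset.sup_empty]
      rfl
    obtain ⟨k, hk, hk2⟩ := Finset.exists_mem_eq_sup f.coeff.support h1 Int.toNat
    have h3 : dg f = Int.toNat k := hk2
    have h4 : ((dg f : ℕ) : ℤ) = k := by omega
    rw [h4]
    exact Finsupp.mem_support_iff.1 hk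

end Pool.Agent.Work.MP_a20dfd
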