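import Pool.Agent.Work.MP_a20dfd.Interface2

/-!
# NDF: the coefficient of a short Duflo element
-/

set_option autoImplicit false

namespace Pool.Agent.Work.MP_a20dfd

open LaurentPolynomial

namespace Ndf

theorem co_zero (k : ℤ) : co 0 k = 0 := rfl

theorem co_neg (f : A) (k : ℤ) : co (-f) k = -co f k := rfl

theorem co_T {m k : ℤ} (h : co (T m) k ≠ 0) : k = m := by
  classical
  by_contra hk
  apply h
  show (AddMonoidAlgebra.single m (1 : ℤ)).coeff k = 0
  rw [AddMonoidAlgebra.coeff_single]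
  exact Finsupp.single_eq_of_ne hk

theorem co_sgn {l : ℕ} {k : ℤ} (h : co ((-1 : A) ^ l) k ≠ 0) : k = 0 := by
  have h1 : co (1 : A) k ≠ 0 → k = 0 := by
    intro h
    rw [← T_zero] at h
    exact co_T h
  rcases neg_one_pow_eq_or A l with h2 | h2
  · rw [h2] at h
    exact h1 h
  · rw [h2, co_neg] at h
    exact h1 (fun h3 => h (by rw [h3, neg_zero]))

end Ndf

open Ndf in
theorem p_NDF (hLPF : Stmt_LPF) (hTRC : Stmt_TRC) (hPON : Stmt_PON) (hPFO : Stmt_PFO)
    (hDGB : Stmt_DGB) : Stmt_NDF := by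
  classical
  intro B W _ _ M cs K hP I d hd hduf
  obtain ⟨L1, -, L3, L4, L5, -, -⟩ := hLPF
  -- the main step
  have key : ∀ w : W, w ∈ Par cs I → w ≠ 1 →
      co (K.p w d) ((K.a d : ℤ) - cs.length w) = 0 := by
    intro w hw hw1
    by_contra hne
    have hpos : 0 < co (K.p w d) ((K.a d : ℤ) - cs.length w) :=
      lt_of_le_of_ne (hP.1 w d _) (Ne.symm hne)
    obtain ⟨t1, t2, -, -⟩ := hTRC K d w⁻¹
    have hnn : ∀ x ∈ (Finset.univ : Finset W), Nonneg (K.p x d * K.p x⁻¹ w⁻¹) := by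
      intro x _
      exact L1 _ _ (hP.1 _ _) (hP.1 _ _)
    have h1 := (L5 Finset.univ (fun x : W => K.p x d * K.p x⁻¹ w⁻¹) hnn).2 w (Finset.mem_univ w)
      ((K.a d : ℤ) - cs.length w)
    have h2 : K.p w⁻¹ w⁻¹ = 1 := K.kl_self w⁻¹
    simp only [h2, mul_one] at h1
    rw [← t1, t2, L4] at h1
    have h3 : ∑ u : W, co (K.h d w⁻¹ u * K.p 1 u) ((K.a d : ℤ) - cs.length w) ≠ 0 := by
      intro h
      rw [h] at h1
      linarith
    obtain ⟨u, _, hu⟩ := Finset.exists_ne_zero_of_sum_ne_zero h3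
    obtain ⟨i, j, hij, hi, hj⟩ := L3 _ _ _ hu
    have h4 := hPON K hP u j hj
    have h5 : K.h d w⁻¹ u ≠ 0 := by
      intro h
      rw [h] at hi
      exact hi (co_zero i)
    have h6 := (hPFO K hP d w⁻¹ u h5).1
    have h7 := hDGB K hP I d w⁻¹ u i hd (inv_mem hw) (inv_ne_one.2 hw1) hi
    rw [cs.length_inv] at h7
    have h8 : (K.a d : ℤ) ≤ K.a u := by exact_mod_cast h6
    linarith
  unfold n
  rw [L4]
  rw [Finset.sum_eq_single (1 : W)]
  · simp only [CoxeterSystem.length_one, pow_zero, Nat.cast_zero, T_zero, one_mul, mul_one]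
    exact hduf
  · intro w hw hw1
    rw [Finset.mem_filter] at hw
    by_contra hne
    obtain ⟨i, j, hij, hi, hj⟩ := L3 _ _ _ hne
    obtain ⟨i1, i2, hi12, hi1, hi2⟩ := L3 _ _ _ hi
    have e1 := co_sgn hi1
    have e2 := co_T hi2
    rw [one_mul] at hj
    apply hj
    have e3 : j = (K.a d : ℤ) - cs.length w := by linarith
    rw [e3]
    exact key w hw.2 hw1
  · intro h
    exact absurd (Finset.mem_filter.2 ⟨Finset.mem_univ _, one_mem _⟩) h

end Pool.Agent.Work.MP_a20dfd
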