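import Pool.Agent.Work.MP_a20dfd.Interface2

/-!
MP_a20dfd_al, block NFO.
-/

namespace Pool.Agent.Work.MP_a20dfd

open LaurentPolynomial

namespace Nfo

variable {B W : Type} [Group W] {M : CoxeterMatrix B} {cs : CoxeterSystem M W}

/-- the sign factor -/
noncomputable def sg (cs : CoxeterSystem M W) (w : W) : A :=
  (-1 : A) ^ cs.length w * T (cs.length w : ℤ)

theorem sg_one : sg cs 1 = 1 := by
  unfold sg
  rw [cs.length_one]
  simp

theorem sg_inv (w : W) : sg cs w⁻¹ = sg cs w := by
  unfold sg
  rw [cs.length_inv]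

theorem sg_succ {u w : W} (h : cs.length u = cs.length w + 1) : sg cs u = -(T 1 : A) * sg cs w := by
  unfold sg
  rw [h, pow_succ, Nat.cast_add, Nat.cast_one, T_add]
  ring

theorem T_inv : (T (-1) : A) * T 1 = 1 := by
  rw [← T_add]
  simp

variable [Fintype W] (K : KL cs)

/-- tau as a linear map -/
noncomputable def tauL : K.H →ₗ[A] A := (Finsupp.lapply 1).comp K.std.repr.toLinearMap

omit [Fintype W] in
theorem tauL_apply (x : K.H) : tauL K x = K.tau x := rfl

theorem kl_eq (u : W) : K.kl u = ∑ y : W, K.p y u • K.std y := by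
  unfold KL.p
  rw [Module.Basis.sum_repr]

theorem kl_mul_kl (x y : W) : K.kl x * K.kl y = ∑ u : W, K.h x y u • K.kl u := by
  unfold KL.h
  rw [Module.Basis.sum_repr]

theorem tau_kl_std (hTAU : Stmt_TAU) (u y : W) : tauL K (K.kl u * K.std y) = K.p y⁻¹ u := by
  classical
  rw [kl_eq K u, Finset.sum_mul, map_sum]
  rw [Finset.sum_eq_single y⁻¹]
  · rw [smul_mul_assoc, map_smul, tauL_apply, hTAU K y⁻¹ y, if_pos (inv_mul_cancel y), smul_eq_mul,
      mul_one]
  · intro a _ ha
    rw [smul_mul_assoc, map_smul, tauL_apply, hTAU K a y, if_neg, smul_zero]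
    intro h
    exact ha (eq_inv_of_mul_eq_one_left h)
  · intro h
    exact absurd (Finset.mem_univ _) h

open Classical in
/-- the parabolic subgroup as a finite set -/
noncomputable def PP (cs : CoxeterSystem M W) (I : Set B) : Finset W :=
  Finset.univ.filter (fun w : W => w ∈ Par cs I)

theorem mem_PP (I : Set B) (w : W) : w ∈ PP cs I ↔ w ∈ Par cs I := by
  classical
  unfold PP
  simp

/-- the alternating sum over the parabolic subgroup -/
noncomputable def E (I : Set B) : K.H := ∑ w ∈ PP cs I, sg cs w • K.std w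

theorem n_eq (I : Set B) (x y : W) : n K I x y = ∑ w ∈ PP cs I, sg cs w * K.p (x * w) y := rfl

omit [Fintype W] in
theorem simple_mem (I : Set B) {i : B} (hi : i ∈ I) : cs.simple i ∈ Par cs I :=
  Subgroup.subset_closure ⟨i, hi, rfl⟩

theorem std_simple_mul_E (hHRL : Stmt_HRL) (I : Set B) {i : B} (hi : i ∈ I) :
    K.std (cs.simple i) * E K I = (-(T 1 : A)) • E K I := by
  classical
  have h1 : ∀ w : W, K.std (cs.simple i) * K.std w = K.std (cs.simple i * w) +
      (if cs.length (cs.simple i * w) < cs.length w then (T (-1) - T 1 : A) else 0) • K.std w := by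
    intro w
    by_cases h : cs.length (cs.simple i * w) < cs.length w
    · rw [if_pos h]
      exact (hHRL K).1 i w h
    · rw [if_neg h, zero_smul, add_zero]
      apply K.std_mul
      rcases cs.length_simple_mul w i with h2 | h2
      · exact h2
      · omega
  have h2 : ∀ w : W, sg cs (cs.simple i * w) +
      (if cs.length (cs.simple i * w) < cs.length w then (T (-1) - T 1 : A) else 0) * sg cs w =
      -(T 1 : A) * sg cs w := by
    intro w
    by_cases h : cs.length (cs.simple i * w) < cs.length w
    · rw [if_pos h]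
      have h3 : cs.length w = cs.length (cs.simple i * w) + 1 := by
        rcases cs.length_simple_mul w i with h2 | h2
        · omega
        · omega
      rw [sg_succ h3]
      have h4 := T_inv
      linear_combination (-(sg cs (cs.simple i * w))) * h4
    · rw [if_neg h, zero_mul, add_zero]
      apply sg_succ
      rcases cs.length_simple_mul w i with h2 | h2
      · exact h2
      · omega
  have h3 : ∑ w ∈ PP cs I, sg cs w • K.std (cs.simple i * w) =
      ∑ w ∈ PP cs I, sg cs (cs.simple i * w) • K.std w := by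
    apply Finset.sum_equiv (Equiv.mulLeft (cs.simple i))
    · intro w
      rw [mem_PP, mem_PP]
      simp only [Equiv.coe_mulLeft]
      exact (Subgroup.mul_mem_cancel_left _ (simple_mem I hi)).symm
    · intro w _
      simp only [Equiv.coe_mulLeft]
      rw [cs.simple_mul_simple_cancel_left]
  unfold E
  rw [Finset.mul_sum, Finset.smul_sum]
  calc ∑ w ∈ PP cs I, K.std (cs.simple i) * sg cs w • K.std w
      = ∑ w ∈ PP cs I, (sg cs w • K.std (cs.simple i * w) +
        ((if cs.length (cs.simple i * w) < cs.length w then (T (-1) - T 1 : A) else 0) * sg cs w) •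
          K.std w) := by
        apply Finset.sum_congr rfl
        intro w _
        rw [mul_smul_comm, h1 w, smul_add, smul_smul, mul_comm (sg cs w)]
    _ = ∑ w ∈ PP cs I, (sg cs (cs.simple i * w) • K.std w +
        ((if cs.length (cs.simple i * w) < cs.length w then (T (-1) - T 1 : A) else 0) * sg cs w) •
          K.std w) := by
        rw [Finset.sum_add_distrib, h3, ← Finset.sum_add_distrib]
    _ = ∑ w ∈ PP cs I, (-(T 1 : A)) • sg cs w • K.std w := by
        apply Finset.sum_congr rfl
        intro w _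
        rw [← add_smul, h2 w, smul_smul]

theorem std_par_mul_E (hHRL : Stmt_HRL) (hDEC : Stmt_DEC) (I : Set B) :
    ∀ (m : ℕ) (w : W), cs.length w = m → w ∈ Par cs I →
      K.std w * E K I = sg cs w • E K I := by
  intro m
  induction m using Nat.strong_induction_on with
  | _ m ih =>
    intro w hm hw
    by_cases hs : Short cs I w
    · have h1 : Short cs I (1 : W) := by
        intro i _
        rw [one_mul, cs.length_one, cs.length_simple]
        exact one_pos
      obtain ⟨q, _, hq2⟩ := hDEC cs I w
      have e1 := hq2 (w, 1) ⟨hs, Subgroup.one_mem _, mul_one w⟩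
      have e2 := hq2 (1, w) ⟨h1, hw, one_mul w⟩
      have e3 : (w, (1 : W)) = (1, w) := e1.trans e2.symm
      have e4 : w = 1 := (Prod.ext_iff.1 e3).1
      rw [e4, K.std_one, one_mul, sg_one, one_smul]
    · unfold Short at hs
      push Not at hs
      obtain ⟨i, hi, hle⟩ := hs
      have hlt : cs.length (w * cs.simple i) + 1 = cs.length w := by
        rcases cs.length_mul_simple w i with h2 | h2
        · omega
        · exact h2
      have hw' : w * cs.simple i ∈ Par cs I := Subgroup.mul_mem _ hw (simple_mem I hi)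
      have e1 : w * cs.simple i * cs.simple i = w := cs.simple_mul_simple_cancel_right i
      have e2 : K.std (w * cs.simple i) * K.std (cs.simple i) = K.std w := by
        have h := (hHRL K).2.2 (w * cs.simple i) (cs.simple i) (by
          rw [e1, cs.length_simple]; omega)
        rw [e1] at h
        exact h
      rw [← e2, mul_assoc, std_simple_mul_E K hHRL I hi, mul_smul_comm,
        ih (cs.length (w * cs.simple i)) (by omega) (w * cs.simple i) rfl hw', smul_smul]
      congr 1
      exact (sg_succ (by omega)).symm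

theorem std_short_mul_E (hHRL : Stmt_HRL) (hADD : Stmt_ADD) (I : Set B) (x : W)
    (hx : Short cs I x) : K.std x * E K I = ∑ w ∈ PP cs I, sg cs w • K.std (x * w) := by
  unfold E
  rw [Finset.mul_sum]
  apply Finset.sum_congr rfl
  intro w hw
  rw [mem_PP] at hw
  rw [mul_smul_comm, (hHRL K).2.2 x w (hADD cs I x w hx hw)]

open Classical in
theorem sum_decomp (hDEC : Stmt_DEC) (I : Set B) {R : Type*} [AddCommMonoid R] (f : W → R) :
    ∑ y : W, f y = ∑ x ∈ Finset.univ.filter (fun x : W => Short cs I x), ∑ w ∈ PP cs I, f (x * w) := by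
  rw [← Finset.sum_product']
  symm
  apply Finset.sum_bij (fun (q : W × W) _ => q.1 * q.2)
  · intro q _
    exact Finset.mem_univ _
  · intro q hq r hr h
    rw [Finset.mem_product, Finset.mem_filter, mem_PP] at hq hr
    obtain ⟨e, _, he⟩ := hDEC cs I (q.1 * q.2)
    exact (he q ⟨hq.1.2, hq.2, rfl⟩).trans (he r ⟨hr.1.2, hr.2, h.symm⟩).symm
  · intro y _
    obtain ⟨e, he, _⟩ := hDEC cs I y
    refine ⟨e, ?_, he.2.2⟩
    rw [Finset.mem_product, Finset.mem_filter, mem_PP]
    exact ⟨⟨Finset.mem_univ _, he.1⟩, he.2.1⟩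
  · intro q _
    rfl

open Classical in
theorem kl_mul_E (hHRL : Stmt_HRL) (hDEC : Stmt_DEC) (hADD : Stmt_ADD) (I : Set B) (b : W) :
    K.kl b * E K I = ∑ x ∈ Finset.univ.filter (fun x : W => Short cs I x),
      n K I x b • (K.std x * E K I) := by
  rw [kl_eq K b, Finset.sum_mul, sum_decomp hDEC I]
  apply Finset.sum_congr rfl
  intro x hx
  rw [Finset.mem_filter] at hx
  rw [n_eq, Finset.sum_smul]
  apply Finset.sum_congr rfl
  intro w hw
  rw [mem_PP] at hw
  rw [smul_mul_assoc, ← (hHRL K).2.2 x w (hADD cs I x w hx.2 hw), mul_assoc,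
    std_par_mul_E K hHRL hDEC I _ w rfl hw, mul_smul_comm, smul_smul, mul_comm]

theorem tau_short (hHRL : Stmt_HRL) (hTAU : Stmt_TAU) (hADD : Stmt_ADD) (hFLK : Stmt_FLK)
    (I : Set B) (x z : W) (hx : Short cs I x) :
    tauL K (K.kl z⁻¹ * (K.std x * E K I)) = n K I x z := by
  rw [std_short_mul_E K hHRL hADD I x hx, Finset.mul_sum, map_sum, n_eq]
  apply Finset.sum_congr rfl
  intro w _
  rw [mul_smul_comm, map_smul, tau_kl_std K hTAU, (hFLK K).1, smul_eq_mul]

theorem tau_E (hTAU : Stmt_TAU) (I : Set B) (u : W) :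
    tauL K (K.kl u * E K I) = n K I 1 u := by
  unfold E
  rw [Finset.mul_sum, map_sum, n_eq]
  apply Finset.sum_equiv (Equiv.inv W)
  · intro w
    rw [mem_PP, mem_PP]
    simp only [Equiv.inv_apply]
    exact (Subgroup.inv_mem_iff _).symm
  · intro w _
    simp only [Equiv.inv_apply]
    rw [mul_smul_comm, map_smul, tau_kl_std K hTAU, sg_inv, one_mul, smul_eq_mul]

end Nfo

open Nfo in
open Classical in
theorem p_NFO (hHRL : Stmt_HRL) (hTAU : Stmt_TAU) (hDEC : Stmt_DEC) (hADD : Stmt_ADD)
    (hFLK : Stmt_FLK) : Stmt_NFO := by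
  intro B W _ _ M cs K I b z
  have h1 : tauL K (K.kl z⁻¹ * (K.kl b * E K I)) =
      ∑ x ∈ Finset.univ.filter (fun x : W => Short cs I x), n K I x b * n K I x z := by
    rw [kl_mul_E K hHRL hDEC hADD I b, Finset.mul_sum, map_sum]
    apply Finset.sum_congr rfl
    intro x hx
    rw [Finset.mem_filter] at hx
    rw [mul_smul_comm, map_smul, tau_short K hHRL hTAU hADD hFLK I x z hx.2, smul_eq_mul]
  have h2 : tauL K (K.kl z⁻¹ * (K.kl b * E K I)) = ∑ u : W, K.h z⁻¹ b u * n K I 1 u := by
    rw [← mul_assoc, kl_mul_kl, Finset.sum_mul, map_sum]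
    apply Finset.sum_congr rfl
    intro u _
    rw [smul_mul_assoc, map_smul, tau_E K hTAU I u, smul_eq_mul]
  rw [← h1, h2]

end Pool.Agent.Work.MP_a20dfd
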