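import Pool.Agent.Work.MP_a20dfd.Interface2

set_option autoImplicit false

namespace Pool.Agent.Work.MP_a20dfd

open LaurentPolynomial

namespace Nzr

/-- coordinates of `x H_s` at `y s` for `l(y) < l(y s)` -/
theorem coord (hHRL : Stmt_HRL) {B W : Type} [Group W] {M : CoxeterMatrix B}
    {cs : CoxeterSystem M W} (K : KL cs) (i : B) (y : W)
    (hy : cs.length y < cs.length (y * cs.simple i)) (x : K.H) :
    K.std.repr (x * K.std (cs.simple i)) (y * cs.simple i) =
      K.std.repr x y + (T (-1) - T 1 : A) * K.std.repr x (y * cs.simple i) := by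
  classical
  obtain ⟨-, h2, h3⟩ := hHRL K
  set φ : K.H →ₗ[A] A :=
    (Finsupp.lapply (y * cs.simple i)).comp
      (K.std.repr.toLinearMap.comp (LinearMap.mulRight A (K.std (cs.simple i)))) with hφ
  set ψ : K.H →ₗ[A] A :=
    (Finsupp.lapply y).comp K.std.repr.toLinearMap +
      (T (-1) - T 1 : A) • ((Finsupp.lapply (y * cs.simple i)).comp K.std.repr.toLinearMap) with hψ
  have hss : cs.simple i * cs.simple i = 1 := cs.simple_mul_simple_self i
  have hinj : ∀ w : W, w * cs.simple i = y * cs.simple i ↔ w = y := fun w =>
    ⟨fun h => mul_right_cancel h, fun h => by rw [h]⟩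
  have key : φ = ψ := by
    apply K.std.ext
    intro w
    have e1 : φ (K.std w) = K.std.repr (K.std w * K.std (cs.simple i)) (y * cs.simple i) := rfl
    have e2 : ψ (K.std w) = K.std.repr (K.std w) y +
        (T (-1) - T 1 : A) * K.std.repr (K.std w) (y * cs.simple i) := rfl
    rw [e1, e2]
    rcases lt_or_gt_of_ne (cs.length_mul_simple_ne w i) with h | h
    · rw [h2 i w h, map_add, map_smul, Finsupp.add_apply, Finsupp.smul_apply, smul_eq_mul]
      congr 1
      rw [K.std.repr_self, K.std.repr_self, Finsupp.single_apply, Finsupp.single_apply]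
      by_cases hw : w = y
      · rw [if_pos hw, if_pos ((hinj w).2 hw)]
      · rw [if_neg hw, if_neg (fun h' => hw ((hinj w).1 h'))]
    · have hl : cs.length (w * cs.simple i) = cs.length w + cs.length (cs.simple i) := by
        rw [cs.length_simple]
        rcases cs.length_mul_simple w i with h' | h'
        · exact h'
        · omega
      rw [h3 w (cs.simple i) hl, K.std.repr_self, K.std.repr_self, Finsupp.single_apply,
        Finsupp.single_apply, Finsupp.single_apply]
      have hne : w ≠ y * cs.simple i := by
        intro h'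
        rw [h', mul_assoc, hss, mul_one] at h
        omega
      rw [if_neg hne, mul_zero, add_zero]
      by_cases hw : w = y
      · rw [if_pos hw, if_pos ((hinj w).2 hw)]
      · rw [if_neg hw, if_neg (fun h' => hw ((hinj w).1 h'))]
  exact LinearMap.congr_fun key x

theorem step (hCUR : Stmt_CUR) (hCSI : Stmt_CSI) (hHRL : Stmt_HRL) {B W : Type} [Group W]
    {M : CoxeterMatrix B} {cs : CoxeterSystem M W} (K : KL cs) (i : B) (y u : W)
    (hu : cs.length (u * cs.simple i) < cs.length u)
    (hy : cs.length y < cs.length (y * cs.simple i)) :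
    K.p y u = T 1 * K.p (y * cs.simple i) u := by
  have h1 := (hCUR K i u).2 hu
  rw [(hCSI K).2 i, mul_add, mul_smul_comm, mul_one, add_smul, add_comm] at h1
  have h2 : K.kl u * K.std (cs.simple i) = (T (-1) : A) • K.kl u := add_left_cancel h1
  have h3 := coord hHRL K i y hy (K.kl u)
  rw [h2, map_smul, Finsupp.smul_apply, smul_eq_mul] at h3
  change T (-1) * K.p (y * cs.simple i) u = K.p y u + (T (-1) - T 1) * K.p (y * cs.simple i) u at h3
  linear_combination -h3

end Nzr

theorem p_NZR (hCUR : Stmt_CUR) (hCSI : Stmt_CSI) (hHRL : Stmt_HRL) (hADD : Stmt_ADD) :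
    Stmt_NZR := by
  classical
  intro B W _ _ M cs K I x u hx hu
  unfold Short at hu
  push Not at hu
  obtain ⟨i, hi, hlu⟩ := hu
  have hlu' : cs.length (u * cs.simple i) < cs.length u :=
    lt_of_le_of_ne hlu (cs.length_mul_simple_ne u i)
  have hss : cs.simple i * cs.simple i = 1 := cs.simple_mul_simple_self i
  have hsP : cs.simple i ∈ Par cs I := Subgroup.subset_closure ⟨i, hi, rfl⟩
  -- the pairing for l(w) < l(w s)
  have pair : ∀ w : W, w ∈ Par cs I → cs.length w < cs.length (w * cs.simple i) →
      ((-1 : A) ^ cs.length w * T (cs.length w : ℤ)) * K.p (x * w) u +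
        ((-1 : A) ^ cs.length (w * cs.simple i) * T (cs.length (w * cs.simple i) : ℤ)) *
          K.p (x * (w * cs.simple i)) u = 0 := by
    intro w hw hlt
    have hl : cs.length (w * cs.simple i) = cs.length w + 1 := by
      rcases cs.length_mul_simple w i with h' | h'
      · exact h'
      · omega
    have hws : w * cs.simple i ∈ Par cs I := Subgroup.mul_mem _ hw hsP
    have a1 := hADD cs I x w hx hw
    have a2 := hADD cs I x (w * cs.simple i) hx hws
    have hlt2 : cs.length (x * w) < cs.length (x * w * cs.simple i) := by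
      rw [mul_assoc, a1, a2]
      omega
    have h := Nzr.step hCUR hCSI hHRL K i (x * w) u hlu' hlt2
    rw [h, hl, mul_assoc x w, pow_succ]
    have hT : (T ((cs.length w + 1 : ℕ) : ℤ) : A) = T (cs.length w : ℤ) * T 1 := by
      rw [← T_add]
      push_cast
      rfl
    rw [hT]
    ring
  unfold n
  refine Finset.sum_involution (fun w _ => w * cs.simple i) ?_ ?_ ?_ ?_
  · intro w hw
    have hwP : w ∈ Par cs I := (Finset.mem_filter.1 hw).2
    rcases lt_or_gt_of_ne (cs.length_mul_simple_ne w i) with h | h
    · have hws : w * cs.simple i ∈ Par cs I := Subgroup.mul_mem _ hwP hsP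
      have e : w * cs.simple i * cs.simple i = w := by rw [mul_assoc, hss, mul_one]
      have := pair (w * cs.simple i) hws (by rw [e]; exact h)
      rw [e] at this
      rw [add_comm]
      exact this
    · exact pair w hwP h
  · intro w hw _ he
    have h1 : w * cs.simple i = w := he
    exact cs.length_mul_simple_ne w i (by rw [h1])
  · intro w hw
    have hwP : w ∈ Par cs I := (Finset.mem_filter.1 hw).2
    exact Finset.mem_filter.2 ⟨Finset.mem_univ _, Subgroup.mul_mem _ hwP hsP⟩
  · intro w hw
    change w * cs.simple i * cs.simple i = w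
    rw [mul_assoc, hss, mul_one]

end Pool.Agent.Work.MP_a20dfd
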