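import Pool.Agent.Work.MP_a20dfd.Interface2

/-!
MP_a20dfd_al, block PAR (helper9): elements of a standard parabolic subgroup have reduced words
with letters in I.
-/

namespace Pool.Agent.Work.MP_a20dfd

namespace Par'

variable {B W : Type} [Group W] {M : CoxeterMatrix B}

theorem step (hEXC : Stmt_EXC) (cs : CoxeterSystem M W) (I : Set B) (w : W)
    (h : ∃ ω : List B, cs.IsReduced ω ∧ cs.wordProd ω = w ∧ ∀ i ∈ ω, i ∈ I) (i : B) (hi : i ∈ I) :
    ∃ ω : List B, cs.IsReduced ω ∧ cs.wordProd ω = w * cs.simple i ∧ ∀ i ∈ ω, i ∈ I := by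
  obtain ⟨ω, hr, hw, hI⟩ := h
  rcases cs.length_mul_simple w i with h1 | h1
  · refine ⟨ω ++ [i], ?_, ?_, ?_⟩
    · show cs.length (cs.wordProd (ω ++ [i])) = (ω ++ [i]).length
      rw [cs.wordProd_append, cs.wordProd_singleton, hw, h1, List.length_append,
        List.length_singleton, ← hw, hr.eq]
    · rw [cs.wordProd_append, cs.wordProd_singleton, hw]
    · intro j hj
      rw [List.mem_append, List.mem_singleton] at hj
      rcases hj with hj | rfl
      · exact hI j hj
      · exact hi
  · have h2 : cs.length (cs.wordProd ω * cs.simple i) < cs.length (cs.wordProd ω) := by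
      rw [hw]
      omega
    obtain ⟨j, hj, h3⟩ := hEXC cs ω (cs.simple i) (cs.isReflection_simple i) h2
    refine ⟨ω.eraseIdx j, ?_, ?_, ?_⟩
    · show cs.length (cs.wordProd (ω.eraseIdx j)) = (ω.eraseIdx j).length
      rw [← h3, hw, List.length_eraseIdx_of_lt hj]
      have h4 : cs.length (cs.wordProd ω) = ω.length := hr
      rw [hw] at h4
      omega
    · rw [← h3, hw]
    · intro k hk
      exact hI k (List.mem_of_mem_eraseIdx hk)

end Par'

theorem p_PAR (hEXC : Stmt_EXC) : Stmt_PAR := by
  intro B W _ M cs I w hw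
  unfold Par at hw
  induction hw using Subgroup.closure_induction_right with
  | one => exact ⟨[], by show cs.length (cs.wordProd []) = 0; simp, by simp, by simp⟩
  | mul_right x y hy hxy ih =>
    obtain ⟨i, hi, rfl⟩ := hxy
    exact Par'.step hEXC cs I x ih i hi
  | mul_inv_cancel x y hy hxy ih =>
    obtain ⟨i, hi, rfl⟩ := hxy
    rw [cs.inv_simple]
    exact Par'.step hEXC cs I x ih i hi

end Pool.Agent.Work.MP_a20dfd
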