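import Pool.Agent.Work.MP_a20dfd.Interface2

/-!
# MP_a20dfd_al, block PFO: Lusztig's P4
-/

set_option autoImplicit false

namespace Pool.Agent.Work.MP_a20dfd

theorem p_PFO (hEDG : Stmt_EDG) (hGEN : Stmt_GEN) (hAZF : Stmt_AZF) (hAIN : Stmt_AIN)
    (hFLK : Stmt_FLK) : Stmt_PFO := by
  intro B W _ _ M cs K hP
  have edge : ∀ u v : W, LE K u v → K.a u ≤ K.a v := by
    rintro u v ⟨i, h1, h2⟩
    obtain ⟨z, x, h3⟩ := (hAZF K).2 u
    obtain ⟨t, h4⟩ := hEDG K hP i u v z x _ h1 h2 h3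
    have h5 := ((hAZF K).1 t x v _ h4).1
    exact_mod_cast h5
  have chain : ∀ y z : W, Relation.ReflTransGen (LE K) y z → K.a y ≤ K.a z := by
    intro y z h
    induction h with
    | refl => exact le_rfl
    | tail _ h ih => exact ih.trans (edge _ _ h)
  have hy : ∀ x y z : W, K.h x y z ≠ 0 → K.a y ≤ K.a z := fun x y z h =>
    chain y z (hGEN K hP x y z h)
  intro x y z h
  refine ⟨?_, hy x y z h⟩
  have h1 : K.h y⁻¹ x⁻¹ z⁻¹ ≠ 0 := by
    rw [(hFLK K).2 x y z]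
    exact h
  have h2 := hy _ _ _ h1
  rw [hAIN K x, hAIN K z] at h2
  exact h2

end Pool.Agent.Work.MP_a20dfd
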