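import Pool.Agent.Work.MP_a20dfd.Interface2

/-!
# MP_a20dfd, block PON: Lusztig's P1
-/

namespace Pool.Agent.Work.MP_a20dfd

open LaurentPolynomial

theorem p_PON (hLPF : Stmt_LPF) (hTRC : Stmt_TRC) (hSYM : Stmt_SYM) (hAZF : Stmt_AZF) :
    Stmt_PON := by
  classical
  intro B W _ _ M cs K hP z k hk
  obtain ⟨x, y, hxy⟩ := (hAZF K).2 z
  obtain ⟨l1, l2, -, -, l5, -, -⟩ := hLPF
  have hs : co (K.h x y z) (-(K.a z : ℤ)) ≠ 0 := by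
    rw [hSYM]
    exact hxy
  have hpos1 : 0 < co (K.h x y z) (-(K.a z : ℤ)) :=
    lt_of_le_of_ne (hP.2 x y z _) (Ne.symm hs)
  have hpos2 : 0 < co (K.p 1 z) k := lt_of_le_of_ne (hP.1 1 z k) (Ne.symm hk)
  have h6 := l2 _ _ (hP.2 x y z) (hP.1 1 z) (-(K.a z : ℤ)) k
  have h7 := (l5 Finset.univ (fun u : W => K.h x y u * K.p 1 u)
    (fun u _ => l1 _ _ (hP.2 x y u) (hP.1 1 u))).2 z (Finset.mem_univ z) (-(K.a z : ℤ) + k)
  obtain ⟨-, t2, t3, -⟩ := hTRC K x y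
  rw [← t2] at h7
  by_contra hlt
  have h8 := t3 (-(K.a z : ℤ) + k) (by omega)
  have h9 := mul_pos hpos1 hpos2
  omega

end Pool.Agent.Work.MP_a20dfd
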