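import Pool.Agent.Work.MP_a20dfd.Interface2

/-!
Block PTH of MP_a20dfd_al (helper18).
-/

namespace Pool.Agent.Work.MP_a20dfd

open LaurentPolynomial

namespace Pth

/-- The contribution of a Duflo element to the constant term is positive. -/
theorem term_pos (hLPF : Stmt_LPF) {B W : Type} [Group W] [Fintype W] {M : CoxeterMatrix B}
    {cs : CoxeterSystem M W} (K : KL cs) (hP : K.Pos) (x y d : W) (h1 : IsDuf K d)
    (h2 : co (K.h x y d) (-(K.a d : ℤ)) ≠ 0) : 1 ≤ co (K.h x y d * K.p 1 d) 0 := by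
  obtain ⟨hp, hh⟩ := hP
  have h3 : 0 < co (K.h x y d) (-(K.a d : ℤ)) := lt_of_le_of_ne (hh x y d _) (Ne.symm h2)
  have h4 : 0 < co (K.p 1 d) (K.a d : ℤ) := lt_of_le_of_ne (hp 1 d _) (Ne.symm h1)
  have h5 := hLPF.2.1 (K.h x y d) (K.p 1 d) (hh x y d) (hp 1 d) (-(K.a d : ℤ)) (K.a d : ℤ)
  rw [neg_add_cancel] at h5
  have h6 := mul_pos h3 h4
  linarith [Int.add_one_le_iff.mpr h6]

/-- All summands are nonnegative. -/
theorem term_nonneg (hLPF : Stmt_LPF) {B W : Type} [Group W] {M : CoxeterMatrix B}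
    {cs : CoxeterSystem M W} (K : KL cs) (hP : K.Pos) (x y u : W) :
    0 ≤ co (K.h x y u * K.p 1 u) 0 :=
  hLPF.1 (K.h x y u) (K.p 1 u) (hP.2 x y u) (hP.1 1 u) 0

/-- The constant term as a sum. -/
theorem const_sum (hLPF : Stmt_LPF) (hTRC : Stmt_TRC) {B W : Type} [Group W] [Fintype W]
    {M : CoxeterMatrix B} {cs : CoxeterSystem M W} (K : KL cs) (x y : W) :
    co (K.tau (K.kl x * K.kl y)) 0 = ∑ u : W, co (K.h x y u * K.p 1 u) 0 := by
  classical
  rw [(hTRC K x y).2.1]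
  exact hLPF.2.2.2.1 Finset.univ (fun u => K.h x y u * K.p 1 u) 0

end Pth

theorem p_PTH (hLPF : Stmt_LPF) (hTRC : Stmt_TRC) (hAZF : Stmt_AZF) (hPON : Stmt_PON) :
    Stmt_PTH := by
  classical
  intro B W _ _ M cs K hP
  refine ⟨?_, ?_, ?_⟩
  · intro x y d h1 h2
    by_contra hne
    have h3 := Pth.term_pos hLPF K hP x y d h1 h2
    have h4 := Pth.const_sum hLPF hTRC K x y
    have h5 := (hTRC K x y).2.2.2
    rw [if_neg hne] at h5
    rw [h5] at h4
    have h6 : co (K.h x y d * K.p 1 d) 0 ≤ ∑ u : W, co (K.h x y u * K.p 1 u) 0 :=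
      Finset.single_le_sum (f := fun u => co (K.h x y u * K.p 1 u) 0)
        (fun u _ => Pth.term_nonneg hLPF K hP x y u) (Finset.mem_univ d)
    linarith
  · intro y
    have h4 := Pth.const_sum hLPF hTRC K y⁻¹ y
    have h5 := (hTRC K y⁻¹ y).2.2.2
    rw [if_pos (inv_mul_cancel y)] at h5
    rw [h5] at h4
    have h6 : ∃ u ∈ (Finset.univ : Finset W), co (K.h y⁻¹ y u * K.p 1 u) 0 ≠ 0 := by
      apply Finset.exists_ne_zero_of_sum_ne_zero
      rw [← h4]
      exact one_ne_zero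
    obtain ⟨u, _, hu⟩ := h6
    obtain ⟨i, j, hij, hi, hj⟩ := hLPF.2.2.1 _ _ _ hu
    have h7 := hPON K hP u j hj
    have h8 := ((hAZF K).1 y⁻¹ y u i hi).2
    have hj' : j = (K.a u : ℤ) := by linarith
    have hi' : i = -(K.a u : ℤ) := by linarith
    subst hj'
    subst hi'
    exact ⟨u, hj, hi⟩
  · intro y d d' h1 h2 h1' h2'
    by_contra hne
    have h4 := Pth.const_sum hLPF hTRC K y⁻¹ y
    have h5 := (hTRC K y⁻¹ y).2.2.2
    rw [if_pos (inv_mul_cancel y)] at h5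
    rw [h5] at h4
    have h3 := Pth.term_pos hLPF K hP y⁻¹ y d h1 h2
    have h3' := Pth.term_pos hLPF K hP y⁻¹ y d' h1' h2'
    have h6 : ∑ u ∈ ({d, d'} : Finset W), co (K.h y⁻¹ y u * K.p 1 u) 0 ≤
        ∑ u : W, co (K.h y⁻¹ y u * K.p 1 u) 0 :=
      Finset.sum_le_sum_of_subset_of_nonneg (Finset.subset_univ _)
        (fun u _ _ => Pth.term_nonneg hLPF K hP y⁻¹ y u)
    rw [Finset.sum_pair hne] at h6
    linarith

end Pool.Agent.Work.MP_a20dfd
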