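import Pool.Agent.Work.MP_a20dfd.B_CUP

set_option autoImplicit false

namespace Pool.Agent.Work.MP_a20dfd

open LaurentPolynomial

namespace Red92

variable {B W : Type} [Group W] {M : CoxeterMatrix B} {cs : CoxeterSystem M W} (K : KL cs)

/-- all standard basis elements in `x` have length less than `N` -/
def Su (x : K.H) (N : ℕ) : Prop := ∀ y, N ≤ cs.length y → K.std.repr x y = 0

theorem su_sum {ι : Type} (S : Finset ι) (f : ι → K.H) (N : ℕ) (h : ∀ j ∈ S, Su K (f j) N) :
    Su K (∑ j ∈ S, f j) N := by
  intro y hy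
  rw [map_sum, Finsupp.finsetSum_apply]
  exact Finset.sum_eq_zero fun j hj => h j hj y hy

theorem su_smul (c : A) {x : K.H} {N : ℕ} (h : Su K x N) : Su K (c • x) N := by
  intro y hy
  rw [map_smul, Finsupp.smul_apply, h y hy, smul_zero]

theorem su_step (hHRL : Stmt_HRL) (i : B) {x : K.H} {N : ℕ} (h : Su K x N) :
    Su K (K.std (cs.simple i) * x) (N + 1) := by
  intro z hz
  have h1 : K.std.repr x (cs.simple i * z) = 0 := by
    apply h
    rcases cs.length_simple_mul z i with h2 | h2 <;> omega
  have h2 : K.std.repr x z = 0 := h z (by omega)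
  rw [Cup.coord hHRL K i, h1, h2]
  simp

theorem su_std (hHRL : Stmt_HRL) : ∀ (m : ℕ) (a : W), cs.length a = m → ∀ {x : K.H} {N : ℕ},
    Su K x N → Su K (K.std a * x) (N + m) := by
  intro m
  induction m with
  | zero =>
    intro a ha x N h
    have : a = 1 := cs.length_eq_zero_iff.1 ha
    rw [this, K.std_one, one_mul]
    exact h
  | succ m ih =>
    intro a ha x N h
    obtain ⟨i, hi⟩ := cs.exists_leftDescent_of_ne_one (w := a) (by
      rintro rfl
      rw [cs.length_one] at ha
      omega)
    have hi' : cs.length (cs.simple i * a) < cs.length a := hi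
    have h1 : cs.length (cs.simple i * a) = m := by
      rcases cs.length_simple_mul a i with h2 | h2 <;> omega
    have h2 : cs.simple i * (cs.simple i * a) = a := by
      rw [← mul_assoc, cs.simple_mul_simple_self, one_mul]
    have h3 : K.std (cs.simple i) * K.std (cs.simple i * a) = K.std a := by
      rw [K.std_mul i _ (by rw [h2]; omega), h2]
    rw [← h3, mul_assoc]
    have h4 := su_step K hHRL i (ih _ h1 h)
    rwa [add_assoc] at h4

theorem expand (x : K.H) : x = ∑ y ∈ (K.std.repr x).support, K.std.repr x y • K.std y := by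
  conv_lhs => rw [← K.std.linearCombination_repr x]
  rw [Finsupp.linearCombination_apply, Finsupp.sum]

theorem su_kl (hTRI : Stmt_TRI) (w : W) : Su K (K.kl w) (cs.length w + 1) := fun y hy =>
  hTRI K y w (fun h => by rw [h] at hy; omega) (by omega)

theorem su_kl' (hTRI : Stmt_TRI) (w : W) : Su K (K.kl w - K.std w) (cs.length w) := by
  intro y hy
  rw [map_sub, Finsupp.sub_apply, Module.Basis.repr_self]
  by_cases h : y = w
  · rw [h, K.kl_self, Finsupp.single_eq_same, sub_self]
  · have h1 : K.std.repr (K.kl w) y = 0 := hTRI K y w h hy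
    rw [h1, Finsupp.single_eq_of_ne h, sub_zero]

/-- product with an element supported below `N` -/
theorem su_mul (hHRL : Stmt_HRL) {x y : K.H} {N R : ℕ} (hx : Su K x N) (hy : Su K y (R + 1)) :
    Su K (x * y) (N + R) := by
  rw [expand K x, Finset.sum_mul]
  refine su_sum K _ _ _ fun a ha => ?_
  rw [smul_mul_assoc]
  refine su_smul K _ ?_
  have h1 : cs.length a < N := by
    by_contra h
    exact Finsupp.mem_support_iff.1 ha (hx a (by omega))
  intro z hz
  exact su_std K hHRL _ a rfl hy z (by omega)

end Red92

theorem p_RED (hHRL : Stmt_HRL) (hTRI : Stmt_TRI) : Stmt_RED := by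
  intro B W _ M cs K x y hxy
  classical
  -- (1) coordinates of `C_x C_y` in high degrees
  have h0 : Red92.Su K (K.kl x * K.kl y - K.std (x * y)) (cs.length x + cs.length y) := by
    have e : K.kl x * K.kl y - K.std (x * y) =
        (K.kl x - K.std x) * K.kl y + K.std x * (K.kl y - K.std y) := by
      rw [← (hHRL K).2.2 x y hxy]
      noncomm_ring
    rw [e]
    intro z hz
    rw [map_add, Finsupp.add_apply,
      Red92.su_mul K hHRL (Red92.su_kl' K hTRI x) (Red92.su_kl K hTRI y) z hz,
      Red92.su_std K hHRL _ x rfl (Red92.su_kl' K hTRI y) z (by omega), add_zero]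
  have hcoord : ∀ z, cs.length x + cs.length y ≤ cs.length z →
      K.std.repr (K.kl x * K.kl y) z = if x * y = z then 1 else 0 := by
    intro z hz
    have h1 := h0 z hz
    rw [map_sub, Finsupp.sub_apply, Module.Basis.repr_self, Finsupp.single_apply] at h1
    exact sub_eq_zero.1 h1
  have hexp : ∀ z, K.std.repr (K.kl x * K.kl y) z =
      ∑ u ∈ (K.kl.repr (K.kl x * K.kl y)).support, K.h x y u * K.std.repr (K.kl u) z := by
    intro z
    conv_lhs => rw [← K.kl.linearCombination_repr (K.kl x * K.kl y)]
    rw [Finsupp.linearCombination_apply, Finsupp.sum, map_sum, Finsupp.finsetSum_apply]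
    refine Finset.sum_congr rfl fun u _ => ?_
    rw [map_smul, Finsupp.smul_apply, smul_eq_mul]
    rfl
  -- (2) constituents are not longer
  have hlen : ∀ u, K.h x y u ≠ 0 → cs.length u ≤ cs.length x + cs.length y := by
    intro u0 hu0
    have hu0S : u0 ∈ (K.kl.repr (K.kl x * K.kl y)).support := Finsupp.mem_support_iff.2 hu0
    obtain ⟨u, huS, humax⟩ :=
      (K.kl.repr (K.kl x * K.kl y)).support.exists_max_image cs.length ⟨u0, hu0S⟩
    refine (humax u0 hu0S).trans ?_
    by_contra hcon
    have h1 := hcoord u (by omega)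
    have hne : x * y ≠ u := fun h => by rw [← h] at hcon; omega
    rw [if_neg hne, hexp u, Finset.sum_eq_single u] at h1
    · rw [K.kl_self, mul_one] at h1
      exact Finsupp.mem_support_iff.1 huS h1
    · intro u' hu' hne'
      have h2 : K.std.repr (K.kl u') u = 0 := hTRI K u u' (Ne.symm hne') (humax u' hu')
      rw [h2, mul_zero]
    · intro h; exact absurd huS h
  -- (3) the coordinate at `x y`
  have h1 := hcoord (x * y) (by omega)
  rw [if_pos rfl, hexp (x * y)] at h1
  have h2 : ∑ u ∈ (K.kl.repr (K.kl x * K.kl y)).support,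
      K.h x y u * K.std.repr (K.kl u) (x * y) = K.h x y (x * y) := by
    rw [Finset.sum_eq_single (x * y)]
    · rw [K.kl_self, mul_one]
    · intro u hu hne
      have h3 : K.std.repr (K.kl u) (x * y) = 0 := by
        refine hTRI K (x * y) u (Ne.symm hne) ?_
        rw [hxy]
        exact hlen u (Finsupp.mem_support_iff.1 hu)
      rw [h3, mul_zero]
    · intro h
      have h4 : K.h x y (x * y) = 0 := Finsupp.notMem_support_iff.1 h
      rw [h4, zero_mul]
  rw [← h2, h1]

end Pool.Agent.Work.MP_a20dfd
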