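import Pool.Agent.Work.MP_a20dfd.Interface2

set_option autoImplicit false

namespace Pool.Agent.Work.MP_a20dfd

open LaurentPolynomial

namespace Sym

variable {B W : Type} [Group W] {M : CoxeterMatrix B} {cs : CoxeterSystem M W}

theorem bar_coord (K : KL cs) (x : K.H) (y : W) :
    K.kl.repr (K.bar x) y = invert (K.kl.repr x y) := by
  classical
  have h1 : x = ∑ z ∈ (K.kl.repr x).support, K.kl.repr x z • K.kl z := by
    conv_lhs => rw [← K.kl.linearCombination_repr x]
    rw [Finsupp.linearCombination_apply, Finsupp.sum]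
  have h2 : K.bar x = ∑ z ∈ (K.kl.repr x).support, invert (K.kl.repr x z) • K.kl z := by
    conv_lhs => rw [h1]
    rw [map_sum]
    refine Finset.sum_congr rfl fun z _ => ?_
    rw [K.bar_smul, K.bar_kl]
  rw [h2, map_sum, Finsupp.finsetSum_apply]
  have h3 : ∀ z ∈ (K.kl.repr x).support,
      (K.kl.repr (invert (K.kl.repr x z) • K.kl z)) y =
        if z = y then invert (K.kl.repr x z) else 0 := by
    intro z _
    rw [map_smul, Finsupp.smul_apply, K.kl.repr_self, Finsupp.single_apply, smul_eq_mul,
      mul_ite, mul_one, mul_zero]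
  rw [Finset.sum_congr rfl h3, Finset.sum_ite_eq']
  split_ifs with h
  · rfl
  · rw [Finsupp.notMem_support_iff.mp h, map_zero]

end Sym

theorem p_SYM : Stmt_SYM := by
  intro B W _ M cs K x y z k
  have h1 : K.bar (K.kl x * K.kl y) = K.kl x * K.kl y := by
    rw [map_mul, K.bar_kl, K.bar_kl]
  have h2 : K.h x y z = invert (K.h x y z) := by
    have h3 := Sym.bar_coord K (K.kl x * K.kl y) z
    rw [h1] at h3
    exact h3
  have h4 : co (K.h x y z) k = co (invert (K.h x y z)) k := congrArg (fun f => co f k) h2
  rw [h4]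
  exact (invert_apply _ _).symm

end Pool.Agent.Work.MP_a20dfd
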