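import Pool.Agent.Work.MP_a20dfd.Interface2

/-!
Block TAU of MP_a20dfd_al (helper58).
-/

namespace Pool.Agent.Work.MP_a20dfd

open LaurentPolynomial

theorem p_TAU (hHRL : Stmt_HRL) : Stmt_TAU := by
  intro B W _ _ M cs K x y
  obtain ⟨h1, -, h3⟩ := hHRL K
  induction hn : cs.length x using Nat.strong_induction_on generalizing x y with
  | _ n ih =>
  by_cases hx : x = 1
  · subst hx
    rw [K.std_one, one_mul, one_mul]
    unfold KL.tau
    rw [K.std.repr_self, Finsupp.single_apply]
  · obtain ⟨i, hi⟩ := cs.exists_rightDescent_of_ne_one hx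
    have hi' : cs.length (x * cs.simple i) < cs.length x := hi
    obtain ⟨x', hx'⟩ : ∃ x', x' = x * cs.simple i := ⟨_, rfl⟩
    have hxx : x = x' * cs.simple i := by
      rw [hx', mul_assoc, cs.simple_mul_simple_self, mul_one]
    have hl : cs.length x = cs.length x' + 1 := by
      rw [← hx'] at hi'
      rcases cs.length_mul_simple x i with h | h
      · rw [← hx'] at h
        omega
      · rw [← hx'] at h
        omega
    have hstd : K.std x = K.std x' * K.std (cs.simple i) := by
      rw [h3 x' (cs.simple i) (by rw [← hxx, cs.length_simple, hl]), ← hxx]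
    have hxy : x * y = x' * (cs.simple i * y) := by rw [hxx, mul_assoc]
    rw [hstd, mul_assoc, hxy]
    rcases cs.length_simple_mul y i with h | h
    · rw [K.std_mul i y h]
      exact ih _ (by omega) x' (cs.simple i * y) rfl
    · rw [h1 i y (by omega), mul_add, mul_smul_comm]
      have h4 : ∀ (a b : K.H) (c : A), K.tau (a + c • b) = K.tau a + c * K.tau b := by
        intro a b c
        unfold KL.tau
        rw [map_add, map_smul, Finsupp.add_apply, Finsupp.smul_apply, smul_eq_mul]
      rw [h4, ih _ (by omega) x' (cs.simple i * y) rfl, ih _ (by omega) x' y rfl]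
      rw [if_neg (c := x' * y = 1), mul_zero, add_zero]
      intro h5
      have h6 : y = x'⁻¹ := (inv_eq_of_mul_eq_one_right h5).symm
      have h7 : cs.simple i * y = x⁻¹ := by
        rw [hxx, mul_inv_rev, cs.inv_simple, h6]
      rw [h7, h6, cs.length_inv, cs.length_inv] at h
      omega

end Pool.Agent.Work.MP_a20dfd
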