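import Pool.Agent.Work.MP_a20dfd.Interface2

/-! Block TRC (helper43): the trace of C_x C_y. -/

namespace Pool.Agent.Work.MP_a20dfd

open LaurentPolynomial

namespace Trc

/-- no negative exponents -/
def E (f : A) : Prop := ∀ k : ℤ, k < 0 → co f k = 0

theorem co_mul (f g : A) (k : ℤ) : co (f * g) k =
    ∑ a ∈ f.coeff.support, ∑ b ∈ g.coeff.support, if a + b = k then co f a * co g b else 0 := by
  unfold co
  rw [AddMonoidAlgebra.coeff_mul]
  rfl

theorem mem_nn {f : A} (hf : E f) {a : ℤ} (ha : a ∈ f.coeff.support) : 0 ≤ a := by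
  by_contra h
  push Not at h
  exact (Finsupp.mem_support_iff.1 ha) (hf a h)

theorem E_mul {f g : A} (hf : E f) (hg : E g) : E (f * g) := by
  intro k hk
  rw [co_mul]
  apply Finset.sum_eq_zero
  intro a ha
  apply Finset.sum_eq_zero
  intro b hb
  have h1 := mem_nn hf ha
  have h2 := mem_nn hg hb
  rw [if_neg (by omega)]

theorem co_zero_mul {f g : A} (hf : E f) (hg : E g) : co (f * g) 0 = co f 0 * co g 0 := by
  rw [co_mul]
  have h1 : ∀ a ∈ f.coeff.support, (∑ b ∈ g.coeff.support, if a + b = 0 then co f a * co g b else 0) =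
      if a = 0 then co f 0 * co g 0 else 0 := by
    intro a ha
    have ha' := mem_nn hf ha
    by_cases h : a = 0
    · subst h
      rw [if_pos rfl]
      have h2 : ∀ b ∈ g.coeff.support, (if (0 : ℤ) + b = 0 then co f 0 * co g b else 0) =
          if b = 0 then co f 0 * co g 0 else 0 := by
        intro b _
        by_cases hb : b = 0
        · subst hb; simp
        · rw [if_neg (by omega), if_neg hb]
      rw [Finset.sum_congr rfl h2, Finset.sum_ite_eq']
      split_ifs with h3
      · rfl
      · have h4 : co g 0 = 0 := Finsupp.notMem_support_iff.1 h3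
        rw [h4, mul_zero]
    · rw [if_neg h]
      apply Finset.sum_eq_zero
      intro b hb
      have hb' := mem_nn hg hb
      rw [if_neg (by omega)]
  rw [Finset.sum_congr rfl h1, Finset.sum_ite_eq']
  split_ifs with h3
  · rfl
  · have h4 : co f 0 = 0 := Finsupp.notMem_support_iff.1 h3
    rw [h4, zero_mul]

theorem co_sum {ι : Type} (S : Finset ι) (f : ι → A) (k : ℤ) :
    co (∑ x ∈ S, f x) k = ∑ x ∈ S, co (f x) k := by
  unfold co
  rw [AddMonoidAlgebra.coeff_sum, Finsupp.finset_sum_apply]

theorem co_one (k : ℤ) : co (1 : A) k = if k = 0 then 1 else 0 := by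
  unfold co
  rw [← T_zero, T_apply]
  by_cases h : k = 0
  · rw [if_pos h.symm, if_pos h]
  · rw [if_neg (fun h' => h h'.symm), if_neg h]

variable {B W : Type} [Group W] {M : CoxeterMatrix B} {cs : CoxeterSystem M W}

theorem E_p (K : KL cs) (y w : W) : E (K.p y w) := by
  intro k hk
  by_cases h : y = w
  · subst h
    unfold KL.p
    rw [K.kl_self, co_one, if_neg (by omega)]
  · exact K.kl_lt y w h k hk.le

theorem co_p_zero [DecidableEq W] (K : KL cs) (y w : W) : co (K.p y w) 0 = if y = w then 1 else 0 := by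
  by_cases h : y = w
  · subst h
    unfold KL.p
    rw [K.kl_self, co_one, if_pos rfl, if_pos rfl]
  · rw [if_neg h]
    exact K.kl_lt y w h 0 le_rfl

theorem kl_expand [Fintype W] (K : KL cs) (x : W) : K.kl x = ∑ a : W, K.p a x • K.std a :=
  (K.std.sum_repr (K.kl x)).symm

end Trc

open Trc in
theorem p_TRC (hTAU : Stmt_TAU) : Stmt_TRC := by
  intro B W _ _ _ M cs K x y
  have hlin : ∀ (z : K.H), K.tau z = K.std.coord 1 z := fun z => rfl
  have e1 : K.tau (K.kl x * K.kl y) = ∑ w : W, K.p w x * K.p w⁻¹ y := by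
    rw [hlin, kl_expand K x, kl_expand K y, Finset.sum_mul_sum, map_sum]
    apply Finset.sum_congr rfl
    intro a _
    rw [map_sum, Finset.sum_eq_single a⁻¹]
    · rw [smul_mul_smul_comm, map_smul, ← hlin, hTAU K a a⁻¹, if_pos (mul_inv_cancel a), smul_eq_mul, mul_one]
    · intro b _ hb
      rw [smul_mul_smul_comm, map_smul, ← hlin, hTAU K a b, if_neg, smul_zero]
      intro h
      exact hb (eq_inv_of_mul_eq_one_right h)
    · intro h
      exact absurd (Finset.mem_univ _) h
  have e2 : K.tau (K.kl x * K.kl y) = ∑ u : W, K.h x y u * K.p 1 u := by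
    rw [hlin]
    conv_lhs => rw [← K.kl.sum_repr (K.kl x * K.kl y)]
    rw [map_sum]
    apply Finset.sum_congr rfl
    intro u _
    rw [map_smul, smul_eq_mul]
    rfl
  refine ⟨e1, e2, ?_, ?_⟩
  · intro k hk
    rw [e1, co_sum]
    apply Finset.sum_eq_zero
    intro w _
    exact E_mul (E_p K w x) (E_p K w⁻¹ y) k hk
  · rw [e1, co_sum]
    have h1 : ∀ w : W, co (K.p w x * K.p w⁻¹ y) 0 = if w = x then (if x * y = 1 then 1 else 0) else 0 := by
      intro w
      rw [co_zero_mul (E_p K w x) (E_p K w⁻¹ y), co_p_zero, co_p_zero]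
      by_cases h : w = x
      · subst h
        rw [if_pos rfl, if_pos rfl, one_mul]
        by_cases h2 : w * y = 1
        · rw [if_pos h2, if_pos (inv_eq_of_mul_eq_one_right h2)]
        · rw [if_neg h2, if_neg]
          intro h3
          apply h2
          rw [← h3, mul_inv_cancel]
      · rw [if_neg h, if_neg h, zero_mul]
    rw [Finset.sum_congr rfl (fun w _ => h1 w), Finset.sum_ite_eq', if_pos (Finset.mem_univ _)]

end Pool.Agent.Work.MP_a20dfd
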