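import Pool.Agent.Work.MP_a20dfd.Interface2

/-!
# Block TRI: the Kazhdan-Lusztig basis is unitriangular for the length
-/

set_option autoImplicit false

namespace Pool.Agent.Work.MP_a20dfd

open LaurentPolynomial

namespace Tri

/-- a polynomial with positive exponents which is invariant under `v ↦ v⁻¹` is zero -/
theorem eq_zero {f : A} (h1 : ∀ k : ℤ, k ≤ 0 → co f k = 0) (h2 : (invert f : A) = f) : f = 0 := by
  refine LaurentPolynomial.ext fun k => ?_
  have h3 : f.coeff k = f.coeff (-k) := by
    have h := congrArg (fun g : A => g.coeff k) h2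
    beta_reduce at h
    rw [invert_apply] at h
    exact h.symm
  rcases le_total k 0 with hk | hk
  · exact h1 k hk
  · rw [h3]
    exact h1 (-k) (by omega)

/-- the coordinates of `bar x` -/
theorem repr_bar {B W : Type} [Group W] {M : CoxeterMatrix B} {cs : CoxeterSystem M W} (K : KL cs)
    (x : K.H) (y : W) : K.std.repr (K.bar x) y =
      ∑ z ∈ (K.std.repr x).support, (invert (K.std.repr x z) : A) * K.std.repr (K.bar (K.std z)) y := by
  have h1 : x = ∑ z ∈ (K.std.repr x).support, K.std.repr x z • K.std z := by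
    have h := K.std.linearCombination_repr x
    rw [Finsupp.linearCombination_apply, Finsupp.sum] at h
    exact h.symm
  have h2 : K.bar x = ∑ z ∈ (K.std.repr x).support, (invert (K.std.repr x z) : A) • K.bar (K.std z) := by
    conv_lhs => rw [h1]
    rw [map_sum]
    exact Finset.sum_congr rfl fun z _ => K.bar_smul _ _
  rw [h2, map_sum, Finsupp.finsetSum_apply]
  refine Finset.sum_congr rfl fun z _ => ?_
  rw [map_smul, Finsupp.smul_apply, smul_eq_mul]

end Tri

open Tri in
theorem p_TRI (hBRU : Stmt_BRU) : Stmt_TRI := by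
  classical
  intro B W _ M cs K
  by_contra hcon
  push Not at hcon
  obtain ⟨y₀, w, hne₀, hlen₀, hp₀⟩ := hcon
  let S : Finset W := (K.std.repr (K.kl w)).support.filter (fun z => z ≠ w ∧ cs.length w ≤ cs.length z)
  have hS : S.Nonempty := ⟨y₀, Finset.mem_filter.2 ⟨Finsupp.mem_support_iff.2 hp₀, hne₀, hlen₀⟩⟩
  obtain ⟨y, hy, hmax⟩ := S.exists_max_image cs.length hS
  obtain ⟨hys, hne, hlen⟩ := Finset.mem_filter.1 hy
  have hle : ∀ z ∈ (K.std.repr (K.kl w)).support, cs.length z ≤ cs.length y := by
    intro z hz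
    by_cases h1 : z = w
    · rw [h1]; exact hlen
    · by_cases h2 : cs.length w ≤ cs.length z
      · exact hmax z (Finset.mem_filter.2 ⟨hz, h1, h2⟩)
      · omega
  have h1 := repr_bar K (K.kl w) y
  rw [K.bar_kl w, Finset.sum_eq_single y] at h1
  · rw [(hBRU K y).1, mul_one] at h1
    have h2 := eq_zero (K.kl_lt y w hne) h1.symm
    exact Finsupp.mem_support_iff.1 hys h2
  · intro z hz hzy
    rw [(hBRU K z).2 y (Ne.symm hzy) (hle z hz), mul_zero]
  · intro h
    exact absurd hys h

end Pool.Agent.Work.MP_a20dfd
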