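import Pool.Agent.Work.MP_a20dfd.Interface2

set_option autoImplicit false

namespace Pool.Agent.Work.MP_a20dfd

open LaurentPolynomial

namespace Unq

variable {B W : Type} [Group W] {M : CoxeterMatrix B} {cs : CoxeterSystem M W}

theorem bar_coord (K : KL cs) (x : K.H) (y : W) :
    K.std.repr (K.bar x) y =
      ∑ z ∈ (K.std.repr x).support, invert (K.std.repr x z) * K.std.repr (K.bar (K.std z)) y := by
  have h1 : x = ∑ z ∈ (K.std.repr x).support, K.std.repr x z • K.std z := by
    conv_lhs => rw [← K.std.linearCombination_repr x]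
    rw [Finsupp.linearCombination_apply, Finsupp.sum]
  have h2 : K.bar x = ∑ z ∈ (K.std.repr x).support,
      invert (K.std.repr x z) • K.bar (K.std z) := by
    conv_lhs => rw [h1]
    rw [map_sum]
    exact Finset.sum_congr rfl fun z _ => K.bar_smul _ _
  rw [h2, map_sum, Finsupp.finsetSum_apply]
  refine Finset.sum_congr rfl fun z _ => ?_
  rw [map_smul, Finsupp.smul_apply, smul_eq_mul]

end Unq

theorem p_UNQ (hBRU : Stmt_BRU) : Stmt_UNQ := by
  intro B W _ M cs K x hbar h
  by_contra hx
  have hs : (K.std.repr x).support.Nonempty := by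
    rw [Finsupp.support_nonempty_iff]
    intro h0
    exact hx (K.std.repr.map_eq_zero_iff.mp h0)
  obtain ⟨y, hy, hmax⟩ := Finset.exists_max_image _ cs.length hs
  have h1 := Unq.bar_coord K x y
  rw [hbar, Finset.sum_eq_single y] at h1
  · rw [(hBRU K y).1, mul_one] at h1
    have h2 : K.std.repr x y = 0 := by
      refine LaurentPolynomial.ext fun k => ?_
      rw [AddMonoidAlgebra.coeff_zero, Finsupp.zero_apply]
      rcases le_or_gt k 0 with hk | hk
      · exact h y k hk
      · rw [h1, invert_apply]
        exact h y (-k) (by omega)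
    exact Finsupp.mem_support_iff.mp hy h2
  · intro z hz hzy
    rw [(hBRU K z).2 y hzy.symm (hmax z hz), mul_zero]
  · intro hn
    exact absurd hy hn

end Pool.Agent.Work.MP_a20dfd
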