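import Pool.Agent.Work.MP_a20dfd.B_LPF
import Pool.Agent.Work.MP_a20dfd.B_NDF

/-!
# NEX: the polynomials n_{x,y} have no negative exponents
-/

set_option autoImplicit false

namespace Pool.Agent.Work.MP_a20dfd

open LaurentPolynomial

/-- NEX (uses LPF): all exponents of n_{x,y} are nonnegative (no positivity is needed). -/
def Stmt_NEX : Prop :=
  ∀ {B W : Type} [Group W] [Fintype W] {M : CoxeterMatrix B} {cs : CoxeterSystem M W}
    (K : KL cs) (I : Set B) (x y : W) (k : ℤ), k < 0 → co (n K I x y) k = 0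

theorem p_NEX (hLPF : Stmt_LPF) : Stmt_NEX := by
  classical
  intro B W _ _ M cs K I x y k hk
  obtain ⟨-, -, L3, L4, -, -, -⟩ := hLPF
  by_contra hne
  unfold n at hne
  rw [L4] at hne
  obtain ⟨w, _, hw⟩ := Finset.exists_ne_zero_of_sum_ne_zero hne
  obtain ⟨i, j, hij, hi, hj⟩ := L3 _ _ _ hw
  obtain ⟨i1, i2, hi12, hi1, hi2⟩ := L3 _ _ _ hi
  have e1 := Ndf.co_sgn hi1
  have e2 := Ndf.co_T hi2
  have e3 : (0 : ℤ) ≤ (cs.length w : ℤ) := Int.natCast_nonneg _
  have e4 : j < 0 := by linarith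
  by_cases hxy : x * w = y
  · have h1 : K.p (x * w) y = 1 := by
      rw [hxy]
      exact K.kl_self y
    rw [h1, ← T_zero] at hj
    have := Ndf.co_T hj
    linarith
  · exact hj (K.kl_lt (x * w) y hxy j e4.le)

end Pool.Agent.Work.MP_a20dfd
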