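import Pool.Agent.Work.MP_a20dfd.Interface2
import Pool.Agent.Work.MP_a20dfd.B_NEX

/-!
MP_a20dfd_al: the projective dimensions and the final statement (assembly, helper35).
-/

set_option autoImplicit false

namespace Pool.Agent.Work.MP_a20dfd

open LaurentPolynomial

variable {B W : Type} [Group W] {M : CoxeterMatrix B}

/-- `E x y i` is the coefficient of `v ^ i` in `n_{w₀ x, w₀ y}`, for all `x`, `y` in `X_λ`. By the
published Kazhdan-Lusztig formula this holds for `E x y i = dim Ext^i (Δ(x·λ), L(y·λ))` in the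
block `O_λ`, the stabiliser of `λ` being `W_I`. -/
def ExtDims [Fintype W] {cs : CoxeterSystem M W} (K : KL cs) (I : Set B) (w₀ : W)
    (E : W → W → ℕ → ℕ) : Prop :=
  ∀ x y : W, Long cs I x → Long cs I y →
    ∀ i : ℕ, co (n K I (w₀ * x) (w₀ * y)) i = E x y i

/-- `d_λ(y)`: the largest degree of `p_λ(y,z) = ∑ E y z i (-q)^i` over `z` in `X_λ`. -/
noncomputable def dlam (cs : CoxeterSystem M W) (I : Set B) (E : W → W → ℕ → ℕ) (y : W) : ℕ :=
  sSup {j : ℕ | ∃ z : W, Long cs I z ∧ E y z j ≠ 0}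

/-- `s_λ(x)`: the largest value of `d_λ(y) + deg p_λ(y,x)` over `y` in `X_λ`. -/
noncomputable def slam (cs : CoxeterSystem M W) (I : Set B) (E : W → W → ℕ → ℕ) (x : W) : ℕ :=
  sSup {m : ℕ | ∃ (y : W) (i : ℕ), Long cs I y ∧ E y x i ≠ 0 ∧ m = dlam cs I E y + i}

/-- The inequality of the problem for one element `x` of `X_λ`. -/
def Ineq [Fintype W] {cs : CoxeterSystem M W} (K : KL cs) (I : Set B) (w₀ wI : W)
    (E : W → W → ℕ → ℕ) (x : W) : Prop :=
  K.a (w₀ * x) + K.a (w₀ * wI) ≤ slam cs I E x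

/-- The final statement. -/
def Stmt_MAIN : Prop :=
  ∀ {B W : Type} [Group W] [Fintype W] {M : CoxeterMatrix B} {cs : CoxeterSystem M W}
    (K : KL cs), K.Pos → ∀ (I : Set B) (w₀ wI : W) (E : W → W → ℕ → ℕ),
    (∀ x, cs.length x ≤ cs.length w₀) → IsLongest cs (Par cs I) wI → ExtDims K I w₀ E →
    ∀ x, Long cs I x → Ineq K I w₀ wI E x

namespace Main

theorem le_dg {f : A} {k : ℕ} (h : co f k ≠ 0) : k ≤ dg f := by
  have h1 : (k : ℤ) ∈ f.coeff.support := Finsupp.mem_support_iff.2 h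
  have h2 := Finset.le_sup (f := Int.toNat) h1
  rw [Int.toNat_natCast] at h2
  exact h2

theorem exists_bound {W : Type} [Fintype W] (f : W → W → ℕ) : ∃ N : ℕ, ∀ y z, f y z ≤ N := by
  refine ⟨Finset.univ.sup (fun q : W × W => f q.1 q.2), fun y z => ?_⟩
  exact Finset.le_sup (f := fun q : W × W => f q.1 q.2) (Finset.mem_univ (y, z))

theorem le_slam (cs : CoxeterSystem M W) (I : Set B) (E : W → W → ℕ → ℕ) (N : ℕ)
    (hEN : ∀ y z j, Long cs I y → Long cs I z → E y z j ≠ 0 → j ≤ N)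
    {x y z : W} {i j : ℕ} (hx : Long cs I x) (hy : Long cs I y) (hz : Long cs I z)
    (hi : E y x i ≠ 0) (hj : E y z j ≠ 0) : j + i ≤ slam cs I E x := by
  have hd : ∀ y', Long cs I y' → dlam cs I E y' ≤ N := by
    intro y' hy'
    unfold dlam
    refine csSup_le' ?_
    rintro k ⟨z', hz', hk⟩
    exact hEN y' z' k hy' hz' hk
  have h1 : j ≤ dlam cs I E y := by
    unfold dlam
    refine le_csSup ?_ ?_
    · refine ⟨N, ?_⟩
      rintro k ⟨z', hz', hk⟩
      exact hEN y z' k hy hz' hk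
    · exact ⟨z, hz, hj⟩
  have h2 : dlam cs I E y + i ≤ slam cs I E x := by
    unfold slam
    refine le_csSup ?_ ?_
    · refine ⟨N + N, ?_⟩
      rintro m ⟨y', i', hy', hi', rfl⟩
      exact add_le_add (hd y' hy') (hEN y' x i' hy' hx hi')
    · exact ⟨y, i, hy, hi, rfl⟩
  exact (Nat.add_le_add_right h1 i).trans h2

theorem E_ne {f : A} {i e : ℕ} (h : co f i = e) (h' : co f i ≠ 0) : e ≠ 0 := by
  rintro rfl
  exact h' h

theorem ne_E {f : A} {i e : ℕ} (h : co f i = e) (h' : e ≠ 0) : co f i ≠ 0 := by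
  rw [h]
  exact Int.natCast_ne_zero.2 h'

theorem nonneg_of {f : A} {e : ℕ → ℕ} (h : ∀ i : ℕ, co f i = e i)
    (h' : ∀ k : ℤ, k < 0 → co f k = 0) : Nonneg f := by
  intro k
  rcases lt_or_ge k 0 with hk | hk
  · exact (h' k hk).ge
  · obtain ⟨m, rfl⟩ := Int.eq_ofNat_of_zero_le hk
    rw [h m]
    exact Int.natCast_nonneg _

end Main

open Main in
theorem p_MAIN (hCBX : Stmt_CBX) (hFIN : Stmt_FIN) (hNEX : Stmt_NEX) : Stmt_MAIN := by
  intro B W _ _ M cs K hP I w₀ wI E hw₀ hwI hE x hx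
  obtain ⟨hLS, -, -⟩ := hCBX cs I w₀ wI hw₀ hwI
  have hback : ∀ y, Short cs I y → Long cs I (w₀⁻¹ * y) := by
    intro y hy
    rw [hLS, mul_inv_cancel_left]
    exact hy
  have hn1 : ∀ y z, Short cs I y → Short cs I z →
      ∀ i : ℕ, co (n K I y z) i = E (w₀⁻¹ * y) (w₀⁻¹ * z) i := by
    intro y z hy hz i
    have h := hE _ _ (hback y hy) (hback z hz) i
    rw [mul_inv_cancel_left, mul_inv_cancel_left] at h
    exact h
  have hn2 : ∀ y z, Short cs I y → Short cs I z →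
      ∀ k : ℤ, k < 0 → co (n K I y z) k = 0 := fun y z _ _ => hNEX K I y z
  obtain ⟨N, hN⟩ := exists_bound (fun y z : W => dg (n K I (w₀ * y) (w₀ * z)))
  have hEN : ∀ y z j, Long cs I y → Long cs I z → E y z j ≠ 0 → j ≤ N := by
    intro y z j hy hz hj
    have h := hE y z hy hz j
    exact (le_dg (ne_E h hj)).trans (hN y z)
  have hxS : Short cs I (w₀ * x) := (hLS x).1 hx
  obtain ⟨y, z, i, j, hy, hz, hi, hj, hle⟩ := hFIN K hP I w₀ wI hw₀ hwI
    (fun y z hy hz => nonneg_of (hn1 y z hy hz) (hn2 y z hy hz)) hn2 (w₀ * x) hxS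
  have hi' : E (w₀⁻¹ * y) x i ≠ 0 := by
    have h := E_ne (hn1 y (w₀ * x) hy hxS i) hi
    rw [inv_mul_cancel_left] at h
    exact h
  have hj' : E (w₀⁻¹ * y) (w₀⁻¹ * z) j ≠ 0 := E_ne (hn1 y z hy hz j) hj
  have hfin := le_slam cs I E N hEN hx (hback y hy) (hback z hz) hi' hj'
  unfold Ineq
  rw [Nat.add_comm] at hfin
  exact hle.trans hfin

end Pool.Agent.Work.MP_a20dfd
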