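import Pool.Agent.Work.MP_a20dfd.ExDefs

/-! # Block BAR (helper45): the bar involution exists -/

set_option autoImplicit false

namespace Pool.Agent.Work.MP_a20dfd

open LaurentPolynomial

namespace XBAR

variable {B W : Type} [Group W] {M : CoxeterMatrix B} {cs : CoxeterSystem M W} (K : HS cs)

/-- the inverse of `H_s` -/
noncomputable def G (i : B) : K.H := K.std (cs.simple i) - (T (-1) - T 1 : A) • (1 : K.H)

theorem H_G (hsq : ∀ i : B, K.std (cs.simple i) * K.std (cs.simple i) =
      1 + (T (-1) - T 1 : A) • K.std (cs.simple i)) (i : B) :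
    K.std (cs.simple i) * G K i = 1 := by
  unfold G
  rw [mul_sub, hsq, mul_smul_comm, mul_one, add_sub_cancel_right]

theorem G_H (hsq : ∀ i : B, K.std (cs.simple i) * K.std (cs.simple i) =
      1 + (T (-1) - T 1 : A) • K.std (cs.simple i)) (i : B) :
    G K i * K.std (cs.simple i) = 1 := by
  unfold G
  rw [sub_mul, hsq, smul_mul_assoc, one_mul, add_sub_cancel_right]

theorem G_sq (hsq : ∀ i : B, K.std (cs.simple i) * K.std (cs.simple i) =
      1 + (T (-1) - T 1 : A) • K.std (cs.simple i)) (i : B) :
    G K i * G K i = 1 - (T (-1) - T 1 : A) • G K i := by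
  have h : G K i * G K i =
      G K i * (K.std (cs.simple i) - (T (-1) - T 1 : A) • (1 : K.H)) := rfl
  rw [h, mul_sub, G_H K hsq, mul_smul_comm, mul_one]

/-- the semilinear map with values `D w` at `H_w` -/
noncomputable def bar0 (D : W → K.H) (x : K.H) : K.H :=
  Finsupp.linearCombination A D
    (Finsupp.mapRange (fun a : A => (invert a : A)) (map_zero invert) (K.std.repr x))

theorem bar0_add (D : W → K.H) (x y : K.H) : bar0 K D (x + y) = bar0 K D x + bar0 K D y := by
  unfold bar0
  rw [map_add, Finsupp.mapRange_add (fun a b => map_add invert a b), map_add]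

theorem bar0_smul (D : W → K.H) (f : A) (x : K.H) :
    bar0 K D (f • x) = (invert f : A) • bar0 K D x := by
  unfold bar0
  have h : ∀ u : W →₀ A, Finsupp.mapRange (fun a : A => (invert a : A)) (map_zero invert) (f • u) =
      (invert f : A) • Finsupp.mapRange (fun a : A => (invert a : A)) (map_zero invert) u := by
    intro u
    refine Finsupp.ext fun w => ?_
    rw [Finsupp.mapRange_apply, Finsupp.smul_apply, Finsupp.smul_apply, Finsupp.mapRange_apply,
      smul_eq_mul, smul_eq_mul, map_mul]
  rw [map_smul, h, map_smul]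

theorem bar0_std (D : W → K.H) (w : W) : bar0 K D (K.std w) = D w := by
  unfold bar0
  rw [Module.Basis.repr_self, Finsupp.mapRange_single, map_one, Finsupp.linearCombination_single,
    one_smul]

theorem bar0_zero (D : W → K.H) : bar0 K D 0 = 0 := by
  have h := bar0_smul K D 0 0
  rw [zero_smul, map_zero, zero_smul] at h
  exact h

theorem ind {P : K.H → Prop} (h1 : ∀ w, P (K.std w)) (h0 : P 0)
    (ha : ∀ x y, P x → P y → P (x + y)) (hs : ∀ (a : A) (x : K.H), P x → P (a • x)) (x : K.H) :
    P x := by
  refine Submodule.span_induction (p := fun y _ => P y) ?_ h0 (fun y z _ _ => ha y z)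
    (fun a y _ => hs a y) (K.std.mem_span x)
  rintro _ ⟨w, rfl⟩
  exact h1 w

theorem exD (hsq : ∀ i : B, K.std (cs.simple i) * K.std (cs.simple i) =
      1 + (T (-1) - T 1 : A) • K.std (cs.simple i)) :
    ∀ (n : ℕ) (w : W), cs.length w = n → ∃ d : K.H, d * K.std w = 1 ∧ K.std w * d = 1 := by
  intro n
  induction n using Nat.strong_induction_on with
  | _ n ih =>
    intro w hn
    by_cases hw : w = 1
    · refine ⟨1, ?_, ?_⟩
      · rw [hw, K.std_one, one_mul]
      · rw [hw, K.std_one, one_mul]
    · obtain ⟨i, hi⟩ := cs.exists_leftDescent_of_ne_one hw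
      have hi' : cs.length (cs.simple i * w) < cs.length w := hi
      obtain ⟨d, hd1, hd2⟩ := ih _ (by rw [← hn]; exact hi') (cs.simple i * w) rfl
      have e : K.std w = K.std (cs.simple i) * K.std (cs.simple i * w) := by
        have h := K.std_up i (cs.simple i * w) (by rw [cs.simple_mul_simple_cancel_left]; exact hi')
        rw [cs.simple_mul_simple_cancel_left] at h
        exact h.symm
      refine ⟨d * G K i, ?_, ?_⟩
      · rw [e, mul_assoc, ← mul_assoc (G K i), G_H K hsq, one_mul, hd1]
      · rw [e, mul_assoc, ← mul_assoc (K.std (cs.simple i * w)), hd2, one_mul, H_G K hsq]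

end XBAR

open XBAR in
theorem p_BAR (hMUS : Stmt_MUS) : Stmt_BAR := by
  classical
  intro B W _ M cs K
  obtain ⟨-, hR, -, hsq⟩ := hMUS K
  choose D' hD1 hD2 using fun w : W => exD K hsq (cs.length w) w rfl
  obtain ⟨D, hD⟩ : ∃ D : W → K.H, ∀ w, D w = D' w⁻¹ := ⟨fun w => D' w⁻¹, fun _ => rfl⟩
  have hDl : ∀ w, D w * K.std w⁻¹ = 1 := fun w => by rw [hD]; exact hD1 _
  have hDr : ∀ w, K.std w⁻¹ * D w = 1 := fun w => by rw [hD]; exact hD2 _
  have hDone : D 1 = 1 := by
    have h := hDl 1
    rw [inv_one, K.std_one, mul_one] at h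
    exact h
  have hDup : ∀ (i : B) (w : W), cs.length w < cs.length (cs.simple i * w) →
      D (cs.simple i * w) = G K i * D w := by
    intro i w hlt
    have hinv : (cs.simple i * w)⁻¹ = w⁻¹ * cs.simple i := by
      rw [mul_inv_rev, cs.inv_simple]
    have e1 : K.std (cs.simple i * w)⁻¹ = K.std w⁻¹ * K.std (cs.simple i) := by
      rw [hinv]
      refine (hR w⁻¹ i ?_).symm
      rw [← hinv, cs.length_inv, cs.length_inv]
      exact hlt
    refine left_inv_eq_right_inv (hDl _) ?_
    rw [e1, mul_assoc, ← mul_assoc (K.std (cs.simple i)), H_G K hsq, one_mul, hDr]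
  have hb4 : ∀ (i : B) (w : W), bar0 K D (K.std (cs.simple i) * K.std w) = G K i * D w := by
    intro i w
    rcases cs.length_simple_mul w i with hl | hl
    · rw [K.std_up i w (by omega), bar0_std, hDup i w (by omega)]
    · rw [K.std_down i w (by omega), bar0_add, bar0_smul, bar0_std, bar0_std]
      have h1 := hDup i (cs.simple i * w) (by rw [cs.simple_mul_simple_cancel_left]; omega)
      rw [cs.simple_mul_simple_cancel_left] at h1
      have h2 : (invert (T (-1) - T 1 : A) : A) = -(T (-1) - T 1 : A) := by
        rw [map_sub, invert_T, invert_T, neg_neg, neg_sub]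
      have h3 : G K i * D w = D (cs.simple i * w) - (T (-1) - T 1 : A) • D w := by
        calc G K i * D w = G K i * (G K i * D (cs.simple i * w)) := by rw [← h1]
          _ = (G K i * G K i) * D (cs.simple i * w) := by rw [mul_assoc]
          _ = D (cs.simple i * w) - (T (-1) - T 1 : A) • (G K i * D (cs.simple i * w)) := by
            rw [G_sq K hsq, sub_mul, one_mul, smul_mul_assoc]
          _ = _ := by rw [← h1]
      rw [h3, h2, neg_smul]
      exact (sub_eq_add_neg _ _).symm
  have hb5 : ∀ (i : B) (x : K.H), bar0 K D (K.std (cs.simple i) * x) = G K i * bar0 K D x := by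
    intro i x
    refine ind K (P := fun x => bar0 K D (K.std (cs.simple i) * x) = G K i * bar0 K D x)
      ?_ ?_ ?_ ?_ x
    · intro w
      rw [hb4, bar0_std]
    · rw [mul_zero, bar0_zero, mul_zero]
    · intro x y hx hy
      rw [mul_add, bar0_add, bar0_add, hx, hy, mul_add]
    · intro a x hx
      rw [mul_smul_comm, bar0_smul, bar0_smul, hx, mul_smul_comm]
  have hb6 : ∀ (n : ℕ) (w : W), cs.length w = n → ∀ y : K.H,
      bar0 K D (K.std w * y) = bar0 K D (K.std w) * bar0 K D y := by
    intro n
    induction n using Nat.strong_induction_on with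
    | _ n ih =>
      intro w hn y
      by_cases hw : w = 1
      · rw [hw, bar0_std, hDone, K.std_one, one_mul, one_mul]
      · obtain ⟨i, hi⟩ := cs.exists_leftDescent_of_ne_one hw
        have hi' : cs.length (cs.simple i * w) < cs.length w := hi
        have e : K.std w = K.std (cs.simple i) * K.std (cs.simple i * w) := by
          have h := K.std_up i (cs.simple i * w)
            (by rw [cs.simple_mul_simple_cancel_left]; exact hi')
          rw [cs.simple_mul_simple_cancel_left] at h
          exact h.symm
        have h1 := ih _ (by rw [← hn]; exact hi') (cs.simple i * w) rfl y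
        rw [e, mul_assoc, hb5, h1, hb5, mul_assoc]
  have hb7 : ∀ x y : K.H, bar0 K D (x * y) = bar0 K D x * bar0 K D y := by
    intro x y
    refine ind K (P := fun x => bar0 K D (x * y) = bar0 K D x * bar0 K D y) ?_ ?_ ?_ ?_ x
    · intro w
      exact hb6 _ w rfl y
    · rw [zero_mul, bar0_zero, zero_mul]
    · intro x z hx hz
      rw [add_mul, bar0_add, bar0_add, hx, hz, add_mul]
    · intro a x hx
      rw [smul_mul_assoc, bar0_smul, bar0_smul, hx, smul_mul_assoc]
  have hb1 : bar0 K D 1 = 1 := by
    rw [← K.std_one, bar0_std, hDone, K.std_one]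
  refine ⟨{ toFun := bar0 K D, map_one' := hb1, map_mul' := hb7, map_zero' := bar0_zero K D,
            map_add' := bar0_add K D }, fun f x => bar0_smul K D f x, fun i => ?_⟩
  show bar0 K D (K.std (cs.simple i)) * K.std (cs.simple i) = 1
  have h := hb5 i 1
  rw [mul_one, hb1, mul_one] at h
  rw [h, G_H K hsq]

end Pool.Agent.Work.MP_a20dfd
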