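import Pool.Agent.Work.MP_a20dfd.ExDefs

/-!
Block COM of MP_a20dfd_al (helper77): the left and right operators commute.
-/

namespace Pool.Agent.Work.MP_a20dfd

open LaurentPolynomial

namespace XCOM

variable {B W : Type} [Group W] {M : CoxeterMatrix B}

open Classical in
theorem Lop_single (cs : CoxeterSystem M W) (i : B) (w : W) :
    Lop cs i (Finsupp.single w 1) =
      if cs.length w < cs.length (cs.simple i * w) then Finsupp.single (cs.simple i * w) (1 : A)
      else Finsupp.single (cs.simple i * w) (1 : A) +
        (T (-1) - T 1 : A) • Finsupp.single w (1 : A) := by
  unfold Lop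
  rw [Finsupp.linearCombination_single, one_smul]

open Classical in
theorem Rop_single (cs : CoxeterSystem M W) (i : B) (w : W) :
    Rop cs i (Finsupp.single w 1) =
      if cs.length w < cs.length (w * cs.simple i) then Finsupp.single (w * cs.simple i) (1 : A)
      else Finsupp.single (w * cs.simple i) (1 : A) +
        (T (-1) - T 1 : A) • Finsupp.single w (1 : A) := by
  unfold Rop
  rw [Finsupp.linearCombination_single, one_smul]

end XCOM

open XCOM in
theorem p_COM (hLFT : Stmt_LFT) : Stmt_COM := by
  classical
  intro B W _ M cs i j
  refine Finsupp.lhom_ext' fun w => LinearMap.ext_ring ?_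
  simp only [LinearMap.comp_apply, Finsupp.lsingle_apply]
  have h1 := cs.length_simple_mul w i
  have h2 := cs.length_mul_simple w j
  have h3 := cs.length_simple_mul (w * cs.simple j) i
  have h4 := cs.length_mul_simple (cs.simple i * w) j
  rw [← mul_assoc] at h3
  rw [Rop_single, Lop_single]
  by_cases hA : cs.length w < cs.length (cs.simple i * w)
  · by_cases hB : cs.length w < cs.length (w * cs.simple j)
    · rw [if_pos hA, if_pos hB, Lop_single, Rop_single, ← mul_assoc]
      by_cases hC : cs.length (w * cs.simple j) < cs.length (cs.simple i * w * cs.simple j)
      · rw [if_pos hC, if_pos (by omega)]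
      · have hl : cs.simple i * w = w * cs.simple j := hLFT cs w i j hA hB (by omega)
        rw [if_neg hC, if_neg (by omega), hl]
    · rw [if_pos hA, if_neg hB, Rop_single, map_add, map_smul, Lop_single, Lop_single,
        ← mul_assoc, if_pos (by omega), if_pos hA, if_neg (by omega)]
  · by_cases hB : cs.length w < cs.length (w * cs.simple j)
    · rw [if_neg hA, if_pos hB, Lop_single, map_add, map_smul, Rop_single, Rop_single,
        ← mul_assoc, if_neg (by omega), if_pos (by omega), if_pos hB]
    · rw [if_neg hA, if_neg hB, map_add, map_smul, map_add, map_smul, Lop_single, Lop_single,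
        Rop_single, Rop_single, ← mul_assoc, if_neg hA, if_neg hB]
      by_cases hC : cs.length (w * cs.simple j) < cs.length (cs.simple i * w * cs.simple j)
      · have hl : cs.simple i * (w * cs.simple j) = (w * cs.simple j) * cs.simple j := by
          apply hLFT cs (w * cs.simple j) i j
          · rw [← mul_assoc]; exact hC
          · rw [cs.simple_mul_simple_cancel_right]; omega
          · rw [← mul_assoc, cs.simple_mul_simple_cancel_right,
              cs.simple_mul_simple_cancel_right]
            omega
        rw [cs.simple_mul_simple_cancel_right, ← mul_assoc] at hl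
        have hl2 : cs.simple i * w = w * cs.simple j := by
          calc cs.simple i * w = (cs.simple i * w * cs.simple j) * cs.simple j := by
                rw [cs.simple_mul_simple_cancel_right]
            _ = _ := by rw [hl]
        rw [if_pos hC, if_pos (by omega), hl2]
      · rw [if_neg hC, if_neg (by omega)]
        simp only [smul_add]
        abel

end Pool.Agent.Work.MP_a20dfd
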