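import Pool.Agent.Work.MP_a20dfd.ExDefs

namespace Pool.Agent.Work.MP_a20dfd

open LaurentPolynomial

namespace XHCK

variable {B W : Type} [Group W] {M : CoxeterMatrix B} (cs : CoxeterSystem M W)

lemma Lop_up (i : B) (w : W) (h : cs.length w < cs.length (cs.simple i * w)) :
    Lop cs i (Finsupp.single w (1 : A)) = Finsupp.single (cs.simple i * w) (1 : A) := by
  rw [Lop, Finsupp.linearCombination_single, one_smul, if_pos h]

lemma Lop_down (i : B) (w : W) (h : cs.length (cs.simple i * w) < cs.length w) :
    Lop cs i (Finsupp.single w (1 : A)) = Finsupp.single (cs.simple i * w) (1 : A) +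
      (T (-1) - T 1 : A) • Finsupp.single w (1 : A) := by
  rw [Lop, Finsupp.linearCombination_single, one_smul, if_neg (by omega)]

lemma Rop_up (i : B) (w : W) (h : cs.length w < cs.length (w * cs.simple i)) :
    Rop cs i (Finsupp.single w (1 : A)) = Finsupp.single (w * cs.simple i) (1 : A) := by
  rw [Rop, Finsupp.linearCombination_single, one_smul, if_pos h]

/-- the algebra generated by the left operators -/
noncomputable def Lad : Subalgebra A (Module.End A (W →₀ A)) :=
  Algebra.adjoin A (Set.range (Lop cs))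

lemma comm_of_mem (hCOM : Stmt_COM) {f : Module.End A (W →₀ A)} (hf : f ∈ Lad cs) (j : B) :
    Rop cs j * f = f * Rop cs j := by
  have h1 : Lad cs ≤ Subalgebra.centralizer A (Set.range (Rop cs)) := by
    apply Algebra.adjoin_le
    rintro _ ⟨i, rfl⟩
    rw [SetLike.mem_coe, Subalgebra.mem_centralizer_iff]
    rintro _ ⟨k, rfl⟩
    exact (hCOM cs i k).symm
  have h2 := h1 hf
  rw [Subalgebra.mem_centralizer_iff] at h2
  exact h2 _ ⟨j, rfl⟩

/-- evaluation at the first basis vector -/
noncomputable def ev : Lad cs →ₗ[A] (W →₀ A) where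
  toFun f := (f : Module.End A (W →₀ A)) (Finsupp.single (1 : W) (1 : A))
  map_add' f g := rfl
  map_smul' c f := rfl

lemma ev_inj (hCOM : Stmt_COM) : Function.Injective (ev cs) := by
  intro f g hfg
  have h1 : ∀ n : ℕ, ∀ w : W, cs.length w = n →
      (f : Module.End A (W →₀ A)) (Finsupp.single w (1 : A)) =
        (g : Module.End A (W →₀ A)) (Finsupp.single w (1 : A)) := by
    intro n
    induction n using Nat.strong_induction_on with
    | _ n ih =>
      intro w hw
      by_cases h0 : w = 1
      · subst h0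
        exact hfg
      · obtain ⟨j, hj⟩ := cs.exists_rightDescent_of_ne_one h0
        have hj' : cs.length (w * cs.simple j) < cs.length w := hj
        have h2 := ih _ (hw ▸ hj') (w * cs.simple j) rfl
        have h3 : w * cs.simple j * cs.simple j = w := by
          rw [mul_assoc, cs.simple_mul_simple_self, mul_one]
        have h4 : Rop cs j (Finsupp.single (w * cs.simple j) (1 : A)) =
            Finsupp.single w (1 : A) := by
          rw [Rop_up cs j (w * cs.simple j) (by rw [h3]; exact hj'), h3]
        have h5 := congrArg (fun g : Module.End A (W →₀ A) =>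
          g (Finsupp.single (w * cs.simple j) (1 : A))) (comm_of_mem cs hCOM f.2 j)
        have h6 := congrArg (fun g : Module.End A (W →₀ A) =>
          g (Finsupp.single (w * cs.simple j) (1 : A))) (comm_of_mem cs hCOM g.2 j)
        simp only [Module.End.mul_apply] at h5 h6
        rw [h4] at h5 h6
        rw [← h5, ← h6, h2]
  apply Subtype.ext
  apply Finsupp.lhom_ext'
  intro w
  apply LinearMap.ext_ring
  simpa using h1 _ w rfl

lemma ev_surj : Function.Surjective (ev cs) := by
  have h1 : ∀ n : ℕ, ∀ w : W, cs.length w = n → ∃ f, ev cs f = Finsupp.single w (1 : A) := by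
    intro n
    induction n using Nat.strong_induction_on with
    | _ n ih =>
      intro w hw
      by_cases h0 : w = 1
      · subst h0
        exact ⟨1, rfl⟩
      · obtain ⟨j, hj⟩ := cs.exists_leftDescent_of_ne_one h0
        have hj' : cs.length (cs.simple j * w) < cs.length w := hj
        obtain ⟨f, hf⟩ := ih _ (hw ▸ hj') (cs.simple j * w) rfl
        have h3 : cs.simple j * (cs.simple j * w) = w := by
          rw [← mul_assoc, cs.simple_mul_simple_self, one_mul]
        refine ⟨⟨Lop cs j, Algebra.subset_adjoin ⟨j, rfl⟩⟩ * f, ?_⟩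
        have h6 : ev cs (⟨Lop cs j, Algebra.subset_adjoin ⟨j, rfl⟩⟩ * f) =
          Lop cs j (ev cs f) := rfl
        rw [h6, hf, Lop_up cs j (cs.simple j * w) (by rw [h3]; exact hj'), h3]
  intro v
  induction v using Finsupp.induction_linear with
  | zero => exact ⟨0, map_zero _⟩
  | add f g hf hg =>
    obtain ⟨a, ha⟩ := hf
    obtain ⟨b, hb⟩ := hg
    exact ⟨a + b, by rw [map_add, ha, hb]⟩
  | single w c =>
    obtain ⟨f, hf⟩ := h1 _ w rfl
    refine ⟨c • f, ?_⟩
    rw [map_smul, hf, Finsupp.smul_single, smul_eq_mul, mul_one]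

/-- evaluation as a linear equivalence -/
noncomputable def evE (hCOM : Stmt_COM) : Lad cs ≃ₗ[A] (W →₀ A) :=
  LinearEquiv.ofBijective (ev cs) ⟨ev_inj cs hCOM, ev_surj cs⟩

/-- the standard basis -/
noncomputable def stdB (hCOM : Stmt_COM) : Module.Basis W A (Lad cs) :=
  Module.Basis.ofRepr (evE cs hCOM)

lemma ev_std (hCOM : Stmt_COM) (w : W) :
    ev cs (stdB cs hCOM w) = Finsupp.single w (1 : A) := by
  have h := (stdB cs hCOM).repr_self w
  exact h

lemma std_simple (hCOM : Stmt_COM) (i : B) :
    stdB cs hCOM (cs.simple i) = ⟨Lop cs i, Algebra.subset_adjoin ⟨i, rfl⟩⟩ := by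
  apply ev_inj cs hCOM
  rw [ev_std]
  have h6 : ev cs ⟨Lop cs i, Algebra.subset_adjoin ⟨i, rfl⟩⟩ =
    Lop cs i (Finsupp.single (1 : W) (1 : A)) := rfl
  rw [h6, Lop_up cs i 1 (by simp [cs.length_simple]), mul_one]

/-- the ring structure -/
noncomputable instance ringLad : Ring (Lad cs) := Algebra.semiringToRing A

/-- the algebra structure -/
noncomputable instance algLad : @Algebra A (Lad cs) _ (ringLad cs).toSemiring :=
  inferInstanceAs (Algebra A (Lad cs))

end XHCK

open XHCK in
theorem p_HCK (hCOM : Stmt_COM) : Stmt_HCK := by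
  intro B W _ M cs
  refine ⟨{ H := Lad cs, ring := ringLad cs, alg := algLad cs, std := stdB cs hCOM, std_one := ?_, std_up := ?_, std_down := ?_ }⟩
  · apply ev_inj cs hCOM
    rw [ev_std]
    rfl
  · intro i w h
    apply ev_inj cs hCOM
    rw [std_simple, ev_std]
    have h6 : ev cs ((⟨Lop cs i, Algebra.subset_adjoin ⟨i, rfl⟩⟩ : Lad cs) * stdB cs hCOM w) =
      Lop cs i (ev cs (stdB cs hCOM w)) := rfl
    rw [h6, ev_std, Lop_up cs i w h]
  · intro i w h
    apply ev_inj cs hCOM
    rw [std_simple, map_add, map_smul, ev_std, ev_std]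
    have h6 : ev cs ((⟨Lop cs i, Algebra.subset_adjoin ⟨i, rfl⟩⟩ : Lad cs) * stdB cs hCOM w) =
      Lop cs i (ev cs (stdB cs hCOM w)) := rfl
    rw [h6, ev_std, Lop_down cs i w h]

end Pool.Agent.Work.MP_a20dfd
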