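import Pool.Agent.Work.MP_a20dfd.ExDefs

/-!
# MP_a20dfd_al, block KLB: a unitriangular family is a basis
-/

set_option autoImplicit false

namespace Pool.Agent.Work.MP_a20dfd

theorem p_KLB : Stmt_KLB := by
  classical
  intro W H _ _ _ l std c h1 h0
  have hli : LinearIndependent A c := by
    rw [Fintype.linearIndependent_iff]
    intro a ha
    by_contra hcon
    push Not at hcon
    obtain ⟨w₀, hw₀⟩ := hcon
    obtain ⟨w, hw, hmax⟩ := (Finset.univ.filter fun w => a w ≠ 0).exists_max_image l
      ⟨w₀, by simpa using hw₀⟩
    rw [Finset.mem_filter] at hw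
    have h2 : std.repr (∑ u : W, a u • c u) w = a w := by
      rw [map_sum, Finsupp.finsetSum_apply, Finset.sum_eq_single w]
      · rw [map_smul, Finsupp.smul_apply, h1, smul_eq_mul, mul_one]
      · intro u _ hu
        rw [map_smul, Finsupp.smul_apply, smul_eq_mul]
        by_cases hau : a u = 0
        · rw [hau, zero_mul]
        · rw [h0 u w hu.symm (hmax u (by rw [Finset.mem_filter]; exact ⟨Finset.mem_univ _, hau⟩)), mul_zero]
      · intro h
        exact absurd (Finset.mem_univ _) h
    rw [ha, map_zero, Finsupp.zero_apply] at h2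
    exact hw.2 h2.symm
  have hsp : ∀ n : ℕ, ∀ w : W, l w ≤ n → std w ∈ Submodule.span A (Set.range c) := by
    intro n
    induction n using Nat.strong_induction_on with
    | _ n ih =>
      intro w hw
      have h2 : c w = std w + ∑ y ∈ Finset.univ.erase w, std.repr (c w) y • std y := by
        conv_lhs => rw [← std.sum_repr (c w)]
        rw [← Finset.add_sum_erase _ _ (Finset.mem_univ w), h1, one_smul]
      have h3 : std w = c w - ∑ y ∈ Finset.univ.erase w, std.repr (c w) y • std y :=
        eq_sub_of_add_eq h2.symm
      rw [h3]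
      apply Submodule.sub_mem
      · exact Submodule.subset_span ⟨w, rfl⟩
      · apply Submodule.sum_mem
        intro y hy
        rw [Finset.mem_erase] at hy
        by_cases hly : l w ≤ l y
        · rw [h0 w y hy.1 hly, zero_smul]
          exact Submodule.zero_mem _
        · exact Submodule.smul_mem _ _ (ih (l y) (by omega) y le_rfl)
  refine ⟨Module.Basis.mk hli ?_, fun w => Module.Basis.mk_apply hli _ w⟩
  rw [← std.span_eq, Submodule.span_le]
  rintro x ⟨w, rfl⟩
  exact hsp (l w) w le_rfl

end Pool.Agent.Work.MP_a20dfd
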