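import Pool.Agent.Work.MP_a20dfd.ExDefs

namespace Pool.Agent.Work.MP_a20dfd

open LaurentPolynomial

theorem p_KLX (hHCK : Stmt_HCK) (hBAR : Stmt_BAR) (hKLE : Stmt_KLE) (hKLB : Stmt_KLB) :
    Stmt_KLX := by
  intro B W _ _ M cs
  obtain ⟨K⟩ := hHCK cs
  obtain ⟨bar, hb⟩ := hBAR K
  choose c hc1 hc2 hc3 hc4 using hKLE K bar hb
  obtain ⟨b, hbb⟩ := hKLB cs.length K.std c hc2 hc4
  refine ⟨{ H := K.H, std := K.std, std_one := K.std_one, std_mul := ?_, std_sq := ?_,
            bar := bar, bar_smul := hb.1, bar_std := hb.2, kl := b, bar_kl := ?_,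
            kl_self := ?_, kl_lt := ?_ }⟩
  · intro i w h
    exact K.std_up i w (by omega)
  · intro i
    have h1 := K.std_down i (cs.simple i) (by
      rw [cs.simple_mul_simple_self, cs.length_one, cs.length_simple]; exact one_pos)
    rw [cs.simple_mul_simple_self, K.std_one] at h1
    exact h1
  · intro w
    rw [hbb, hc1]
  · intro w
    rw [hbb, hc2]
  · intro y w hyw k hk
    rw [hbb]
    exact hc3 w y hyw k hk

end Pool.Agent.Work.MP_a20dfd
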