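import Pool.Agent.Work.MP_a20dfd.ExDefs

namespace Pool.Agent.Work.MP_a20dfd

theorem p_LFT (hEXC : Stmt_EXC) : Stmt_LFT := by
  intro B W _ M cs w i j h1 h2 h3
  obtain ⟨ω, hω, hωw⟩ := cs.exists_isReduced w
  have hωl : ω.length = cs.length w := by rw [hωw, hω.eq]
  have hprod : cs.wordProd (ω ++ [j]) = w * cs.simple j := by
    rw [cs.wordProd_append, cs.wordProd_singleton, ← hωw]
  set u := w * cs.simple j with hu
  have hut : u * (u⁻¹ * cs.simple i * u) = cs.simple i * w * cs.simple j := by
    rw [hu]; group
  have hrefl : cs.IsReflection (u⁻¹ * cs.simple i * u) := ⟨u⁻¹, i, by rw [inv_inv]⟩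
  obtain ⟨k, hk, hke⟩ := hEXC cs (ω ++ [j]) (u⁻¹ * cs.simple i * u) hrefl
    (by rw [hprod, hut]; exact h3)
  rw [hprod, hut] at hke
  rcases lt_or_ge k ω.length with hkω | hkω
  · exfalso
    rw [List.eraseIdx_append_of_lt_length hkω, cs.wordProd_append, cs.wordProd_singleton] at hke
    have h4 := mul_right_cancel hke
    have h5 := cs.length_wordProd_le (ω.eraseIdx k)
    rw [← h4, List.length_eraseIdx_of_lt hkω] at h5
    omega
  · rw [List.eraseIdx_append_of_length_le hkω, cs.wordProd_append, ← hωw] at hke
    have hk0 : k - ω.length = 0 := by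
      simp only [List.length_append, List.length_singleton] at hk
      omega
    rw [hk0] at hke
    simp only [List.eraseIdx_zero, List.tail_cons, cs.wordProd_nil, mul_one] at hke
    have h6 : cs.simple i * w * cs.simple j * cs.simple j = w * cs.simple j := by rw [hke]
    rw [mul_assoc (cs.simple i * w), cs.simple_mul_simple_self, mul_one] at h6
    exact h6

end Pool.Agent.Work.MP_a20dfd
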