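import Pool.Agent.Work.MP_a20dfd.ExDefs

/-! # MUS: multiplication rules -/

set_option autoImplicit false

namespace Pool.Agent.Work.MP_a20dfd

open LaurentPolynomial

namespace XMUS

variable {B W : Type} [Group W] {M : CoxeterMatrix B} {cs : CoxeterSystem M W} (K : HS cs)

theorem sq (i : B) : K.std (cs.simple i) * K.std (cs.simple i) =
    1 + (T (-1) - T 1 : A) • K.std (cs.simple i) := by
  have h := K.std_down i (cs.simple i) (by
    rw [cs.simple_mul_simple_self, cs.length_one, cs.length_simple]
    exact Nat.one_pos)
  rw [cs.simple_mul_simple_self, K.std_one] at h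
  exact h

theorem mul_aux : ∀ (n : ℕ) (x y : W), cs.length x = n →
    cs.length (x * y) = cs.length x + cs.length y → K.std x * K.std y = K.std (x * y) := by
  intro n
  induction n with
  | zero =>
    intro x y hx _
    have h1 : x = 1 := cs.length_eq_zero_iff.1 hx
    rw [h1, K.std_one, one_mul, one_mul]
  | succ n ih =>
    intro x y hx hxy
    have hx1 : x ≠ 1 := by
      rintro rfl
      rw [cs.length_one] at hx
      omega
    obtain ⟨i, hi⟩ := cs.exists_leftDescent_of_ne_one hx1
    rw [cs.isLeftDescent_iff] at hi
    have hsx : cs.simple i * (cs.simple i * x) = x := by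
      rw [← mul_assoc, cs.simple_mul_simple_self, one_mul]
    have hsxy : cs.simple i * (cs.simple i * x * y) = x * y := by
      rw [← mul_assoc, hsx]
    have h1 := cs.length_mul_le (cs.simple i * x) y
    have h2 := cs.length_mul_le (cs.simple i) (cs.simple i * x * y)
    rw [hsxy, cs.length_simple] at h2
    have h3 : cs.length (cs.simple i * x * y) =
        cs.length (cs.simple i * x) + cs.length y := by omega
    have h4 := ih (cs.simple i * x) y (by omega) h3
    have h5 := K.std_up i (cs.simple i * x) (by rw [hsx]; omega)
    have h6 := K.std_up i (cs.simple i * x * y) (by rw [hsxy]; omega)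
    rw [hsx] at h5
    rw [hsxy] at h6
    rw [← h5, mul_assoc, h4, h6]

theorem up (w : W) (i : B) (h : cs.length w < cs.length (w * cs.simple i)) :
    K.std w * K.std (cs.simple i) = K.std (w * cs.simple i) := by
  refine mul_aux K _ w (cs.simple i) rfl ?_
  rw [cs.length_simple]
  rcases cs.length_mul_simple w i with h1 | h1 <;> omega

theorem down (w : W) (i : B) (h : cs.length (w * cs.simple i) < cs.length w) :
    K.std w * K.std (cs.simple i) =
      K.std (w * cs.simple i) + (T (-1) - T 1 : A) • K.std w := by
  have hws : w * cs.simple i * cs.simple i = w := by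
    rw [mul_assoc, cs.simple_mul_simple_self, mul_one]
  have h1 := up K (w * cs.simple i) i (by rw [hws]; exact h)
  rw [hws] at h1
  calc K.std w * K.std (cs.simple i)
      = K.std (w * cs.simple i) * (K.std (cs.simple i) * K.std (cs.simple i)) := by
        rw [← mul_assoc, h1]
    _ = K.std (w * cs.simple i) + (T (-1) - T 1 : A) • K.std w := by
        rw [sq, mul_add, mul_one, mul_smul_comm, h1]

end XMUS

theorem p_MUS : Stmt_MUS := by
  intro B W _ M cs K
  exact ⟨fun x y h => XMUS.mul_aux K _ x y rfl h, fun w i h => XMUS.up K w i h,
    fun w i h => XMUS.down K w i h, fun i => XMUS.sq K i⟩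

end Pool.Agent.Work.MP_a20dfd
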