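import Pool.Agent.Work.MP_a20dfd.ExDefs

/-!
# Block TRS: the bar involution is unitriangular
-/

set_option autoImplicit false

namespace Pool.Agent.Work.MP_a20dfd

open LaurentPolynomial

namespace XTRS

section

variable {B W : Type} [Group W] {M : CoxeterMatrix B} {cs : CoxeterSystem M W}

/-- the elements with coordinates `0` at all elements of length at least `m` -/
def U (K : HS cs) (m : ℕ) : Submodule A K.H where
  carrier := {x | ∀ y, m ≤ cs.length y → K.std.repr x y = 0}
  add_mem' := by
    intro a b ha hb y hy
    rw [map_add, Finsupp.add_apply, ha y hy, hb y hy, add_zero]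
  zero_mem' := by
    intro y _
    rw [map_zero, Finsupp.zero_apply]
  smul_mem' := by
    intro c x hx y hy
    rw [map_smul, Finsupp.smul_apply, hx y hy, smul_zero]

theorem U_mono (K : HS cs) {m m' : ℕ} (h : m ≤ m') : U K m ≤ U K m' :=
  fun _ hx y hy => hx y (h.trans hy)

theorem std_mem (K : HS cs) {m : ℕ} {z : W} (h : cs.length z < m) : K.std z ∈ U K m := by
  classical
  intro y hy
  rw [Module.Basis.repr_self, Finsupp.single_apply, if_neg]
  rintro rfl
  omega

theorem mul_mem (K : HS cs) (i : B) {m : ℕ} {x : K.H} (hx : x ∈ U K m) :
    K.std (cs.simple i) * x ∈ U K (m + 1) := by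
  classical
  rw [← K.std.linearCombination_repr x, Finsupp.linearCombination_apply, Finsupp.sum, Finset.mul_sum]
  refine Submodule.sum_mem _ fun z hz => ?_
  rw [mul_smul_comm]
  apply Submodule.smul_mem
  have hz1 : cs.length z < m := by
    by_contra hc
    exact (Finsupp.mem_support_iff.1 hz) (hx z (not_lt.1 hc))
  rcases cs.length_simple_mul z i with h | h
  · rw [K.std_up i z (by omega)]
    exact std_mem K (by omega)
  · rw [K.std_down i z (by omega)]
    exact Submodule.add_mem _ (std_mem K (by omega)) (Submodule.smul_mem _ _ (std_mem K (by omega)))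

end

end XTRS

theorem p_TRS (hMUS : Stmt_MUS) : Stmt_TRS := by
  classical
  intro B W _ M cs K bar hbar
  have h1 : ∀ i : B, bar (K.std (cs.simple i)) =
      K.std (cs.simple i) + (T 1 - T (-1) : A) • (1 : K.H) := by
    intro i
    have hsq := (hMUS K).2.2.2 i
    have hinv : K.std (cs.simple i) * (K.std (cs.simple i) + (T 1 - T (-1) : A) • (1 : K.H)) = 1 := by
      rw [mul_add, mul_smul_comm, mul_one, hsq, add_assoc, ← add_smul]
      have e : (T (-1) - T 1 : A) + (T 1 - T (-1)) = 0 := by ring
      rw [e, zero_smul, add_zero]
    calc bar (K.std (cs.simple i))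
        = bar (K.std (cs.simple i)) *
            (K.std (cs.simple i) * (K.std (cs.simple i) + (T 1 - T (-1) : A) • (1 : K.H))) := by
          rw [hinv, mul_one]
      _ = _ := by rw [← mul_assoc, hbar.2 i, one_mul]
  refine ⟨h1, ?_⟩
  have key : ∀ n : ℕ, ∀ w : W, cs.length w = n → bar (K.std w) - K.std w ∈ XTRS.U K n := by
    intro n
    induction n with
    | zero =>
      intro w hw
      rw [cs.length_eq_zero_iff] at hw
      subst hw
      rw [K.std_one, map_one, sub_self]
      exact Submodule.zero_mem _
    | succ n ih =>
      intro w hw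
      have hw1 : w ≠ 1 := by
        rintro rfl
        rw [cs.length_one] at hw
        omega
      obtain ⟨i, hi⟩ := cs.exists_leftDescent_of_ne_one hw1
      have hi' : cs.length (cs.simple i * w) < cs.length w := hi
      have hl : cs.length (cs.simple i * w) = n := by
        rcases cs.length_simple_mul w i with h | h <;> omega
      have hww : cs.simple i * (cs.simple i * w) = w := cs.simple_mul_simple_cancel_left i
      have hr := ih _ hl
      have hstd : K.std w = K.std (cs.simple i) * K.std (cs.simple i * w) := by
        have := K.std_up i (cs.simple i * w) (by rw [hww]; exact hi')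
        rw [this, hww]
      have e : bar (K.std w) - K.std w =
          K.std (cs.simple i) * (bar (K.std (cs.simple i * w)) - K.std (cs.simple i * w)) +
          (T 1 - T (-1) : A) • (K.std (cs.simple i * w) +
            (bar (K.std (cs.simple i * w)) - K.std (cs.simple i * w))) := by
        conv_lhs => rw [hstd, map_mul, h1 i]
        rw [add_mul, smul_mul_assoc, one_mul, mul_sub, add_sub_cancel]
        abel
      rw [e]
      refine Submodule.add_mem _ (XTRS.mul_mem K i hr) (Submodule.smul_mem _ _ (Submodule.add_mem _ ?_ ?_))
      · exact XTRS.std_mem K (by omega)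
      · exact XTRS.U_mono K (Nat.le_succ n) hr
  intro w
  have hk := key _ w rfl
  have hc : ∀ y, cs.length w ≤ cs.length y → K.std.repr (bar (K.std w)) y = K.std.repr (K.std w) y := by
    intro y hy
    have := hk y hy
    rw [map_sub, Finsupp.sub_apply, sub_eq_zero] at this
    exact this
  refine ⟨?_, fun y hy hl => ?_⟩
  · rw [hc w le_rfl, Module.Basis.repr_self, Finsupp.single_eq_same]
  · rw [hc y hl, Module.Basis.repr_self, Finsupp.single_apply, if_neg (fun h => hy h.symm)]

end Pool.Agent.Work.MP_a20dfd
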