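import Pool.Agent.Work.MP_a20dfd.B_ADD
import Pool.Agent.Work.MP_a20dfd.B_AIN
import Pool.Agent.Work.MP_a20dfd.B_ASC
import Pool.Agent.Work.MP_a20dfd.B_AZF
import Pool.Agent.Work.MP_a20dfd.B_BRU
import Pool.Agent.Work.MP_a20dfd.B_CBX
import Pool.Agent.Work.MP_a20dfd.B_CDN
import Pool.Agent.Work.MP_a20dfd.B_CSI
import Pool.Agent.Work.MP_a20dfd.B_CUP
import Pool.Agent.Work.MP_a20dfd.B_CUR
import Pool.Agent.Work.MP_a20dfd.B_CYC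
import Pool.Agent.Work.MP_a20dfd.B_DEC
import Pool.Agent.Work.MP_a20dfd.B_DGB
import Pool.Agent.Work.MP_a20dfd.B_DSC
import Pool.Agent.Work.MP_a20dfd.B_DUF
import Pool.Agent.Work.MP_a20dfd.B_EDG
import Pool.Agent.Work.MP_a20dfd.B_EXC
import Pool.Agent.Work.MP_a20dfd.B_FIN
import Pool.Agent.Work.MP_a20dfd.B_FLK
import Pool.Agent.Work.MP_a20dfd.B_FLT
import Pool.Agent.Work.MP_a20dfd.B_GEN
import Pool.Agent.Work.MP_a20dfd.B_HRL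
import Pool.Agent.Work.MP_a20dfd.B_LLE
import Pool.Agent.Work.MP_a20dfd.B_LON
import Pool.Agent.Work.MP_a20dfd.B_LPF
import Pool.Agent.Work.MP_a20dfd.B_NDF
import Pool.Agent.Work.MP_a20dfd.B_NFO
import Pool.Agent.Work.MP_a20dfd.B_NZR
import Pool.Agent.Work.MP_a20dfd.B_PAR
import Pool.Agent.Work.MP_a20dfd.B_PFO
import Pool.Agent.Work.MP_a20dfd.B_PON
import Pool.Agent.Work.MP_a20dfd.B_PTH
import Pool.Agent.Work.MP_a20dfd.B_QDN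
import Pool.Agent.Work.MP_a20dfd.B_RED
import Pool.Agent.Work.MP_a20dfd.B_SYM
import Pool.Agent.Work.MP_a20dfd.B_TAU
import Pool.Agent.Work.MP_a20dfd.B_TRC
import Pool.Agent.Work.MP_a20dfd.B_TRI
import Pool.Agent.Work.MP_a20dfd.B_UNQ
import Pool.Agent.Work.MP_a20dfd.X_BAR
import Pool.Agent.Work.MP_a20dfd.X_COM
import Pool.Agent.Work.MP_a20dfd.X_HCK
import Pool.Agent.Work.MP_a20dfd.X_KLB
import Pool.Agent.Work.MP_a20dfd.X_KLE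
import Pool.Agent.Work.MP_a20dfd.X_KLX
import Pool.Agent.Work.MP_a20dfd.X_LFT
import Pool.Agent.Work.MP_a20dfd.X_MUS
import Pool.Agent.Work.MP_a20dfd.X_TRS
import Pool.Agent.Work.MP_a20dfd.Main

/-!
MP_a20dfd_al: the chain of all blocks (assembly, helper35).
-/

set_option autoImplicit false

namespace Pool.Agent.Work.MP_a20dfd

theorem q_EXC : Stmt_EXC := p_EXC
theorem q_PAR : Stmt_PAR := p_PAR q_EXC
theorem q_ADD : Stmt_ADD := p_ADD q_EXC q_PAR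
theorem q_DEC : Stmt_DEC := p_DEC q_PAR q_ADD
theorem q_LON : Stmt_LON := p_LON q_EXC
theorem q_CBX : Stmt_CBX := p_CBX q_ADD q_LON
theorem q_HRL : Stmt_HRL := p_HRL
theorem q_TAU : Stmt_TAU := p_TAU q_HRL
theorem q_FLT : Stmt_FLT := p_FLT q_HRL
theorem q_BRU : Stmt_BRU := p_BRU q_HRL
theorem q_UNQ : Stmt_UNQ := p_UNQ q_BRU
theorem q_TRI : Stmt_TRI := p_TRI q_BRU
theorem q_FLK : Stmt_FLK := p_FLK q_FLT q_UNQ
theorem q_SYM : Stmt_SYM := p_SYM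
theorem q_CSI : Stmt_CSI := p_CSI q_UNQ q_HRL
theorem q_CUP : Stmt_CUP := p_CUP q_CSI q_HRL q_TRI q_UNQ
theorem q_CDN : Stmt_CDN := p_CDN q_CSI q_CUP q_HRL q_TRI
theorem q_DSC : Stmt_DSC := p_DSC q_CUP q_CDN q_FLK
theorem q_CUR : Stmt_CUR := p_CUR q_CUP q_CDN q_FLK
theorem q_RED : Stmt_RED := p_RED q_HRL q_TRI
theorem q_ASC : Stmt_ASC := p_ASC
theorem q_TRC : Stmt_TRC := p_TRC q_TAU
theorem q_LPF : Stmt_LPF := p_LPF
theorem q_AZF : Stmt_AZF := p_AZF q_LPF q_SYM q_CSI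
theorem q_AIN : Stmt_AIN := p_AIN q_AZF q_FLK
theorem q_EDG : Stmt_EDG := p_EDG q_LPF q_ASC q_CUP q_DSC
theorem q_GEN : Stmt_GEN := p_GEN q_LPF q_ASC q_CUP q_CDN q_CSI
theorem q_PFO : Stmt_PFO := p_PFO q_EDG q_GEN q_AZF q_AIN q_FLK
theorem q_PON : Stmt_PON := p_PON q_LPF q_TRC q_SYM q_AZF
theorem q_PTH : Stmt_PTH := p_PTH q_LPF q_TRC q_AZF q_PON
theorem q_CYC : Stmt_CYC := p_CYC q_LPF q_ASC q_AZF q_PFO q_PTH q_AIN
theorem q_QDN : Stmt_QDN := p_QDN q_PTH q_CYC q_PFO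
theorem q_DUF : Stmt_DUF := p_DUF q_PTH q_QDN q_CYC q_FLK q_SYM q_AIN
theorem q_LLE : Stmt_LLE := p_LLE q_GEN q_EDG q_DUF
theorem q_DGB : Stmt_DGB := p_DGB q_LPF q_ASC q_PAR q_CUR
theorem q_NDF : Stmt_NDF := p_NDF q_LPF q_TRC q_PON q_PFO q_DGB
theorem q_NZR : Stmt_NZR := p_NZR q_CUR q_CSI q_HRL q_ADD
theorem q_NFO : Stmt_NFO := p_NFO q_HRL q_TAU q_DEC q_ADD q_FLK
theorem q_FIN : Stmt_FIN :=
  p_FIN q_LPF q_CBX q_RED q_DUF q_LLE q_NDF q_NZR q_NFO q_DSC q_PFO q_ASC q_FLK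
theorem q_NEX : Stmt_NEX := p_NEX q_LPF
theorem q_MAIN : Stmt_MAIN := p_MAIN q_CBX q_FIN q_NEX

theorem q_LFT : Stmt_LFT := p_LFT q_EXC
theorem q_COM : Stmt_COM := p_COM q_LFT
theorem q_HCK : Stmt_HCK := p_HCK q_COM
theorem q_MUS : Stmt_MUS := p_MUS
theorem q_BAR : Stmt_BAR := p_BAR q_MUS
theorem q_TRS : Stmt_TRS := p_TRS q_MUS
theorem q_KLE : Stmt_KLE := p_KLE q_TRS
theorem q_KLB : Stmt_KLB := p_KLB
theorem q_KLX : Stmt_KLX := p_KLX q_HCK q_BAR q_KLE q_KLB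

end Pool.Agent.Work.MP_a20dfd
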