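import Pool.Agent.Work.MP_a20dfd.Interface2

/-! Block CYC of MP_a20dfd_al (cyclicity). -/

namespace Pool.Agent.Work.MP_a20dfd

open LaurentPolynomial

theorem p_CYC (hLPF : Stmt_LPF) (hASC : Stmt_ASC) (hAZF : Stmt_AZF) (hPFO : Stmt_PFO)
    (hPTH : Stmt_PTH) (hAIN : Stmt_AIN) : Stmt_CYC := by
  intro B W _ _ M cs K hP x y z d hd h1 h2 had
  obtain ⟨f1, f2, f3, f4, f5, f6, f7⟩ := hLPF
  have hh := hP.2
  have hasc := hASC K x y z⁻¹ d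
  have pos1 : 0 < co (K.h x y z) (-(K.a z : ℤ)) := lt_of_le_of_ne (hh x y z _) (Ne.symm h1)
  have pos2 : 0 < co (K.h z z⁻¹ d) (-(K.a d : ℤ)) := lt_of_le_of_ne (hh z z⁻¹ d _) (Ne.symm h2)
  have g1 : 0 < co (K.h x y z * K.h z z⁻¹ d) (-(K.a z : ℤ) + -(K.a d : ℤ)) :=
    lt_of_lt_of_le (mul_pos pos1 pos2) (f2 _ _ (hh x y z) (hh z z⁻¹ d) _ _)
  have g2 := (f5 Finset.univ (fun w => K.h x y w * K.h w z⁻¹ d)
    (fun w _ => f1 _ _ (hh x y w) (hh w z⁻¹ d))).2 z (Finset.mem_univ z)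
    (-(K.a z : ℤ) + -(K.a d : ℤ))
  have g3 : co (∑ w : W, K.h y z⁻¹ w * K.h x w d) (-(K.a z : ℤ) + -(K.a d : ℤ)) ≠ 0 := by
    rw [← hasc]
    exact (lt_of_lt_of_le g1 g2).ne'
  rw [f4 Finset.univ (fun w => K.h y z⁻¹ w * K.h x w d)] at g3
  obtain ⟨u, -, hu⟩ := Finset.exists_ne_zero_of_sum_ne_zero g3
  obtain ⟨i, j, hij, hi, hj⟩ := f3 _ _ _ hu
  have e1 := ((hAZF K).1 y z⁻¹ u i hi).2
  have e2 := ((hAZF K).1 x u d j hj).2
  have hne : K.h x u d ≠ 0 := by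
    intro h0
    rw [h0] at hj
    exact hj (by simp [co])
  have e3 := (hPFO K hP x u d hne).2
  have e4 : K.a u = K.a d := by omega
  have e5 : j = -(K.a d : ℤ) := by omega
  have e6 : i = -(K.a d : ℤ) := by omega
  have e7 : x * u = 1 := (hPTH K hP).1 x u d hd (by rw [← e5]; exact hj)
  have e8 : u = x⁻¹ := by rw [eq_inv_iff_mul_eq_one]; exact (mul_eq_one_iff_eq_inv.1 e7 ▸ by simp)
  have e9 : K.a x = K.a d := by
    have := hAIN K x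
    rw [← e8, e4] at this
    exact this.symm
  refine ⟨e9, ?_⟩
  rw [e9, ← e8, ← e6]
  exact hi

end Pool.Agent.Work.MP_a20dfd
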