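import Pool.Agent.Work.MP_a20dfd.Interface2

/-!
Block HRL of MP_a20dfd_al (helper48): multiplication rules in the Hecke algebra.
-/

namespace Pool.Agent.Work.MP_a20dfd

open LaurentPolynomial

namespace Hrl

variable {B W : Type} [Group W] {M : CoxeterMatrix B} {cs : CoxeterSystem M W}

theorem left_down (K : KL cs) (i : B) (w : W)
    (h : cs.length (cs.simple i * w) < cs.length w) :
    K.std (cs.simple i) * K.std w =
      K.std (cs.simple i * w) + (T (-1) - T 1 : A) • K.std w := by
  have h1 : cs.length (cs.simple i * (cs.simple i * w)) = cs.length (cs.simple i * w) + 1 := by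
    rw [cs.simple_mul_simple_cancel_left]
    rcases cs.length_simple_mul w i with h2 | h2
    · omega
    · omega
  have h2 := K.std_mul i (cs.simple i * w) h1
  rw [cs.simple_mul_simple_cancel_left] at h2
  calc K.std (cs.simple i) * K.std w
      = K.std (cs.simple i) * (K.std (cs.simple i) * K.std (cs.simple i * w)) := by rw [h2]
    _ = (K.std (cs.simple i) * K.std (cs.simple i)) * K.std (cs.simple i * w) := by
        rw [mul_assoc]
    _ = (1 + (T (-1) - T 1 : A) • K.std (cs.simple i)) * K.std (cs.simple i * w) := by
        rw [K.std_sq]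
    _ = K.std (cs.simple i * w) +
          (T (-1) - T 1 : A) • (K.std (cs.simple i) * K.std (cs.simple i * w)) := by
        rw [add_mul, one_mul, smul_mul_assoc]
    _ = _ := by rw [h2]

theorem mul_add (K : KL cs) : ∀ (n : ℕ) (x y : W), cs.length x = n →
    cs.length (x * y) = cs.length x + cs.length y → K.std x * K.std y = K.std (x * y) := by
  intro n
  induction n with
  | zero =>
    intro x y hx _
    have : x = 1 := cs.length_eq_zero_iff.mp hx
    subst this
    rw [K.std_one, one_mul, one_mul]
  | succ n ih =>
    intro x y hx hxy
    have hx1 : x ≠ 1 := by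
      intro h
      rw [h, cs.length_one] at hx
      omega
    obtain ⟨i, hi⟩ := cs.exists_leftDescent_of_ne_one hx1
    have hi' := cs.isLeftDescent_iff.mp hi
    obtain ⟨x', hx'⟩ : ∃ x', x' = cs.simple i * x := ⟨_, rfl⟩
    have hxx' : x = cs.simple i * x' := by rw [hx', cs.simple_mul_simple_cancel_left]
    have hl : cs.length x' + 1 = cs.length x := by rw [hx']; exact hi'
    have hle := cs.length_mul_le x' y
    have hxy2 : cs.length (cs.simple i * (x' * y)) = cs.length x + cs.length y := by
      rw [← mul_assoc, ← hxx', hxy]
    have hcase := cs.length_simple_mul (x' * y) i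
    have h3 : cs.length (x' * y) = cs.length x' + cs.length y := by omega
    have h4 : cs.length (cs.simple i * (x' * y)) = cs.length (x' * y) + 1 := by omega
    have h5 : cs.length (cs.simple i * x') = cs.length x' + 1 := by
      rw [← hxx']; omega
    have e1 := K.std_mul i x' h5
    have e2 := K.std_mul i (x' * y) h4
    have e3 := ih x' y (by omega) h3
    rw [hxx', ← e1, mul_assoc, e3, e2, mul_assoc]

theorem right_down (K : KL cs) (i : B) (w : W)
    (h : cs.length (w * cs.simple i) < cs.length w) :
    K.std w * K.std (cs.simple i) =
      K.std (w * cs.simple i) + (T (-1) - T 1 : A) • K.std w := by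
  have hcase := cs.length_mul_simple w i
  have h2 : K.std (w * cs.simple i) * K.std (cs.simple i) = K.std w := by
    have := mul_add K _ (w * cs.simple i) (cs.simple i) rfl (by
      rw [cs.simple_mul_simple_cancel_right, cs.length_simple]; omega)
    rwa [cs.simple_mul_simple_cancel_right] at this
  calc K.std w * K.std (cs.simple i)
      = (K.std (w * cs.simple i) * K.std (cs.simple i)) * K.std (cs.simple i) := by rw [h2]
    _ = K.std (w * cs.simple i) * (K.std (cs.simple i) * K.std (cs.simple i)) := by
        rw [mul_assoc]
    _ = K.std (w * cs.simple i) * (1 + (T (-1) - T 1 : A) • K.std (cs.simple i)) := by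
        rw [K.std_sq]
    _ = K.std (w * cs.simple i) +
          (T (-1) - T 1 : A) • (K.std (w * cs.simple i) * K.std (cs.simple i)) := by
        rw [_root_.mul_add, mul_one, mul_smul_comm]
    _ = _ := by rw [h2]

end Hrl

/-- Block HRL. -/
theorem p_HRL : Stmt_HRL := by
  intro B W _ M cs K
  exact ⟨fun i w h => Hrl.left_down K i w h, fun i w h => Hrl.right_down K i w h,
    fun x y h => Hrl.mul_add K _ x y rfl h⟩

end Pool.Agent.Work.MP_a20dfd
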