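import Pool.Agent.Work.MP_a20dfd.Interface2

/-!
# Block QDN
-/

set_option autoImplicit false

namespace Pool.Agent.Work.MP_a20dfd

open LaurentPolynomial

theorem p_QDN (hPTH : Stmt_PTH) (hCYC : Stmt_CYC) (hPFO : Stmt_PFO) : Stmt_QDN := by
  intro B W _ _ M cs K hK
  have hmain : ∀ (m : ℕ) (z d : W), Finset.univ.sup K.a - K.a z = m → IsDuf K d →
      co (K.h z z⁻¹ d) (-(K.a d : ℤ)) ≠ 0 → K.a d = K.a z := by
    intro m
    induction m using Nat.strong_induction_on with
    | _ m ih =>
      intro z d hm hd hz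
      have h0 : K.h z z⁻¹ d ≠ 0 := by
        intro h
        apply hz
        rw [h]
        rfl
      have h1 : K.a z ≤ K.a d := (hPFO K hK z z⁻¹ d h0).1
      by_contra hne
      have h2 : K.a z < K.a d := lt_of_le_of_ne h1 (fun h => hne h.symm)
      have h3 : K.a d ≤ Finset.univ.sup K.a := Finset.le_sup (Finset.mem_univ d)
      obtain ⟨d', hd', hdd⟩ := (hPTH K hK).2.1 d⁻¹
      rw [inv_inv] at hdd
      have h4 : K.a d' = K.a d := ih (Finset.univ.sup K.a - K.a d) (by omega) d d' rfl hd' hdd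
      have h5 := (hCYC K hK z z⁻¹ d d' hd' hz hdd h4).1
      omega
  intro z d hd hz
  exact hmain _ z d rfl hd hz

end Pool.Agent.Work.MP_a20dfd
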