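import Pool.Agent.Work.MP_a20dfd.ExDefs

/-!
# Block KLE
-/

namespace Pool.Agent.Work.MP_a20dfd

open LaurentPolynomial

namespace XKLE

theorem co_add (f g : A) (k : ℤ) : co (f + g) k = co f k + co g k := by simp [co]

theorem co_sub (f g : A) (k : ℤ) : co (f - g) k = co f k - co g k := by simp [co]

theorem co_zero (k : ℤ) : co 0 k = 0 := by simp [co]

theorem co_C_mul (m : ℤ) (f : A) (k : ℤ) : co (C m * f) k = m * co f k := by
  show ((AddMonoidAlgebra.single (0 : ℤ) m : A) * f).coeff k = m * f.coeff k
  rw [AddMonoidAlgebra.coeff_single_mul_apply, neg_zero, zero_add]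

theorem co_T_mul (j : ℤ) (f : A) (k : ℤ) : co (T j * f) k = co f (k - j) := by
  show ((AddMonoidAlgebra.single j (1 : ℤ) : A) * f).coeff k = f.coeff (k - j)
  rw [AddMonoidAlgebra.coeff_single_mul_apply, one_mul, neg_add_eq_sub]

theorem co_one (k : ℤ) : co 1 k = if k = 0 then 1 else 0 := by
  show (1 : A).coeff k = _
  rw [AddMonoidAlgebra.one_def, AddMonoidAlgebra.coeff_single, Finsupp.single_apply]
  exact if_congr eq_comm rfl rfl

theorem co_sum {ι : Type} (S : Finset ι) (f : ι → A) (k : ℤ) :
    co (∑ x ∈ S, f x) k = ∑ x ∈ S, co (f x) k := by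
  classical
  induction S using Finset.induction_on with
  | empty => simp [co_zero]
  | insert a s ha ih => rw [Finset.sum_insert ha, Finset.sum_insert ha, co_add, ih]

variable {B W : Type} [Group W] {M : CoxeterMatrix B} {cs : CoxeterSystem M W}

theorem coord (K : HS cs) (i : B) (z : W) (x : K.H) :
    K.std.repr (K.std (cs.simple i) * x) z = K.std.repr x (cs.simple i * z) +
      (if cs.length (cs.simple i * z) < cs.length z then (T (-1) - T 1 : A) * K.std.repr x z
        else 0) := by
  classical
  have hss : ∀ y : W, cs.simple i * (cs.simple i * y) = y := fun y => by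
    rw [← mul_assoc, cs.simple_mul_simple_self, one_mul]
  let f1 : K.H →ₗ[A] A := (Finsupp.lapply z).comp
    (K.std.repr.toLinearMap.comp (LinearMap.mulLeft A (K.std (cs.simple i))))
  let f2 : K.H →ₗ[A] A := (Finsupp.lapply (cs.simple i * z)).comp K.std.repr.toLinearMap +
    (if cs.length (cs.simple i * z) < cs.length z then (T (-1) - T 1 : A) else 0) •
      ((Finsupp.lapply z).comp K.std.repr.toLinearMap)
  have h12 : f1 = f2 := by
    apply K.std.ext
    intro y
    show K.std.repr (K.std (cs.simple i) * K.std y) z = K.std.repr (K.std y) (cs.simple i * z) +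
      (if cs.length (cs.simple i * z) < cs.length z then (T (-1) - T 1 : A) else 0) *
        K.std.repr (K.std y) z
    have hiff : y = cs.simple i * z ↔ cs.simple i * y = z := by
      constructor
      · intro h; rw [h, hss]
      · intro h; rw [← h, hss]
    rw [Module.Basis.repr_self, Finsupp.single_apply, Finsupp.single_apply]
    rcases lt_or_gt_of_ne (cs.length_simple_mul_ne y i) with h | h
    · rw [K.std_down i y h, map_add, map_smul, Finsupp.add_apply, Finsupp.smul_apply,
        Module.Basis.repr_self, Module.Basis.repr_self, Finsupp.single_apply, Finsupp.single_apply,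
        smul_eq_mul]
      congr 1
      · exact if_congr hiff.symm rfl rfl
      · by_cases hyz : y = z
        · subst hyz
          rw [if_pos rfl, if_pos h]
        · rw [if_neg hyz, mul_zero, mul_zero]
    · rw [K.std_up i y h, Module.Basis.repr_self, Finsupp.single_apply]
      have h3 : (if cs.length (cs.simple i * z) < cs.length z then (T (-1) - T 1 : A) else 0) *
          (if y = z then (1 : A) else 0) = 0 := by
        by_cases hyz : y = z
        · subst hyz
          rw [if_neg (by omega), zero_mul]
        · rw [if_neg hyz, mul_zero]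
      rw [h3, add_zero]
      exact if_congr hiff.symm rfl rfl
  have h := LinearMap.congr_fun h12 x
  have h' : K.std.repr (K.std (cs.simple i) * x) z = K.std.repr x (cs.simple i * z) +
      (if cs.length (cs.simple i * z) < cs.length z then (T (-1) - T 1 : A) else 0) *
        K.std.repr x z := h
  rw [h', ite_mul, zero_mul]

theorem coord2 (K : HS cs) (i : B) (z : W) (x : K.H) :
    K.std.repr (K.std (cs.simple i) * x + (T 1 : A) • x) z = K.std.repr x (cs.simple i * z) +
      (if cs.length (cs.simple i * z) < cs.length z then T (-1) * K.std.repr x z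
        else T 1 * K.std.repr x z) := by
  rw [map_add, map_smul, Finsupp.add_apply, Finsupp.smul_apply, coord, smul_eq_mul]
  split_ifs <;> ring

end XKLE

theorem p_KLE (hTRS : Stmt_TRS) : Stmt_KLE := by
  classical
  intro B W _ _ M cs K bar hbar
  have key : ∀ n : ℕ, ∀ w : W, cs.length w = n → ∃ c : K.H, bar c = c ∧ K.std.repr c w = 1 ∧
      (∀ y : W, y ≠ w → ∀ k : ℤ, k ≤ 0 → co (K.std.repr c y) k = 0) ∧
      ∀ y : W, y ≠ w → cs.length w ≤ cs.length y → K.std.repr c y = 0 := by
    intro n
    induction n using Nat.strong_induction_on with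
    | _ n ih =>
    intro w hwn
    by_cases hw1 : w = 1
    · subst hw1
      refine ⟨1, map_one bar, ?_, ?_, ?_⟩
      · rw [← K.std_one, Module.Basis.repr_self, Finsupp.single_eq_same]
      · intro y hy k _
        rw [← K.std_one, Module.Basis.repr_self, Finsupp.single_eq_of_ne hy, XKLE.co_zero]
      · intro y hy _
        rw [← K.std_one, Module.Basis.repr_self, Finsupp.single_eq_of_ne hy]
    obtain ⟨i, hi⟩ := cs.exists_leftDescent_of_ne_one hw1
    have hi' : cs.length (cs.simple i * w) < cs.length w := hi
    have hss : ∀ y : W, cs.simple i * (cs.simple i * y) = y := fun y => by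
      rw [← mul_assoc, cs.simple_mul_simple_self, one_mul]
    have hlen : cs.length (cs.simple i * w) + 1 = cs.length w := by
      rcases cs.length_simple_mul w i with h2 | h2 <;> omega
    set w' := cs.simple i * w with hw'
    have hsw' : cs.simple i * w' = w := by rw [hw', hss]
    obtain ⟨c', hc1, hc2, hc3, hc4⟩ := ih (cs.length w') (by omega) w' rfl
    have hex : ∀ t : W, ∃ c : K.H, cs.length t < cs.length w → (bar c = c ∧ K.std.repr c t = 1 ∧
      (∀ y : W, y ≠ t → ∀ k : ℤ, k ≤ 0 → co (K.std.repr c y) k = 0) ∧
      ∀ y : W, y ≠ t → cs.length t ≤ cs.length y → K.std.repr c y = 0) := by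
      intro t
      by_cases ht : cs.length t < cs.length w
      · obtain ⟨c, hc⟩ := ih (cs.length t) (by omega) t rfl
        exact ⟨c, fun _ => hc⟩
      · exact ⟨0, fun h => absurd h ht⟩
    choose ct hct using hex
    set X : K.H := K.std (cs.simple i) * c' + (T 1 : A) • c' with hX
    have hbX : bar X = X := by
      rw [hX, map_add, map_mul, hbar.1, hc1, (hTRS K bar hbar).1 i, LaurentPolynomial.invert_T,
        add_mul, smul_mul_assoc, one_mul, sub_smul]
      abel
    have hq : ∀ z, K.std.repr X z = K.std.repr c' (cs.simple i * z) +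
      (if cs.length (cs.simple i * z) < cs.length z then T (-1) * K.std.repr c' z
        else T 1 * K.std.repr c' z) := fun z => XKLE.coord2 K i z c'
    have hp' : ∀ y, ∀ k : ℤ, k < 0 → co (K.std.repr c' y) k = 0 := by
      intro y k hk
      by_cases hy : y = w'
      · rw [hy, hc2, XKLE.co_one, if_neg hk.ne]
      · exact hc3 y hy k hk.le
    have hneg : ∀ z, ∀ k : ℤ, k < 0 → co (K.std.repr X z) k = 0 := by
      intro z k hk
      rw [hq, XKLE.co_add, hp' _ k hk, zero_add]
      split_ifs with h
      · rw [XKLE.co_T_mul]
        apply hc3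
        · rintro rfl
          rw [hsw'] at h
          omega
        · omega
      · rw [XKLE.co_T_mul]
        exact hp' _ _ (by omega)
    have hXw : K.std.repr X w = 1 := by
      rw [hq, if_pos hi', ← hw', hc2, hc4 w (by
        intro h
        rw [← h] at hlen
        omega) (by omega), mul_zero, add_zero]
    have hX0 : ∀ y : W, y ≠ w → cs.length w ≤ cs.length y → K.std.repr X y = 0 := by
      intro y hy hyl
      have h1 : K.std.repr c' y = 0 := by
        apply hc4
        · rintro rfl; omega
        · omega
      have h2 : K.std.repr c' (cs.simple i * y) = 0 := by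
        apply hc4
        · intro h
          apply hy
          rw [← hss y, h, hsw']
        · rcases cs.length_simple_mul y i with h2 | h2 <;> omega
      rw [hq, h1, h2, mul_zero, mul_zero, ite_self, add_zero]
    let S : Finset W := Finset.univ.filter fun t => cs.length t < cs.length w
    let m : W → ℤ := fun z => co (K.std.repr X z) 0
    have hrep : ∀ y, K.std.repr (X - ∑ t ∈ S, (C (m t) : A) • ct t) y =
        K.std.repr X y - ∑ t ∈ S, C (m t) * K.std.repr (ct t) y := by
      intro y
      rw [map_sub, Finsupp.sub_apply, map_sum, Finsupp.finsetSum_apply]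
      congr 1
      refine Finset.sum_congr rfl fun t _ => ?_
      rw [map_smul, Finsupp.smul_apply, smul_eq_mul]
    have hz : ∀ y, cs.length w ≤ cs.length y → ∑ t ∈ S, C (m t) * K.std.repr (ct t) y = 0 := by
      intro y hy
      refine Finset.sum_eq_zero fun t ht => ?_
      have ht' : cs.length t < cs.length w := (Finset.mem_filter.1 ht).2
      rw [(hct t ht').2.2.2 y (by rintro rfl; omega) (by omega), mul_zero]
    refine ⟨X - ∑ t ∈ S, (C (m t) : A) • ct t, ?_, ?_, ?_, ?_⟩
    · rw [map_sub, hbX, map_sum]
      congr 1
      refine Finset.sum_congr rfl fun t ht => ?_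
      rw [hbar.1, (hct t (Finset.mem_filter.1 ht).2).1, LaurentPolynomial.invert_C]
    · rw [hrep, hXw, hz w le_rfl, sub_zero]
    · intro y hy k hk
      rw [hrep, XKLE.co_sub, XKLE.co_sum]
      simp only [XKLE.co_C_mul]
      by_cases hyl : cs.length y < cs.length w
      · rcases lt_or_eq_of_le hk with h | h
        · rw [hneg y k h, Finset.sum_eq_zero, sub_zero]
          intro t ht
          have ht' := hct t (Finset.mem_filter.1 ht).2
          by_cases hyt : y = t
          · subst hyt
            rw [ht'.2.1, XKLE.co_one, if_neg h.ne, mul_zero]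
          · rw [ht'.2.2.1 y hyt k hk, mul_zero]
        · subst h
          have h2 : ∑ t ∈ S, m t * co (K.std.repr (ct t) y) 0 = m y := by
            rw [Finset.sum_eq_single y]
            · rw [(hct y hyl).2.1, XKLE.co_one, if_pos rfl, mul_one]
            · intro t ht hty
              rw [(hct t (Finset.mem_filter.1 ht).2).2.2.1 y hty.symm 0 le_rfl, mul_zero]
            · intro h
              exact absurd (Finset.mem_filter.2 ⟨Finset.mem_univ y, hyl⟩) h
          rw [h2]
          exact sub_self _
      · push Not at hyl
        rw [hX0 y hy hyl, XKLE.co_zero, Finset.sum_eq_zero, sub_zero]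
        intro t ht
        have ht' := (Finset.mem_filter.1 ht).2
        rw [(hct t ht').2.2.2 y (by rintro rfl; omega) (by omega), XKLE.co_zero, mul_zero]
    · intro y hy hyl
      rw [hrep, hX0 y hy hyl, hz y hyl, sub_zero]
  exact fun w => key _ w rfl

end Pool.Agent.Work.MP_a20dfd
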