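import Pool.Agent.Work.MP_a20dfd.B_ADD
import Pool.Agent.Work.MP_a20dfd.B_AIN
import Pool.Agent.Work.MP_a20dfd.B_ASC
import Pool.Agent.Work.MP_a20dfd.B_AZF
import Pool.Agent.Work.MP_a20dfd.B_BRU
import Pool.Agent.Work.MP_a20dfd.B_CBX
import Pool.Agent.Work.MP_a20dfd.B_CDN
import Pool.Agent.Work.MP_a20dfd.B_CSI
import Pool.Agent.Work.MP_a20dfd.B_CUP
import Pool.Agent.Work.MP_a20dfd.B_CUR
import Pool.Agent.Work.MP_a20dfd.B_CYC
import Pool.Agent.Work.MP_a20dfd.B_DEC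
import Pool.Agent.Work.MP_a20dfd.B_DGB
import Pool.Agent.Work.MP_a20dfd.B_DSC
import Pool.Agent.Work.MP_a20dfd.B_DUF
import Pool.Agent.Work.MP_a20dfd.B_EDG
import Pool.Agent.Work.MP_a20dfd.B_EXC
import Pool.Agent.Work.MP_a20dfd.B_FIN
import Pool.Agent.Work.MP_a20dfd.B_FLK
import Pool.Agent.Work.MP_a20dfd.B_FLT
import Pool.Agent.Work.MP_a20dfd.B_GEN
import Pool.Agent.Work.MP_a20dfd.B_HRL
import Pool.Agent.Work.MP_a20dfd.B_LLE
import Pool.Agent.Work.MP_a20dfd.B_LON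
import Pool.Agent.Work.MP_a20dfd.B_LPF
import Pool.Agent.Work.MP_a20dfd.B_NDF
import Pool.Agent.Work.MP_a20dfd.B_NEX
import Pool.Agent.Work.MP_a20dfd.B_NFO
import Pool.Agent.Work.MP_a20dfd.B_NZR
import Pool.Agent.Work.MP_a20dfd.B_PAR
import Pool.Agent.Work.MP_a20dfd.B_PFO
import Pool.Agent.Work.MP_a20dfd.B_PON
import Pool.Agent.Work.MP_a20dfd.B_PTH
import Pool.Agent.Work.MP_a20dfd.B_QDN
import Pool.Agent.Work.MP_a20dfd.B_RED
import Pool.Agent.Work.MP_a20dfd.B_SYM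
import Pool.Agent.Work.MP_a20dfd.B_TAU
import Pool.Agent.Work.MP_a20dfd.B_TRC
import Pool.Agent.Work.MP_a20dfd.B_TRI
import Pool.Agent.Work.MP_a20dfd.B_UNQ
import Pool.Agent.Work.MP_a20dfd.X_BAR
import Pool.Agent.Work.MP_a20dfd.X_COM
import Pool.Agent.Work.MP_a20dfd.X_HCK
import Pool.Agent.Work.MP_a20dfd.X_KLB
import Pool.Agent.Work.MP_a20dfd.X_KLE
import Pool.Agent.Work.MP_a20dfd.X_KLX
import Pool.Agent.Work.MP_a20dfd.X_LFT
import Pool.Agent.Work.MP_a20dfd.X_MUS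
import Pool.Agent.Work.MP_a20dfd.X_TRS

namespace Pool.Agent.Work.MP_a20dfd

open LaurentPolynomial

namespace Asm18

theorem h_EXC : Stmt_EXC := p_EXC
theorem h_PAR : Stmt_PAR := p_PAR h_EXC
theorem h_ADD : Stmt_ADD := p_ADD h_EXC h_PAR
theorem h_DEC : Stmt_DEC := p_DEC h_PAR h_ADD
theorem h_LON : Stmt_LON := p_LON h_EXC
theorem h_CBX : Stmt_CBX := p_CBX h_ADD h_LON
theorem h_HRL : Stmt_HRL := p_HRL
theorem h_TAU : Stmt_TAU := p_TAU h_HRL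
theorem h_FLT : Stmt_FLT := p_FLT h_HRL
theorem h_BRU : Stmt_BRU := p_BRU h_HRL
theorem h_UNQ : Stmt_UNQ := p_UNQ h_BRU
theorem h_TRI : Stmt_TRI := p_TRI h_BRU
theorem h_FLK : Stmt_FLK := p_FLK h_FLT h_UNQ
theorem h_SYM : Stmt_SYM := p_SYM
theorem h_CSI : Stmt_CSI := p_CSI h_UNQ h_HRL
theorem h_CUP : Stmt_CUP := p_CUP h_CSI h_HRL h_TRI h_UNQ
theorem h_CDN : Stmt_CDN := p_CDN h_CSI h_CUP h_HRL h_TRI
theorem h_DSC : Stmt_DSC := p_DSC h_CUP h_CDN h_FLK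
theorem h_CUR : Stmt_CUR := p_CUR h_CUP h_CDN h_FLK
theorem h_RED : Stmt_RED := p_RED h_HRL h_TRI
theorem h_ASC : Stmt_ASC := p_ASC
theorem h_TRC : Stmt_TRC := p_TRC h_TAU
theorem h_LPF : Stmt_LPF := p_LPF
theorem h_AZF : Stmt_AZF := p_AZF h_LPF h_SYM h_CSI
theorem h_AIN : Stmt_AIN := p_AIN h_AZF h_FLK
theorem h_EDG : Stmt_EDG := p_EDG h_LPF h_ASC h_CUP h_DSC
theorem h_GEN : Stmt_GEN := p_GEN h_LPF h_ASC h_CUP h_CDN h_CSI
theorem h_PFO : Stmt_PFO := p_PFO h_EDG h_GEN h_AZF h_AIN h_FLK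
theorem h_PON : Stmt_PON := p_PON h_LPF h_TRC h_SYM h_AZF
theorem h_PTH : Stmt_PTH := p_PTH h_LPF h_TRC h_AZF h_PON
theorem h_CYC : Stmt_CYC := p_CYC h_LPF h_ASC h_AZF h_PFO h_PTH h_AIN
theorem h_QDN : Stmt_QDN := p_QDN h_PTH h_CYC h_PFO
theorem h_DUF : Stmt_DUF := p_DUF h_PTH h_QDN h_CYC h_FLK h_SYM h_AIN
theorem h_LLE : Stmt_LLE := p_LLE h_GEN h_EDG h_DUF
theorem h_DGB : Stmt_DGB := p_DGB h_LPF h_ASC h_PAR h_CUR
theorem h_NDF : Stmt_NDF := p_NDF h_LPF h_TRC h_PON h_PFO h_DGB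
theorem h_NZR : Stmt_NZR := p_NZR h_CUR h_CSI h_HRL h_ADD
theorem h_NFO : Stmt_NFO := p_NFO h_HRL h_TAU h_DEC h_ADD h_FLK
theorem h_NEX : Stmt_NEX := p_NEX h_LPF
theorem h_FIN : Stmt_FIN :=
  p_FIN h_LPF h_CBX h_RED h_DUF h_LLE h_NDF h_NZR h_NFO h_DSC h_PFO h_ASC h_FLK
theorem h_LFT : Stmt_LFT := p_LFT h_EXC
theorem h_COM : Stmt_COM := p_COM h_LFT
theorem h_HCK : Stmt_HCK := p_HCK h_COM
theorem h_MUS : Stmt_MUS := p_MUS
theorem h_BAR : Stmt_BAR := p_BAR h_MUS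
theorem h_TRS : Stmt_TRS := p_TRS h_MUS
theorem h_KLE : Stmt_KLE := p_KLE h_TRS
theorem h_KLB : Stmt_KLB := p_KLB
theorem h_KLX : Stmt_KLX := p_KLX h_HCK h_BAR h_KLE h_KLB

end Asm18

/-- The polynomial ∑ dim Ext^i(Δ(x·λ), L(y·λ)) v^i of the block of λ with W_λ = W_I, x, y longest
in their cosets: the parabolic Kazhdan-Lusztig polynomial n at (w₀ x, w₀ y). -/
noncomputable def extPoly {B W : Type} [Group W] [Fintype W] {M : CoxeterMatrix B}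
    {cs : CoxeterSystem M W} (K : KL cs) (I : Set B) (w₀ x y : W) : A :=
  n K I (w₀ * x) (w₀ * y)

open Classical in
/-- s_λ(x): the largest value of deg p(y,z) + deg p(y,x), y and z longest in their cosets,
p(y,z) and p(y,x) not 0. -/
noncomputable def sLam {B W : Type} [Group W] [Fintype W] {M : CoxeterMatrix B}
    {cs : CoxeterSystem M W} (K : KL cs) (I : Set B) (w₀ x : W) : ℕ :=
  (Finset.univ.filter fun q : W × W => Long cs I q.1 ∧ Long cs I q.2 ∧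
    extPoly K I w₀ q.1 q.2 ≠ 0 ∧ extPoly K I w₀ q.1 x ≠ 0).sup
      fun q => dg (extPoly K I w₀ q.1 q.2) + dg (extPoly K I w₀ q.1 x)

theorem asm_final {B W : Type} [Group W] [Fintype W] {M : CoxeterMatrix B}
    (cs : CoxeterSystem M W) : Nonempty (KL cs) ∧ ∀ (K : KL cs), K.Pos → ∀ (I : Set B)
    (w₀ wI : W), (∀ x, cs.length x ≤ cs.length w₀) → IsLongest cs (Par cs I) wI →
    (∀ x y, Long cs I x → Long cs I y → Nonneg (extPoly K I w₀ x y)) →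
    ∀ x, Long cs I x → K.a (w₀ * x) + K.a (w₀ * wI) ≤ sLam K I w₀ x := by
  classical
  refine ⟨Asm18.h_KLX cs, ?_⟩
  intro K hP I w₀ wI hw0 hwI hn x hx
  have hLL := Asm18.h_LON cs w₀ hw0
  have hww : w₀ * w₀ = 1 := by
    have := hLL w₀
    have h0 : cs.length (w₀ * w₀) = 0 := by omega
    exact cs.length_eq_zero_iff.mp h0
  obtain ⟨hc1, hc2, hc3⟩ := Asm18.h_CBX cs I w₀ wI hw0 hwI
  have hcan : ∀ y : W, w₀ * (w₀ * y) = y := fun y => by rw [← mul_assoc, hww, one_mul]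
  have hlong : ∀ y, Short cs I y → Long cs I (w₀ * y) := fun y hy => by
    rw [hc1, hcan]; exact hy
  obtain ⟨a, z, i, j, ha, hz, hi, hj, hij⟩ := Asm18.h_FIN K hP I w₀ wI hw0 hwI
    (fun u v hu hv => by
      have := hn (w₀ * u) (w₀ * v) (hlong u hu) (hlong v hv)
      unfold extPoly at this
      rwa [hcan, hcan] at this)
    (fun u v _ _ k hk => Asm18.h_NEX K I u v k hk) (w₀ * x) ((hc1 x).mp hx)
  have e1 : extPoly K I w₀ (w₀ * a) (w₀ * z) = n K I a z := by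
    unfold extPoly; rw [hcan, hcan]
  have e2 : extPoly K I w₀ (w₀ * a) x = n K I a (w₀ * x) := by
    unfold extPoly; rw [hcan]
  have hdg := Asm18.h_LPF.2.2.2.2.2.1
  have d1 := hdg _ _ hi
  have d2 := hdg _ _ hj
  have ne1 : n K I a (w₀ * x) ≠ 0 := by
    intro h; rw [h] at hi; exact hi (by simp [co])
  have ne2 : n K I a z ≠ 0 := by
    intro h; rw [h] at hj; exact hj (by simp [co])
  refine le_trans hij ?_
  unfold sLam
  refine le_trans ?_ (Finset.le_sup (f := fun q : W × W => dg (extPoly K I w₀ q.1 q.2) +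
    dg (extPoly K I w₀ q.1 x)) (b := (w₀ * a, w₀ * z)) ?_)
  · show i + j ≤ dg (extPoly K I w₀ (w₀ * a) (w₀ * z)) + dg (extPoly K I w₀ (w₀ * a) x)
    rw [e1, e2]
    have d1' : i ≤ dg (n K I a (w₀ * x)) := by exact_mod_cast d1
    have d2' : j ≤ dg (n K I a z) := by exact_mod_cast d2
    omega
  · rw [Finset.mem_filter]
    refine ⟨Finset.mem_univ _, hlong a ha, hlong z hz, ?_, ?_⟩
    · show extPoly K I w₀ (w₀ * a) (w₀ * z) ≠ 0
      rw [e1]; exact ne2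
    · show extPoly K I w₀ (w₀ * a) x ≠ 0
      rw [e2]; exact ne1

end Pool.Agent.Work.MP_a20dfd
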