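import Pool.Agent.Work.MP_a20dfd.Interface2

namespace Pool.Agent.Work.MP_a20dfd

namespace Add

variable {B W : Type} [Group W] {M : CoxeterMatrix B} (cs : CoxeterSystem M W)

theorem claim (hEXC : Stmt_EXC) (I : Set B) (b c : W) (hc : c⁻¹ * b ∈ Par cs I)
    (hmin : ∀ y : W, y⁻¹ * b ∈ Par cs I → cs.length c ≤ cs.length y) (ω : List B) :
    cs.IsReduced ω → (∀ i ∈ ω, i ∈ I) →
      cs.length (c * cs.wordProd ω) = cs.length c + ω.length := by
  induction ω using List.reverseRecOn with
  | nil => intro _ _; simp
  | append_singleton ω i ih =>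
    intro hred hI
    have hred' : cs.IsReduced ω := by
      have := hred.take ω.length
      simpa using this
    have hI' : ∀ k ∈ ω, k ∈ I := fun k hk => hI k (by simp [hk])
    have hi : i ∈ I := hI i (by simp)
    have ih' := ih hred' hI'
    have hw : cs.wordProd (ω ++ [i]) = cs.wordProd ω * cs.simple i := by
      rw [cs.wordProd_append, cs.wordProd_singleton]
    have hlen : cs.length (cs.wordProd ω * cs.simple i) = ω.length + 1 := by
      rw [← hw, hred.eq]
      simp
    have hparω : cs.wordProd ω ∈ Par cs I := by
      unfold CoxeterSystem.wordProd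
      apply Subgroup.list_prod_mem
      intro x hx
      obtain ⟨k, hk, rfl⟩ := List.mem_map.mp hx
      exact Subgroup.subset_closure ⟨k, hI' k hk, rfl⟩
    have hpari : cs.simple i ∈ Par cs I := Subgroup.subset_closure ⟨i, hi, rfl⟩
    rw [hw, ← mul_assoc]
    rcases cs.length_mul_simple (c * cs.wordProd ω) i with h | h
    · rw [h, ih']
      simp only [List.length_append, List.length_singleton]
      omega
    · exfalso
      obtain ⟨γ, hγ, hγc⟩ := cs.exists_isReduced c
      have hγl : γ.length = cs.length c := by rw [hγc, hγ.eq]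
      have hprod : cs.wordProd (γ ++ ω) = c * cs.wordProd ω := by
        rw [cs.wordProd_append, ← hγc]
      obtain ⟨j, hj, hje⟩ := hEXC cs (γ ++ ω) (cs.simple i) (cs.isReflection_simple i)
        (by rw [hprod]; omega)
      rw [hprod] at hje
      rcases lt_or_ge j γ.length with hjγ | hjγ
      · rw [List.eraseIdx_append_of_lt_length hjγ, cs.wordProd_append] at hje
        set c' := cs.wordProd (γ.eraseIdx j) with hc'
        have hl : cs.length c' < cs.length c := by
          have h1 := cs.length_wordProd_le (γ.eraseIdx j)
          rw [List.length_eraseIdx_of_lt hjγ, ← hc'] at h1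
          omega
        have hcc : c' = c * (cs.wordProd ω * cs.simple i * (cs.wordProd ω)⁻¹) := by
          have : c' = c * cs.wordProd ω * cs.simple i * (cs.wordProd ω)⁻¹ := by
            rw [hje]; group
          rw [this]; group
        have hmem : c'⁻¹ * b ∈ Par cs I := by
          have : c'⁻¹ * b = (cs.wordProd ω * cs.simple i * (cs.wordProd ω)⁻¹)⁻¹ * (c⁻¹ * b) := by
            rw [hcc]; group
          rw [this]
          exact (Par cs I).mul_mem ((Par cs I).inv_mem
            ((Par cs I).mul_mem ((Par cs I).mul_mem hparω hpari) ((Par cs I).inv_mem hparω))) hc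
        have := hmin c' hmem
        omega
      · rw [List.eraseIdx_append_of_length_le hjγ, cs.wordProd_append, ← hγc, mul_assoc] at hje
        have h2 := mul_left_cancel hje
        have h3 := cs.length_wordProd_le (ω.eraseIdx (j - γ.length))
        rw [← h2, hlen] at h3
        have h4 : (ω.eraseIdx (j - γ.length)).length ≤ ω.length := List.length_eraseIdx_le _ _
        omega

end Add

theorem p_ADD (hEXC : Stmt_EXC) (hPAR : Stmt_PAR) : Stmt_ADD := by
  intro B W _ M cs I b w hb hw
  obtain ⟨c, hc, hmin'⟩ := (measure cs.length).wf.has_min {y : W | y⁻¹ * b ∈ Par cs I}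
    ⟨b, by simp [(Par cs I).one_mem]⟩
  have hmin : ∀ y : W, y⁻¹ * b ∈ Par cs I → cs.length c ≤ cs.length y := by
    intro y hy
    have := hmin' y hy
    exact not_lt.mp this
  have hcb : c = b := by
    obtain ⟨ω, hred, hprod, hI⟩ := hPAR cs I (c⁻¹ * b) hc
    rcases List.eq_nil_or_concat ω with rfl | ⟨ω', i, rfl⟩
    · rw [cs.wordProd_nil] at hprod
      have := hprod.symm
      rw [inv_mul_eq_one] at this
      exact this
    · exfalso
      have h1 := Add.claim cs hEXC I b c hc hmin _ hred hI
      have hred' : cs.IsReduced ω' := by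
        have := hred.take ω'.length
        simpa using this
      have h2 := Add.claim cs hEXC I b c hc hmin ω' hred' (fun k hk => hI k (by simp [hk]))
      rw [hprod] at h1
      have e1 : c * (c⁻¹ * b) = b := by group
      rw [e1] at h1
      have hbs : b * cs.simple i = c * cs.wordProd ω' := by
        have e2 : b = c * (cs.wordProd ω' * cs.simple i) := by
          rw [← cs.wordProd_concat, hprod]
          group
        rw [e2, mul_assoc, mul_assoc, cs.simple_mul_simple_self, mul_one]
      have h3 := hb i (hI i (by simp))
      rw [hbs, h2, h1] at h3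
      simp at h3
  subst hcb
  obtain ⟨ω, hred, hprod, hI⟩ := hPAR cs I w hw
  rw [← hprod, Add.claim cs hEXC I c c hc hmin ω hred hI, hred.eq]

end Pool.Agent.Work.MP_a20dfd
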