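import Pool.Agent.Work.MP_a20dfd.Interface2

set_option autoImplicit false

namespace Pool.Agent.Work.MP_a20dfd

open LaurentPolynomial

namespace BRUx

variable {B W : Type} [Group W] {M : CoxeterMatrix B} {cs : CoxeterSystem M W} (K : KL cs)

/-- the span of the H_y, l(y) < N -/
noncomputable def L (N : ℕ) : Submodule A K.H := Submodule.span A (K.std '' {y | cs.length y < N})

theorem std_mem {N : ℕ} {y : W} (h : cs.length y < N) : K.std y ∈ L K N :=
  Submodule.subset_span ⟨y, h, rfl⟩

theorem mono {N N' : ℕ} (h : N ≤ N') : L K N ≤ L K N' :=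
  Submodule.span_mono (Set.image_mono fun _ hy => lt_of_lt_of_le hy h)

theorem repr_eq_zero {N : ℕ} {x : K.H} (hx : x ∈ L K N) {y : W} (hy : N ≤ cs.length y) :
    K.std.repr x y = 0 := by
  have h := (Module.Basis.mem_span_image K.std).1 hx
  by_contra hne
  have h1 : y ∈ (K.std.repr x).support := Finsupp.mem_support_iff.2 hne
  exact absurd (h h1) (not_lt.2 hy)

theorem mul_mem (hHRL : Stmt_HRL) (i : B) {N : ℕ} {x : K.H} (hx : x ∈ L K N) :
    K.std (cs.simple i) * x ∈ L K (N + 1) := by
  induction hx using Submodule.span_induction with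
  | mem x hx =>
    obtain ⟨y, hy, rfl⟩ := hx
    have hy' : cs.length y < N := hy
    rcases cs.length_simple_mul y i with h | h
    · rw [K.std_mul i y h]
      exact std_mem K (by omega)
    · rw [(hHRL K).1 i y (by omega)]
      exact add_mem (std_mem K (by omega))
        (Submodule.smul_mem _ _ (std_mem K (by omega)))
  | zero => rw [mul_zero]; exact zero_mem _
  | add x y _ _ hx hy => rw [mul_add]; exact add_mem hx hy
  | smul a x _ hx => rw [mul_smul_comm]; exact Submodule.smul_mem _ _ hx

theorem bar_simple (i : B) : K.bar (K.std (cs.simple i)) =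
    K.std (cs.simple i) - (T (-1) - T 1 : A) • (1 : K.H) := by
  have h1 : K.std (cs.simple i) * (K.std (cs.simple i) - (T (-1) - T 1 : A) • (1 : K.H)) = 1 := by
    rw [mul_sub, K.std_sq, mul_smul_comm, mul_one, add_sub_cancel_right]
  calc K.bar (K.std (cs.simple i)) = K.bar (K.std (cs.simple i)) * (K.std (cs.simple i) *
        (K.std (cs.simple i) - (T (-1) - T 1 : A) • (1 : K.H))) := by rw [h1, mul_one]
    _ = _ := by rw [← mul_assoc, K.bar_std, one_mul]

theorem main (hHRL : Stmt_HRL) : ∀ (N : ℕ) (w : W), cs.length w = N →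
    K.bar (K.std w) - K.std w ∈ L K N := by
  intro N
  induction N with
  | zero =>
    intro w hw
    rw [cs.length_eq_zero_iff] at hw
    rw [hw, K.std_one, map_one, sub_self]
    exact zero_mem _
  | succ N ih =>
    intro w hw
    have hw1 : w ≠ 1 := by
      rintro rfl
      rw [cs.length_one] at hw
      omega
    obtain ⟨i, hi⟩ := cs.exists_leftDescent_of_ne_one hw1
    have hi' : cs.length (cs.simple i * w) + 1 = cs.length w := cs.isLeftDescent_iff.1 hi
    have hw' : cs.length (cs.simple i * w) = N := by omega
    have hsw : cs.simple i * (cs.simple i * w) = w := by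
      rw [← mul_assoc, cs.simple_mul_simple_self, one_mul]
    have hstd : K.std w = K.std (cs.simple i) * K.std (cs.simple i * w) := by
      rw [K.std_mul i (cs.simple i * w) (by rw [hsw]; omega), hsw]
    have hR := ih _ hw'
    set X := K.std (cs.simple i * w) with hX
    set R := K.bar X - X with hRd
    have hbX : K.bar X = X + R := by rw [hRd]; abel
    have hXm : X ∈ L K (N + 1) := std_mem K (by omega)
    have hRm : R ∈ L K (N + 1) := mono K (Nat.le_succ N) hR
    have key : K.bar (K.std w) - K.std w =
        K.std (cs.simple i) * R - (T (-1) - T 1 : A) • (X + R) := by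
      rw [hstd, map_mul, bar_simple, hbX, sub_mul, smul_mul_assoc, one_mul, mul_add]
      abel
    rw [key]
    exact sub_mem (mul_mem K hHRL i hR) (Submodule.smul_mem _ _ (add_mem hXm hRm))

end BRUx

theorem p_BRU (hHRL : Stmt_HRL) : Stmt_BRU := by
  intro B W _ M cs K w
  have h := BRUx.main K hHRL (cs.length w) w rfl
  have hb : K.bar (K.std w) = K.std w + (K.bar (K.std w) - K.std w) := by abel
  constructor
  · rw [hb, map_add, Finsupp.add_apply, BRUx.repr_eq_zero K h le_rfl, Module.Basis.repr_self,
      Finsupp.single_eq_same, add_zero]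
  · intro y hy hl
    rw [hb, map_add, Finsupp.add_apply, BRUx.repr_eq_zero K h hl, Module.Basis.repr_self,
      Finsupp.single_eq_of_ne hy, add_zero]

end Pool.Agent.Work.MP_a20dfd
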