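import Pool.Agent.Work.MP_a20dfd.Interface2

set_option autoImplicit false

namespace Pool.Agent.Work.MP_a20dfd

open LaurentPolynomial

namespace CSI59

theorem co_add (f g : A) (k : ℤ) : co (f + g) k = co f k + co g k := by simp [co]

theorem co_sub (f g : A) (k : ℤ) : co (f - g) k = co f k - co g k := by simp [co]

theorem co_zero (k : ℤ) : co 0 k = 0 := by simp [co]

theorem co_T (j k : ℤ) : co (T j) k = if k = j then 1 else 0 := by
  show ((AddMonoidAlgebra.single j (1 : ℤ) : A)).coeff k = _
  rw [AddMonoidAlgebra.coeff_single, Finsupp.single_apply]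
  exact if_congr eq_comm rfl rfl

variable {B W : Type} [Group W] {M : CoxeterMatrix B} {cs : CoxeterSystem M W} (K : KL cs)

theorem bar_simple (i : B) : K.bar (K.std (cs.simple i)) =
    K.std (cs.simple i) - (T (-1) - T 1 : A) • (1 : K.H) := by
  have h1 : K.std (cs.simple i) * (K.std (cs.simple i) - (T (-1) - T 1 : A) • (1 : K.H)) = 1 := by
    rw [mul_sub, K.std_sq, mul_smul_comm, mul_one, add_sub_cancel_right]
  calc K.bar (K.std (cs.simple i)) = K.bar (K.std (cs.simple i)) * (K.std (cs.simple i) *
        (K.std (cs.simple i) - (T (-1) - T 1 : A) • (1 : K.H))) := by rw [h1, mul_one]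
    _ = _ := by rw [← mul_assoc, K.bar_std, one_mul]

end CSI59

open CSI59 in
theorem p_CSI (hUNQ : Stmt_UNQ) : Stmt_CSI := by
  intro B W _ M cs K
  classical
  constructor
  · rw [← sub_eq_zero]
    refine hUNQ K _ ?_ ?_
    · rw [map_sub, K.bar_kl, map_one K.bar]
    · intro y k hk
      rw [← K.std_one, map_sub, Finsupp.sub_apply, Module.Basis.repr_self]
      by_cases hy : y = 1
      · subst hy
        rw [K.kl_self, Finsupp.single_eq_same, sub_self, co_zero]
      · rw [Finsupp.single_eq_of_ne hy, sub_zero]
        exact K.kl_lt y 1 hy k hk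
  · intro i
    have hs1 : cs.simple i ≠ 1 := by
      intro h
      have h1 := cs.length_simple i
      rw [h, cs.length_one] at h1
      exact absurd h1 (by norm_num)
    rw [← sub_eq_zero]
    refine hUNQ K _ ?_ ?_
    · rw [map_sub, K.bar_kl, map_add, K.bar_smul, map_one K.bar, bar_simple, invert_T, sub_smul]
      congr 1
      abel
    · intro y k hk
      rw [← K.std_one, map_sub, Finsupp.sub_apply, map_add, map_smul, Finsupp.add_apply,
        Finsupp.smul_apply, Module.Basis.repr_self, Module.Basis.repr_self, smul_eq_mul]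
      by_cases hy : y = cs.simple i
      · subst hy
        rw [K.kl_self, Finsupp.single_eq_same, Finsupp.single_eq_of_ne hs1, mul_zero, add_zero,
          sub_self, co_zero]
      · rw [Finsupp.single_eq_of_ne hy, zero_add, co_sub, K.kl_lt y _ hy k hk, zero_sub,
          neg_eq_zero]
        by_cases h1 : y = 1
        · subst h1
          rw [Finsupp.single_eq_same, mul_one, co_T, if_neg (by omega)]
        · rw [Finsupp.single_eq_of_ne h1, mul_zero, co_zero]

end Pool.Agent.Work.MP_a20dfd
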