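import Pool.Agent.Work.MP_a20dfd.Interface2

set_option autoImplicit false

namespace Pool.Agent.Work.MP_a20dfd

open LaurentPolynomial

namespace CupX

theorem co_add (f g : A) (k : ℤ) : co (f + g) k = co f k + co g k := by
  simp [co]

theorem co_sub (f g : A) (k : ℤ) : co (f - g) k = co f k - co g k := by
  simp [co]

theorem co_zero (k : ℤ) : co 0 k = 0 := by
  simp [co]

theorem co_one (k : ℤ) : co 1 k = if (0 : ℤ) = k then 1 else 0 := by
  rw [← T_zero]
  exact T_apply k 0

theorem co_C (a : ℤ) (k : ℤ) : co (C a) k = if k = 0 then a else 0 := by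
  exact C_apply a k

theorem co_T_mul (n : ℤ) (f : A) (k : ℤ) : co (T n * f) k = co f (k - n) := by
  change (AddMonoidAlgebra.single n (1 : ℤ) * f).coeff k = f.coeff (k - n)
  rw [AddMonoidAlgebra.coeff_single_mul_apply, one_mul]
  congr 1
  ring

theorem co_C_mul (a : ℤ) (f : A) (k : ℤ) : co (C a * f) k = a * co f k := by
  change (AddMonoidAlgebra.single 0 a * f).coeff k = a * f.coeff k
  rw [AddMonoidAlgebra.coeff_single_mul_apply]
  simp

theorem co_sum {ι : Type} (S : Finset ι) (f : ι → A) (k : ℤ) :
    co (∑ x ∈ S, f x) k = ∑ x ∈ S, co (f x) k := by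
  classical
  induction S using Finset.induction_on with
  | empty => simp [co_zero]
  | insert a S ha ih => rw [Finset.sum_insert ha, Finset.sum_insert ha, co_add, ih]

variable {B W : Type} [Group W] {M : CoxeterMatrix B} {cs : CoxeterSystem M W} (K : KL cs)

theorem coord (hL : ∀ (i : B) (w : W), cs.length (cs.simple i * w) < cs.length w →
      K.std (cs.simple i) * K.std w = K.std (cs.simple i * w) + (T (-1) - T 1 : A) • K.std w)
    (i : B) (X : K.H) (z : W) :
    K.std.repr (K.std (cs.simple i) * X) z = K.std.repr X (cs.simple i * z) +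
      (if cs.length (cs.simple i * z) < cs.length z then (T (-1) - T 1 : A) else 0) *
        K.std.repr X z := by
  classical
  obtain ⟨c, hc⟩ : ∃ c : A, c =
    if cs.length (cs.simple i * z) < cs.length z then (T (-1) - T 1 : A) else 0 := ⟨_, rfl⟩
  rw [← hc]
  let L1 : K.H →ₗ[A] A := (Finsupp.lapply z) ∘ₗ (K.std.repr : K.H →ₗ[A] (W →₀ A)) ∘ₗ
    (LinearMap.mulLeft A (K.std (cs.simple i)))
  let L2 : K.H →ₗ[A] A := (Finsupp.lapply (cs.simple i * z)) ∘ₗ (K.std.repr : K.H →ₗ[A] (W →₀ A)) +
    c • ((Finsupp.lapply z) ∘ₗ (K.std.repr : K.H →ₗ[A] (W →₀ A)))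
  have h : L1 = L2 := by
    apply K.std.ext
    intro y
    show K.std.repr (K.std (cs.simple i) * K.std y) z = K.std.repr (K.std y) (cs.simple i * z) +
      c * K.std.repr (K.std y) z
    have e1 : cs.simple i * y = z ↔ y = cs.simple i * z := by
      constructor
      · rintro rfl
        rw [cs.simple_mul_simple_cancel_left]
      · rintro rfl
        rw [cs.simple_mul_simple_cancel_left]
    rcases cs.length_simple_mul y i with hl | hl
    · rw [K.std_mul i y hl]
      simp only [Module.Basis.repr_self, Finsupp.single_apply, e1]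
      by_cases hyz : y = z
      · subst hyz
        have hc0 : c = 0 := by rw [hc, if_neg (by omega)]
        rw [hc0, zero_mul, add_zero]
      · rw [if_neg hyz, mul_zero, add_zero]
    · rw [hL i y (by omega), map_add, map_smul]
      simp only [Module.Basis.repr_self, Finsupp.add_apply, Finsupp.smul_apply,
        Finsupp.single_apply, e1, smul_eq_mul]
      by_cases hyz : y = z
      · subst hyz
        have hc0 : c = T (-1) - T 1 := by rw [hc, if_pos (by omega)]
        rw [hc0]
      · rw [if_neg hyz, mul_zero, mul_zero]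
  exact LinearMap.congr_fun h X

end CupX

open CupX in
theorem p_CUP (hCSI : Stmt_CSI) (hHRL : Stmt_HRL) (hTRI : Stmt_TRI) (hUNQ : Stmt_UNQ) :
    Stmt_CUP := by
  classical
  intro B W _ M cs K i w hlt
  obtain ⟨q, hq⟩ : ∃ q : W → A, q = fun z => K.std.repr (K.kl (cs.simple i) * K.kl w) z :=
    ⟨_, rfl⟩
  have hpc : ∀ y v : W, y ≠ v → ∀ k : ℤ, k ≤ 0 → co (K.p y v) k = 0 := fun y v h k hk =>
    K.kl_lt y v h k hk
  have hps : ∀ v : W, K.p v v = 1 := fun v => K.kl_self v
  have hq1 : ∀ z, q z = K.p (cs.simple i * z) w +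
      (if cs.length (cs.simple i * z) < cs.length z then (T (-1) - T 1 : A) else 0) * K.p z w +
      T 1 * K.p z w := by
    intro z
    have h1 : q z = K.std.repr (K.std (cs.simple i) * K.kl w + (T 1 : A) • K.kl w) z := by
      rw [hq]
      change K.std.repr (K.kl (cs.simple i) * K.kl w) z = _
      rw [(hCSI K).2 i, add_mul, smul_mul_assoc, one_mul]
    rw [h1, map_add, map_smul, Finsupp.add_apply, Finsupp.smul_apply, smul_eq_mul,
      coord K (hHRL K).1 i (K.kl w) z]
    rfl
  have hqd : ∀ z, cs.length (cs.simple i * z) < cs.length z →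
      q z = K.p (cs.simple i * z) w + T (-1) * K.p z w := by
    intro z hz
    rw [hq1 z, if_pos hz]
    ring
  have hqu : ∀ z, ¬ cs.length (cs.simple i * z) < cs.length z →
      q z = K.p (cs.simple i * z) w + T 1 * K.p z w := by
    intro z hz
    rw [hq1 z, if_neg hz]
    ring
  have hsw : K.p (cs.simple i * w) w = 0 := by
    apply hTRI K _ _ _ hlt.le
    intro h
    rw [h] at hlt
    exact lt_irrefl _ hlt
  have hss : ∀ z, cs.simple i * (cs.simple i * z) = z := fun z =>
    cs.simple_mul_simple_cancel_left i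
  -- negative exponents
  have hneg : ∀ z, ∀ k : ℤ, k < 0 → co (q z) k = 0 := by
    intro z k hk
    have h1 : co (K.p (cs.simple i * z) w) k = 0 := by
      by_cases h : cs.simple i * z = w
      · rw [h, hps, co_one, if_neg (by omega)]
      · exact hpc _ _ h k hk.le
    by_cases hz : cs.length (cs.simple i * z) < cs.length z
    · rw [hqd z hz, co_add, h1, co_T_mul, zero_add]
      have hne : z ≠ w := by
        rintro rfl
        omega
      exact hpc _ _ hne _ (by omega)
    · rw [hqu z hz, co_add, h1, co_T_mul, zero_add]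
      by_cases h : z = w
      · rw [h, hps, co_one, if_neg (by omega)]
      · exact hpc _ _ h _ (by omega)
  have hzero : ∀ z, ¬ cs.length (cs.simple i * z) < cs.length z → co (q z) 0 = 0 := by
    intro z hz
    rw [hqu z hz, co_add, co_T_mul]
    have h1 : co (K.p (cs.simple i * z) w) 0 = 0 := by
      apply hpc _ _ _ _ le_rfl
      intro h
      apply hz
      rw [h]
      rw [← h, hss] at hlt
      rw [← h]
      exact hlt
    have h2 : co (K.p z w) (0 - 1) = 0 := by
      by_cases h : z = w
      · rw [h, hps, co_one, if_neg (by omega)]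
      · exact hpc _ _ h _ (by omega)
    rw [h1, h2, add_zero]
  have hone : q (cs.simple i * w) = 1 := by
    rw [hqd _ (by rw [hss]; exact hlt), hss, hps, hsw, mul_zero, add_zero]
  -- the integral combination
  obtain ⟨S, hS⟩ : ∃ S : Finset W, S = (K.std.repr (K.kl (cs.simple i) * K.kl w)).support :=
    ⟨_, rfl⟩
  have hSq : ∀ z, z ∉ S → q z = 0 := by
    intro z hz
    rw [hS, Finsupp.notMem_support_iff] at hz
    rw [hq]
    exact hz
  obtain ⟨Y, hY⟩ : ∃ Y : K.H, Y = ∑ z ∈ S, (C (co (q z) 0) : A) • K.kl z := ⟨_, rfl⟩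
  have hX : K.kl (cs.simple i) * K.kl w - Y = 0 := by
    apply hUNQ K
    · rw [map_sub, map_mul, K.bar_kl, K.bar_kl, hY, map_sum]
      congr 1
      refine Finset.sum_congr rfl fun z _ => ?_
      rw [K.bar_smul, K.bar_kl, invert_C]
    · intro y k hk
      have h1 : K.std.repr (K.kl (cs.simple i) * K.kl w - Y) y =
          q y - ∑ z ∈ S, C (co (q z) 0) * K.p y z := by
        rw [map_sub, Finsupp.sub_apply, hY, map_sum, Finsupp.finsetSum_apply, hq]
        congr 1
        refine Finset.sum_congr rfl fun z _ => ?_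
        rw [map_smul, Finsupp.smul_apply, smul_eq_mul]
        rfl
      rw [h1, co_sub, co_sum]
      have h2 : ∀ z ∈ S, z ≠ y → co (C (co (q z) 0) * K.p y z) k = 0 := by
        intro z _ hzy
        rw [co_C_mul, hpc y z hzy.symm k hk, mul_zero]
      by_cases hyS : y ∈ S
      · rw [Finset.sum_eq_single_of_mem y hyS (fun z hz hzy => h2 z hz hzy), co_C_mul, hps,
          co_one]
        rcases hk.lt_or_eq with hk' | hk'
        · rw [if_neg (by omega), hneg y k hk', mul_zero, sub_zero]
        · rw [hk', if_pos rfl, mul_one, sub_self]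
      · rw [Finset.sum_eq_zero (fun z hz => h2 z hz (fun h => hyS (h ▸ hz))), hSq y hyS,
          co_zero, sub_zero]
  have hh : ∀ z, K.h (cs.simple i) w z = C (co (q z) 0) := by
    intro z
    have h1 : K.h (cs.simple i) w z = K.kl.repr Y z := by
      rw [← sub_eq_zero.1 hX]
      rfl
    rw [h1, hY, map_sum, Finsupp.finsetSum_apply]
    have h2 : ∀ u ∈ S, K.kl.repr ((C (co (q u) 0) : A) • K.kl u) z =
        if u = z then C (co (q u) 0) else 0 := by
      intro u _
      rw [map_smul, Finsupp.smul_apply, Module.Basis.repr_self, Finsupp.single_apply,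
        smul_eq_mul]
      split_ifs
      · rw [mul_one]
      · rw [mul_zero]
    rw [Finset.sum_congr rfl h2, Finset.sum_ite_eq']
    split_ifs with hz
    · rfl
    · rw [hSq z hz, co_zero, map_zero]
  refine ⟨fun z => ⟨fun k hk => ?_, fun hz => ?_⟩, ?_⟩
  · rw [hh z, co_C, if_neg hk]
  · by_contra hcon
    apply hz
    rw [hh z, hzero z hcon, map_zero]
  · rw [hh, hone, co_one, if_pos rfl, map_one]

end Pool.Agent.Work.MP_a20dfd
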