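import Pool.Agent.Work.MP_a20dfd.Interface2

/-!
MP_a20dfd_al, block EDG, second copy (helper37).
-/

namespace Pool.Agent.Work.MP_a20dfd

open LaurentPolynomial

theorem Edg37_exists_co {f : A} (h : f ≠ 0) : ∃ k : ℤ, co f k ≠ 0 := by
  by_contra hc
  push Not at hc
  apply h
  ext k
  exact hc k

theorem p_EDG37 (hLPF : Stmt_LPF) (hASC : Stmt_ASC) (hCUP : Stmt_CUP) (hDSC : Stmt_DSC) :
    Stmt_EDG := by
  intro B W _ _ M cs K hP i u v z x k hu hne hco
  obtain ⟨l1, l2, l3, l4, l5, _, _⟩ := hLPF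
  have hzxu : K.h z x u ≠ 0 := by
    intro h0
    apply hco
    rw [h0]
    rfl
  have hz : cs.length z < cs.length (cs.simple i * z) := by
    rcases cs.length_simple_mul z i with h | h
    · omega
    · exfalso
      have := (hDSC K z x u hzxu).1 i (by omega)
      omega
  have hsu0 : co (K.h (cs.simple i) u v) 0 ≠ 0 := by
    obtain ⟨j, hj⟩ := Edg37_exists_co hne
    by_cases hj0 : j = 0
    · subst hj0; exact hj
    · exact absurd (((hCUP K i u hu).1 v).1 j hj0) hj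
  have hpos : 0 < co (∑ w : W, K.h z x w * K.h (cs.simple i) w v) k := by
    have h1 := (l5 Finset.univ (fun w : W => K.h z x w * K.h (cs.simple i) w v)
      (fun w _ => l1 _ _ (hP.2 _ _ _) (hP.2 _ _ _))).2 u (Finset.mem_univ _) k
    have h2 := l2 (K.h z x u) (K.h (cs.simple i) u v) (hP.2 _ _ _) (hP.2 _ _ _) k 0
    rw [add_zero] at h2
    have h3 : 0 < co (K.h z x u) k := lt_of_le_of_ne (hP.2 _ _ _ _) (Ne.symm hco)
    have h4 : 0 < co (K.h (cs.simple i) u v) 0 := lt_of_le_of_ne (hP.2 _ _ _ _) (Ne.symm hsu0)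
    have h5 := mul_pos h3 h4
    exact lt_of_lt_of_le (lt_of_lt_of_le h5 h2) h1
  rw [← hASC K (cs.simple i) z x v, l4] at hpos
  obtain ⟨w, _, hw⟩ := Finset.exists_ne_zero_of_sum_ne_zero (ne_of_gt hpos)
  obtain ⟨a, b, hab, ha, hb⟩ := l3 _ _ _ hw
  have ha0 : a = 0 := by
    by_contra h
    exact ha (((hCUP K i z hz).1 w).1 a h)
  refine ⟨w, ?_⟩
  have hbk : b = k := by omega
  rw [← hbk]
  exact hb

end Pool.Agent.Work.MP_a20dfd
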