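import Pool.Agent.Work.MP_a20dfd.Interface2

/-!
Block EXC (strong exchange condition), second copy, by helper64.
-/

set_option autoImplicit false

namespace Pool.Agent.Work.MP_a20dfd

namespace Exc64

open Finset

variable {B W : Type} [Group W] {M : CoxeterMatrix B} (cs : CoxeterSystem M W)

open Classical in
/-- indicator -/
noncomputable def ind (t u : W) : ZMod 2 := if t = u then 1 else 0

theorem ind_congr {t u t' u' : W} (h : t = u ↔ t' = u') : ind t u = ind t' u' := by
  unfold ind
  by_cases h1 : t = u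
  · rw [if_pos h1, if_pos (h.1 h1)]
  · rw [if_neg h1, if_neg (fun h2 => h1 (h.2 h2))]

/-- the involution of the generator -/
noncomputable def Fn (i : B) (p : W × ZMod 2) : W × ZMod 2 :=
  (cs.simple i * p.1 * cs.simple i, p.2 + ind p.1 (cs.simple i))

theorem two_zero (x : ZMod 2) : x + x = 0 := CharTwo.add_self_eq_zero x

theorem Fn_Fn (i : B) (p : W × ZMod 2) : Fn cs i (Fn cs i p) = p := by
  obtain ⟨t, e⟩ := p
  unfold Fn
  have h1 : cs.simple i * (cs.simple i * t * cs.simple i) * cs.simple i = t := by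
    have h := cs.simple_mul_simple_self i
    calc cs.simple i * (cs.simple i * t * cs.simple i) * cs.simple i
        = (cs.simple i * cs.simple i) * t * (cs.simple i * cs.simple i) := by group
      _ = t := by rw [h]; group
  have h2 : ind (cs.simple i * t * cs.simple i) (cs.simple i) = ind t (cs.simple i) := by
    apply ind_congr
    constructor
    · intro h
      have h3 : cs.simple i * (cs.simple i * t * cs.simple i) * cs.simple i
          = cs.simple i * cs.simple i * cs.simple i := by rw [h]
      rw [h1] at h3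
      rw [h3, cs.simple_mul_simple_self, one_mul]
    · intro h
      rw [h, cs.simple_mul_simple_self, one_mul]
  ext
  · exact h1
  · show e + ind t (cs.simple i) + ind (cs.simple i * t * cs.simple i) (cs.simple i) = e
    rw [h2, add_assoc, two_zero, add_zero]

/-- the permutation -/
noncomputable def F (i : B) : Equiv.Perm (W × ZMod 2) where
  toFun := Fn cs i
  invFun := Fn cs i
  left_inv := Fn_Fn cs i
  right_inv := Fn_Fn cs i

theorem F_apply (i : B) (p : W × ZMod 2) : F cs i p =
    (cs.simple i * p.1 * cs.simple i, p.2 + ind p.1 (cs.simple i)) := rfl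

theorem s_pow (i j : B) (k : ℕ) :
    cs.simple j * (cs.simple i * cs.simple j) ^ k =
      ((cs.simple i * cs.simple j) ^ k)⁻¹ * cs.simple j := by
  induction k with
  | zero => simp
  | succ k ih =>
    rw [pow_succ, ← mul_assoc, ih, mul_inv_rev, mul_inv_rev]
    rw [cs.inv_simple, cs.inv_simple]
    have h : ((cs.simple i * cs.simple j) ^ k)⁻¹ * (cs.simple j * cs.simple i) =
        (cs.simple j * cs.simple i) * ((cs.simple i * cs.simple j) ^ k)⁻¹ := by
      have h1 : cs.simple j * cs.simple i = (cs.simple i * cs.simple j)⁻¹ := by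
        rw [mul_inv_rev, cs.inv_simple, cs.inv_simple]
      rw [h1, ← inv_pow]
      exact (pow_mul_comm' _ _)
    calc ((cs.simple i * cs.simple j) ^ k)⁻¹ * cs.simple j * (cs.simple i * cs.simple j)
        = (((cs.simple i * cs.simple j) ^ k)⁻¹ * (cs.simple j * cs.simple i)) * cs.simple j := by
          group
      _ = _ := by rw [h]

theorem pow_F (i j : B) (k : ℕ) (t : W) (e : ZMod 2) :
    ((F cs i * F cs j) ^ k) (t, e) =
      ((cs.simple i * cs.simple j) ^ k * t * ((cs.simple i * cs.simple j) ^ k)⁻¹,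
        e + ∑ l ∈ range (2 * k), ind t (((cs.simple i * cs.simple j) ^ l)⁻¹ * cs.simple j)) := by
  induction k with
  | zero => simp
  | succ k ih =>
    rw [pow_succ', Equiv.Perm.mul_apply, ih, Equiv.Perm.mul_apply, F_apply, F_apply]
    set r := cs.simple i * cs.simple j with hr
    have hs := s_pow cs i j k
    rw [← hr] at hs
    have hr1 : cs.simple j * cs.simple i = r⁻¹ := by
      rw [hr, mul_inv_rev, cs.inv_simple, cs.inv_simple]
    have e1 : ind (r ^ k * t * (r ^ k)⁻¹) (cs.simple j) = ind t ((r ^ (2 * k))⁻¹ * cs.simple j) := by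
      apply ind_congr
      have e2 : (r ^ (2 * k))⁻¹ * cs.simple j = (r ^ k)⁻¹ * cs.simple j * r ^ k := by
        rw [mul_assoc, hs, two_mul, pow_add, mul_inv_rev, mul_assoc]
      rw [e2]
      constructor
      · intro h
        rw [← h]; group
      · intro h
        rw [h]; group
    have e3 : ind (cs.simple j * (r ^ k * t * (r ^ k)⁻¹) * cs.simple j) (cs.simple i) =
        ind t ((r ^ (2 * k + 1))⁻¹ * cs.simple j) := by
      apply ind_congr
      have e2 : (r ^ (2 * k + 1))⁻¹ * cs.simple j =
          (r ^ k)⁻¹ * (cs.simple j * cs.simple i * cs.simple j) * r ^ k := by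
        rw [hr1, mul_assoc, mul_assoc, hs]
        have : r ^ (2 * k + 1) = r ^ k * r * r ^ k := by
          rw [← pow_succ, ← pow_add]; congr 1; ring
        rw [this]
        group
      rw [e2]
      have hjj := cs.simple_mul_simple_self j
      constructor
      · intro h
        rw [← h]
        calc t = (r ^ k)⁻¹ * ((1 : W) * (r ^ k * t * (r ^ k)⁻¹) * 1) * r ^ k := by group
          _ = (r ^ k)⁻¹ * ((cs.simple j * cs.simple j) * (r ^ k * t * (r ^ k)⁻¹) *
              (cs.simple j * cs.simple j)) * r ^ k := by rw [hjj]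
          _ = _ := by group
      · intro h
        rw [h]
        calc cs.simple j * (r ^ k * ((r ^ k)⁻¹ * (cs.simple j * cs.simple i * cs.simple j) * r ^ k) *
              (r ^ k)⁻¹) * cs.simple j
            = (cs.simple j * cs.simple j) * cs.simple i * (cs.simple j * cs.simple j) := by group
          _ = cs.simple i := by rw [hjj]; group
    have e5 : 2 * (k + 1) = 2 * k + 1 + 1 := by ring
    rw [e5, sum_range_succ, sum_range_succ]
    ext
    · show cs.simple i * (cs.simple j * (r ^ k * t * (r ^ k)⁻¹) * cs.simple j) * cs.simple i =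
        r ^ (k + 1) * t * (r ^ (k + 1))⁻¹
      rw [pow_succ', mul_inv_rev]
      have e6 : r⁻¹ = cs.simple j * cs.simple i := hr1.symm
      rw [e6, hr]
      group
    · show e + ∑ l ∈ range (2 * k), ind t ((r ^ l)⁻¹ * cs.simple j) +
          ind (r ^ k * t * (r ^ k)⁻¹) (cs.simple j) +
          ind (cs.simple j * (r ^ k * t * (r ^ k)⁻¹) * cs.simple j) (cs.simple i) = _
      rw [e1, e3]
      ring

theorem liftable (i j : B) : (F cs i * F cs j) ^ M i j = 1 := by
  ext1 p
  obtain ⟨t, e⟩ := p
  rw [pow_F]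
  have h1 : (cs.simple i * cs.simple j) ^ M i j = 1 := cs.simple_mul_simple_pow i j
  have h2 : ∑ l ∈ range (2 * M i j), ind t (((cs.simple i * cs.simple j) ^ l)⁻¹ * cs.simple j) = 0 := by
    rw [two_mul, sum_range_add]
    have h3 : ∀ l ∈ range (M i j),
        ind t (((cs.simple i * cs.simple j) ^ (M i j + l))⁻¹ * cs.simple j) =
        ind t (((cs.simple i * cs.simple j) ^ l)⁻¹ * cs.simple j) := by
      intro l _
      rw [pow_add, h1, one_mul]
    rw [sum_congr rfl h3]
    exact two_zero _
  rw [h1, h2]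
  simp

/-- the homomorphism -/
noncomputable def Phi : W →* Equiv.Perm (W × ZMod 2) :=
  cs.lift ⟨F cs, fun i j => liftable cs i j⟩

theorem Phi_simple (i : B) : Phi cs (cs.simple i) = F cs i := by
  unfold Phi
  exact cs.lift_apply_simple _ i

/-- number of occurrences modulo two -/
noncomputable def cnt (L : List W) (t : W) : ZMod 2 := (L.map fun u => ind t u).sum

theorem cnt_mem (L : List W) (t : W) (h : cnt L t ≠ 0) : t ∈ L := by
  by_contra hn
  apply h
  unfold cnt
  apply List.sum_eq_zero
  intro x hx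
  rw [List.mem_map] at hx
  obtain ⟨u, hu, rfl⟩ := hx
  unfold ind
  rw [if_neg]
  rintro rfl
  exact hn hu

theorem Phi_word (ω : List B) (t : W) (e : ZMod 2) : Phi cs (cs.wordProd ω) (t, e) =
    (cs.wordProd ω * t * (cs.wordProd ω)⁻¹, e + cnt (cs.rightInvSeq ω) t) := by
  induction ω with
  | nil => simp [cnt]
  | cons i ω ih =>
    rw [cs.wordProd_cons, map_mul, Equiv.Perm.mul_apply, ih, Phi_simple, F_apply]
    have h1 : cnt (cs.rightInvSeq (i :: ω)) t =
        ind t ((cs.wordProd ω)⁻¹ * cs.simple i * cs.wordProd ω) + cnt (cs.rightInvSeq ω) t := by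
      unfold cnt
      rw [CoxeterSystem.rightInvSeq, List.map_cons, List.sum_cons]
    have h2 : ind (cs.wordProd ω * t * (cs.wordProd ω)⁻¹) (cs.simple i) =
        ind t ((cs.wordProd ω)⁻¹ * cs.simple i * cs.wordProd ω) := by
      apply ind_congr
      constructor
      · intro h
        rw [← h]; group
      · intro h
        rw [h]; group
    rw [h1]
    ext
    · show cs.simple i * (cs.wordProd ω * t * (cs.wordProd ω)⁻¹) * cs.simple i =
        cs.simple i * cs.wordProd ω * t * (cs.simple i * cs.wordProd ω)⁻¹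
      rw [mul_inv_rev, cs.inv_simple]
      group
    · show e + cnt (cs.rightInvSeq ω) t + ind (cs.wordProd ω * t * (cs.wordProd ω)⁻¹) (cs.simple i) = _
      rw [h2]
      ring

/-- the cocycle -/
noncomputable def N (w t : W) : ZMod 2 := (Phi cs w (t, 0)).2

theorem Phi_eq (w t : W) (e : ZMod 2) : Phi cs w (t, e) = (w * t * w⁻¹, e + N cs w t) := by
  obtain ⟨ω, -, rfl⟩ := cs.exists_isReduced w
  unfold N
  rw [Phi_word, Phi_word, zero_add]

theorem N_mul (x y t : W) : N cs (x * y) t = N cs y t + N cs x (y * t * y⁻¹) := by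
  have h : Phi cs (x * y) (t, 0) = Phi cs x (Phi cs y (t, 0)) := by
    rw [map_mul, Equiv.Perm.mul_apply]
  rw [Phi_eq, Phi_eq cs y, Phi_eq cs x] at h
  have h2 := congrArg Prod.snd h
  simpa using h2

theorem N_one (t : W) : N cs 1 t = 0 := by
  unfold N
  rw [map_one]
  rfl

theorem N_simple (i : B) : N cs (cs.simple i) (cs.simple i) = 1 := by
  unfold N
  rw [Phi_simple, F_apply]
  show (0 : ZMod 2) + ind (cs.simple i) (cs.simple i) = 1
  unfold ind
  rw [if_pos rfl, zero_add]

theorem N_refl (t : W) (ht : cs.IsReflection t) : N cs t t = 1 := by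
  obtain ⟨u, i, rfl⟩ := ht
  set t := u * cs.simple i * u⁻¹ with hdef
  have h1 : N cs t t = N cs (cs.simple i * u⁻¹) t +
      N cs u ((cs.simple i * u⁻¹) * t * (cs.simple i * u⁻¹)⁻¹) := by
    have : t = u * (cs.simple i * u⁻¹) := by rw [hdef]; group
    conv_lhs => rw [show N cs t t = N cs (u * (cs.simple i * u⁻¹)) t by rw [← this]]
    rw [N_mul]
  have h2 : u⁻¹ * t * (u⁻¹)⁻¹ = cs.simple i := by rw [hdef]; group
  have h3 : (cs.simple i * u⁻¹) * t * (cs.simple i * u⁻¹)⁻¹ = cs.simple i := by
    have : (cs.simple i * u⁻¹) * t * (cs.simple i * u⁻¹)⁻¹ =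
        cs.simple i * (u⁻¹ * t * (u⁻¹)⁻¹) * (cs.simple i)⁻¹ := by group
    rw [this, h2]; group
  have h4 : N cs (cs.simple i * u⁻¹) t = N cs u⁻¹ t + 1 := by
    rw [N_mul, h2, N_simple]
  have h5 : (0 : ZMod 2) = N cs u⁻¹ t + N cs u (cs.simple i) := by
    rw [← N_one cs t]
    conv_lhs => rw [show N cs 1 t = N cs (u * u⁻¹) t by rw [mul_inv_cancel]]
    rw [N_mul, h2]
  rw [h1, h3, h4]
  calc N cs u⁻¹ t + 1 + N cs u (cs.simple i) = (N cs u⁻¹ t + N cs u (cs.simple i)) + 1 := by ring
    _ = 1 := by rw [← h5, zero_add]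

theorem N_mem (ω : List B) (t : W) (h : N cs (cs.wordProd ω) t ≠ 0) : t ∈ cs.rightInvSeq ω := by
  apply cnt_mem
  unfold N at h
  rw [Phi_word] at h
  simpa using h

end Exc64

open Exc64 in
theorem p_EXC : Stmt_EXC := by
  intro B W _ M cs ω t ht hlt
  set w := cs.wordProd ω with hw
  have hN : N cs w t ≠ 0 := by
    intro h0
    have h1 : N cs (w * t) t = 1 := by
      rw [N_mul, N_refl cs t ht]
      have : t * t * t⁻¹ = t := by group
      rw [this, h0, add_zero]
    obtain ⟨ω', hred, hω'⟩ := cs.exists_isReduced (w * t)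
    have h2 : t ∈ cs.rightInvSeq ω' := by
      apply N_mem
      rw [← hω', h1]
      exact one_ne_zero
    have h3 := (cs.isRightInversion_of_mem_rightInvSeq hred h2).2
    rw [← hω', mul_assoc, ht.mul_self, mul_one] at h3
    exact absurd hlt (not_lt.2 h3.le)
  have hm := N_mem cs ω t hN
  obtain ⟨j, hj, hjt⟩ := List.mem_iff_getElem.mp hm
  rw [cs.length_rightInvSeq] at hj
  refine ⟨j, hj, ?_⟩
  have h4 := cs.wordProd_mul_getD_rightInvSeq ω j
  rw [List.getD_eq_getElem _ 1 (by rw [cs.length_rightInvSeq]; exact hj), hjt] at h4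
  exact h4

end Pool.Agent.Work.MP_a20dfd
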