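import Pool.Agent.Work.MP_a20dfd.Interface2

set_option autoImplicit false

namespace Pool.Agent.Work.MP_a20dfd

open LaurentPolynomial

theorem p_FLK2 (hFLT : Stmt_FLT) (hUNQ : Stmt_UNQ) : Stmt_FLK := by
  classical
  intro B W _ M cs K
  obtain ⟨F, hF1, hF2, hF3⟩ := hFLT K
  -- coordinates of F
  have hc : ∀ (x : K.H) (y : W), K.std.repr (F x) y = K.std.repr x y⁻¹ := by
    intro x y
    have key : (Finsupp.lapply y).comp (K.std.repr.toLinearMap.comp F) =
        (Finsupp.lapply y⁻¹).comp K.std.repr.toLinearMap := by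
      apply K.std.ext
      intro w
      change K.std.repr (F (K.std w)) y = K.std.repr (K.std w) y⁻¹
      rw [hF1, K.std.repr_self, K.std.repr_self, Finsupp.single_apply, Finsupp.single_apply]
      by_cases h : w = y⁻¹
      · rw [if_pos h, if_pos (by rw [h, inv_inv])]
      · rw [if_neg h, if_neg (fun h' => h (by rw [← h', inv_inv]))]
    exact LinearMap.congr_fun key x
  have hkl : ∀ w : W, F (K.kl w) = K.kl w⁻¹ := by
    intro w
    have h0 : F (K.kl w) - K.kl w⁻¹ = 0 := by
      apply hUNQ K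
      · rw [map_sub, hF3, K.bar_kl, K.bar_kl]
      · intro y k hk
        rw [map_sub, Finsupp.sub_apply, hc]
        by_cases h : y = w⁻¹
        · rw [h, inv_inv, K.kl_self, K.kl_self, sub_self]
          rfl
        · have h1 := K.kl_lt y⁻¹ w (fun h' => h (by rw [← h', inv_inv])) k hk
          have h2 := K.kl_lt y w⁻¹ h k hk
          have h3 : co (K.std.repr (K.kl w) y⁻¹ - K.std.repr (K.kl w⁻¹) y) k =
              co (K.std.repr (K.kl w) y⁻¹) k - co (K.std.repr (K.kl w⁻¹) y) k := rfl
          rw [h3, h1, h2, sub_self]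
    exact sub_eq_zero.1 h0
  have hk : ∀ (x : K.H) (y : W), K.kl.repr (F x) y⁻¹ = K.kl.repr x y := by
    intro x y
    have key : (Finsupp.lapply y⁻¹).comp (K.kl.repr.toLinearMap.comp F) =
        (Finsupp.lapply y).comp K.kl.repr.toLinearMap := by
      apply K.kl.ext
      intro w
      change K.kl.repr (F (K.kl w)) y⁻¹ = K.kl.repr (K.kl w) y
      rw [hkl, K.kl.repr_self, K.kl.repr_self, Finsupp.single_apply, Finsupp.single_apply]
      by_cases h : w = y
      · rw [if_pos h, if_pos (by rw [h])]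
      · rw [if_neg h, if_neg (fun h' => h (inv_injective h'))]
    exact LinearMap.congr_fun key x
  refine ⟨fun y w => ?_, fun x y z => ?_⟩
  · change K.std.repr (K.kl w⁻¹) y⁻¹ = K.std.repr (K.kl w) y
    rw [← hkl, hc, inv_inv]
  · change K.kl.repr (K.kl y⁻¹ * K.kl x⁻¹) z⁻¹ = K.kl.repr (K.kl x * K.kl y) z
    rw [← hkl, ← hkl, ← hF2, hk]

end Pool.Agent.Work.MP_a20dfd
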