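import Pool.Agent.Work.MP_a20dfd.Interface2

/-!
# Block FLK (second copy)
-/

set_option autoImplicit false

namespace Pool.Agent.Work.MP_a20dfd

namespace FlkX

variable {B W : Type} [Group W] {M : CoxeterMatrix B} {cs : CoxeterSystem M W}

theorem repr_flip (K : KL cs) (b : Module.Basis W A K.H) (F : K.H →ₗ[A] K.H)
    (hF : ∀ w, F (b w) = b w⁻¹) (x : K.H) (w : W) : b.repr (F x) w⁻¹ = b.repr x w := by
  classical
  have h1 : (Finsupp.lapply w⁻¹ : (W →₀ A) →ₗ[A] A) ∘ₗ (b.repr : K.H →ₗ[A] (W →₀ A)) ∘ₗ F =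
      (Finsupp.lapply w : (W →₀ A) →ₗ[A] A) ∘ₗ (b.repr : K.H →ₗ[A] (W →₀ A)) := by
    refine b.ext fun y => ?_
    simp only [LinearMap.comp_apply, LinearEquiv.coe_coe, hF, Module.Basis.repr_self,
      Finsupp.lapply_apply, Finsupp.single_apply, inv_inj]
  exact LinearMap.congr_fun h1 x

end FlkX

theorem p_FLKx (hFLT : Stmt_FLT) (hUNQ : Stmt_UNQ) : Stmt_FLK := by
  intro B W _ M cs K
  obtain ⟨F, hF1, hF2, hF3⟩ := hFLT K
  have hstd := FlkX.repr_flip K K.std F hF1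
  have hkl : ∀ w, F (K.kl w) = K.kl w⁻¹ := by
    intro w
    refine sub_eq_zero.1 (hUNQ K (F (K.kl w) - K.kl w⁻¹) ?_ fun y k hk => ?_)
    · rw [map_sub, hF3, K.bar_kl, K.bar_kl]
    · have h1 : K.std.repr (F (K.kl w)) y = K.std.repr (K.kl w) y⁻¹ := by
        have := hstd (K.kl w) y⁻¹
        rwa [inv_inv] at this
      have h2 : co (K.std.repr (F (K.kl w) - K.kl w⁻¹) y) k =
          co (K.std.repr (K.kl w) y⁻¹) k - co (K.std.repr (K.kl w⁻¹) y) k := by
        rw [map_sub, Finsupp.sub_apply, h1]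
        rfl
      rw [h2]
      by_cases h : y = w⁻¹
      · rw [h, inv_inv, K.kl_self, K.kl_self, sub_self]
      · have h' : y⁻¹ ≠ w := fun h0 => h (by rw [← h0, inv_inv])
        rw [K.kl_lt _ _ h' k hk, K.kl_lt _ _ h k hk, sub_self]
  have hklr := FlkX.repr_flip K K.kl F hkl
  refine ⟨fun y w => ?_, fun x y z => ?_⟩
  · unfold KL.p
    rw [← hkl w, hstd]
  · unfold KL.h
    rw [← hkl y, ← hkl x, ← hF2, hklr]

end Pool.Agent.Work.MP_a20dfd
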