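import Pool.Agent.Work.MP_a20dfd.B_KLEC

/-! Block KLE (helper1): existence of the Kazhdan-Lusztig elements. -/

namespace Pool.Agent.Work.MP_a20dfd

open LaurentPolynomial

namespace Kle

variable {B W : Type} [Group W] {M : CoxeterMatrix B} {cs : CoxeterSystem M W}

/-- The properties of the element c_w. -/
def Good (K : HS cs) (bar : K.H →+* K.H) (w : W) (c : K.H) : Prop :=
  bar c = c ∧ K.std.repr c w = 1 ∧
      (∀ y : W, y ≠ w → ∀ k : ℤ, k ≤ 0 → co (K.std.repr c y) k = 0) ∧
      ∀ y : W, y ≠ w → cs.length w ≤ cs.length y → K.std.repr c y = 0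

theorem good_co {K : HS cs} {bar : K.H →+* K.H} {w : W} {c : K.H} (h : Good K bar w c) (y : W)
    (k : ℤ) (hk : k < 0) : co (K.std.repr c y) k = 0 := by
  by_cases hy : y = w
  · rw [hy, h.2.1, co_one, if_neg hk.ne]
  · exact h.2.2.1 y hy k hk.le

theorem step1 (hTRS : Stmt_TRS) (K : HS cs) (bar : K.H →+* K.H) (hbar : IsBar K bar) (i : B)
    (w : W) (hw : cs.length (cs.simple i * w) < cs.length w) (c' : K.H)
    (hc' : Good K bar (cs.simple i * w) c') :
    ∃ X : K.H, bar X = X ∧ K.std.repr X w = 1 ∧
      (∀ y : W, ∀ k : ℤ, k < 0 → co (K.std.repr X y) k = 0) ∧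
      ∀ y : W, y ≠ w → cs.length w ≤ cs.length y → K.std.repr X y = 0 := by
  have hss : ∀ z : W, cs.simple i * (cs.simple i * z) = z := fun z => by
    rw [← mul_assoc, cs.simple_mul_simple_self, one_mul]
  have hlen : cs.length w = cs.length (cs.simple i * w) + 1 := by
    rcases cs.length_simple_mul w i with h | h <;> omega
  have hX : ∀ y : W, K.std.repr ((K.std (cs.simple i) + (T 1 : A) • (1 : K.H)) * c') y =
      K.std.repr c' (cs.simple i * y) +
      (if cs.length (cs.simple i * y) < cs.length y then (T (-1) : A) * K.std.repr c' y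
        else (T 1 : A) * K.std.repr c' y) := by
    intro y
    rw [add_mul, smul_mul_assoc, one_mul, map_add, map_smul, Finsupp.add_apply,
      Finsupp.smul_apply, smul_eq_mul, repr_smul]
    split_ifs
    · ring
    · ring
  refine ⟨(K.std (cs.simple i) + (T 1 : A) • (1 : K.H)) * c', ?_, ?_, ?_, ?_⟩
  · rw [map_mul, hc'.1, map_add, hbar.1, map_one, (hTRS K bar hbar).1 i]
    congr 1
    rw [add_assoc, ← add_smul]
    congr 2
    rw [invert_T]
    ring
  · rw [hX w, hc'.2.1, if_pos hw, hc'.2.2.2 w (fun h => by rw [← h] at hw; exact lt_irrefl _ hw)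
      hw.le, mul_zero, add_zero]
  · intro y k hk
    rw [hX y, co_add, good_co hc' _ k hk, zero_add]
    split_ifs with hy
    · rw [co_T_mul]
      by_cases hyw : y = cs.simple i * w
      · rw [hyw, hss] at hy
        exact absurd hy (not_lt.mpr hw.le)
      · exact hc'.2.2.1 y hyw _ (by omega)
    · rw [co_T_mul]
      exact good_co hc' _ _ (by omega)
  · intro y hy hly
    have h1 : cs.simple i * y ≠ cs.simple i * w := fun h => hy (mul_left_cancel h)
    have h2 : cs.length (cs.simple i * w) ≤ cs.length (cs.simple i * y) := by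
      rcases cs.length_simple_mul y i with h | h <;> omega
    have h3 : y ≠ cs.simple i * w := fun h => by
      rw [h] at hly
      omega
    rw [hX y, hc'.2.2.2 _ h1 h2, hc'.2.2.2 y h3 (by omega), mul_zero, mul_zero, ite_self,
      add_zero]

end Kle

open Kle in
theorem p_KLE (hTRS : Stmt_TRS) : Stmt_KLE := by
  intro B W _ _ M cs K bar hbar
  classical
  suffices H : ∀ n : ℕ, ∀ w : W, cs.length w = n → ∃ c : K.H, Good K bar w c by
    intro w
    exact H _ w rfl
  intro n
  induction n using Nat.strong_induction_on with
  | _ n ih =>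
    intro w hwn
    by_cases hw1 : w = 1
    · refine ⟨1, map_one _, ?_, ?_, ?_⟩
      · rw [hw1, ← K.std_one, K.std.repr_self, Finsupp.single_eq_same]
      · intro y hy k _
        rw [← K.std_one, K.std.repr_self, Finsupp.single_apply,
          if_neg (fun h => hy (by rw [hw1, h])), co_zero]
      · intro y hy _
        rw [← K.std_one, K.std.repr_self, Finsupp.single_apply,
          if_neg (fun h => hy (by rw [hw1, h]))]
    · obtain ⟨i, hi⟩ := cs.exists_leftDescent_of_ne_one hw1
      have hi' : cs.length (cs.simple i * w) < cs.length w := hi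
      obtain ⟨c', hc'⟩ := ih _ (by rw [← hwn]; exact hi') (cs.simple i * w) rfl
      obtain ⟨X, hX1, hX2, hX3, hX4⟩ := step1 hTRS K bar hbar i w hi' c' hc'
      have hch : ∀ t : W, ∃ c : K.H, cs.length t < cs.length w → Good K bar t c := by
        intro t
        by_cases ht : cs.length t < cs.length w
        · obtain ⟨c, hc⟩ := ih (cs.length t) (by rw [← hwn]; exact ht) t rfl
          exact ⟨c, fun _ => hc⟩
        · exact ⟨0, fun h => absurd h ht⟩
      choose c hc using hch
      set S : Finset W := Finset.univ.filter (fun t : W => cs.length t < cs.length w) with hS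
      have hmem : ∀ t : W, t ∈ S ↔ cs.length t < cs.length w := fun t => by simp [hS]
      have hco : ∀ t ∈ S, ∀ y : W, ∀ k : ℤ, k ≤ 0 →
          co (K.std.repr (c t) y) k = if t = y then (if k = 0 then 1 else 0) else 0 := by
        intro t ht y k hk
        have hg := hc t ((hmem t).mp ht)
        by_cases hty : t = y
        · rw [if_pos hty, ← hty, hg.2.1, co_one]
        · rw [if_neg hty]
          exact hg.2.2.1 y (Ne.symm hty) k hk
      have hrep : ∀ y : W, K.std.repr (X - ∑ t ∈ S, (C (co (K.std.repr X t) 0) : A) • c t) y =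
          K.std.repr X y - ∑ t ∈ S, (C (co (K.std.repr X t) 0) : A) * K.std.repr (c t) y := by
        intro y
        rw [map_sub, Finsupp.sub_apply, map_sum, Finsupp.finsetSum_apply]
        congr 1
        refine Finset.sum_congr rfl fun t _ => ?_
        rw [map_smul, Finsupp.smul_apply, smul_eq_mul]
      refine ⟨X - ∑ t ∈ S, (C (co (K.std.repr X t) 0) : A) • c t, ?_, ?_, ?_, ?_⟩
      · rw [map_sub, hX1, map_sum]
        congr 1
        refine Finset.sum_congr rfl fun t ht => ?_
        rw [hbar.1, invert_C, (hc t ((hmem t).mp ht)).1]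
      · rw [hrep, hX2, Finset.sum_eq_zero, sub_zero]
        intro t ht
        have htl := (hmem t).mp ht
        rw [(hc t htl).2.2.2 w (fun h => by rw [h] at htl; exact lt_irrefl _ htl) htl.le,
          mul_zero]
      · intro y hy k hk
        rw [hrep, co_sub, co_sum]
        by_cases hly : cs.length y < cs.length w
        · have e1 : ∑ t ∈ S, co ((C (co (K.std.repr X t) 0) : A) * K.std.repr (c t) y) k =
              if k = 0 then co (K.std.repr X y) 0 else 0 := by
            rw [Finset.sum_eq_single y]
            · rw [co_C_mul, hco y ((hmem y).mpr hly) y k hk, if_pos rfl]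
              split_ifs <;> simp
            · intro t ht hty
              rw [co_C_mul, hco t ht y k hk, if_neg hty, mul_zero]
            · intro h
              exact absurd ((hmem y).mpr hly) h
          rw [e1]
          split_ifs with hk0
          · rw [hk0, sub_self]
          · rw [hX3 y k (lt_of_le_of_ne hk hk0), sub_zero]
        · rw [hX4 y hy (not_lt.mp hly), co_zero, Finset.sum_eq_zero, sub_zero]
          intro t ht
          have htl := (hmem t).mp ht
          rw [(hc t htl).2.2.2 y (fun h => by rw [h] at hly; exact hly htl)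
            (by omega), mul_zero, co_zero]
      · intro y hy hly
        rw [hrep, hX4 y hy hly, Finset.sum_eq_zero, sub_zero]
        intro t ht
        have htl := (hmem t).mp ht
        rw [(hc t htl).2.2.2 y (fun h => by rw [h] at hly; exact absurd htl (not_lt.mpr hly))
            (by omega), mul_zero]

end Pool.Agent.Work.MP_a20dfd
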