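import Pool.Agent.Work.MP_a20dfd.ExDefs

/-! Coordinates of H_s x (helper1), for block KLE. -/

namespace Pool.Agent.Work.MP_a20dfd

open LaurentPolynomial

namespace Kle

variable {B W : Type} [Group W] {M : CoxeterMatrix B} {cs : CoxeterSystem M W}

theorem repr_smul (K : HS cs) (i : B) (x : K.H) (y : W) :
    K.std.repr (K.std (cs.simple i) * x) y = K.std.repr x (cs.simple i * y) +
      (if cs.length (cs.simple i * y) < cs.length y then (T (-1) - T 1 : A) * K.std.repr x y
        else 0) := by
  classical
  set c : A := if cs.length (cs.simple i * y) < cs.length y then (T (-1) - T 1 : A) else 0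
    with hc
  have key : (Finsupp.lapply y ∘ₗ K.std.repr.toLinearMap ∘ₗ
      LinearMap.mulLeft A (K.std (cs.simple i)) : K.H →ₗ[A] A) =
      (Finsupp.lapply (cs.simple i * y) ∘ₗ K.std.repr.toLinearMap) +
        c • (Finsupp.lapply y ∘ₗ K.std.repr.toLinearMap) := by
    refine K.std.ext fun w => ?_
    simp only [LinearMap.comp_apply, LinearMap.add_apply, LinearMap.smul_apply,
      LinearEquiv.coe_coe, Finsupp.lapply_apply, LinearMap.mulLeft_apply, smul_eq_mul]
    have hss : ∀ z : W, cs.simple i * (cs.simple i * z) = z := fun z => by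
      rw [← mul_assoc, cs.simple_mul_simple_self, one_mul]
    have hE : (Finsupp.single (cs.simple i * w) (1 : A)) y =
        (Finsupp.single w (1 : A)) (cs.simple i * y) := by
      rw [Finsupp.single_apply, Finsupp.single_apply]
      refine if_congr ⟨fun h => ?_, fun h => ?_⟩ rfl rfl
      · rw [← h, hss]
      · rw [h, hss]
    rcases lt_or_gt_of_ne (cs.length_simple_mul_ne w i) with h | h
    · rw [K.std_down i w h]
      rw [map_add, map_smul, K.std.repr_self, K.std.repr_self, Finsupp.add_apply,
        Finsupp.smul_apply, smul_eq_mul, hE]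
      congr 1
      rw [Finsupp.single_apply]
      by_cases hy : w = y
      · subst hy
        rw [hc, if_pos h]
      · rw [if_neg hy, mul_zero, mul_zero]
    · rw [K.std_up i w h]
      rw [K.std.repr_self, K.std.repr_self, hE]
      rw [Finsupp.single_apply (b := (1 : A)) (a := w) (a' := y)]
      by_cases hy : w = y
      · subst hy
        rw [hc, if_neg (not_lt.mpr h.le), zero_mul, add_zero]
      · rw [if_neg hy, mul_zero, add_zero]
  have := congrArg (fun F : K.H →ₗ[A] A => F x) key
  simp only [LinearMap.comp_apply, LinearMap.add_apply, LinearMap.smul_apply,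
      LinearEquiv.coe_coe, Finsupp.lapply_apply, LinearMap.mulLeft_apply, smul_eq_mul] at this
  rw [this, hc]
  split_ifs
  · rfl
  · rw [zero_mul]

theorem co_add (f g : A) (k : ℤ) : co (f + g) k = co f k + co g k := by simp [co]

theorem co_sub (f g : A) (k : ℤ) : co (f - g) k = co f k - co g k := by simp [co]

theorem co_zero (k : ℤ) : co 0 k = 0 := by simp [co]

theorem co_C_mul (m : ℤ) (f : A) (k : ℤ) : co (C m * f) k = m * co f k := by
  show ((AddMonoidAlgebra.single (0 : ℤ) m : A) * f).coeff k = m * f.coeff k
  rw [AddMonoidAlgebra.coeff_single_mul_apply, neg_zero, zero_add]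

theorem co_T_mul (j : ℤ) (f : A) (k : ℤ) : co (T j * f) k = co f (k - j) := by
  show ((AddMonoidAlgebra.single j (1 : ℤ) : A) * f).coeff k = f.coeff (k - j)
  rw [AddMonoidAlgebra.coeff_single_mul_apply, one_mul, neg_add_eq_sub]

theorem co_one (k : ℤ) : co 1 k = if k = 0 then 1 else 0 := by
  show (1 : A).coeff k = _
  rw [AddMonoidAlgebra.one_def, AddMonoidAlgebra.coeff_single, Finsupp.single_apply]
  exact if_congr eq_comm rfl rfl

theorem co_sum {ι : Type} (S : Finset ι) (f : ι → A) (k : ℤ) :
    co (∑ x ∈ S, f x) k = ∑ x ∈ S, co (f x) k := by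
  classical
  induction S using Finset.induction_on with
  | empty => simp [co_zero]
  | insert a S ha ih => rw [Finset.sum_insert ha, Finset.sum_insert ha, co_add, ih]

end Kle

end Pool.Agent.Work.MP_a20dfd
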