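import Pool.Agent.Work.MP_a20dfd.Interface2

/-!
Steps (i) and (ii) of block NFO of MP_a20dfd_al (helper77): the sign element of W_I.
-/

namespace Pool.Agent.Work.MP_a20dfd.NfoA

open LaurentPolynomial

variable {B W : Type} [Group W] [Fintype W] {M : CoxeterMatrix B} {cs : CoxeterSystem M W}

/-- the coefficient (-v)^(l w) -/
noncomputable def cf (cs : CoxeterSystem M W) (w : W) : A :=
  (-1 : A) ^ cs.length w * T (cs.length w : ℤ)

open Classical in
/-- the sign element of W_I -/
noncomputable def E (K : KL cs) (I : Set B) : K.H :=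
  ∑ w ∈ Finset.univ.filter (fun w : W => w ∈ Par cs I), cf cs w • K.std w

theorem cf_succ (w w' : W) (h : cs.length w' = cs.length w + 1) :
    cf cs w' = -T 1 * cf cs w := by
  unfold cf
  rw [h]
  push_cast
  rw [T_add, pow_succ]
  ring

theorem cf_pred (w w' : W) (h : cs.length w' + 1 = cs.length w) :
    cf cs w' = -T (-1) * cf cs w := by
  rw [cf_succ w' w h.symm]
  have : (T (-1) : A) * T 1 = 1 := by rw [← T_add]; simp
  calc cf cs w' = (T (-1) * T 1) * cf cs w' := by rw [this, one_mul]
    _ = _ := by ring

open Classical in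
theorem simple_E (hHRL : Stmt_HRL) (K : KL cs) (I : Set B) (i : B) (hi : i ∈ I) :
    K.std (cs.simple i) * E K I = (-T 1 : A) • E K I := by
  have hs : cs.simple i ∈ Par cs I := Subgroup.subset_closure ⟨i, hi, rfl⟩
  have hmul : ∀ w : W, K.std (cs.simple i) * K.std w = K.std (cs.simple i * w) +
      (if cs.length (cs.simple i * w) < cs.length w then (T (-1) - T 1 : A) else 0) •
        K.std w := by
    intro w
    split_ifs with h
    · exact (hHRL K).1 i w h
    · rw [zero_smul, add_zero]
      apply K.std_mul
      rcases cs.length_simple_mul w i with h2 | h2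
      · exact h2
      · omega
  have h1 : K.std (cs.simple i) * E K I =
      ∑ w ∈ Finset.univ.filter (fun w : W => w ∈ Par cs I), cf cs w • K.std (cs.simple i * w) +
      ∑ w ∈ Finset.univ.filter (fun w : W => w ∈ Par cs I),
        (cf cs w * (if cs.length (cs.simple i * w) < cs.length w then (T (-1) - T 1 : A)
          else 0)) • K.std w := by
    unfold E
    rw [Finset.mul_sum, ← Finset.sum_add_distrib]
    refine Finset.sum_congr rfl fun w _ => ?_
    rw [mul_smul_comm, hmul, smul_add, smul_smul]
  have h2 : ∑ w ∈ Finset.univ.filter (fun w : W => w ∈ Par cs I),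
        cf cs w • K.std (cs.simple i * w) =
      ∑ w ∈ Finset.univ.filter (fun w : W => w ∈ Par cs I),
        cf cs (cs.simple i * w) • K.std w := by
    refine Finset.sum_nbij' (fun w => cs.simple i * w) (fun w => cs.simple i * w) ?_ ?_ ?_ ?_ ?_
    · intro w hw
      simp only [Finset.mem_filter, Finset.mem_univ, true_and] at hw ⊢
      exact mul_mem hs hw
    · intro w hw
      simp only [Finset.mem_filter, Finset.mem_univ, true_and] at hw ⊢
      exact mul_mem hs hw
    · intro w _
      exact cs.simple_mul_simple_cancel_left i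
    · intro w _
      exact cs.simple_mul_simple_cancel_left i
    · intro w _
      simp only [cs.simple_mul_simple_cancel_left]
  rw [h1, h2, ← Finset.sum_add_distrib]
  unfold E
  rw [Finset.smul_sum]
  refine Finset.sum_congr rfl fun w _ => ?_
  rw [← add_smul, smul_smul]
  congr 1
  rcases cs.length_simple_mul w i with h | h
  · rw [if_neg (by omega), mul_zero, add_zero, cf_succ w _ h]
  · rw [if_pos (by omega), cf_pred w _ h]
    ring

open Classical in
/-- (ii): H_w E = (-v)^(l w) E for w in W_I -/
theorem std_E (hHRL : Stmt_HRL) (K : KL cs) (I : Set B) (w : W) (hw : w ∈ Par cs I) :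
    K.std w * E K I = cf cs w • E K I := by
  have key : ∀ i ∈ I, ∀ y : W, K.std y * E K I = cf cs y • E K I →
      K.std (cs.simple i * y) * E K I = cf cs (cs.simple i * y) • E K I := by
    intro i hi y hy
    rcases cs.length_simple_mul y i with h | h
    · rw [← K.std_mul i y h, mul_assoc, hy, mul_smul_comm, simple_E hHRL K I i hi, smul_smul,
        cf_succ y _ h]
      congr 1
      ring
    · have h3 := (hHRL K).1 i y (by omega)
      have h4 : K.std (cs.simple i * y) = K.std (cs.simple i) * K.std y -
          (T (-1) - T 1 : A) • K.std y := by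
        rw [h3]; abel
      rw [h4, sub_mul, mul_assoc, hy, mul_smul_comm, simple_E hHRL K I i hi, smul_smul,
        smul_mul_assoc, hy, smul_smul, ← sub_smul, cf_pred y _ h]
      congr 1
      ring
  unfold Par at hw
  induction hw using Subgroup.closure_induction_left with
  | one =>
    rw [K.std_one, one_mul]
    unfold cf
    rw [cs.length_one]
    simp
  | mul_left x hx y hy ih =>
    obtain ⟨i, hi, rfl⟩ := hx
    exact key i hi y ih
  | inv_mul_cancel x hx y hy ih =>
    obtain ⟨i, hi, rfl⟩ := hx
    rw [cs.inv_simple]
    exact key i hi y ih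

end Pool.Agent.Work.MP_a20dfd.NfoA
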