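import Pool.Agent.Work.MP_a20dfd.Interface2

/-!
Block PFO of MP_a20dfd_al (helper48): Lusztig's P4.
-/

namespace Pool.Agent.Work.MP_a20dfd

open LaurentPolynomial

namespace Pfox

variable {B W : Type} [Group W] [Fintype W] {M : CoxeterMatrix B} {cs : CoxeterSystem M W}

theorem edge (hEDG : Stmt_EDG) (hAZF : Stmt_AZF) (K : KL cs) (hP : K.Pos) (u v : W)
    (h : LE K u v) : K.a u ≤ K.a v := by
  obtain ⟨i, hl, hne⟩ := h
  obtain ⟨z, x, hzx⟩ := (hAZF K).2 u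
  obtain ⟨t, ht⟩ := hEDG K hP i u v z x (K.a u) hl hne hzx
  exact_mod_cast ((hAZF K).1 t x v _ ht).1

theorem right (hEDG : Stmt_EDG) (hGEN : Stmt_GEN) (hAZF : Stmt_AZF) (K : KL cs) (hP : K.Pos)
    (x y z : W) (h : K.h x y z ≠ 0) : K.a y ≤ K.a z := by
  have hc := hGEN K hP x y z h
  clear h
  induction hc with
  | refl => exact le_rfl
  | tail _ hbc ih => exact ih.trans (edge hEDG hAZF K hP _ _ hbc)

end Pfox

/-- Block PFO. -/
theorem p_PFO (hEDG : Stmt_EDG) (hGEN : Stmt_GEN) (hAZF : Stmt_AZF) (hAIN : Stmt_AIN)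
    (hFLK : Stmt_FLK) : Stmt_PFO := by
  intro B W _ _ M cs K hP x y z h
  refine ⟨?_, Pfox.right hEDG hGEN hAZF K hP x y z h⟩
  have h1 : K.h y⁻¹ x⁻¹ z⁻¹ ≠ 0 := by
    rw [(hFLK K).2 x y z]; exact h
  have h2 := Pfox.right hEDG hGEN hAZF K hP _ _ _ h1
  rwa [hAIN K x, hAIN K z] at h2

end Pool.Agent.Work.MP_a20dfd
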