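import Pool.Agent.Work.MP_a20dfd.Interface2

/-!
Block RED of MP_a20dfd_al, second copy (helper12).
-/

namespace Pool.Agent.Work.MP_a20dfd

open LaurentPolynomial

namespace Redx

variable {B W : Type} [Group W] {M : CoxeterMatrix B} {cs : CoxeterSystem M W}

/-- Span of the standard basis elements of length less than n. -/
noncomputable def V (K : KL cs) (n : ℕ) : Submodule A K.H :=
  Submodule.span A (K.std '' {z | cs.length z < n})

/-- Span of the Kazhdan-Lusztig basis elements of length less than n. -/
noncomputable def Cs (K : KL cs) (n : ℕ) : Submodule A K.H :=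
  Submodule.span A (K.kl '' {z | cs.length z < n})

theorem V_mono (K : KL cs) {m n : ℕ} (h : m ≤ n) : V K m ≤ V K n :=
  Submodule.span_mono (Set.image_mono fun _ hz => lt_of_lt_of_le hz h)

theorem Cs_mono (K : KL cs) {m n : ℕ} (h : m ≤ n) : Cs K m ≤ Cs K n :=
  Submodule.span_mono (Set.image_mono fun _ hz => lt_of_lt_of_le hz h)

theorem std_mem (K : KL cs) {z : W} {n : ℕ} (h : cs.length z < n) : K.std z ∈ V K n :=
  Submodule.subset_span ⟨z, h, rfl⟩

theorem simple_mul (hHRL : Stmt_HRL) (K : KL cs) (i : B) (n : ℕ) (x : K.H) (hx : x ∈ V K n) :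
    K.std (cs.simple i) * x ∈ V K (n + 1) := by
  induction hx using Submodule.span_induction with
  | mem x hx =>
    obtain ⟨z, hz, rfl⟩ := hx
    have hz' : cs.length z < n := hz
    rcases cs.length_simple_mul z i with h | h
    · rw [K.std_mul i z h]
      exact std_mem K (by omega)
    · rw [(hHRL K).1 i z (by omega)]
      exact add_mem (std_mem K (by omega)) (Submodule.smul_mem _ _ (std_mem K (by omega)))
  | zero => rw [mul_zero]; exact zero_mem _
  | add x y _ _ hx hy => rw [mul_add]; exact add_mem hx hy
  | smul a x _ hx => rw [mul_smul_comm]; exact Submodule.smul_mem _ _ hx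

theorem std_mul_mem (hHRL : Stmt_HRL) (K : KL cs) : ∀ (m : ℕ) (a : W), cs.length a = m →
    ∀ (n : ℕ) (x : K.H), x ∈ V K n → K.std a * x ∈ V K (m + n) := by
  intro m
  induction m with
  | zero =>
    intro a ha n x hx
    have h1 : a = 1 := cs.length_eq_zero_iff.1 ha
    rw [h1, K.std_one, one_mul, zero_add]
    exact hx
  | succ m ih =>
    intro a ha n x hx
    have hne : a ≠ 1 := by
      intro h
      rw [h, cs.length_one] at ha
      omega
    obtain ⟨i, hi⟩ := cs.exists_leftDescent_of_ne_one hne
    have hi' : cs.length (cs.simple i * a) < cs.length a := hi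
    have hl : cs.length (cs.simple i * a) = m := by
      rcases cs.length_simple_mul a i with h | h <;> omega
    have hsa : cs.simple i * (cs.simple i * a) = a := by
      rw [← mul_assoc, cs.simple_mul_simple_self, one_mul]
    have hmul : K.std (cs.simple i) * K.std (cs.simple i * a) = K.std a := by
      rw [K.std_mul i (cs.simple i * a) (by rw [hsa, hl, ha]), hsa]
    rw [← hmul, mul_assoc]
    have := simple_mul hHRL K i _ _ (ih _ hl n x hx)
    rw [show m + 1 + n = m + n + 1 by omega]
    exact this

theorem mul_mem' (hHRL : Stmt_HRL) (K : KL cs) (m n : ℕ) (x y : K.H) (hx : x ∈ V K (m + 1))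
    (hy : y ∈ V K n) : x * y ∈ V K (m + n) := by
  induction hx using Submodule.span_induction with
  | mem x hx =>
    obtain ⟨z, hz, rfl⟩ := hx
    have hz' : cs.length z < m + 1 := hz
    exact V_mono K (by omega) (std_mul_mem hHRL K _ z rfl n y hy)
  | zero => rw [zero_mul]; exact zero_mem _
  | add x x' _ _ hx hx' => rw [add_mul]; exact add_mem hx hx'
  | smul a x _ hx => rw [smul_mul_assoc]; exact Submodule.smul_mem _ _ hx

theorem kl_sub (hTRI : Stmt_TRI) (K : KL cs) (w : W) : K.kl w - K.std w ∈ V K (cs.length w) := by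
  unfold V
  rw [Module.Basis.mem_span_image]
  intro y hy
  by_contra hlt
  have hle : cs.length w ≤ cs.length y := not_lt.1 hlt
  apply Finsupp.mem_support_iff.1 (Finset.mem_coe.1 hy)
  rw [map_sub, Finsupp.sub_apply, Module.Basis.repr_self]
  by_cases hyw : y = w
  · subst hyw
    rw [K.kl_self, Finsupp.single_eq_same, sub_self]
  · rw [Finsupp.single_eq_of_ne hyw, sub_zero]
    exact hTRI K y w hyw hle

theorem kl_mem (hTRI : Stmt_TRI) (K : KL cs) (w : W) : K.kl w ∈ V K (cs.length w + 1) := by
  have h := add_mem (V_mono K (Nat.le_succ _) (kl_sub hTRI K w))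
    (std_mem K (Nat.lt_succ_self (cs.length w)))
  rwa [sub_add_cancel] at h

theorem V_le_Cs (hTRI : Stmt_TRI) (K : KL cs) : ∀ n : ℕ, V K n ≤ Cs K n := by
  intro n
  induction n with
  | zero =>
    unfold V
    rw [Submodule.span_le]
    rintro _ ⟨z, hz, rfl⟩
    exact absurd hz (Nat.not_lt_zero _)
  | succ n ih =>
    unfold V
    rw [Submodule.span_le]
    rintro _ ⟨z, hz, rfl⟩
    have hz' : cs.length z < n + 1 := hz
    have h1 : K.kl z ∈ Cs K (n + 1) := Submodule.subset_span ⟨z, hz, rfl⟩
    have h2 : K.kl z - K.std z ∈ Cs K (n + 1) :=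
      Cs_mono K (Nat.le_succ n) (ih (V_mono K (by omega) (kl_sub hTRI K z)))
    have h3 := sub_mem h1 h2
    rwa [sub_sub_cancel] at h3

end Redx

open Redx in
theorem p_REDx (hHRL : Stmt_HRL) (hTRI : Stmt_TRI) : Stmt_RED := by
  intro B W _ M cs K x y hl
  have hx := kl_sub hTRI K x
  have hy := kl_sub hTRI K y
  have hmul := (hHRL K).2.2 x y hl
  have e : K.kl x * K.kl y - K.kl (x * y) =
      K.std x * (K.kl y - K.std y) + (K.kl x - K.std x) * K.kl y -
        (K.kl (x * y) - K.std (x * y)) := by
    rw [← hmul, mul_sub, sub_mul]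
    abel
  have m1 : K.std x * (K.kl y - K.std y) ∈ V K (cs.length x + cs.length y) :=
    std_mul_mem hHRL K _ x rfl _ _ hy
  have m2 : (K.kl x - K.std x) * K.kl y ∈ V K (cs.length x + cs.length y) := by
    rcases Nat.eq_zero_or_pos (cs.length x) with h0 | h0
    · have hz : K.kl x - K.std x = 0 := by
        have h' := hx
        rw [h0] at h'
        unfold V at h'
        have hemp : {z : W | cs.length z < 0} = ∅ := by
          ext z
          simp
        rw [hemp, Set.image_empty, Submodule.span_empty] at h'
        exact (Submodule.mem_bot A).1 h'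
      rw [hz, zero_mul]
      exact zero_mem _
    · have h' : K.kl x - K.std x ∈ V K ((cs.length x - 1) + 1) := by
        rw [Nat.sub_add_cancel h0]
        exact hx
      have := mul_mem' hHRL K (cs.length x - 1) (cs.length y + 1) _ _ h' (kl_mem hTRI K y)
      rwa [show cs.length x - 1 + (cs.length y + 1) = cs.length x + cs.length y by omega] at this
  have m3 : K.kl (x * y) - K.std (x * y) ∈ V K (cs.length x + cs.length y) := by
    rw [← hl]
    exact kl_sub hTRI K (x * y)
  have m : K.kl x * K.kl y - K.kl (x * y) ∈ Cs K (cs.length x + cs.length y) := by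
    rw [e]
    exact V_le_Cs hTRI K _ (sub_mem (add_mem m1 m2) m3)
  unfold Cs at m
  rw [Module.Basis.mem_span_image] at m
  have hz : K.kl.repr (K.kl x * K.kl y - K.kl (x * y)) (x * y) = 0 := by
    by_contra hne
    have := m (Finset.mem_coe.2 (Finsupp.mem_support_iff.2 hne))
    have h' : cs.length (x * y) < cs.length x + cs.length y := this
    omega
  rw [map_sub, Finsupp.sub_apply, Module.Basis.repr_self, Finsupp.single_eq_same] at hz
  exact sub_eq_zero.1 hz

end Pool.Agent.Work.MP_a20dfd
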