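import Pool.Agent.Work.MP_a20dfd.B_EXC
import Pool.Agent.Work.MP_a20dfd.B_PAR
import Pool.Agent.Work.MP_a20dfd.B_ADD
import Pool.Agent.Work.MP_a20dfd.B_DEC
import Pool.Agent.Work.MP_a20dfd.B_LON
import Pool.Agent.Work.MP_a20dfd.B_CBX
import Pool.Agent.Work.MP_a20dfd.B_HRL
import Pool.Agent.Work.MP_a20dfd.B_TAU
import Pool.Agent.Work.MP_a20dfd.B_FLT
import Pool.Agent.Work.MP_a20dfd.B_BRU
import Pool.Agent.Work.MP_a20dfd.B_UNQ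
import Pool.Agent.Work.MP_a20dfd.B_TRI
import Pool.Agent.Work.MP_a20dfd.B_FLK
import Pool.Agent.Work.MP_a20dfd.B_SYM
import Pool.Agent.Work.MP_a20dfd.B_CSI
import Pool.Agent.Work.MP_a20dfd.B_CUP
import Pool.Agent.Work.MP_a20dfd.B_CDN
import Pool.Agent.Work.MP_a20dfd.B_DSC
import Pool.Agent.Work.MP_a20dfd.B_CUR
import Pool.Agent.Work.MP_a20dfd.B_RED
import Pool.Agent.Work.MP_a20dfd.B_LPF
import Pool.Agent.Work.MP_a20dfd.B_ASC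
import Pool.Agent.Work.MP_a20dfd.B_TRC
import Pool.Agent.Work.MP_a20dfd.B_GEN
import Pool.Agent.Work.MP_a20dfd.B_EDG
import Pool.Agent.Work.MP_a20dfd.B_AZF
import Pool.Agent.Work.MP_a20dfd.B_AIN
import Pool.Agent.Work.MP_a20dfd.B_PFO
import Pool.Agent.Work.MP_a20dfd.B_PON
import Pool.Agent.Work.MP_a20dfd.B_PTH
import Pool.Agent.Work.MP_a20dfd.B_CYC
import Pool.Agent.Work.MP_a20dfd.B_QDN
import Pool.Agent.Work.MP_a20dfd.B_DUF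
import Pool.Agent.Work.MP_a20dfd.B_LLE
import Pool.Agent.Work.MP_a20dfd.B_DGB
import Pool.Agent.Work.MP_a20dfd.B_NDF
import Pool.Agent.Work.MP_a20dfd.B_NZR
import Pool.Agent.Work.MP_a20dfd.B_NFO
import Pool.Agent.Work.MP_a20dfd.B_NEX
import Pool.Agent.Work.MP_a20dfd.B_FIN

namespace Pool.Agent.Work.MP_a20dfd

theorem c_PAR : Stmt_PAR := p_PAR p_EXC
theorem c_ADD : Stmt_ADD := p_ADD p_EXC c_PAR
theorem c_DEC : Stmt_DEC := p_DEC c_PAR c_ADD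
theorem c_LON : Stmt_LON := p_LON p_EXC
theorem c_CBX : Stmt_CBX := p_CBX c_ADD c_LON
theorem c_TAU : Stmt_TAU := p_TAU p_HRL
theorem c_FLT : Stmt_FLT := p_FLT p_HRL
theorem c_BRU : Stmt_BRU := p_BRU p_HRL
theorem c_UNQ : Stmt_UNQ := p_UNQ c_BRU
theorem c_TRI : Stmt_TRI := p_TRI c_BRU
theorem c_FLK : Stmt_FLK := p_FLK c_FLT c_UNQ
theorem c_CSI : Stmt_CSI := p_CSI c_UNQ p_HRL
theorem c_CUP : Stmt_CUP := p_CUP c_CSI p_HRL c_TRI c_UNQ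
theorem c_CDN : Stmt_CDN := p_CDN c_CSI c_CUP p_HRL c_TRI
theorem c_DSC : Stmt_DSC := p_DSC c_CUP c_CDN c_FLK
theorem c_CUR : Stmt_CUR := p_CUR c_CUP c_CDN c_FLK
theorem c_RED : Stmt_RED := p_RED p_HRL c_TRI
theorem c_TRC : Stmt_TRC := p_TRC c_TAU
theorem c_GEN : Stmt_GEN := p_GEN p_LPF p_ASC c_CUP c_CDN c_CSI
theorem c_EDG : Stmt_EDG := p_EDG p_LPF p_ASC c_CUP c_DSC
theorem c_AZF : Stmt_AZF := p_AZF p_LPF p_SYM c_CSI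
theorem c_AIN : Stmt_AIN := p_AIN c_AZF c_FLK
theorem c_PFO : Stmt_PFO := p_PFO c_EDG c_GEN c_AZF c_AIN c_FLK
theorem c_PON : Stmt_PON := p_PON p_LPF c_TRC p_SYM c_AZF
theorem c_PTH : Stmt_PTH := p_PTH p_LPF c_TRC c_AZF c_PON
theorem c_CYC : Stmt_CYC := p_CYC p_LPF p_ASC c_AZF c_PFO c_PTH c_AIN
theorem c_QDN : Stmt_QDN := p_QDN c_PTH c_CYC c_PFO
theorem c_DUF : Stmt_DUF := p_DUF c_PTH c_QDN c_CYC c_FLK p_SYM c_AIN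
theorem c_LLE : Stmt_LLE := p_LLE c_GEN c_EDG c_DUF
theorem c_DGB : Stmt_DGB := p_DGB p_LPF p_ASC c_PAR c_CUR
theorem c_NDF : Stmt_NDF := p_NDF p_LPF c_TRC c_PON c_PFO c_DGB
theorem c_NZR : Stmt_NZR := p_NZR c_CUR c_CSI p_HRL c_ADD
theorem c_NFO : Stmt_NFO := p_NFO p_HRL c_TAU c_DEC c_ADD c_FLK
theorem c_NEX : Stmt_NEX := p_NEX p_LPF
theorem c_FIN : Stmt_FIN :=
  p_FIN p_LPF c_CBX c_RED c_DUF c_LLE c_NDF c_NZR c_NFO c_DSC c_PFO p_ASC c_FLK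

end Pool.Agent.Work.MP_a20dfd
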