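import Mathlib

/-!
Hecke algebra and Kazhdan-Lusztig basis of a Coxeter system, the a-function, the
parabolic-singular polynomials of category O (helper74, MP_a20dfd_al).
-/

namespace Pool.Agent.Work.MP_a20dfd

open LaurentPolynomial

/-- The ring of Laurent polynomials in v over the integers; v is `T 1`. -/
abbrev A := LaurentPolynomial ℤ

/-- The coefficient of v^k. -/
def co (f : A) (k : ℤ) : ℤ := f.coeff k

/-- All coefficients are nonnegative. -/
def Nonneg (f : A) : Prop := ∀ k : ℤ, 0 ≤ co f k

/-- The largest k ≥ 0 such that v^k has a nonzero coefficient, 0 if there is none. -/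
noncomputable def dg (f : A) : ℕ := f.coeff.support.sup Int.toNat

variable {B W : Type} [Group W] {M : CoxeterMatrix B}

/-- A Hecke algebra of the Coxeter system (W, S), with its standard basis H_w (field `std`),
the relation H_s² = 1 + (v⁻¹ - v) H_s, its bar involution (v ↦ v⁻¹, H_s ↦ H_s⁻¹) and its
Kazhdan-Lusztig basis (field `kl`): the basis element of w is bar invariant, its coordinate at
H_w is 1 and its coordinates at the other H_y are in v ℤ[v]. -/
structure KL (cs : CoxeterSystem M W) where
  /-- the Hecke algebra -/
  H : Type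
  [ring : Ring H]
  [alg : Algebra A H]
  /-- the standard basis -/
  std : Module.Basis W A H
  std_one : std 1 = 1
  std_mul : ∀ (i : B) (w : W), cs.length (cs.simple i * w) = cs.length w + 1 →
    std (cs.simple i) * std w = std (cs.simple i * w)
  std_sq : ∀ i : B, std (cs.simple i) * std (cs.simple i) =
    1 + (T (-1) - T 1 : A) • std (cs.simple i)
  /-- the bar involution -/
  bar : H →+* H
  bar_smul : ∀ (f : A) (x : H), bar (f • x) = (invert f : A) • bar x
  bar_std : ∀ i : B, bar (std (cs.simple i)) * std (cs.simple i) = 1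
  /-- the Kazhdan-Lusztig basis -/
  kl : Module.Basis W A H
  bar_kl : ∀ w : W, bar (kl w) = kl w
  kl_self : ∀ w : W, std.repr (kl w) w = 1
  kl_lt : ∀ y w : W, y ≠ w → ∀ k : ℤ, k ≤ 0 → co (std.repr (kl w) y) k = 0

attribute [instance] KL.ring KL.alg

namespace KL

variable {cs : CoxeterSystem M W} (K : KL cs)

/-- Kazhdan-Lusztig polynomials p_{y,w}, normalised so that C_w = ∑ p_{y,w} H_y. -/
noncomputable def p (y w : W) : A := K.std.repr (K.kl w) y

/-- Structure constants: C_x C_y = ∑ h_{x,y,z} C_z. -/
noncomputable def h (x y z : W) : A := K.kl.repr (K.kl x * K.kl y) z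

/-- Lusztig's a-function. -/
noncomputable def a [Fintype W] (z : W) : ℕ :=
  Finset.univ.sup fun x : W => Finset.univ.sup fun y : W => dg (K.h x y z)

/-- The coordinate at H_1. -/
noncomputable def tau (x : K.H) : A := K.std.repr x 1

/-- Positivity of the Kazhdan-Lusztig polynomials and of the structure constants. -/
def Pos : Prop := (∀ y w, Nonneg (K.p y w)) ∧ ∀ x y z, Nonneg (K.h x y z)

end KL

variable (cs : CoxeterSystem M W)

/-- The standard parabolic subgroup W_I. -/
def Par (I : Set B) : Subgroup W := Subgroup.closure (cs.simple '' I)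

/-- b is the shortest element of b W_I. -/
def Short (I : Set B) (b : W) : Prop := ∀ i ∈ I, cs.length b < cs.length (b * cs.simple i)

/-- x is the longest element of x W_I. -/
def Long (I : Set B) (x : W) : Prop := ∀ i ∈ I, cs.length (x * cs.simple i) < cs.length x

/-- w is a longest element of the subgroup P. -/
def IsLongest (P : Subgroup W) (w : W) : Prop := w ∈ P ∧ ∀ x ∈ P, cs.length x ≤ cs.length w

open Classical in
/-- The polynomial ∑_{w in W_I} (-v)^{l(w)} p_{xw,y}. -/
noncomputable def n [Fintype W] {cs : CoxeterSystem M W} (K : KL cs) (I : Set B) (x y : W) : A :=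
  ∑ w ∈ Finset.univ.filter (fun w : W => w ∈ Par cs I),
    ((-1 : A) ^ cs.length w * T (cs.length w : ℤ)) * K.p (x * w) y

end Pool.Agent.Work.MP_a20dfd
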