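import Pool.Agent.Work.MP_a20dfd.Interface

/-!
Existence of the Hecke algebra, its bar involution and its Kazhdan-Lusztig basis (helper97).
Table klx_blocks.  l = cs.length, s_i = cs.simple i.
-/

namespace Pool.Agent.Work.MP_a20dfd

open LaurentPolynomial

section
variable {B W : Type} [Group W] {M : CoxeterMatrix B}

/-- A Hecke algebra with its standard basis. -/
structure HS (cs : CoxeterSystem M W) where
  /-- the algebra -/
  H : Type
  [ring : Ring H]
  [alg : Algebra A H]
  /-- the standard basis -/
  std : Module.Basis W A H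
  std_one : std 1 = 1
  std_up : ∀ (i : B) (w : W), cs.length w < cs.length (cs.simple i * w) →
    std (cs.simple i) * std w = std (cs.simple i * w)
  std_down : ∀ (i : B) (w : W), cs.length (cs.simple i * w) < cs.length w →
    std (cs.simple i) * std w = std (cs.simple i * w) + (T (-1) - T 1 : A) • std w

attribute [instance] HS.ring HS.alg

open Classical in
/-- The operator of left multiplication by H_s on the free module. -/
noncomputable def Lop (cs : CoxeterSystem M W) (i : B) : (W →₀ A) →ₗ[A] (W →₀ A) :=
  Finsupp.linearCombination A fun w : W =>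
    if cs.length w < cs.length (cs.simple i * w) then Finsupp.single (cs.simple i * w) (1 : A)
    else Finsupp.single (cs.simple i * w) (1 : A) + (T (-1) - T 1 : A) • Finsupp.single w (1 : A)

open Classical in
/-- The operator of right multiplication by H_s on the free module. -/
noncomputable def Rop (cs : CoxeterSystem M W) (i : B) : (W →₀ A) →ₗ[A] (W →₀ A) :=
  Finsupp.linearCombination A fun w : W =>
    if cs.length w < cs.length (w * cs.simple i) then Finsupp.single (w * cs.simple i) (1 : A)
    else Finsupp.single (w * cs.simple i) (1 : A) + (T (-1) - T 1 : A) • Finsupp.single w (1 : A)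

/-- A bar involution of K. -/
def IsBar {cs : CoxeterSystem M W} (K : HS cs) (bar : K.H →+* K.H) : Prop :=
  (∀ (f : A) (x : K.H), bar (f • x) = (invert f : A) • bar x) ∧
    ∀ i : B, bar (K.std (cs.simple i)) * K.std (cs.simple i) = 1

end

/-- LFT (uses EXC = Stmt_EXC). Proof: let u = w s_j, l(u) = l(w) + 1. The element s_i u is shorter
than u. t := u⁻¹ s_i u is a reflection with u t = s_i u. EXC for the word ω ++ [j], ω a reduced word
of w: a letter can be erased. If it is a letter of ω, then s_i w s_j = w' s_j with w' = s_i w a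
product of fewer than l(w) letters, so l(s_i w) < l(w), contradiction. So it is the last letter:
s_i w s_j = w, that is s_i w = w s_j (s_j² = 1). -/
def Stmt_LFT : Prop :=
  ∀ {B W : Type} [Group W] {M : CoxeterMatrix B} (cs : CoxeterSystem M W) (w : W) (i j : B),
    cs.length w < cs.length (cs.simple i * w) → cs.length w < cs.length (w * cs.simple j) →
    cs.length (cs.simple i * w * cs.simple j) < cs.length (w * cs.simple j) →
    cs.simple i * w = w * cs.simple j

/-- COM (uses LFT). The two operators commute. Proof: compare on `single w 1`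
(`Finsupp.lhom_ext'`), write a = s_i, b = s_j; lengths of w, a w, w b, a w b differ by 1 along the
edges (length_simple_mul, length_mul_simple). If l(a w) - l(w) = l(a w b) - l(w b) and
l(w b) - l(w) = l(a w b) - l(a w) both sides are equal by expanding the definitions. Otherwise
a w = w b: the shortest or the longest of the four elements is such that LFT applies: cases
(1) l(w) < l(a w), l(w) < l(w b), l(a w b) < l(w b) (LFT for w: a w = w b, so a w b = w);
(2) l(a w) < l(w), l(w b) < l(w), l(a w b) > l(w b): then u = a w b has l(u) < .. hmm: l(a w b) =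
l(w): LFT for u' = w b: l(w b) < l(w) = l(w b b), l(w b) < l(a (w b)) = l(w),
l(a (w b) b) = l(a w) < l(w b b) = l(w), so a w b = w b b = w, a w = w b;
(3) l(a w) > l(w), l(w b) < l(w), and l(a w b) < l(w b): impossible, since
l(a w) = l(w) + 1 and l(a w b) = l(w) - 2 differ by 3; (4) symmetric. In the cases (1), (2) both
sides are equal after substituting a w = w b, a w b = w. -/
def Stmt_COM : Prop :=
  ∀ {B W : Type} [Group W] {M : CoxeterMatrix B} (cs : CoxeterSystem M W) (i j : B),
    Lop cs i ∘ₗ Rop cs j = Rop cs j ∘ₗ Lop cs i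

/-- HCK (uses COM): the Hecke algebra exists. helper97. -/
def Stmt_HCK : Prop :=
  ∀ {B W : Type} [Group W] {M : CoxeterMatrix B} (cs : CoxeterSystem M W), Nonempty (HS cs)

/-- MUS. Proof as HRL. (1) induction on l(x): x = s x', l(x) = l(x') + 1, l(x' y) = l(x') + l(y),
std x = std s * std x' (std_up), so std x * std y = std s * std (x' y) = std (x y).
(2) (1) with x = w, y = s. (3) w = (w s) s: std w = std (w s) * std s by (1),
std w * std s = std (w s) * (std s * std s) and std s * std s = 1 + (v⁻¹ - v) std s by std_down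
(s s = 1, std_one). -/
def Stmt_MUS : Prop :=
  ∀ {B W : Type} [Group W] {M : CoxeterMatrix B} {cs : CoxeterSystem M W} (K : HS cs),
    (∀ x y : W, cs.length (x * y) = cs.length x + cs.length y →
      K.std x * K.std y = K.std (x * y)) ∧
    (∀ (w : W) (i : B), cs.length w < cs.length (w * cs.simple i) →
      K.std w * K.std (cs.simple i) = K.std (w * cs.simple i)) ∧
    (∀ (w : W) (i : B), cs.length (w * cs.simple i) < cs.length w →
      K.std w * K.std (cs.simple i) = K.std (w * cs.simple i) + (T (-1) - T 1 : A) • K.std w) ∧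
    ∀ i : B, K.std (cs.simple i) * K.std (cs.simple i) =
      1 + (T (-1) - T 1 : A) • K.std (cs.simple i)

/-- BAR (uses MUS): the bar involution exists. Proof: H_s has the inverse G_s = H_s - (v⁻¹ - v)
(MUS(4)). Let Dw be the element (H_{w⁻¹})⁻¹, defined for every w: for a reduced word
w = s_1 .. s_k it is G_{s_1} ... G_{s_k}; since H_{w⁻¹} = H_{s_k} ... H_{s_1} (MUS(1)), every H_w is
a unit and Dw := the inverse of H_{w⁻¹} (Ring.inverse, or choose). Rules: l(s w) > l(w) gives
D(s w) = G_s D(w) (from H_{(sw)⁻¹} = H_{w⁻¹} H_s, MUS(2)); l(s w) < l(w): D(w) = G_s D(s w), so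
G_s D(w) = G_s² D(s w) = (1 - (v⁻¹ - v) G_s) D(s w) = D(s w) + (v - v⁻¹) D(w), using
G_s² = 1 + (v - v⁻¹) G_s. Let bar (∑ c_w H_w) = ∑ invert(c_w) Dw: additive, bar(f x) =
invert(f) bar(x), bar(1) = 1, bar(H_s) = G_s. bar(H_s H_w) = G_s Dw by std_up, std_down and the
rules; so bar(H_s x) = G_s bar(x) for all x; by induction on l(x) bar(H_x y) = bar(H_x) bar(y);
then bar is multiplicative by linearity. -/
def Stmt_BAR : Prop :=
  ∀ {B W : Type} [Group W] {M : CoxeterMatrix B} {cs : CoxeterSystem M W} (K : HS cs),
    ∃ bar : K.H →+* K.H, IsBar K bar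

/-- TRS (uses MUS). Proof: (H_s + (v - v⁻¹)) H_s = 1 (MUS(4)) and bar(H_s) H_s = 1; H_s is a unit,
so bar(H_s) = H_s + (v - v⁻¹). Second part by induction on l(w): w = s w', l(w) = l(w') + 1,
bar(H_w) = (H_s + (v - v⁻¹)) bar(H_{w'}); bar(H_{w'}) is H_{w'} plus a combination of H_y,
l(y) < l(w'); H_s H_y is in the span of H_{s y} and H_y, l(s y) ≤ l(y) + 1 < l(w), and
H_s H_{w'} = H_w. (Convenient: the submodule U m of all x with coordinates 0 at all y with
m ≤ l(y); H_s U m ⊆ U (m+1).) -/
def Stmt_TRS : Prop :=
  ∀ {B W : Type} [Group W] {M : CoxeterMatrix B} {cs : CoxeterSystem M W} (K : HS cs)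
    (bar : K.H →+* K.H), IsBar K bar →
    (∀ i : B, bar (K.std (cs.simple i)) = K.std (cs.simple i) + (T 1 - T (-1) : A) • (1 : K.H)) ∧
    ∀ w : W, K.std.repr (bar (K.std w)) w = 1 ∧
      ∀ y : W, y ≠ w → cs.length w ≤ cs.length y → K.std.repr (bar (K.std w)) y = 0

/-- KLE (uses TRS; not MUS). Proof: induction on l(w). w = 1: c = 1 (std_one). w = s w',
l(w) = l(w') + 1, c' for w': X = (H_s + v) c' is bar invariant, since
bar(H_s + v) = H_s + (v - v⁻¹) + v⁻¹. Coordinates of X: write p for those of c'. For y with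
l(s y) > l(y): q_y = v p_y + p_{sy}, for y with l(s y) < l(y): q_y = p_{sy} + v⁻¹ p_y (from std_up,
std_down: H_s H_z contributes to y only for z = s y, and for z = y if s y < y with v⁻¹ - v).
All coordinates of c' have exponents ≥ 0, those at y <> w' have exponents ≥ 1; so q_y has
exponents ≥ 0 for all y (v⁻¹ p_y with y = w': s w' > w', so this case does not occur at y = w');
q_w = p_{w'} + v⁻¹ p_w = 1 + 0 (p_w = 0 because l(w) ≥ l(w')); q_y = 0 for y <> w, l(y) ≥ l(w).
Put c = X - ∑_{t : l(t) < l(w)} [v⁰](q_t) c_t (finite W, the c_t from the induction hypothesis):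
bar invariant since integers are bar invariant; coordinate at w is 1; the v⁰-coefficient at y with
l(y) < l(w), is [v⁰]q_y - [v⁰]q_y * 1 - ∑_{t <> y} [v⁰](q_t) [v⁰](c_t)_y = 0. -/
def Stmt_KLE : Prop :=
  ∀ {B W : Type} [Group W] [Fintype W] {M : CoxeterMatrix B} {cs : CoxeterSystem M W} (K : HS cs)
    (bar : K.H →+* K.H), IsBar K bar → ∀ w : W, ∃ c : K.H, bar c = c ∧ K.std.repr c w = 1 ∧
      (∀ y : W, y ≠ w → ∀ k : ℤ, k ≤ 0 → co (K.std.repr c y) k = 0) ∧
      ∀ y : W, y ≠ w → cs.length w ≤ cs.length y → K.std.repr c y = 0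

/-- KLB. A unitriangular family is a basis. Proof: linear independence: ∑ a_w c_w = 0, not all
a_w = 0, take w of maximal length with a_w <> 0: the coordinate at w is a_w. Span: by induction on
l(w) std w is in the span: std w = c_w - ∑_{l(y) < l(w)} (coordinate) std y. Finite W.
(`Module.Basis.mk`.) -/
def Stmt_KLB : Prop :=
  ∀ {W H : Type} [Fintype W] [Ring H] [Algebra A H] (l : W → ℕ) (std : Module.Basis W A H)
    (c : W → H), (∀ w, std.repr (c w) w = 1) →
    (∀ w y, y ≠ w → l w ≤ l y → std.repr (c w) y = 0) →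
    ∃ b : Module.Basis W A H, ∀ w, b w = c w

/-- KLX (uses HCK BAR KLE KLB): assembly. helper97 -/
def Stmt_KLX : Prop :=
  ∀ {B W : Type} [Group W] [Fintype W] {M : CoxeterMatrix B} (cs : CoxeterSystem M W),
    Nonempty (KL cs)

end Pool.Agent.Work.MP_a20dfd
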