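import Pool.Agent.Work.MP_a20dfd.ExDefs
import Pool.Agent.Work.MP_a20dfd.B_EXC
import Pool.Agent.Work.MP_a20dfd.X_LFT
import Pool.Agent.Work.MP_a20dfd.X_COM
import Pool.Agent.Work.MP_a20dfd.X_HCK
import Pool.Agent.Work.MP_a20dfd.X_MUS
import Pool.Agent.Work.MP_a20dfd.X_BAR
import Pool.Agent.Work.MP_a20dfd.X_TRS
import Pool.Agent.Work.MP_a20dfd.X_KLE
import Pool.Agent.Work.MP_a20dfd.X_KLB
import Pool.Agent.Work.MP_a20dfd.X_KLX

/-!
# MP_a20dfd_al: existence of the Kazhdan-Lusztig data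

Every finite Coxeter system carries a Hecke algebra, a bar involution, a Kazhdan-Lusztig basis and
its polynomials and structure constants, that is, data `K : KL cs`.
-/

namespace Pool.Agent.Work.MP_a20dfd

theorem kl_stmt : Stmt_KLX :=
  p_KLX (p_HCK (p_COM (p_LFT p_EXC))) (p_BAR p_MUS) (p_KLE (p_TRS p_MUS)) p_KLB

/-- **Existence.**  Every finite Coxeter system has Kazhdan-Lusztig data. -/
theorem kl_exists {B W : Type} [Group W] [Fintype W] {M : CoxeterMatrix B}
    (cs : CoxeterSystem M W) : Nonempty (KL cs) := kl_stmt cs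

end Pool.Agent.Work.MP_a20dfd
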