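import Pool.Agent.Work.MP_a20dfd.Interface2

/-!
MP_a20dfd_al, rank two WITHOUT hypotheses (helper97). Table r2_blocks.
H_w = K.std w, C_w = K.kl w, v = T 1, l = cs.length, s_i = cs.simple i.
-/

namespace Pool.Agent.Work.MP_a20dfd

open LaurentPolynomial

/-- The letter c for even k, the letter c' for odd k. -/
def lt {B : Type} (c c' : B) (k : ℕ) : B := if Even k then c else c'

/-- The product of the alternating word of k letters whose LAST letter is c:
alt 1 = c, alt 2 = c' c, alt 3 = c c' c. -/
def alt {B W : Type} [Group W] {M : CoxeterMatrix B} (cs : CoxeterSystem M W) (c c' : B) : ℕ → W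
  | 0 => 1
  | k + 1 => cs.simple (lt c c' k) * alt cs c c' k

/-- Rank two: the letters are c, c', the longest element has length N. -/
structure R2 {B W : Type} [Group W] {M : CoxeterMatrix B} (cs : CoxeterSystem M W) (c c' : B)
    (N : ℕ) : Prop where
  ne : c ≠ c'
  two : ∀ i : B, i = c ∨ i = c'
  pos : 2 ≤ N
  len : ∀ k ≤ N, cs.length (alt cs c c' k) = k
  len' : ∀ k ≤ N, cs.length (alt cs c' c k) = k
  top : alt cs c c' N = alt cs c' c N
  all : ∀ w : W, w = alt cs c c' (cs.length w) ∨ w = alt cs c' c (cs.length w)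
  bound : ∀ w : W, cs.length w ≤ N

/-- R2A (uses LON). W finite, two letters. Proof: take w0 of maximal length N (W finite). LON:
l(w0 x) = N - l(x), so l(w0 s) < l(w0) for both letters. By strong induction on l(w): if w <> 1 and
l(w s_i) < l(w) [i = c, say] then w = alt c c' (l w), that is: every w is 1 or has a right descent i,
and an element with right descent c is alt c c' (l w), with right descent c' is alt c' c (l w): a
reduced word of w ending in c (reduced word of w s, then c) has no two equal neighbours, so it is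
the alternating word; in Lean: l(w) = 1 clear; otherwise let j be the FIRST letter of a reduced word,
w = s_j u, l(u) = l(w) - 1 >= 1, u ends in the same letter (u c < u since
l(u c) = l(s_j w c) <= l(w c) + 1 ... use the word: reduced word of w is j :: rest, rest ends in c),
u = alt c c' (l w - 1) by induction; j = lt c c' (l w - 1) because otherwise j is the first letter
of u and l(s_j u) < l(u). w0 has both right descents, so w0 = alt c c' N = alt c' c N. l(alt k) = k
for k <= N: l(alt N) = N and l(alt (k+1)) <= l(alt k) + 1, l(alt 0) = 0. N >= 2: w0 has both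
letters as right descents; if N <= 1 then w0 = s_c = s_c', against ne (cs.simple_injective? if
missing: l(s_c s_c') = 0 would give s_c = s_c'; the sign / M c c' <> 1 ...; N = 1 would mean all
elements are 1, s_c, so s_c = s_c'; use CoxeterSystem injectivity of simple reflections). -/
def Stmt_R2A : Prop :=
  ∀ {B W : Type} [Group W] [Finite W] {M : CoxeterMatrix B} (cs : CoxeterSystem M W) (c c' : B),
    c ≠ c' → (∀ i : B, i = c ∨ i = c') → ∃ N : ℕ, R2 cs c c' N

/-- R2S: symmetry and elementary facts (no deep input). (1) R2 c c' N gives R2 c' c N.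
(2) for 1 <= k <= N the letter lt (k - 1) is a left descent of alt k:
l(s_{lt (k-1)} alt k) < l(alt k), and for k < N the letter lt k is a left ascent, with
s_{lt k} alt k = alt (k+1). (3) for 1 <= k < N and y of length k: if l(s_i y) < l(y) with
i = lt (k-1) then y = alt c c' k (the other element alt c' c k starts with lt c' c (k-1) = lt c c' k
and has ascent lt c c' (k-1)). -/
def Stmt_R2S : Prop :=
  ∀ {B W : Type} [Group W] {M : CoxeterMatrix B} (cs : CoxeterSystem M W) (c c' : B) (N : ℕ),
    R2 cs c c' N → R2 cs c' c N ∧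
    (∀ k, 1 ≤ k → k ≤ N →
      cs.length (cs.simple (lt c c' (k - 1)) * alt cs c c' k) < cs.length (alt cs c c' k)) ∧
    (∀ k, k < N → cs.simple (lt c c' k) * alt cs c c' k = alt cs c c' (k + 1) ∧
      cs.length (alt cs c c' k) < cs.length (cs.simple (lt c c' k) * alt cs c c' k)) ∧
    ∀ k, 1 ≤ k → k < N → ∀ y, cs.length y = k →
      cs.length (cs.simple (lt c c' (k - 1)) * y) < cs.length y → y = alt cs c c' k

/-- The coordinates: v^(l(w) - l(y)) if l(y) < l(w), 1 if y = w, otherwise 0. -/
noncomputable def d2 {B W : Type} [Group W] {M : CoxeterMatrix B} (cs : CoxeterSystem M W)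
    (y w : W) : A :=
  open Classical in
  if y = w then 1 else if cs.length y < cs.length w then
    T ((cs.length w : ℤ) - (cs.length y : ℤ)) else 0

/-- The element D_w = ∑ d_{y,w} H_y. -/
noncomputable def D2 {B W : Type} [Group W] [Fintype W] {M : CoxeterMatrix B}
    {cs : CoxeterSystem M W} (K : KL cs) (w : W) : K.H := ∑ y : W, d2 cs y w • K.std y

/-- R2B (uses HRL, R2S): (H_s + v) D_w = D_{sw} + D_{alt (k-1)} for w = alt k, 1 <= k < N,
s = lt k; without the last term if k = 1. Proof: coordinates at H_y, l = l(y). The coordinate of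
(H_s + v) X at y is x_{sy} + v^{-1} x_y if l(sy) < l(y), and x_{sy} + v x_y if l(sy) > l(y)
(HRL(1), std_mul). Left side: if sy < y: l < k: v^(k-l+1) + v^(k-l-1); l = k: v; l = k+1: 1 if
y = sw, else 0; l > k+1: 0. The same on the right (l = k-1, sy < y forces y = alt (k-1), R2S(3)).
If sy > y: l < k-1: v^(k-l-1) + v^(k-l+1); l = k-1: v^2; l = k: v if y = w (always, R2S(3):
the other element of length k has s as left descent); l > k: 0. -/
def Stmt_R2B : Prop :=
  ∀ {B W : Type} [Group W] [Fintype W] {M : CoxeterMatrix B} {cs : CoxeterSystem M W}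
    (K : KL cs) (c c' : B) (N : ℕ), R2 cs c c' N → ∀ k, 1 ≤ k → k < N →
    (K.std (cs.simple (lt c c' k)) + (T 1 : A) • (1 : K.H)) * D2 K (alt cs c c' k) =
      D2 K (alt cs c c' (k + 1)) + if k = 1 then 0 else D2 K (alt cs c c' (k - 1))

/-- R2P (uses R2B, UNQ, CSI, R2S): C_w = D_w. Proof: D_1 = 1, D_s = H_s + v are bar invariant
(CSI); by R2B and induction on k (two steps) D_{alt c c' k} is bar invariant for k <= N, for both
orders of the letters (R2S(1)); C_w - D_w satisfies UNQ. So p_{y,w} = d2 y w, and the product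
formula holds for C. -/
def Stmt_R2P : Prop :=
  ∀ {B W : Type} [Group W] [Fintype W] {M : CoxeterMatrix B} {cs : CoxeterSystem M W}
    (K : KL cs) (c c' : B) (N : ℕ), R2 cs c c' N → (∀ y w, K.p y w = d2 cs y w) ∧
    ∀ k, 1 ≤ k → k < N → K.kl (cs.simple (lt c c' k)) * K.kl (alt cs c c' k) =
      K.kl (alt cs c c' (k + 1)) + if k = 1 then 0 else K.kl (alt cs c c' (k - 1))

/-- R2H (uses R2P, R2S, CDN, FLK, CSI, LPF): the structure constants have nonnegative coefficients.
(helper97 types this one.) -/
def Stmt_R2H : Prop :=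
  ∀ {B W : Type} [Group W] [Fintype W] {M : CoxeterMatrix B} {cs : CoxeterSystem M W}
    (K : KL cs) (c c' : B) (N : ℕ), R2 cs c c' N → ∀ x y z, Nonneg (K.h x y z)

/-- R2N (uses R2P, R2S, R2A data): n_{x,y} is nonnegative for x, y short. Proof by cases on I: if
no letter is in I then W_I = 1, n = p. If both letters are in I: Short means no right descent, so
x = y = 1 and n_{1,1} = sum (-v)^{l(w)} p_{w,1} = 1. If exactly one letter i is in I: W_I = {1, s},
n_{x,y} = p_{x,y} - v p_{xs,y}. x = y: 1 - v p_{xs,x} = 1 - 0. l(xs) < l(y): v^(l(y) - l(x)) -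
v v^(l(y) - l(x) - 1) = 0. l(xs) = l(y): xs <> y since y is short; n = v. Otherwise 0. -/
def Stmt_R2N : Prop :=
  ∀ {B W : Type} [Group W] [Fintype W] {M : CoxeterMatrix B} {cs : CoxeterSystem M W}
    (K : KL cs) (c c' : B) (N : ℕ), R2 cs c c' N → ∀ (I : Set B) (x y : W),
    Short cs I x → Short cs I y → Nonneg (n K I x y)

end Pool.Agent.Work.MP_a20dfd
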