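import Pool.Agent.Work.MP_a20dfd.R2

/-!
Block R2A: existence of the rank two structure (helper4).
-/

set_option autoImplicit false

namespace Pool.Agent.Work.MP_a20dfd

namespace R2a

variable {B W : Type} [Group W] {M : CoxeterMatrix B} (cs : CoxeterSystem M W)

theorem lt_swap (c c' : B) (k : ℕ) : lt c' c k = lt c c' (k + 1) := by
  unfold lt
  by_cases h : Even k
  · rw [if_pos h, if_neg (by rw [Nat.even_add_one]; exact fun h1 => h1 h)]
  · rw [if_neg h, if_pos (by rw [Nat.even_add_one]; exact h)]

theorem alt_succ (c c' : B) (k : ℕ) :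
    alt cs c c' (k + 1) = cs.simple (lt c c' k) * alt cs c c' k := rfl

theorem alt_right (c c' : B) (k : ℕ) :
    alt cs c' c k * cs.simple c = alt cs c c' (k + 1) := by
  induction k with
  | zero =>
    rw [alt_succ]
    have : lt c c' 0 = c := by
      unfold lt
      rw [if_pos (by decide)]
    rw [this]
    show 1 * cs.simple c = cs.simple c * 1
    rw [one_mul, mul_one]
  | succ k ih =>
    rw [alt_succ cs c' c k, mul_assoc, ih, lt_swap, ← alt_succ]

theorem length_alt_le (c c' : B) (k : ℕ) : cs.length (alt cs c c' k) ≤ k := by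
  induction k with
  | zero =>
    show cs.length 1 ≤ 0
    rw [cs.length_one]
  | succ k ih =>
    rw [alt_succ]
    have := cs.length_simple_mul (alt cs c c' k) (lt c c' k)
    omega

theorem length_alt_add (c c' : B) (k m : ℕ) :
    cs.length (alt cs c c' (k + m)) ≤ cs.length (alt cs c c' k) + m := by
  induction m with
  | zero => simp
  | succ m ih =>
    rw [← add_assoc, alt_succ]
    have := cs.length_simple_mul (alt cs c c' (k + m)) (lt c c' (k + m))
    omega

theorem word (c c' : B) (h2 : ∀ i : B, i = c ∨ i = c') (ω : List B) :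
    cs.length (cs.wordProd ω) = ω.length →
    cs.wordProd ω = alt cs c c' ω.length ∨ cs.wordProd ω = alt cs c' c ω.length := by
  have step : ∀ (a b : B), (∀ i : B, i = a ∨ i = b) → ∀ (j : B) (ω : List B),
      cs.length (cs.wordProd (j :: ω)) = (j :: ω).length →
      cs.wordProd ω = alt cs a b ω.length →
      cs.wordProd (j :: ω) = alt cs a b (j :: ω).length ∨
      cs.wordProd (j :: ω) = alt cs b a (j :: ω).length := by
    intro a b hab j ω hl hω
    rw [cs.wordProd_cons] at hl ⊢
    rw [List.length_cons] at hl ⊢
    by_cases hj : j = lt a b ω.length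
    · left
      rw [hω, alt_succ, hj]
    · have hj' : j = lt b a ω.length := by
        unfold lt at hj ⊢
        by_cases he : Even ω.length
        · rw [if_pos he] at hj ⊢
          exact (hab j).resolve_left hj
        · rw [if_neg he] at hj ⊢
          exact (hab j).resolve_right hj
      rcases Nat.eq_zero_or_pos ω.length with h0 | h0
      · right
        rw [hω, alt_succ, hj', h0]
        rfl
      · obtain ⟨m, hm⟩ : ∃ m, ω.length = m + 1 := ⟨ω.length - 1, by omega⟩
        exfalso
        rw [hm] at hω hj' hl
        rw [lt_swap] at hj'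
        have hjm : j = lt a b m := by
          rw [hj']
          unfold lt
          by_cases he : Even m
          · rw [if_pos he, if_pos]
            rw [Nat.even_add_one, Nat.even_add_one]
            exact fun h => h he
          · rw [if_neg he, if_neg]
            rw [Nat.even_add_one, Nat.even_add_one]
            exact fun h => h he
        rw [hω, alt_succ, ← mul_assoc, hjm, cs.simple_mul_simple_self, one_mul] at hl
        have := length_alt_le cs a b m
        omega
  induction ω with
  | nil =>
    intro _
    left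
    rfl
  | cons j ω ih =>
    intro hl
    have hr : cs.length (cs.wordProd ω) = ω.length := by
      have h1 := cs.length_wordProd_le ω
      have h2 := cs.length_simple_mul (cs.wordProd ω) j
      rw [cs.wordProd_cons, List.length_cons] at hl
      omega
    rcases ih hr with h | h
    · exact step c c' h2 j ω hl h
    · exact (step c' c (fun i => (h2 i).symm) j ω hl h).symm

theorem all (c c' : B) (h2 : ∀ i : B, i = c ∨ i = c') (w : W) :
    w = alt cs c c' (cs.length w) ∨ w = alt cs c' c (cs.length w) := by
  obtain ⟨ω, hω, rfl⟩ := cs.exists_isReduced w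
  have h : cs.length (cs.wordProd ω) = ω.length := hω
  rw [h]
  exact word cs c c' h2 ω h

theorem top (c c' : B) (h2 : ∀ i : B, i = c ∨ i = c') (w0 : W)
    (hw : cs.length (w0 * cs.simple c') + 1 = cs.length w0) :
    w0 = alt cs c' c (cs.length w0) := by
  have h0 : w0 = w0 * cs.simple c' * cs.simple c' := by
    rw [mul_assoc, cs.simple_mul_simple_self, mul_one]
  have hN : cs.length w0 = cs.length (w0 * cs.simple c') + 1 := hw.symm
  rcases all cs c c' h2 (w0 * cs.simple c') with h | h
  · rw [hN]
    conv_lhs => rw [h0, h]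
    exact alt_right cs c' c _
  · rcases Nat.eq_zero_or_pos (cs.length (w0 * cs.simple c')) with hz | hz
    · rw [hN]
      conv_lhs => rw [h0, h]
      rw [hz]
      exact alt_right cs c' c 0
    · exfalso
      obtain ⟨m, hm⟩ : ∃ m, cs.length (w0 * cs.simple c') = m + 1 :=
        ⟨cs.length (w0 * cs.simple c') - 1, by omega⟩
      rw [hm] at h
      have h3 := alt_right cs c' c m
      rw [h, ← h3, mul_assoc, cs.simple_mul_simple_self, mul_one] at h0
      have h4 := length_alt_le cs c c' m
      rw [← h0] at h4
      omega

theorem simple_ne (c c' : B) (hne : c ≠ c') (h2 : ∀ i : B, i = c ∨ i = c') :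
    cs.simple c ≠ cs.simple c' := by
  classical
  intro h
  let f : B → DihedralGroup (M c c') := fun i => if i = c then DihedralGroup.sr 0 else
    DihedralGroup.sr 1
  have hfc : f c = DihedralGroup.sr 0 := if_pos rfl
  have hfc' : f c' = DihedralGroup.sr 1 := if_neg (Ne.symm hne)
  have hf : M.IsLiftable f := by
    intro i j
    rcases h2 i with rfl | rfl <;> rcases h2 j with rfl | rfl
    · rw [M.diagonal, pow_one, hfc, DihedralGroup.sr_mul_sr, sub_self]
      rfl
    · rw [hfc, hfc', DihedralGroup.sr_mul_sr, sub_zero]
      exact DihedralGroup.r_one_pow_n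
    · rw [hfc, hfc', DihedralGroup.sr_mul_sr, M.symmetric j i, zero_sub]
      rw [DihedralGroup.r_pow, ZMod.natCast_self, mul_zero]
      rfl
    · rw [M.diagonal, pow_one, hfc', DihedralGroup.sr_mul_sr, sub_self]
      rfl
  have h3 := cs.lift_apply_simple hf c
  have h4 := cs.lift_apply_simple hf c'
  rw [h, h4, hfc, hfc', DihedralGroup.sr.injEq] at h3
  have h5 : ((1 : ℕ) : ZMod (M c c')) = 0 := by
    rw [Nat.cast_one]
    exact h3
  rw [ZMod.natCast_eq_zero_iff] at h5
  exact M.off_diagonal c c' hne (Nat.dvd_one.1 h5)

end R2a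

theorem p_R2A (hLON : Stmt_LON) : Stmt_R2A := by
  intro B W _ _ M cs c c' hne h2
  obtain ⟨w0, hw0⟩ : ∃ w0 : W, ∀ x, cs.length x ≤ cs.length w0 := Finite.exists_max cs.length
  have hL := hLON cs w0 hw0
  have hs : ∀ i : B, cs.length (w0 * cs.simple i) + 1 = cs.length w0 := by
    intro i
    have := hL (cs.simple i)
    rw [cs.length_simple] at this
    exact this
  have ht : w0 = alt cs c' c (cs.length w0) := R2a.top cs c c' h2 w0 (hs c')
  have ht' : w0 = alt cs c c' (cs.length w0) :=
    R2a.top cs c' c (fun i => (h2 i).symm) w0 (hs c)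
  have hlen : ∀ a b : B, w0 = alt cs a b (cs.length w0) → ∀ k ≤ cs.length w0,
      cs.length (alt cs a b k) = k := by
    intro a b hab k hk
    have h3 := R2a.length_alt_add cs a b k (cs.length w0 - k)
    have h4 := R2a.length_alt_le cs a b k
    rw [Nat.add_sub_cancel' hk, ← hab] at h3
    omega
  refine ⟨cs.length w0, hne, h2, ?_, hlen c c' ht', hlen c' c ht, ht'.symm.trans ht,
    R2a.all cs c c' h2, hw0⟩
  by_contra hlt
  have h1 : 1 ≤ cs.length w0 := by
    have := hs c
    omega
  have hN : cs.length w0 = 1 := by omega
  rw [hN] at ht ht'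
  have h5 : alt cs c c' 1 = cs.simple c := by
    rw [← R2a.alt_right cs c c' 0]
    exact one_mul _
  have h6 : alt cs c' c 1 = cs.simple c' := by
    rw [← R2a.alt_right cs c' c 0]
    exact one_mul _
  rw [h5] at ht'
  rw [h6] at ht
  exact R2a.simple_ne cs c c' hne h2 (ht'.symm.trans ht)

end Pool.Agent.Work.MP_a20dfd
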