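import Pool.Agent.Work.MP_a20dfd.R2

set_option autoImplicit false

namespace Pool.Agent.Work.MP_a20dfd

open LaurentPolynomial

namespace R2b

variable {B W : Type} [Group W] {M : CoxeterMatrix B} {cs : CoxeterSystem M W}

theorem coord (K : KL cs) (hL : ∀ (i : B) (w : W), cs.length (cs.simple i * w) < cs.length w →
      K.std (cs.simple i) * K.std w = K.std (cs.simple i * w) + (T (-1) - T 1 : A) • K.std w)
    (i : B) (X : K.H) (z : W) :
    K.std.repr (K.std (cs.simple i) * X) z = K.std.repr X (cs.simple i * z) +
      (if cs.length (cs.simple i * z) < cs.length z then (T (-1) - T 1 : A) else 0) *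
        K.std.repr X z := by
  classical
  obtain ⟨c, hc⟩ : ∃ c : A, c =
    if cs.length (cs.simple i * z) < cs.length z then (T (-1) - T 1 : A) else 0 := ⟨_, rfl⟩
  rw [← hc]
  let L1 : K.H →ₗ[A] A := (Finsupp.lapply z) ∘ₗ (K.std.repr : K.H →ₗ[A] (W →₀ A)) ∘ₗ
    (LinearMap.mulLeft A (K.std (cs.simple i)))
  let L2 : K.H →ₗ[A] A := (Finsupp.lapply (cs.simple i * z)) ∘ₗ (K.std.repr : K.H →ₗ[A] (W →₀ A)) +
    c • ((Finsupp.lapply z) ∘ₗ (K.std.repr : K.H →ₗ[A] (W →₀ A)))
  have h : L1 = L2 := by
    apply K.std.ext
    intro y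
    show K.std.repr (K.std (cs.simple i) * K.std y) z = K.std.repr (K.std y) (cs.simple i * z) +
      c * K.std.repr (K.std y) z
    have e1 : cs.simple i * y = z ↔ y = cs.simple i * z := by
      constructor
      · rintro rfl
        rw [cs.simple_mul_simple_cancel_left]
      · rintro rfl
        rw [cs.simple_mul_simple_cancel_left]
    rcases cs.length_simple_mul y i with hl | hl
    · rw [K.std_mul i y hl]
      simp only [Module.Basis.repr_self, Finsupp.single_apply, e1]
      by_cases hyz : y = z
      · subst hyz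
        have hc0 : c = 0 := by rw [hc, if_neg (by omega)]
        rw [hc0, zero_mul, add_zero]
      · rw [if_neg hyz, mul_zero, add_zero]
    · rw [hL i y (by omega), map_add, map_smul]
      simp only [Module.Basis.repr_self, Finsupp.add_apply, Finsupp.smul_apply,
        Finsupp.single_apply, e1, smul_eq_mul]
      by_cases hyz : y = z
      · subst hyz
        have hc0 : c = T (-1) - T 1 := by rw [hc, if_pos (by omega)]
        rw [hc0]
      · rw [if_neg hyz, mul_zero, mul_zero]
  exact LinearMap.congr_fun h X

theorem d_eq (u : W) : d2 cs u u = 1 := by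
  unfold d2
  rw [if_pos rfl]

theorem d_lt {y u : W} (h : cs.length y < cs.length u) (m : ℤ)
    (hm : m = (cs.length u : ℤ) - (cs.length y : ℤ)) : d2 cs y u = T m := by
  unfold d2
  have hne : y ≠ u := by
    rintro rfl
    exact lt_irrefl _ h
  rw [if_neg hne, if_pos h, hm]

theorem d_ge {y u : W} (hne : y ≠ u) (h : cs.length u ≤ cs.length y) : d2 cs y u = 0 := by
  unfold d2
  rw [if_neg hne, if_neg (not_lt.2 h)]

theorem TT (m n k : ℤ) (h : m + n = k) : (T m * T n : A) = T k := by
  rw [← T_add, h]

theorem lt_two {B : Type} (c c' : B) (k : ℕ) (hk : 2 ≤ k) : lt c c' (k - 1 - 1) = lt c c' k := by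
  obtain ⟨j, rfl⟩ : ∃ j, k = j + 2 := ⟨k - 2, by omega⟩
  have h : j + 2 - 1 - 1 = j := by omega
  rw [h]
  unfold lt
  have h2 : Even (j + 2) ↔ Even j := by
    rw [Nat.even_add]
    simp
  by_cases hj : Even j
  · rw [if_pos hj, if_pos (h2.2 hj)]
  · rw [if_neg hj, if_neg (fun h => hj (h2.1 h))]

theorem lt_swap {B : Type} (c c' : B) (k : ℕ) (hk : 1 ≤ k) : lt c' c (k - 1) = lt c c' k := by
  obtain ⟨j, rfl⟩ : ∃ j, k = j + 1 := ⟨k - 1, by omega⟩
  rw [Nat.add_sub_cancel]
  unfold lt
  by_cases hj : Even j
  · rw [if_pos hj, if_neg (fun h => (Nat.even_add_one.1 h) hj)]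
  · rw [if_neg hj, if_pos (Nat.even_add_one.2 hj)]

end R2b

open R2b in
theorem p_R2B (hHRL : Stmt_HRL) (hR2S : Stmt_R2S) : Stmt_R2B := by
  classical
  intro B W _ _ M cs K c c' N hR k hk1 hkN
  obtain ⟨hR', hdes, hup, hcls⟩ := hR2S cs c c' N hR
  obtain ⟨-, hdes', -, -⟩ := hR2S cs c' c N hR'
  have hrep : ∀ w y : W, K.std.repr (D2 K w) y = d2 cs y w := by
    intro w y
    unfold D2
    rw [Module.Basis.repr_sum_self]
  obtain ⟨w, hw⟩ : ∃ w, w = alt cs c c' k := ⟨_, rfl⟩
  obtain ⟨w1, hw1⟩ : ∃ w1, w1 = alt cs c c' (k + 1) := ⟨_, rfl⟩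
  obtain ⟨w2, hw2⟩ : ∃ w2, w2 = alt cs c c' (k - 1) := ⟨_, rfl⟩
  obtain ⟨i, hi⟩ : ∃ i, i = lt c c' k := ⟨_, rfl⟩
  have hlw : cs.length w = k := by rw [hw, hR.len k hkN.le]
  have hlw1 : cs.length w1 = k + 1 := by rw [hw1, hR.len (k + 1) hkN]
  have hlw2 : cs.length w2 = k - 1 := by rw [hw2, hR.len (k - 1) (by omega)]
  have hsw : cs.simple i * w = w1 := by
    rw [hi, hw, hw1]
    exact (hup k hkN).1
  have hsw1 : cs.simple i * w1 = w := by
    rw [← hsw, cs.simple_mul_simple_cancel_left]
  have hss : ∀ y, cs.simple i * (cs.simple i * y) = y := fun y =>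
    cs.simple_mul_simple_cancel_left i
  -- the elements of length `k` with left ascent `i`
  have hAk : ∀ y, cs.length y = k → cs.length y < cs.length (cs.simple i * y) → y = w := by
    intro y hy hl
    rcases hR.all y with h | h
    · rw [h, hy, hw]
    · exfalso
      rw [hy] at h
      have h2 := hdes' k hk1 hkN.le
      rw [lt_swap c c' k hk1, ← hi, ← h] at h2
      omega
  -- the elements of length `k - 1` with left descent `i`
  have hDk : ∀ y, cs.length y = k - 1 → cs.length (cs.simple i * y) < cs.length y →
      2 ≤ k → y = w2 := by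
    intro y hy hl hk2
    have h := hcls (k - 1) (by omega) (by omega) y hy
    rw [lt_two c c' k hk2, ← hi, ← hw2] at h
    exact h hl
  have hw2d : 2 ≤ k → cs.length (cs.simple i * w2) < cs.length w2 := by
    intro hk2
    have h := hdes (k - 1) (by omega) (by omega)
    rw [lt_two c c' k hk2, ← hi, ← hw2] at h
    exact h
  rw [← hw, ← hw1, ← hw2, ← hi]
  apply K.std.ext_elem
  intro y
  have hL : K.std.repr ((K.std (cs.simple i) + (T 1 : A) • (1 : K.H)) * D2 K w) y =
      d2 cs (cs.simple i * y) w +
        (if cs.length (cs.simple i * y) < cs.length y then (T (-1) - T 1 : A) else 0) *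
          d2 cs y w + T 1 * d2 cs y w := by
    rw [add_mul, smul_mul_assoc, one_mul, map_add, map_smul, Finsupp.add_apply,
      Finsupp.smul_apply, smul_eq_mul, coord K (hHRL K).1 i (D2 K w) y, hrep, hrep]
  have hRt : K.std.repr (D2 K w1 + if k = 1 then 0 else D2 K w2) y =
      d2 cs y w1 + if k = 1 then 0 else d2 cs y w2 := by
    rw [map_add, Finsupp.add_apply, hrep]
    congr 1
    split_ifs
    · rw [map_zero, Finsupp.zero_apply]
    · rw [hrep]
  rw [hL, hRt]
  rcases cs.length_simple_mul y i with hl | hl
  · -- ascent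
    rw [if_neg (by omega), zero_mul, add_zero]
    have hy1 : y ≠ w1 := by
      rintro rfl
      rw [hsw1] at hl
      omega
    rcases lt_trichotomy (cs.length y) k with h | h | h
    · by_cases h2 : cs.length y + 1 < k
      · rw [if_neg (by omega), d_lt (y := cs.simple i * y) (u := w) (by omega)
            ((k : ℤ) - cs.length y - 1) (by rw [hl, hlw]; push_cast; ring),
          d_lt (y := y) (u := w) (by omega) ((k : ℤ) - cs.length y) (by rw [hlw]),
          d_lt (y := y) (u := w1) (by omega) ((k : ℤ) - cs.length y + 1)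
            (by rw [hlw1]; push_cast; ring),
          d_lt (y := y) (u := w2) (by omega) ((k : ℤ) - cs.length y - 1)
            (by rw [hlw2]; push_cast [Nat.cast_sub hk1]; ring),
          TT 1 _ ((k : ℤ) - cs.length y + 1) (by ring), add_comm]
      · have h3 : cs.length y = k - 1 := by omega
        have hne : cs.simple i * y ≠ w := by
          intro h4
          rw [← h4, hss] at hsw
          exact hy1 hsw
        rw [d_ge hne (by omega), d_lt (y := y) (u := w) (by omega) 1
            (by rw [hlw, h3]; push_cast [Nat.cast_sub hk1]; ring),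
          d_lt (y := y) (u := w1) (by omega) 2
            (by rw [hlw1, h3]; push_cast [Nat.cast_sub hk1]; ring),
          TT 1 1 2 (by norm_num), zero_add]
        by_cases hk : k = 1
        · rw [if_pos hk, add_zero]
        · have hne2 : y ≠ w2 := by
            rintro rfl
            have := hw2d (by omega)
            omega
          rw [if_neg hk, d_ge hne2 (by omega), add_zero]
    · have hyw : y = w := hAk y h (by omega)
      have hne : cs.simple i * y ≠ w := by
        intro h4
        rw [h4] at hl
        omega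
      have hne2 : y ≠ w2 := by
        rintro rfl
        omega
      rw [d_ge hne (by omega), hyw, d_eq, mul_one, zero_add,
        d_lt (y := w) (u := w1) (by omega) 1 (by rw [hlw1, hlw]; push_cast; ring)]
      rw [hyw] at hne2
      split_ifs
      · rw [add_zero]
      · rw [d_ge hne2 (by omega), add_zero]
    · have hne : cs.simple i * y ≠ w := by
        intro h4
        rw [h4] at hl
        omega
      have hne1 : y ≠ w := by
        rintro rfl
        omega
      have hne2 : y ≠ w2 := by
        rintro rfl
        omega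
      rw [d_ge hne (by omega), d_ge hne1 (by omega), d_ge hy1 (by omega), d_ge hne2 (by omega),
        mul_zero, zero_add, zero_add, ite_self]
  · -- descent
    rw [if_pos (by omega)]
    have e : (T (-1) - T 1) * d2 cs y w + T 1 * d2 cs y w = T (-1) * d2 cs y w := by ring
    rw [add_assoc, e]
    have hyw : y ≠ w := by
      rintro rfl
      rw [hsw] at hl
      omega
    rcases lt_trichotomy (cs.length y) k with h | h | h
    · have hk2 : 2 ≤ k := by omega
      have h5 : d2 cs y w2 = T ((k : ℤ) - cs.length y - 1) := by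
        by_cases h6 : cs.length y + 1 < k
        · rw [d_lt (y := y) (u := w2) (by omega) ((k : ℤ) - cs.length y - 1)
            (by rw [hlw2]; push_cast [Nat.cast_sub hk1]; ring)]
        · have h7 : y = w2 := hDk y (by omega) (by omega) hk2
          have h8 : ((k : ℤ) - cs.length y - 1) = 0 := by omega
          rw [h8, h7, d_eq, T_zero]
      rw [if_neg (by omega), h5, d_lt (y := cs.simple i * y) (u := w) (by omega)
            ((k : ℤ) - cs.length y + 1) (by rw [hlw]; omega),
          d_lt (y := y) (u := w) (by omega) ((k : ℤ) - cs.length y) (by rw [hlw]),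
          d_lt (y := y) (u := w1) (by omega) ((k : ℤ) - cs.length y + 1)
            (by rw [hlw1]; push_cast; ring),
          TT (-1) _ ((k : ℤ) - cs.length y - 1) (by ring)]
    · have hne1 : y ≠ w1 := by
        rintro rfl
        omega
      have hne2 : y ≠ w2 := by
        rintro rfl
        omega
      rw [d_lt (y := cs.simple i * y) (u := w) (by omega) 1 (by rw [hlw]; omega),
        d_ge hyw (by omega), d_lt (y := y) (u := w1) (by omega) 1 (by rw [hlw1]; omega),
        d_ge hne2 (by omega), mul_zero, ite_self]
    · have hne2 : y ≠ w2 := by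
        rintro rfl
        omega
      rw [d_ge hyw (by omega), mul_zero, add_zero, d_ge hne2 (by omega), ite_self, add_zero]
      by_cases h6 : y = w1
      · rw [h6, hsw1, d_eq, d_eq]
      · have h7 : cs.simple i * y ≠ w := by
          intro h8
          rw [← h8, hss] at hsw
          exact h6 hsw
        rw [d_ge h6 (by omega), d_ge h7 (by omega)]

end Pool.Agent.Work.MP_a20dfd
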