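import Pool.Agent.Work.MP_a20dfd.R2

/-! R2H: positivity of the structure constants in rank two (helper97). -/

set_option autoImplicit false
set_option linter.unusedSectionVars false

namespace Pool.Agent.Work.MP_a20dfd

open LaurentPolynomial

namespace R2h

theorem nn_add {f g : A} (hf : Nonneg f) (hg : Nonneg g) : Nonneg (f + g) := fun k =>
  add_nonneg (hf k) (hg k)

theorem nn_zero : Nonneg (0 : A) := fun _ => le_refl _

theorem nn_T (j : ℤ) : Nonneg (T j : A) := by
  intro k
  unfold co
  rw [LaurentPolynomial.T]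
  rw [AddMonoidAlgebra.coeff_single, Finsupp.single_apply]
  split_ifs <;> norm_num

theorem lt_congr {B : Type} (c c' : B) {a b : ℕ} (h : Even a ↔ Even b) :
    lt c c' a = lt c c' b := by
  unfold lt
  by_cases ha : Even a
  · rw [if_pos ha, if_pos (h.1 ha)]
  · rw [if_neg ha, if_neg (fun hb => ha (h.2 hb))]

variable {B W : Type} [Group W] [Fintype W] {M : CoxeterMatrix B} {cs : CoxeterSystem M W}

/-- Nonnegative coordinates in the basis C. -/
def PosV (K : KL cs) (x : K.H) : Prop := ∀ z, Nonneg (K.kl.repr x z)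

theorem pos_add (K : KL cs) {x y : K.H} (hx : PosV K x) (hy : PosV K y) : PosV K (x + y) := by
  intro z
  rw [map_add, Finsupp.add_apply]
  exact nn_add (hx z) (hy z)

theorem pos_zero (K : KL cs) : PosV K 0 := by
  intro z
  rw [map_zero, Finsupp.zero_apply]
  exact nn_zero

theorem pos_kl (K : KL cs) (w : W) : PosV K (K.kl w) := by
  classical
  intro z
  rw [Module.Basis.repr_self, Finsupp.single_apply]
  split_ifs
  · rw [← T_zero]; exact nn_T 0
  · exact nn_zero

theorem pos_smul (hLPF : Stmt_LPF) (K : KL cs) {f : A} (hf : Nonneg f) {x : K.H}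
    (hx : PosV K x) : PosV K (f • x) := by
  intro z
  rw [map_smul, Finsupp.smul_apply, smul_eq_mul]
  exact hLPF.1 _ _ hf (hx z)

theorem pos_sum (K : KL cs) (s : Finset ℕ) (f : ℕ → K.H) (h : ∀ t ∈ s, PosV K (f t)) :
    PosV K (∑ t ∈ s, f t) := by
  classical
  induction s using Finset.induction_on with
  | empty => rw [Finset.sum_empty]; exact pos_zero K
  | insert a s ha ih =>
    rw [Finset.sum_insert ha]
    exact pos_add K (h a (Finset.mem_insert_self a s))
      (ih fun t ht => h t (Finset.mem_insert_of_mem ht))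

/-- The elements e_k, 0 ≤ k ≤ N. -/
noncomputable def e0 (K : KL cs) (c c' : B) (k : ℕ) : K.H :=
  if k = 0 then 0 else K.kl (alt cs c c' k)

/-- The elements e_k, 0 ≤ k ≤ 2N. -/
noncomputable def e (K : KL cs) (c c' : B) (N k : ℕ) : K.H :=
  if k ≤ N then e0 K c c' k else
    (T ((k : ℤ) - N) + T (-((k : ℤ) - N)) : A) • K.kl (alt cs c c' N) - e0 K c c' (2 * N - k)

theorem e0_pos (K : KL cs) (c c' : B) (k : ℕ) : PosV K (e0 K c c' k) := by
  unfold e0
  split_ifs
  · exact pos_zero K
  · exact pos_kl K _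

theorem e_lo (K : KL cs) (c c' : B) {N k : ℕ} (h : k ≤ N) : e K c c' N k = e0 K c c' k := by
  unfold e; rw [if_pos h]

theorem e_hi (K : KL cs) (c c' : B) {N j : ℕ} (hN : 1 ≤ N) (_h : j ≤ N) :
    e K c c' N (N + j) =
      (T (j : ℤ) + T (-(j : ℤ)) : A) • K.kl (alt cs c c' N) - e0 K c c' (N - j) := by
  rcases Nat.eq_zero_or_pos j with rfl | hj
  · rw [Nat.add_zero, e_lo K c c' le_rfl, Nat.sub_zero]
    unfold e0
    rw [if_neg (by omega)]
    simp only [Nat.cast_zero, neg_zero, T_zero]
    rw [add_smul, one_smul]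
    abel
  · unfold e
    rw [if_neg (by omega)]
    have h1 : 2 * N - (N + j) = N - j := by omega
    have h2 : (((N + j : ℕ) : ℤ) - (N : ℤ)) = (j : ℤ) := by push_cast; ring
    rw [h1, h2]

/-- The sum e_m + e_{m+2} + ... (k terms). -/
noncomputable def S (K : KL cs) (c c' : B) (N m k : ℕ) : K.H :=
  ∑ t ∈ Finset.range k, e K c c' N (m + 2 * t)

theorem sym_pos (hLPF : Stmt_LPF) (K : KL cs) (c c' : B) {N : ℕ} (hN : 1 ≤ N) :
    ∀ j, j ≤ N → PosV K (S K c c' N (N - j) (j + 1)) := by
  intro j
  induction j using Nat.strong_induction_on with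
  | _ j ih =>
    intro hj
    rcases j with _ | _ | j
    · unfold S
      rw [Finset.sum_range_one]
      have : N - 0 + 2 * 0 = N := by omega
      rw [this, e_lo K c c' le_rfl]
      exact e0_pos K c c' N
    · unfold S
      rw [Finset.sum_range_succ, Finset.sum_range_one]
      have h1 : N - (0 + 1) + 2 * 0 = N - 1 := by omega
      have h2 : N - (0 + 1) + 2 * 1 = N + 1 := by omega
      rw [h1, h2, e_lo K c c' (by omega : N - 1 ≤ N), e_hi K c c' hN (by omega : 1 ≤ N)]
      rw [add_sub_cancel]
      exact pos_smul hLPF K (nn_add (nn_T _) (nn_T _)) (pos_kl K _)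
    · have h3 := ih j (by omega) (by omega)
      unfold S at h3 ⊢
      rw [Finset.sum_range_succ, Finset.sum_range_succ']
      have h1 : N - (j + 1 + 1) + 2 * 0 = N - (j + 2) := by omega
      have h2 : N - (j + 1 + 1) + 2 * (j + 1 + 1) = N + (j + 2) := by omega
      rw [h1, h2, e_lo K c c' (by omega : N - (j + 2) ≤ N), e_hi K c c' hN (by omega : j + 2 ≤ N)]
      have h4 : ∑ t ∈ Finset.range (j + 1), e K c c' N (N - (j + 1 + 1) + 2 * (t + 1)) =
          ∑ t ∈ Finset.range (j + 1), e K c c' N (N - j + 2 * t) := by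
        refine Finset.sum_congr rfl fun t _ => ?_
        congr 1
        omega
      rw [h4, add_assoc, add_sub_cancel]
      exact pos_add K h3 (pos_smul hLPF K (nn_add (nn_T _) (nn_T _)) (pos_kl K _))

theorem S_pos (hLPF : Stmt_LPF) (K : KL cs) (c c' : B) {N : ℕ} (hN : 1 ≤ N) (m k : ℕ)
    (h : m + k ≤ N + 1) : PosV K (S K c c' N m k) := by
  rcases Nat.eq_zero_or_pos k with rfl | hk
  · unfold S; rw [Finset.sum_range_zero]; exact pos_zero K
  by_cases htop : m + 2 * (k - 1) ≤ N
  · unfold S
    refine pos_sum K _ _ fun t ht => ?_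
    have := Finset.mem_range.1 ht
    rw [e_lo K c c' (by omega)]
    exact e0_pos K c c' _
  · obtain ⟨j, hj⟩ : ∃ j, m + 2 * (k - 1) = N + j := ⟨m + 2 * (k - 1) - N, by omega⟩
    have hj1 : j + 1 ≤ k := by omega
    have hjN : j ≤ N := by omega
    have hk' : k = (k - (j + 1)) + (j + 1) := by omega
    have hsplit : S K c c' N m k =
        S K c c' N m (k - (j + 1)) + S K c c' N (N - j) (j + 1) := by
      conv_lhs => rw [hk']
      unfold S
      rw [Finset.sum_range_add]
      congr 1
      refine Finset.sum_congr rfl fun t _ => ?_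
      congr 1
      omega
    rw [hsplit]
    refine pos_add K ?_ (sym_pos hLPF K c c' hN j hjN)
    unfold S
    refine pos_sum K _ _ fun t ht => ?_
    have := Finset.mem_range.1 ht
    rw [e_lo K c c' (by omega)]
    exact e0_pos K c c' _

/-- The recursion for e. -/
theorem e_rec (hR2S : Stmt_R2S) (hR2P : Stmt_R2P) (hCDN : Stmt_CDN) (K : KL cs) (c c' : B)
    {N : ℕ} (hR : R2 cs c c' N) {k : ℕ} (h1 : 1 ≤ k) (h2 : k + 1 ≤ 2 * N) :
    K.kl (cs.simple (lt c c' k)) * e K c c' N k =
      e K c c' N (k + 1) + e K c c' N (k - 1) := by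
  have hN : 1 ≤ N := by have := hR.pos; omega
  have hprod := (hR2P K c c' N hR).2
  have hlow : ∀ k, 1 ≤ k → k < N → K.kl (cs.simple (lt c c' k)) * e0 K c c' k =
      e0 K c c' (k + 1) + e0 K c c' (k - 1) := by
    intro k hk1 hk2
    have h := hprod k hk1 hk2
    unfold e0
    rw [if_neg (by omega : ¬ k = 0), if_neg (by omega : ¬ k + 1 = 0), h]
    congr 1
    by_cases hk : k = 1
    · rw [if_pos hk, if_pos (by omega)]
    · rw [if_neg hk, if_neg (by omega)]
  have hdesc : ∀ i : B, K.kl (cs.simple i) * K.kl (alt cs c c' N) =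
      (T 1 + T (-1) : A) • K.kl (alt cs c c' N) := by
    intro i
    apply hCDN K i
    obtain ⟨hR', hd, -, -⟩ := hR2S cs c c' N hR
    obtain ⟨-, hd', -, -⟩ := hR2S cs c' c N hR'
    have e1 := hd N hN le_rfl
    have e2 := hd' N hN le_rfl
    rw [← hR.top] at e2
    have hcase : i = lt c c' (N - 1) ∨ i = lt c' c (N - 1) := by
      unfold lt
      rcases hR.two i with rfl | rfl
      · by_cases hev : Even (N - 1)
        · left; rw [if_pos hev]
        · right; rw [if_neg hev]
      · by_cases hev : Even (N - 1)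
        · right; rw [if_pos hev]
        · left; rw [if_neg hev]
    rcases hcase with rfl | rfl
    · exact e1
    · exact e2
  by_cases hkN : k < N
  · rw [e_lo K c c' (by omega : k ≤ N), e_lo K c c' (by omega : k + 1 ≤ N),
      e_lo K c c' (by omega : k - 1 ≤ N)]
    exact hlow k h1 hkN
  · obtain ⟨j, rfl⟩ : ∃ j, k = N + j := ⟨k - N, by omega⟩
    rcases Nat.eq_zero_or_pos j with rfl | hj
    · rw [Nat.add_zero, e_lo K c c' le_rfl, e_lo K c c' (by omega : N - 1 ≤ N),
        e_hi K c c' hN hN]
      have h3 : e0 K c c' N = K.kl (alt cs c c' N) := by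
        unfold e0; rw [if_neg (by omega)]
      rw [h3, hdesc]
      simp only [Nat.cast_one]
      abel
    · have a1 := e_hi K c c' (cs := cs) hN (by omega : j ≤ N)
      have a2 := e_hi K c c' (cs := cs) hN (by omega : j + 1 ≤ N)
      have a3 := e_hi K c c' (cs := cs) hN (by omega : j - 1 ≤ N)
      have b1 : N + j + 1 = N + (j + 1) := by omega
      have b2 : N + j - 1 = N + (j - 1) := by omega
      rw [b1, b2, a1, a2, a3, mul_sub, mul_smul_comm, hdesc, smul_smul]
      have hlt : lt c c' (N + j) = lt c c' (N - j) := by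
        apply lt_congr
        have h5 : N + j = (N - j) + 2 * j := by omega
        rw [h5, Nat.even_add]
        simp
      rw [hlt, hlow (N - j) (by omega) (by omega)]
      have b3 : N - j + 1 = N - (j - 1) := by omega
      have b4 : N - j - 1 = N - (j + 1) := by omega
      rw [b3, b4]
      have hT : (T (j : ℤ) + T (-(j : ℤ)) : A) * (T 1 + T (-1)) =
          (T ((j + 1 : ℕ) : ℤ) + T (-((j + 1 : ℕ) : ℤ))) +
          (T ((j - 1 : ℕ) : ℤ) + T (-((j - 1 : ℕ) : ℤ))) := by
        have c1 : ((j - 1 : ℕ) : ℤ) = (j : ℤ) - 1 := by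
          rw [Nat.cast_sub hj]; simp
        rw [c1]
        push_cast
        rw [mul_add, add_mul, add_mul, ← T_add, ← T_add, ← T_add, ← T_add]
        have d1 : -(j : ℤ) + 1 = -((j : ℤ) - 1) := by ring
        have d2 : -(j : ℤ) + -1 = -((j : ℤ) + 1) := by ring
        have d3 : (j : ℤ) + -1 = (j : ℤ) - 1 := by ring
        rw [d1, d2, d3]
        ring
      rw [hT, add_smul]
      abel

/-- The recursion for S. -/
theorem S_rec (hR2S : Stmt_R2S) (hR2P : Stmt_R2P) (hCDN : Stmt_CDN) (K : KL cs) (c c' : B)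
    {N : ℕ} (hR : R2 cs c c' N) {m k : ℕ} (hm : 1 ≤ m) (hk : 1 ≤ k)
    (h2 : m + 2 * (k - 1) + 1 ≤ 2 * N) {i : B} (hi : i = lt c c' m) :
    K.kl (cs.simple i) * S K c c' N m k =
      S K c c' N (m - 1) (k + 1) + S K c c' N (m + 1) (k - 1) := by
  unfold S
  rw [Finset.mul_sum]
  have h3 : ∀ t ∈ Finset.range k, K.kl (cs.simple i) * e K c c' N (m + 2 * t) =
      e K c c' N (m + 1 + 2 * t) + e K c c' N (m - 1 + 2 * t) := by
    intro t ht
    have := Finset.mem_range.1 ht
    have h4 : i = lt c c' (m + 2 * t) := by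
      rw [hi]
      apply lt_congr
      rw [Nat.even_add]
      simp
    rw [h4, e_rec hR2S hR2P hCDN K c c' hR (by omega) (by omega)]
    have b1 : m + 2 * t + 1 = m + 1 + 2 * t := by omega
    have b2 : m + 2 * t - 1 = m - 1 + 2 * t := by omega
    rw [b1, b2]
  rw [Finset.sum_congr rfl h3, Finset.sum_add_distrib]
  obtain ⟨k', rfl⟩ : ∃ k', k = k' + 1 := ⟨k - 1, by omega⟩
  have h5 : ∑ t ∈ Finset.range (k' + 1), e K c c' N (m - 1 + 2 * t) =
      ∑ t ∈ Finset.range k', e K c c' N (m + 1 + 2 * t) + e K c c' N (m - 1) := by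
    rw [Finset.sum_range_succ']
    congr 1
    refine Finset.sum_congr rfl fun t _ => ?_
    congr 1
    omega
  have h6 : ∑ t ∈ Finset.range (k' + 1 + 1), e K c c' N (m - 1 + 2 * t) =
      ∑ t ∈ Finset.range (k' + 1), e K c c' N (m + 1 + 2 * t) + e K c c' N (m - 1) := by
    rw [Finset.sum_range_succ']
    congr 1
    refine Finset.sum_congr rfl fun t _ => ?_
    congr 1
    omega
  rw [h5, h6, Nat.add_sub_cancel]
  abel

/-- The case of equal neighbours. -/
theorem coreS (hR2S : Stmt_R2S) (hR2P : Stmt_R2P) (hCDN : Stmt_CDN) (K : KL cs) {c c' r r' : B}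
    {N : ℕ} (hR : R2 cs c c' N) (hr : R2 cs r r' N) {b : ℕ} (hb1 : 1 ≤ b) (hbN : b ≤ N)
    (hlt : ∀ k, lt r r' k = lt c c' (b - 1 + k)) :
    ∀ k, 1 ≤ k → k ≤ b → K.kl (alt cs r r' k) * K.kl (alt cs c c' b) =
      (T 1 + T (-1) : A) • S K c c' N (b + 1 - k) k := by
  intro k
  induction k using Nat.strong_induction_on with
  | _ k ih =>
    intro hk1 hkb
    rcases k with _ | _ | k
    · omega
    · have h1 : alt cs r r' (0 + 1) = cs.simple (lt c c' (b - 1)) := by
        show cs.simple (lt r r' 0) * 1 = _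
        rw [mul_one, hlt 0, Nat.add_zero]
      rw [h1]
      have h2 := (hR2S cs c c' N hR).2.1 b hb1 hbN
      rw [hCDN K _ _ h2]
      congr 1
      unfold S
      rw [Finset.sum_range_one]
      have h3 : b + 1 - (0 + 1) + 2 * 0 = b := by omega
      rw [h3, e_lo K c c' hbN]
      unfold e0
      rw [if_neg (by omega)]
    · have hprod := (hR2P K r r' N hr).2 (k + 1) (by omega) (by omega)
      have ih1 := ih (k + 1) (by omega) (by omega) (by omega)
      have h4 : K.kl (alt cs r r' (k + 1 + 1)) =
          K.kl (cs.simple (lt r r' (k + 1))) * K.kl (alt cs r r' (k + 1)) -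
            if k + 1 = 1 then 0 else K.kl (alt cs r r' (k + 1 - 1)) := by
        rw [hprod, add_sub_cancel_right]
      rw [h4, sub_mul, mul_assoc, ih1, mul_smul_comm,
        S_rec hR2S hR2P hCDN K c c' hR (m := b + 1 - (k + 1)) (k := k + 1) (by omega) (by omega)
          (by omega) (i := lt r r' (k + 1)) ?_]
      · have h5 : (if k + 1 = 1 then (0 : K.H) else K.kl (alt cs r r' (k + 1 - 1))) *
            K.kl (alt cs c c' b) = (T 1 + T (-1) : A) • S K c c' N (b + 1 - k) k := by
          by_cases hk0 : k = 0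
          · subst hk0
            rw [if_pos rfl, zero_mul]
            unfold S
            rw [Finset.sum_range_zero, smul_zero]
          · rw [if_neg (by omega), Nat.add_sub_cancel]
            exact ih k (by omega) (by omega) (by omega)
        rw [h5, smul_add]
        have b1 : b + 1 - (k + 1) - 1 = b + 1 - (k + 1 + 1) := by omega
        have b2 : b + 1 - (k + 1) + 1 = b + 1 - k := by omega
        rw [b1, b2, Nat.add_sub_cancel, add_sub_cancel_right]
      · rw [hlt]
        apply lt_congr
        have h6 : b - 1 + (k + 1) = (b + 1 - (k + 1)) + 2 * k := by omega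
        rw [h6, Nat.even_add]
        simp

/-- The case of different neighbours. -/
theorem coreO (hR2S : Stmt_R2S) (hR2P : Stmt_R2P) (hCDN : Stmt_CDN) (K : KL cs) {c c' r r' : B}
    {N : ℕ} (hR : R2 cs c c' N) (hr : R2 cs r r' N) {b : ℕ} (hb1 : 1 ≤ b) (hbN : b < N)
    (hlt : ∀ k, lt r r' k = lt c c' (b + k)) :
    ∀ k, 1 ≤ k → k ≤ b → K.kl (alt cs r r' k) * K.kl (alt cs c c' b) =
      S K c c' N (b + 2 - k) k + S K c c' N (b - k) k := by
  intro k
  induction k using Nat.strong_induction_on with
  | _ k ih =>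
    intro hk1 hkb
    rcases k with _ | _ | k
    · omega
    · have h1 : alt cs r r' (0 + 1) = cs.simple (lt c c' b) := by
        show cs.simple (lt r r' 0) * 1 = _
        rw [mul_one, hlt 0, Nat.add_zero]
      rw [h1]
      have h2 := e_rec hR2S hR2P hCDN K c c' hR hb1 (by omega : b + 1 ≤ 2 * N)
      have h7 : e K c c' N b = K.kl (alt cs c c' b) := by
        rw [e_lo K c c' hbN.le]
        unfold e0
        rw [if_neg (by omega)]
      rw [h7] at h2
      rw [h2]
      unfold S
      rw [Finset.sum_range_one, Finset.sum_range_one]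
      have h3 : b + 2 - (0 + 1) + 2 * 0 = b + 1 := by omega
      have h4 : b - (0 + 1) + 2 * 0 = b - 1 := by omega
      rw [h3, h4]
    · have hprod := (hR2P K r r' N hr).2 (k + 1) (by omega) (by omega)
      have ih1 := ih (k + 1) (by omega) (by omega) (by omega)
      have h4 : K.kl (alt cs r r' (k + 1 + 1)) =
          K.kl (cs.simple (lt r r' (k + 1))) * K.kl (alt cs r r' (k + 1)) -
            if k + 1 = 1 then 0 else K.kl (alt cs r r' (k + 1 - 1)) := by
        rw [hprod, add_sub_cancel_right]
      have hi1 : lt r r' (k + 1) = lt c c' (b + 2 - (k + 1)) := by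
        rw [hlt]
        apply lt_congr
        have h6 : b + (k + 1) = (b + 2 - (k + 1)) + 2 * k := by omega
        rw [h6, Nat.even_add]
        simp
      have hi2 : lt r r' (k + 1) = lt c c' (b - (k + 1)) := by
        rw [hlt]
        apply lt_congr
        have h6 : b + (k + 1) = (b - (k + 1)) + 2 * (k + 1) := by omega
        rw [h6, Nat.even_add]
        simp
      rw [h4, sub_mul, mul_assoc, ih1, mul_add,
        S_rec hR2S hR2P hCDN K c c' hR (m := b + 2 - (k + 1)) (k := k + 1) (by omega) (by omega)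
          (by omega) hi1,
        S_rec hR2S hR2P hCDN K c c' hR (m := b - (k + 1)) (k := k + 1) (by omega) (by omega)
          (by omega) hi2]
      have h5 : (if k + 1 = 1 then (0 : K.H) else K.kl (alt cs r r' (k + 1 - 1))) *
          K.kl (alt cs c c' b) = S K c c' N (b + 2 - k) k + S K c c' N (b - k) k := by
        by_cases hk0 : k = 0
        · subst hk0
          rw [if_pos rfl, zero_mul]
          unfold S
          rw [Finset.sum_range_zero, Finset.sum_range_zero, add_zero]
        · rw [if_neg (by omega), Nat.add_sub_cancel]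
          exact ih k (by omega) (by omega) (by omega)
      rw [h5]
      have b1 : b + 2 - (k + 1) - 1 = b + 2 - (k + 1 + 1) := by omega
      have b2 : b + 2 - (k + 1) + 1 = b + 2 - k := by omega
      have b3 : b - (k + 1) - 1 = b - (k + 1 + 1) := by omega
      have b4 : b - (k + 1) + 1 = b - k := by omega
      rw [b1, b2, b3, b4, Nat.add_sub_cancel]
      abel

theorem core (hLPF : Stmt_LPF) (hR2S : Stmt_R2S) (hR2P : Stmt_R2P) (hCDN : Stmt_CDN) (K : KL cs)
    {c c' : B} {N : ℕ} (hR : R2 cs c c' N) {b : ℕ} (hb1 : 1 ≤ b) (hbN : b ≤ N) {k : ℕ}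
    (hk1 : 1 ≤ k) (hkb : k ≤ b) :
    PosV K (K.kl (alt cs c c' k) * K.kl (alt cs c c' b)) ∧
      PosV K (K.kl (alt cs c' c k) * K.kl (alt cs c c' b)) := by
  have hN : 1 ≤ N := by have := hR.pos; omega
  have hR' : R2 cs c' c N := (hR2S cs c c' N hR).1
  have hT : Nonneg (T 1 + T (-1) : A) := nn_add (nn_T _) (nn_T _)
  have hswap : ∀ k, lt c' c k = lt c c' (k + 1) := by
    intro k
    unfold lt
    by_cases hk : Even k
    · rw [if_pos hk, if_neg (by rw [Nat.even_add_one]; exact not_not.2 hk)]
    · rw [if_neg hk, if_pos (by rw [Nat.even_add_one]; exact hk)]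
  have hswap' : ∀ k, lt c c' k = lt c' c (k + 1) := by
    intro k
    unfold lt
    by_cases hk : Even k
    · rw [if_pos hk, if_neg (by rw [Nat.even_add_one]; exact not_not.2 hk)]
    · rw [if_neg hk, if_pos (by rw [Nat.even_add_one]; exact hk)]
  have par : ∀ (s k : ℕ), Even s → ∀ (a a' : B), lt a a' k = lt a a' (s + k) := by
    intro s k hs a a'
    apply lt_congr
    rw [Nat.even_add]
    simp [hs]
  constructor
  · by_cases hev : Even (b - 1)
    · rw [coreS hR2S hR2P hCDN K hR hR hb1 hbN (fun k => par _ k hev c c') k hk1 hkb]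
      exact pos_smul hLPF K hT (S_pos hLPF K c c' hN _ _ (by omega))
    · have hbe : Even b := by
        rcases Nat.even_or_odd b with h | h
        · exact h
        · exact absurd (by obtain ⟨q, hq⟩ := h; exact ⟨q, by omega⟩) hev
      rcases Nat.lt_or_ge b N with hlt | hge
      · rw [coreO hR2S hR2P hCDN K hR hR hb1 hlt (fun k => par _ k hbe c c') k hk1 hkb]
        exact pos_add K (S_pos hLPF K c c' hN _ _ (by omega)) (S_pos hLPF K c c' hN _ _ (by omega))
      · have hbN' : b = N := by omega
        subst hbN'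
        rw [hR.top]
        rw [coreS hR2S hR2P hCDN K hR' hR hb1 le_rfl ?_ k hk1 hkb]
        · exact pos_smul hLPF K hT (S_pos hLPF K c' c hN _ _ (by omega))
        · intro k
          rw [hswap']
          have : b - 1 + k + 2 = b + (k + 1) := by omega
          rw [par b (k + 1) hbe c' c, ← this]
          apply lt_congr
          rw [Nat.even_add]
          simp
  · by_cases hev : Even b
    · rw [coreS hR2S hR2P hCDN K hR hR' hb1 hbN ?_ k hk1 hkb]
      · exact pos_smul hLPF K hT (S_pos hLPF K c c' hN _ _ (by omega))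
      · intro k
        rw [hswap]
        have : b - 1 + k + 2 = b + (k + 1) := by omega
        rw [par b (k + 1) hev c c', ← this]
        apply lt_congr
        rw [Nat.even_add]
        simp
    · have hodd : Even (b - 1) := by
        rcases Nat.even_or_odd b with h | h
        · exact absurd h hev
        · obtain ⟨q, hq⟩ := h; exact ⟨q, by omega⟩
      rcases Nat.lt_or_ge b N with hlt | hge
      · rw [coreO hR2S hR2P hCDN K hR hR' hb1 hlt ?_ k hk1 hkb]
        · exact pos_add K (S_pos hLPF K c c' hN _ _ (by omega))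
            (S_pos hLPF K c c' hN _ _ (by omega))
        · intro k
          rw [hswap]
          have : b + k = (b - 1) + (k + 1) := by omega
          rw [this]
          exact par _ _ hodd c c'
      · have hbN' : b = N := by omega
        subst hbN'
        rw [hR.top]
        rw [coreS hR2S hR2P hCDN K hR' hR' hb1 le_rfl (fun k => par _ k hodd c' c) k hk1 hkb]
        exact pos_smul hLPF K hT (S_pos hLPF K c' c hN _ _ (by omega))

end R2h

open R2h in
theorem p_R2H (hR2P : Stmt_R2P) (hR2S : Stmt_R2S) (hCDN : Stmt_CDN) (hFLK : Stmt_FLK)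
    (hCSI : Stmt_CSI) (hLPF : Stmt_LPF) : Stmt_R2H := by
  intro B W _ _ M cs K c c' N hR
  have hR' : R2 cs c' c N := (hR2S cs c c' N hR).1
  -- the case l(x) ≤ l(y)
  have main : ∀ x y : W, cs.length x ≤ cs.length y → PosV K (K.kl x * K.kl y) := by
    intro x y hxy
    rcases Nat.eq_zero_or_pos (cs.length x) with hx | hx
    · rw [cs.length_eq_zero_iff.1 hx, (hCSI K).1, one_mul]
      exact pos_kl K y
    · have hy : 1 ≤ cs.length y := by omega
      have hyN := hR.bound y
      rcases hR.all y with h1 | h1 <;> rcases hR.all x with h2 | h2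
      · rw [h1, h2]
        exact (core hLPF hR2S hR2P hCDN K hR hy hyN hx hxy).1
      · rw [h1, h2]
        exact (core hLPF hR2S hR2P hCDN K hR hy hyN hx hxy).2
      · rw [h1, h2]
        exact (core hLPF hR2S hR2P hCDN K hR' hy hyN hx hxy).2
      · rw [h1, h2]
        exact (core hLPF hR2S hR2P hCDN K hR' hy hyN hx hxy).1
  intro x y z
  rcases le_total (cs.length x) (cs.length y) with h | h
  · exact main x y h z
  · rw [← (hFLK K).2 x y z]
    exact main y⁻¹ x⁻¹ (by rw [cs.length_inv, cs.length_inv]; exact h) z⁻¹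

end Pool.Agent.Work.MP_a20dfd
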