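import Pool.Agent.Work.MP_a20dfd.R2

/-!
Block R2N: the polynomials n are nonnegative in rank two (helper4).
-/

set_option autoImplicit false

namespace Pool.Agent.Work.MP_a20dfd

open LaurentPolynomial

namespace R2n

theorem co_T (j k : ℤ) : co (T j) k = if k = j then 1 else 0 := by
  unfold co
  simp only [T, AddMonoidAlgebra.coeff_single, Finsupp.single_apply, eq_comm]

theorem nonneg_T (j : ℤ) : Nonneg (T j) := by
  intro k
  rw [co_T]
  split_ifs <;> norm_num

theorem nonneg_zero : Nonneg (0 : A) := by
  intro k
  simp [co]

theorem nonneg_one : Nonneg (1 : A) := by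
  have h : (1 : A) = T 0 := by simp
  rw [h]
  exact nonneg_T 0

theorem nonneg_d2 {B W : Type} [Group W] {M : CoxeterMatrix B} (cs : CoxeterSystem M W)
    (y w : W) : Nonneg (d2 cs y w) := by
  unfold d2
  split_ifs
  · exact nonneg_one
  · exact nonneg_T _
  · exact nonneg_zero

end R2n

theorem p_R2N (hR2P : Stmt_R2P) (_hR2S : Stmt_R2S) : Stmt_R2N := by
  intro B W _ _ M cs K c c' N hR I x y hx hy
  classical
  have hp := (hR2P K c c' N hR).1
  unfold n
  simp only [hp]
  by_cases hx0 : ∀ w : W, w ∈ Par cs I → w = 1
  · -- trivial parabolic subgroup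
    have h1 : (Finset.univ.filter (fun w : W => w ∈ Par cs I)) = {1} := by
      ext w
      simp only [Finset.mem_filter, Finset.mem_univ, true_and, Finset.mem_singleton]
      exact ⟨hx0 w, fun h => h ▸ one_mem _⟩
    rw [h1]
    simp only [Finset.sum_singleton, CoxeterSystem.length_one, pow_zero, Nat.cast_zero, T_zero,
      mul_one, one_mul]
    exact R2n.nonneg_d2 cs x y
  by_cases hI : ∀ i : B, i ∈ I
  · -- everything
    have hone : ∀ z : W, Short cs I z → z = 1 := by
      intro z hz
      by_contra hne
      obtain ⟨i, hi⟩ := cs.exists_rightDescent_of_ne_one hne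
      have := hz i (hI i)
      unfold CoxeterSystem.IsRightDescent at hi
      omega
    rw [hone x hx, hone y hy]
    rw [Finset.sum_eq_single (1 : W)]
    · simp only [CoxeterSystem.length_one, pow_zero, Nat.cast_zero, T_zero, mul_one, one_mul]
      exact R2n.nonneg_d2 cs 1 1
    · intro w _ hw
      have : d2 cs (1 * w) 1 = 0 := by
        unfold d2
        rw [one_mul, if_neg hw, if_neg (by simp)]
      rw [this, mul_zero]
    · intro h
      exact absurd (Finset.mem_filter.2 ⟨Finset.mem_univ _, one_mem _⟩) h
  -- exactly one letter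
  obtain ⟨i, hiI, hi⟩ : ∃ i : B, i ∈ I ∧ ∀ j ∈ I, j = i := by
    push Not at hI
    obtain ⟨j0, hj0⟩ := hI
    have hex : ∃ i, i ∈ I := by
      by_contra hno
      push Not at hno
      apply hx0
      intro w hw
      have h0 : I = ∅ := Set.eq_empty_of_forall_notMem hno
      unfold Par at hw
      rw [h0, Set.image_empty, Subgroup.closure_empty] at hw
      exact Subgroup.mem_bot.1 hw
    obtain ⟨i, hi⟩ := hex
    refine ⟨i, hi, fun j hj => ?_⟩
    rcases hR.two i with h1 | h1 <;> rcases hR.two j with h2 | h2 <;>
      rcases hR.two j0 with h3 | h3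
    · rw [h1, h2]
    · rw [h1, h2]
    · exact absurd (h3.trans h1.symm ▸ hi) hj0
    · exact absurd (h3.trans h2.symm ▸ hj) hj0
    · exact absurd (h3.trans h2.symm ▸ hj) hj0
    · exact absurd (h3.trans h1.symm ▸ hi) hj0
    · rw [h1, h2]
    · rw [h1, h2]
  have hIs : I = {i} := by
    ext j
    simp only [Set.mem_singleton_iff]
    exact ⟨hi j, fun h => h ▸ hiI⟩
  have hs1 : cs.simple i ≠ 1 := by
    intro h
    have := cs.length_simple i
    rw [h, cs.length_one] at this
    omega
  have hPar : ∀ w : W, w ∈ Par cs I ↔ w = 1 ∨ w = cs.simple i := by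
    intro w
    unfold Par
    rw [hIs, Set.image_singleton]
    constructor
    · intro hw
      induction hw using Subgroup.closure_induction with
      | mem a ha => exact Or.inr ha
      | one => exact Or.inl rfl
      | mul a b _ _ ha hb =>
        rcases ha with rfl | rfl <;> rcases hb with rfl | rfl <;> simp
      | inv a _ ha =>
        rcases ha with rfl | rfl <;> simp
    · rintro (rfl | rfl)
      · exact one_mem _
      · exact Subgroup.subset_closure rfl
  have hF : (Finset.univ.filter (fun w : W => w ∈ Par cs I)) = {1, cs.simple i} := by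
    ext w
    simp only [Finset.mem_filter, Finset.mem_univ, true_and, Finset.mem_insert,
      Finset.mem_singleton]
    exact hPar w
  rw [hF, Finset.sum_pair hs1.symm]
  have hxs := hx i hiI
  have hys := hy i hiI
  have hxl : cs.length (x * cs.simple i) = cs.length x + 1 := by
    have := cs.length_mul_simple x i
    omega
  have hne : x * cs.simple i ≠ y := by
    intro h
    rw [← h, mul_assoc, cs.simple_mul_simple_self, mul_one] at hys
    omega
  simp only [CoxeterSystem.length_one, pow_zero, Nat.cast_zero, T_zero, mul_one, one_mul,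
    CoxeterSystem.length_simple, pow_one, Nat.cast_one, neg_mul]
  unfold d2
  rw [if_neg hne, hxl]
  by_cases hxy : x = y
  · rw [if_pos hxy, if_neg (by rw [hxy]; omega), mul_zero, neg_zero, add_zero]
    exact R2n.nonneg_one
  · rw [if_neg hxy]
    by_cases h1 : cs.length x + 1 < cs.length y
    · rw [if_pos h1, if_pos (by omega), ← T_add]
      have : (1 : ℤ) + ((cs.length y : ℤ) - ((cs.length x + 1 : ℕ) : ℤ)) =
          (cs.length y : ℤ) - (cs.length x : ℤ) := by
        push_cast
        ring
      rw [this, add_neg_cancel]
      exact R2n.nonneg_zero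
    · rw [if_neg h1, mul_zero, neg_zero, add_zero]
      split_ifs
      · exact R2n.nonneg_T _
      · exact R2n.nonneg_zero

end Pool.Agent.Work.MP_a20dfd
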