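import Pool.Agent.Work.MP_a20dfd.R2

set_option autoImplicit false

namespace Pool.Agent.Work.MP_a20dfd

open LaurentPolynomial

theorem p_R2P (hR2B : Stmt_R2B) (hUNQ : Stmt_UNQ) (hCSI : Stmt_CSI) (hR2S : Stmt_R2S) :
    Stmt_R2P := by
  classical
  intro B W _ _ M cs K c c' N h
  obtain ⟨hk1, hks⟩ := hCSI K
  have hrep : ∀ w y, K.std.repr (D2 K w) y = d2 cs y w := fun w y =>
    congrFun (K.std.repr_sum_self (fun y => d2 cs y w)) y
  have hd_self : ∀ w, d2 cs w w = 1 := fun w => by unfold d2; rw [if_pos rfl]
  have hd_lt : ∀ y w, cs.length y < cs.length w →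
      d2 cs y w = T ((cs.length w : ℤ) - (cs.length y : ℤ)) := by
    intro y w hl
    unfold d2
    rw [if_neg (by rintro rfl; exact lt_irrefl _ hl), if_pos hl]
  have hd_zero : ∀ y w, y ≠ w → ¬ cs.length y < cs.length w → d2 cs y w = 0 := by
    intro y w h1 h2
    unfold d2
    rw [if_neg h1, if_neg h2]
  have r1 : ∀ y : W, K.std.repr (1 : K.H) y = if y = 1 then 1 else 0 := by
    intro y
    rw [← K.std_one, Module.Basis.repr_self, Finsupp.single_apply]
    by_cases h : y = 1
    · rw [if_pos h.symm, if_pos h]
    · rw [if_neg (fun h' => h h'.symm), if_neg h]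
  have hD1 : D2 K (1 : W) = 1 := by
    apply K.std.repr.injective
    ext1 y
    rw [hrep, r1]
    by_cases hy : y = 1
    · rw [if_pos hy, hy, hd_self]
    · rw [if_neg hy, hd_zero y 1 hy (by rw [cs.length_one]; omega)]
  have hDs : ∀ i : B, D2 K (cs.simple i) = K.std (cs.simple i) + (T 1 : A) • (1 : K.H) := by
    intro i
    have hs1 : cs.simple i ≠ 1 := by
      intro h
      have := cs.length_simple i
      rw [h, cs.length_one] at this
      exact absurd this (by norm_num)
    apply K.std.repr.injective
    ext1 y
    rw [hrep, map_add, map_smul, Finsupp.add_apply, Finsupp.smul_apply, r1,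
      Module.Basis.repr_self, Finsupp.single_apply]
    by_cases hy : y = cs.simple i
    · rw [if_pos hy.symm, hy, hd_self, if_neg hs1, smul_zero, add_zero]
    · rw [if_neg (fun h => hy h.symm)]
      by_cases h1 : y = 1
      · rw [if_pos h1, h1, hd_lt 1 (cs.simple i) (by rw [cs.length_one, cs.length_simple]; omega),
          cs.length_one, cs.length_simple]
        simp
      · rw [if_neg h1, smul_zero, zero_add, hd_zero y _ hy]
        rw [cs.length_simple]
        intro h2
        exact h1 (cs.length_eq_zero_iff.1 (by omega))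
  have hbar : ∀ (a b : B), R2 cs a b N → ∀ k, k ≤ N →
      K.bar (D2 K (alt cs a b k)) = D2 K (alt cs a b k) := by
    intro a b hab k
    induction k using Nat.strong_induction_on with
    | _ k ih =>
      intro hkN
      match k, ih, hkN with
      | 0, _, _ =>
        show K.bar (D2 K 1) = D2 K 1
        rw [hD1, map_one K.bar]
      | 1, _, _ =>
        have e : alt cs a b 1 = cs.simple (lt a b 0) := by
          show cs.simple (lt a b 0) * 1 = _
          rw [mul_one]
        rw [e, hDs, ← hks, K.bar_kl]
      | k + 2, ih, hkN =>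
        have h1 := hR2B K a b N hab (k + 1) (by omega) (by omega)
        have e := eq_sub_of_add_eq h1.symm
        have hk : K.bar (D2 K (alt cs a b (k + 1))) = D2 K (alt cs a b (k + 1)) :=
          ih (k + 1) (by omega) (by omega)
        have hk' : K.bar (D2 K (alt cs a b (k + 1 - 1))) = D2 K (alt cs a b (k + 1 - 1)) :=
          ih (k + 1 - 1) (by omega) (by omega)
        rw [e, map_sub K.bar, map_mul K.bar, ← hks, K.bar_kl, hk]
        congr 1
        split_ifs
        · exact map_zero K.bar
        · exact hk'
  have hbarw : ∀ w, K.bar (D2 K w) = D2 K w := by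
    intro w
    rcases h.all w with hw | hw
    · rw [hw]
      exact hbar c c' h _ (h.bound w)
    · rw [hw]
      exact hbar c' c (hR2S cs c c' N h).1 _ (h.bound w)
  have hkl : ∀ w, K.kl w = D2 K w := by
    intro w
    have := hUNQ K (K.kl w - D2 K w) (by rw [map_sub, K.bar_kl, hbarw]) (by
      intro y k hk
      rw [map_sub, Finsupp.sub_apply, hrep]
      have e : ∀ f g : A, co (f - g) k = co f k - co g k := fun f g => rfl
      by_cases hy : y = w
      · rw [hy, K.kl_self, hd_self, sub_self]
        rfl
      · rw [e, K.kl_lt y w hy k hk]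
        by_cases hl : cs.length y < cs.length w
        · rw [hd_lt y w hl]
          have hne : (cs.length w : ℤ) - (cs.length y : ℤ) ≠ k := by omega
          have : co (T ((cs.length w : ℤ) - (cs.length y : ℤ)) : A) k = 0 := by
            simp only [co, T]
            exact Finsupp.single_eq_of_ne' hne
          rw [this, sub_zero]
        · rw [hd_zero y w hy hl]
          rfl)
    exact sub_eq_zero.mp this
  refine ⟨fun y w => ?_, fun k hk1' hkN => ?_⟩
  · unfold KL.p
    rw [hkl, hrep]
  · have h1 := hR2B K c c' N h k hk1' hkN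
    rw [hks, hkl, hkl, hkl]
    exact h1

end Pool.Agent.Work.MP_a20dfd
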