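import Pool.Agent.Work.MP_a20dfd.R2

set_option autoImplicit false

namespace Pool.Agent.Work.MP_a20dfd

namespace R2s

variable {B W : Type} [Group W] {M : CoxeterMatrix B} {cs : CoxeterSystem M W} {c c' : B} {N : ℕ}

theorem swap (h : R2 cs c c' N) : R2 cs c' c N where
  ne := h.ne.symm
  two := fun i => (h.two i).symm
  pos := h.pos
  len := h.len'
  len' := h.len
  top := h.top.symm
  all := fun w => (h.all w).symm
  bound := h.bound

theorem up (h : R2 cs c c' N) (k : ℕ) (hk : k < N) :
    cs.simple (lt c c' k) * alt cs c c' k = alt cs c c' (k + 1) ∧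
      cs.length (alt cs c c' k) < cs.length (cs.simple (lt c c' k) * alt cs c c' k) := by
  have h1 : cs.simple (lt c c' k) * alt cs c c' k = alt cs c c' (k + 1) := rfl
  refine ⟨h1, ?_⟩
  rw [h1, h.len k hk.le, h.len (k + 1) hk]
  exact Nat.lt_succ_self k

theorem lt_swap (c c' : B) (k : ℕ) (hk : 1 ≤ k) : lt c' c k = lt c c' (k - 1) := by
  obtain ⟨j, rfl⟩ : ∃ j, k = j + 1 := ⟨k - 1, by omega⟩
  rw [Nat.add_sub_cancel]
  unfold lt
  by_cases hj : Even j
  · rw [if_pos hj, if_neg (fun h => (Nat.even_add_one.1 h) hj)]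
  · rw [if_neg hj, if_pos (Nat.even_add_one.2 hj)]

end R2s

open R2s in
theorem p_R2S : Stmt_R2S := by
  intro B W _ M cs c c' N h
  refine ⟨swap h, ?_, up h, ?_⟩
  · intro k hk1 hk2
    obtain ⟨j, rfl⟩ : ∃ j, k = j + 1 := ⟨k - 1, by omega⟩
    rw [Nat.add_sub_cancel]
    have h1 : cs.simple (lt c c' j) * alt cs c c' (j + 1) = alt cs c c' j := by
      change cs.simple (lt c c' j) * (cs.simple (lt c c' j) * alt cs c c' j) = alt cs c c' j
      rw [cs.simple_mul_simple_cancel_left]
    rw [h1, h.len j (by omega), h.len (j + 1) hk2]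
    exact Nat.lt_succ_self j
  · intro k hk1 hk2 y hy hl
    rcases h.all y with h1 | h1
    · rw [hy] at h1
      exact h1
    · exfalso
      rw [hy] at h1
      have h2 := (up (swap h) k hk2).2
      rw [lt_swap c c' k hk1, ← h1] at h2
      omega

end Pool.Agent.Work.MP_a20dfd
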