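import Pool.Agent.Work.MP_a20dfd.Main
import Pool.Agent.Work.MP_a20dfd.Chain97
import Pool.Agent.Work.MP_a20dfd.Exist
import Pool.Agent.Work.MP_a20dfd.R2
import Pool.Agent.Work.MP_a20dfd.R2_A
import Pool.Agent.Work.MP_a20dfd.R2_B
import Pool.Agent.Work.MP_a20dfd.R2_P
import Pool.Agent.Work.MP_a20dfd.R2_S
import Pool.Agent.Work.MP_a20dfd.R2_N
import Pool.Agent.Work.MP_a20dfd.R2_H

/-!
# MP_a20dfd_al: last step

The inequality for every finite Coxeter system, relative to positivity, and without hypothesis in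
rank two.
-/

set_option autoImplicit false

namespace Pool.Agent.Work.MP_a20dfd

open LaurentPolynomial

/-- The number dim Ext^i (Δ(x·λ), L(y·λ)) in the block of λ, the stabiliser of λ being W_I, for x
and y longest in their cosets: the coefficient of v^i in n_{w₀x, w₀y}. -/
noncomputable def extDim {B W : Type} [Group W] [Fintype W] {M : CoxeterMatrix B}
    {cs : CoxeterSystem M W} (K : KL cs) (I : Set B) (w₀ x y : W) (i : ℕ) : ℕ :=
  (co (n K I (w₀ * x) (w₀ * y)) i).toNat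

theorem r_R2P : Stmt_R2P := p_R2P (p_R2B p_HRL p_R2S) c_UNQ c_CSI p_R2S

theorem fin_main {B W : Type} [Group W] [Fintype W] {M : CoxeterMatrix B}
    {cs : CoxeterSystem M W} (K : KL cs) (I : Set B) (w₀ wI : W)
    (hw₀ : ∀ x, cs.length x ≤ cs.length w₀) (hwI : IsLongest cs (Par cs I) wI) (hP : K.Pos)
    (hn : ∀ x y, Long cs I x → Long cs I y → Nonneg (n K I (w₀ * x) (w₀ * y))) :
    (∀ x y, Long cs I x → Long cs I y →
      (∀ i : ℕ, co (n K I (w₀ * x) (w₀ * y)) i = extDim K I w₀ x y i) ∧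
        ∀ k : ℤ, k < 0 → co (n K I (w₀ * x) (w₀ * y)) k = 0) ∧
    ∀ x, Long cs I x → K.a (w₀ * x) + K.a (w₀ * wI) ≤ slam cs I (extDim K I w₀) x := by
  have hE : ∀ x y, Long cs I x → Long cs I y →
      (∀ i : ℕ, co (n K I (w₀ * x) (w₀ * y)) i = extDim K I w₀ x y i) := by
    intro x y hx hy i
    unfold extDim
    rw [Int.toNat_of_nonneg (hn x y hx hy i)]
  exact ⟨fun x y hx hy => ⟨hE x y hx hy, fun k hk => c_NEX K I _ _ k hk⟩,
    fun x hx => p_MAIN c_CBX c_FIN c_NEX K hP I w₀ wI _ hw₀ hwI hE x hx⟩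

/-- Positivity in rank two. -/
theorem pos_rank_two {B W : Type} [Group W] [Fintype W] {M : CoxeterMatrix B}
    {cs : CoxeterSystem M W} (K : KL cs) (hB : Nat.card B = 2) (I : Set B) (w₀ wI : W)
    (hw₀ : ∀ x, cs.length x ≤ cs.length w₀) (hwI : IsLongest cs (Par cs I) wI) :
    K.Pos ∧ ∀ x y, Long cs I x → Long cs I y → Nonneg (n K I (w₀ * x) (w₀ * y)) := by
  obtain ⟨c, c', hne, huniv⟩ := Nat.card_eq_two_iff.1 hB
  have htwo : ∀ i : B, i = c ∨ i = c' := by
    intro i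
    have : i ∈ ({c, c'} : Set B) := by rw [huniv]; exact Set.mem_univ i
    simpa using this
  obtain ⟨N, hR⟩ := p_R2A c_LON cs c c' hne htwo
  refine ⟨⟨fun y w => ?_, fun x y z => p_R2H r_R2P p_R2S c_CDN c_FLK c_CSI p_LPF K c c' N hR x y z⟩,
    fun x y hx hy => ?_⟩
  · rw [(r_R2P K c c' N hR).1 y w]
    unfold d2
    split_ifs
    · rw [← T_zero]; exact R2h.nn_T 0
    · exact R2h.nn_T _
    · exact R2h.nn_zero
  · obtain ⟨hLS, -, -⟩ := c_CBX cs I w₀ wI hw₀ hwI
    exact p_R2N r_R2P p_R2S K c c' N hR I _ _ ((hLS x).1 hx) ((hLS y).1 hy)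

end Pool.Agent.Work.MP_a20dfd
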