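import Pool.Agent.Work.MP_a20dfd.PX

/-!
Block XC of MP_a20dfd_al: the Kazhdan-Lusztig basis of a product (helper18).
-/

set_option autoImplicit false

namespace Pool.Agent.Work.MP_a20dfd

open LaurentPolynomial

namespace Pxc

/-- Coordinates of a product in a product basis. -/
theorem gen {W W₁ W₂ H H₁ H₂ : Type} [Fintype W₁] [Fintype W₂] [Ring H] [Algebra A H]
    [Ring H₁] [Algebra A H₁] [Ring H₂] [Algebra A H₂] (b : Module.Basis W A H)
    (b₁ : Module.Basis W₁ A H₁) (b₂ : Module.Basis W₂ A H₂) (φ : W₁ × W₂ → W)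
    (hφ : Function.Injective φ) (ι₁ : H₁ →ₗ[A] H) (ι₂ : H₂ →ₗ[A] H)
    (h : ∀ u v, ι₁ (b₁ u) * ι₂ (b₂ v) = b (φ (u, v))) (x : H₁) (y : H₂) (a : W₁) (c : W₂) :
    b.repr (ι₁ x * ι₂ y) (φ (a, c)) = b₁.repr x a * b₂.repr y c := by
  classical
  have e : ι₁ x * ι₂ y = ∑ u, ∑ v, (b₁.repr x u * b₂.repr y v) • b (φ (u, v)) := by
    conv_lhs => rw [← b₁.sum_repr x, ← b₂.sum_repr y]
    rw [map_sum, map_sum, Finset.sum_mul_sum]
    refine Finset.sum_congr rfl fun u _ => Finset.sum_congr rfl fun v _ => ?_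
    rw [map_smul, map_smul, smul_mul_smul_comm, h]
  rw [e, map_sum, Finsupp.finsetSum_apply]
  rw [Finset.sum_eq_single a]
  · rw [map_sum, Finsupp.finsetSum_apply, Finset.sum_eq_single c]
    · rw [map_smul, b.repr_self, Finsupp.smul_apply, Finsupp.single_eq_same, smul_eq_mul, mul_one]
    · intro v _ hv
      rw [map_smul, b.repr_self, Finsupp.smul_apply, Finsupp.single_apply, if_neg, smul_zero]
      intro h'
      exact hv (Prod.mk.inj (hφ h')).2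
    · intro h'
      exact absurd (Finset.mem_univ _) h'
  · intro u _ hu
    rw [map_sum, Finsupp.finsetSum_apply]
    refine Finset.sum_eq_zero fun v _ => ?_
    rw [map_smul, b.repr_self, Finsupp.smul_apply, Finsupp.single_apply, if_neg, smul_zero]
    intro h'
    exact hu (Prod.mk.inj (hφ h')).1
  · intro h'
    exact absurd (Finset.mem_univ _) h'

/-- Two bilinear products which agree on bases agree. -/
theorem comm {W W₁ W₂ H H₁ H₂ : Type} [Fintype W₁] [Fintype W₂] [Ring H] [Algebra A H]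
    [Ring H₁] [Algebra A H₁] [Ring H₂] [Algebra A H₂] (b : W → H)
    (b₁ : Module.Basis W₁ A H₁) (b₂ : Module.Basis W₂ A H₂) (φ : W₁ × W₂ → W)
    (ι₁ : H₁ →ₗ[A] H) (ι₂ : H₂ →ₗ[A] H)
    (h : ∀ u v, ι₁ (b₁ u) * ι₂ (b₂ v) = b (φ (u, v)))
    (h' : ∀ u v, ι₂ (b₂ v) * ι₁ (b₁ u) = b (φ (u, v))) (x : H₁) (y : H₂) :
    ι₁ x * ι₂ y = ι₂ y * ι₁ x := by
  rw [← b₁.sum_repr x, ← b₂.sum_repr y, map_sum, map_sum, Finset.sum_mul_sum,
    Finset.sum_mul_sum, Finset.sum_comm]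
  refine Finset.sum_congr rfl fun v _ => Finset.sum_congr rfl fun u _ => ?_
  rw [map_smul, map_smul, smul_mul_smul_comm, smul_mul_smul_comm, h, h', mul_comm]

theorem co_sub (f g : A) (k : ℤ) : co (f - g) k = co f k - co g k := by simp [co]

theorem co_zero (k : ℤ) : co 0 k = 0 := by simp [co]

theorem co_one {k : ℤ} (h : co (1 : A) k ≠ 0) : k = 0 := by
  by_contra hk
  apply h
  show (1 : A).coeff k = _
  rw [AddMonoidAlgebra.one_def, AddMonoidAlgebra.coeff_single, Finsupp.single_apply, if_neg]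
  exact fun h' => hk h'.symm

theorem p_exp {B W : Type} [Group W] {M : CoxeterMatrix B} {cs : CoxeterSystem M W}
    (K : KL cs) (y w : W) (k : ℤ) (h : co (K.p y w) k ≠ 0) : 0 ≤ k ∧ (y ≠ w → 0 < k) := by
  by_cases hy : y = w
  · subst hy
    have e : K.p y y = 1 := K.kl_self y
    rw [e] at h
    have := co_one h
    exact ⟨this.ge, fun h' => absurd rfl h'⟩
  · have h2 : 0 < k := by
      by_contra hk
      exact h (K.kl_lt y w hy k (not_lt.mp hk))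
    exact ⟨h2.le, fun _ => h2⟩

end Pxc

theorem p_XC (hXI : Stmt_XI) (hUNQ : Stmt_UNQ) (hHRL : Stmt_HRL) (hLPF : Stmt_LPF) :
    Stmt_XC := by
  classical
  intro B B₁ B₂ W W₁ W₂ _ _ _ _ _ _ M M₁ M₂ cs cs₁ cs₂ S K K₁ K₂
  have len1 : ∀ u, cs.length (S.φ (u, 1)) = cs₁.length u := fun u => by
    rw [S.len, cs₂.length_one, add_zero]
  have len2 : ∀ v, cs.length (S.φ (1, v)) = cs₂.length v := fun v => by
    rw [S.len, cs₁.length_one, zero_add]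
  obtain ⟨ι₁, i1, m1, b1⟩ := hXI K K₁ (S.φ.toMonoidHom.comp (MonoidHom.inl W₁ W₂))
    (fun i => S.e (Sum.inl i)) (fun i => S.s₁ i) (fun u => len1 u)
  obtain ⟨ι₂, i2, m2, b2⟩ := hXI K K₂ (S.φ.toMonoidHom.comp (MonoidHom.inr W₁ W₂))
    (fun i => S.e (Sum.inr i)) (fun i => S.s₂ i) (fun u => len2 u)
  have i1' : ∀ u, ι₁ (K₁.std u) = K.std (S.φ (u, 1)) := fun u => i1 u
  have i2' : ∀ v, ι₂ (K₂.std v) = K.std (S.φ (1, v)) := fun v => i2 v
  have hst : ∀ u v, ι₁ (K₁.std u) * ι₂ (K₂.std v) = K.std (S.φ (u, v)) := by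
    intro u v
    have e : S.φ (u, 1) * S.φ (1, v) = S.φ (u, v) := by
      rw [← map_mul, Prod.mk_mul_mk, mul_one, one_mul]
    rw [i1', i2', (hHRL K).2.2 _ _ (by rw [e, len1, len2, S.len]), e]
  have hst' : ∀ u v, ι₂ (K₂.std v) * ι₁ (K₁.std u) = K.std (S.φ (u, v)) := by
    intro u v
    have e : S.φ (1, v) * S.φ (u, 1) = S.φ (u, v) := by
      rw [← map_mul, Prod.mk_mul_mk, mul_one, one_mul]
    rw [i1', i2', (hHRL K).2.2 _ _ (by rw [e, len1, len2, S.len, add_comm]), e]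
  have hcomm : ∀ x y, ι₁ x * ι₂ y = ι₂ y * ι₁ x := fun x y =>
    Pxc.comm K.std K₁.std K₂.std S.φ ι₁ ι₂ hst hst' x y
  have hcoord : ∀ x y a c, K.std.repr (ι₁ x * ι₂ y) (S.φ (a, c)) =
      K₁.std.repr x a * K₂.std.repr y c := fun x y a c =>
    Pxc.gen K.std K₁.std K₂.std S.φ S.φ.injective ι₁ ι₂ hst x y a c
  have hkl : ∀ w₁ w₂, ι₁ (K₁.kl w₁) * ι₂ (K₂.kl w₂) = K.kl (S.φ (w₁, w₂)) := by
    intro w₁ w₂
    rw [← sub_eq_zero]
    apply hUNQ K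
    · rw [map_sub, map_mul, b1, b2, K₁.bar_kl, K₂.bar_kl, K.bar_kl]
    · intro y k hk
      obtain ⟨⟨y₁, y₂⟩, rfl⟩ := S.φ.surjective y
      rw [map_sub, Finsupp.sub_apply, hcoord, Pxc.co_sub]
      by_cases hy : (y₁, y₂) = (w₁, w₂)
      · obtain ⟨rfl, rfl⟩ := Prod.mk.inj hy
        rw [K₁.kl_self, K₂.kl_self, K.kl_self, one_mul, sub_self]
      · have hne : S.φ (y₁, y₂) ≠ S.φ (w₁, w₂) := fun h => hy (S.φ.injective h)
        rw [K.kl_lt _ _ hne k hk, sub_zero]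
        by_contra hc
        obtain ⟨i, j, hij, hi, hj⟩ := hLPF.2.2.1 _ _ _ hc
        have e1 := Pxc.p_exp K₁ y₁ w₁ i hi
        have e2 := Pxc.p_exp K₂ y₂ w₂ j hj
        by_cases h1 : y₁ = w₁
        · have h2 : y₂ ≠ w₂ := fun h2 => hy (by rw [h1, h2])
          have := e2.2 h2
          omega
        · have := e1.2 h1
          omega
  refine ⟨fun y₁ y₂ w₁ w₂ => ?_, fun x₁ x₂ y₁ y₂ z₁ z₂ => ?_⟩
  · show K.std.repr (K.kl (S.φ (w₁, w₂))) (S.φ (y₁, y₂)) = _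
    rw [← hkl, hcoord]
    rfl
  · show K.kl.repr (K.kl (S.φ (x₁, x₂)) * K.kl (S.φ (y₁, y₂))) (S.φ (z₁, z₂)) = _
    rw [← hkl, ← hkl]
    have e : ι₁ (K₁.kl x₁) * ι₂ (K₂.kl x₂) * (ι₁ (K₁.kl y₁) * ι₂ (K₂.kl y₂)) =
        ι₁ (K₁.kl x₁ * K₁.kl y₁) * ι₂ (K₂.kl x₂ * K₂.kl y₂) := by
      rw [m1, m2, mul_assoc, ← mul_assoc (ι₂ (K₂.kl x₂)), ← hcomm, mul_assoc, mul_assoc]
    rw [e, Pxc.gen K.kl K₁.kl K₂.kl S.φ S.φ.injective ι₁ ι₂ hkl]
    rfl

end Pool.Agent.Work.MP_a20dfd
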