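import Pool.Agent.Work.MP_a20dfd.PX

/-! # XI: an embedding of Coxeter systems gives one of Hecke algebras -/

set_option autoImplicit false

namespace Pool.Agent.Work.MP_a20dfd

open LaurentPolynomial

namespace PXI

variable {B W : Type} [Group W] {M : CoxeterMatrix B} {cs : CoxeterSystem M W} (K : KL cs)

theorem std_inv (i : B) : K.std (cs.simple i) *
    (K.std (cs.simple i) - (T (-1) - T 1 : A) • (1 : K.H)) = 1 := by
  rw [mul_sub, K.std_sq, mul_smul_comm, mul_one, add_sub_cancel_right]

theorem bar_eq (i : B) : K.bar (K.std (cs.simple i)) =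
    K.std (cs.simple i) - (T (-1) - T 1 : A) • (1 : K.H) := by
  have h := K.bar_std i
  calc K.bar (K.std (cs.simple i)) = K.bar (K.std (cs.simple i)) * (K.std (cs.simple i) *
        (K.std (cs.simple i) - (T (-1) - T 1 : A) • (1 : K.H))) := by rw [std_inv, mul_one]
    _ = _ := by rw [← mul_assoc, h, one_mul]

/-- induction on the length -/
theorem len_ind (cs : CoxeterSystem M W) (P : W → Prop) (h1 : P 1)
    (hs : ∀ (i : B) (u : W), cs.length (cs.simple i * u) = cs.length u + 1 → P u →
      P (cs.simple i * u)) : ∀ u, P u := by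
  have key : ∀ (n : ℕ) (u : W), cs.length u = n → P u := by
    intro n
    induction n with
    | zero =>
      intro u hu
      rw [cs.length_eq_zero_iff.1 hu]
      exact h1
    | succ n ih =>
      intro u hu
      have hu1 : u ≠ 1 := by
        rintro rfl
        rw [cs.length_one] at hu
        omega
      obtain ⟨i, hi⟩ := cs.exists_leftDescent_of_ne_one hu1
      rw [cs.isLeftDescent_iff] at hi
      have hsu : cs.simple i * (cs.simple i * u) = u := by
        rw [← mul_assoc, cs.simple_mul_simple_self, one_mul]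
      have h2 := hs i (cs.simple i * u) (by rw [hsu]; omega) (ih _ (by omega))
      rw [hsu] at h2
      exact h2
  exact fun u => key _ u rfl

end PXI

theorem p_XI (hHRL : Stmt_HRL) : Stmt_XI := by
  intro B B₁ W W₁ _ _ M M₁ cs cs₁ K K₁ j e he hlen
  obtain ⟨hd, -, -⟩ := hHRL K
  obtain ⟨hd₁, -, -⟩ := hHRL K₁
  let ι : K₁.H →ₗ[A] K.H := K₁.std.constr A fun u => K.std (j u)
  have hι : ∀ u, ι (K₁.std u) = K.std (j u) := fun u => K₁.std.constr_basis A _ u
  have hι1 : ι 1 = 1 := by rw [← K₁.std_one, hι, map_one, K.std_one]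
  -- generators
  have s1 : ∀ (i : B₁) (u : W₁), ι (K₁.std (cs₁.simple i) * K₁.std u) =
      K.std (cs.simple (e i)) * K.std (j u) := by
    intro i u
    have hj : j (cs₁.simple i * u) = cs.simple (e i) * j u := by rw [map_mul, he]
    rcases cs₁.length_simple_mul u i with h | h
    · rw [K₁.std_mul i u h, hι, hj, K.std_mul (e i) (j u) (by rw [← hj, hlen, hlen, h])]
    · rw [hd₁ i u (by omega), map_add, map_smul, hι, hι, hj,
        hd (e i) (j u) (by rw [← hj, hlen, hlen]; omega)]
  have s2 : ∀ (i : B₁) (x : K₁.H), ι (K₁.std (cs₁.simple i) * x) =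
      K.std (cs.simple (e i)) * ι x := by
    intro i x
    have h : ι ∘ₗ LinearMap.mulLeft A (K₁.std (cs₁.simple i)) =
        LinearMap.mulLeft A (K.std (cs.simple (e i))) ∘ₗ ι := by
      refine K₁.std.ext fun u => ?_
      rw [LinearMap.comp_apply, LinearMap.comp_apply, LinearMap.mulLeft_apply,
        LinearMap.mulLeft_apply, s1, hι]
    have h2 := congrArg (fun f => f x) h
    exact h2
  have s3 : ∀ (u : W₁) (x : K₁.H), ι (K₁.std u * x) = ι (K₁.std u) * ι x := by
    refine PXI.len_ind cs₁ _ ?_ ?_
    · intro x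
      rw [K₁.std_one, one_mul, hι1, one_mul]
    · intro i u hl ih x
      rw [← K₁.std_mul i u hl, mul_assoc, s2, ih, ← mul_assoc, ← s2]
  have s4 : ∀ x y, ι (x * y) = ι x * ι y := by
    intro x y
    have h : ι ∘ₗ LinearMap.mulRight A y = LinearMap.mulRight A (ι y) ∘ₗ ι := by
      refine K₁.std.ext fun u => ?_
      rw [LinearMap.comp_apply, LinearMap.comp_apply, LinearMap.mulRight_apply,
        LinearMap.mulRight_apply, s3]
    have h2 := congrArg (fun f => f x) h
    exact h2
  have s5 : ∀ i : B₁, K.bar (ι (K₁.std (cs₁.simple i))) = ι (K₁.bar (K₁.std (cs₁.simple i))) := by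
    intro i
    rw [hι, he, PXI.bar_eq, PXI.bar_eq, map_sub, map_smul, hι1, hι, he]
  have s6 : ∀ u : W₁, K.bar (ι (K₁.std u)) = ι (K₁.bar (K₁.std u)) := by
    refine PXI.len_ind cs₁ _ ?_ ?_
    · rw [K₁.std_one, hι1, map_one, map_one, hι1]
    · intro i u hl ih
      rw [← K₁.std_mul i u hl, s4, map_mul, map_mul, s4, s5, ih]
  refine ⟨ι, hι, s4, fun x => ?_⟩
  have hx : x ∈ Submodule.span A (Set.range K₁.std) := by
    rw [K₁.std.span_eq]
    exact Submodule.mem_top
  induction hx using Submodule.span_induction with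
  | mem x hx =>
    obtain ⟨u, rfl⟩ := hx
    exact s6 u
  | zero => rw [map_zero, map_zero, map_zero, map_zero]
  | add x y _ _ hx hy => rw [map_add, map_add, map_add, map_add, hx, hy]
  | smul f x _ hx => rw [map_smul, K.bar_smul, K₁.bar_smul, map_smul, hx]

end Pool.Agent.Work.MP_a20dfd
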