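import Pool.Agent.Work.MP_a20dfd.PX

/-!
Block XN of MP_a20dfd_al (helper48): the polynomials n of a product.
-/

set_option autoImplicit false

namespace Pool.Agent.Work.MP_a20dfd

open LaurentPolynomial

namespace Pxn

variable {B B₁ B₂ W W₁ W₂ : Type} [Group W] [Group W₁] [Group W₂]
  {M : CoxeterMatrix B} {M₁ : CoxeterMatrix B₁} {M₂ : CoxeterMatrix B₂}
  {cs : CoxeterSystem M W} {cs₁ : CoxeterSystem M₁ W₁} {cs₂ : CoxeterSystem M₂ W₂}

theorem mem_par (S : Split cs cs₁ cs₂) (I : Set B) (w₁ : W₁) (w₂ : W₂) :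
    S.φ (w₁, w₂) ∈ Par cs I ↔ w₁ ∈ Par cs₁ {i | S.e (Sum.inl i) ∈ I} ∧
      w₂ ∈ Par cs₂ {i | S.e (Sum.inr i) ∈ I} := by
  constructor
  · intro h
    have hle : Par cs I ≤ ((Par cs₁ {i | S.e (Sum.inl i) ∈ I}).prod
        (Par cs₂ {i | S.e (Sum.inr i) ∈ I})).comap S.φ.symm.toMonoidHom := by
      unfold Par
      rw [Subgroup.closure_le]
      rintro _ ⟨b, hb, rfl⟩
      rw [SetLike.mem_coe, Subgroup.mem_comap]
      obtain ⟨c, rfl⟩ := S.e.surjective b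
      rcases c with i | i
      · have h1 : S.φ.symm.toMonoidHom (cs.simple (S.e (Sum.inl i))) = (cs₁.simple i, 1) := by
          rw [← S.s₁ i]
          exact S.φ.symm_apply_apply _
        rw [h1, Subgroup.mem_prod]
        exact ⟨Subgroup.subset_closure ⟨i, hb, rfl⟩, Subgroup.one_mem _⟩
      · have h1 : S.φ.symm.toMonoidHom (cs.simple (S.e (Sum.inr i))) = (1, cs₂.simple i) := by
          rw [← S.s₂ i]
          exact S.φ.symm_apply_apply _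
        rw [h1, Subgroup.mem_prod]
        exact ⟨Subgroup.one_mem _, Subgroup.subset_closure ⟨i, hb, rfl⟩⟩
    have h2 := hle h
    rw [Subgroup.mem_comap] at h2
    have h3 : S.φ.symm.toMonoidHom (S.φ (w₁, w₂)) = (w₁, w₂) := S.φ.symm_apply_apply _
    rw [h3, Subgroup.mem_prod] at h2
    exact h2
  · rintro ⟨h1, h2⟩
    have hle1 : Par cs₁ {i | S.e (Sum.inl i) ∈ I} ≤
        (Par cs I).comap (S.φ.toMonoidHom.comp (MonoidHom.inl W₁ W₂)) := by
      unfold Par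
      rw [Subgroup.closure_le]
      rintro _ ⟨i, hi, rfl⟩
      rw [SetLike.mem_coe, Subgroup.mem_comap]
      have h3 : (S.φ.toMonoidHom.comp (MonoidHom.inl W₁ W₂)) (cs₁.simple i) =
          cs.simple (S.e (Sum.inl i)) := S.s₁ i
      rw [h3]
      exact Subgroup.subset_closure ⟨_, hi, rfl⟩
    have hle2 : Par cs₂ {i | S.e (Sum.inr i) ∈ I} ≤
        (Par cs I).comap (S.φ.toMonoidHom.comp (MonoidHom.inr W₁ W₂)) := by
      unfold Par
      rw [Subgroup.closure_le]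
      rintro _ ⟨i, hi, rfl⟩
      rw [SetLike.mem_coe, Subgroup.mem_comap]
      have h3 : (S.φ.toMonoidHom.comp (MonoidHom.inr W₁ W₂)) (cs₂.simple i) =
          cs.simple (S.e (Sum.inr i)) := S.s₂ i
      rw [h3]
      exact Subgroup.subset_closure ⟨_, hi, rfl⟩
    have h3 := hle1 h1
    have h4 := hle2 h2
    rw [Subgroup.mem_comap] at h3 h4
    have h5 : S.φ (w₁, w₂) = S.φ (w₁, 1) * S.φ (1, w₂) := by
      rw [← map_mul, Prod.mk_mul_mk, mul_one, one_mul]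
    rw [h5]
    exact Subgroup.mul_mem _ h3 h4

theorem short (S : Split cs cs₁ cs₂) (I : Set B) (x₁ : W₁) (x₂ : W₂)
    (h : Short cs I (S.φ (x₁, x₂))) :
    Short cs₁ {i | S.e (Sum.inl i) ∈ I} x₁ ∧ Short cs₂ {i | S.e (Sum.inr i) ∈ I} x₂ := by
  constructor
  · intro i hi
    have h1 := h (S.e (Sum.inl i)) hi
    rw [← S.s₁ i, ← map_mul, Prod.mk_mul_mk, S.len, S.len, mul_one] at h1
    omega
  · intro i hi
    have h1 := h (S.e (Sum.inr i)) hi
    rw [← S.s₂ i, ← map_mul, Prod.mk_mul_mk, S.len, S.len, mul_one] at h1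
    omega

end Pxn

/-- Block XN. -/
theorem p_XN (hXC : Stmt_XC) : Stmt_XN := by
  intro B B₁ B₂ W W₁ W₂ _ _ _ _ _ _ M M₁ M₂ cs cs₁ cs₂ S K K₁ K₂ I x₁ x₂ y₁ y₂
  refine ⟨?_, Pxn.short S I x₁ x₂⟩
  classical
  have hp := (hXC S K K₁ K₂).1
  unfold n
  rw [Finset.sum_filter, Finset.sum_filter, Finset.sum_filter, Finset.sum_mul_sum,
    ← Fintype.sum_prod_type', ← Equiv.sum_comp S.φ.toEquiv]
  refine Finset.sum_congr rfl fun q _ => ?_
  obtain ⟨w₁, w₂⟩ := q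
  change (if S.φ (w₁, w₂) ∈ Par cs I then
    ((-1 : A) ^ cs.length (S.φ (w₁, w₂)) * T (cs.length (S.φ (w₁, w₂)) : ℤ)) *
      K.p (S.φ (x₁, x₂) * S.φ (w₁, w₂)) (S.φ (y₁, y₂)) else 0) = _
  have h1 : K.p (S.φ (x₁, x₂) * S.φ (w₁, w₂)) (S.φ (y₁, y₂)) =
      K₁.p (x₁ * w₁) y₁ * K₂.p (x₂ * w₂) y₂ := by
    rw [← map_mul, Prod.mk_mul_mk, hp]
  by_cases hw1 : w₁ ∈ Par cs₁ {i | S.e (Sum.inl i) ∈ I}
  · by_cases hw2 : w₂ ∈ Par cs₂ {i | S.e (Sum.inr i) ∈ I}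
    · rw [if_pos ((Pxn.mem_par S I w₁ w₂).2 ⟨hw1, hw2⟩)]
      simp only [if_pos hw1, if_pos hw2]
      rw [h1, S.len, pow_add, Nat.cast_add, T_add]
      ring
    · rw [if_neg (fun h => hw2 ((Pxn.mem_par S I w₁ w₂).1 h).2)]
      simp only [if_neg hw2, mul_zero]
  · rw [if_neg (fun h => hw1 ((Pxn.mem_par S I w₁ w₂).1 h).1)]
    simp only [if_neg hw1, zero_mul]

end Pool.Agent.Work.MP_a20dfd
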