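import Pool.Agent.Work.MP_a20dfd.PX

/-! XO: rank 0 and 1 (helper97). -/

set_option autoImplicit false

namespace Pool.Agent.Work.MP_a20dfd

open LaurentPolynomial

namespace Pxo97

theorem nn_zero : Nonneg (0 : A) := fun _ => le_refl _

theorem nn_T (j : ℤ) : Nonneg (T j : A) := by
  intro k
  unfold co
  rw [LaurentPolynomial.T, AddMonoidAlgebra.coeff_single, Finsupp.single_apply]
  split_ifs <;> norm_num

theorem nn_one : Nonneg (1 : A) := by rw [← T_zero]; exact nn_T 0

theorem nn_add {f g : A} (hf : Nonneg f) (hg : Nonneg g) : Nonneg (f + g) := fun k =>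
  add_nonneg (hf k) (hg k)

theorem elems {B W : Type} [Group W] {M : CoxeterMatrix B} (cs : CoxeterSystem M W)
    (hs : Subsingleton B) (w : W) : w = 1 ∨ ∃ c : B, w = cs.simple c := by
  by_cases hw : w = 1
  · exact Or.inl hw
  · obtain ⟨i, hi⟩ := cs.exists_leftDescent_of_ne_one hw
    unfold CoxeterSystem.IsLeftDescent at hi
    right
    refine ⟨i, ?_⟩
    by_cases h2 : cs.simple i * w = 1
    · have : w = (cs.simple i)⁻¹ := (inv_eq_of_mul_eq_one_right h2).symm
      rw [this, cs.inv_simple]
    · obtain ⟨j, hj⟩ := cs.exists_leftDescent_of_ne_one h2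
      unfold CoxeterSystem.IsLeftDescent at hj
      have hji : j = i := Subsingleton.elim _ _
      rw [hji, cs.simple_mul_simple_cancel_left] at hj
      omega

end Pxo97

open Pxo97 in
theorem p_XO97 (hCSI : Stmt_CSI) (hCDN : Stmt_CDN) : Stmt_XO := by
  classical
  intro B W _ _ M cs hs K
  obtain ⟨h1, hsi⟩ := hCSI K
  have hel := elems cs hs
  have p1 : ∀ y, K.p y 1 = if (1 : W) = y then 1 else 0 := by
    intro y
    unfold KL.p
    rw [h1, ← K.std_one, Module.Basis.repr_self, Finsupp.single_apply]
  have ps : ∀ (c : B) y, K.p y (cs.simple c) =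
      (if cs.simple c = y then 1 else 0) + T 1 * (if (1 : W) = y then 1 else 0) := by
    intro c y
    unfold KL.p
    rw [hsi, ← K.std_one, map_add, map_smul, Finsupp.add_apply, Finsupp.smul_apply,
      Module.Basis.repr_self, Module.Basis.repr_self, Finsupp.single_apply, Finsupp.single_apply,
      smul_eq_mul]
  have hp : ∀ y w, Nonneg (K.p y w) := by
    intro y w
    rcases hel w with rfl | ⟨c, rfl⟩
    · rw [p1]
      split_ifs
      · exact nn_one
      · exact nn_zero
    · rw [ps]
      apply nn_add
      · split_ifs
        · exact nn_one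
        · exact nn_zero
      · split_ifs
        · rw [mul_one]; exact nn_T 1
        · rw [mul_zero]; exact nn_zero
  have hsingle : ∀ x z : W, Nonneg (K.kl.repr (K.kl x) z) := by
    intro x z
    rw [Module.Basis.repr_self, Finsupp.single_apply]
    split_ifs
    · exact nn_one
    · exact nn_zero
  refine ⟨⟨hp, fun x y z => ?_⟩, fun I x y hx hy => ?_⟩
  · unfold KL.h
    rcases hel x with rfl | ⟨c, rfl⟩
    · rw [h1, one_mul]; exact hsingle y z
    · rcases hel y with rfl | ⟨d, rfl⟩
      · rw [h1, mul_one]; exact hsingle _ z
      · have hdc : d = c := @Subsingleton.elim B hs d c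
        rw [hdc, hCDN K c (cs.simple c) (by
          rw [cs.simple_mul_simple_self, cs.length_one, cs.length_simple]; exact one_pos),
          map_smul, Finsupp.smul_apply, Module.Basis.repr_self, Finsupp.single_apply, smul_eq_mul]
        split_ifs
        · rw [mul_one]; exact nn_add (nn_T _) (nn_T _)
        · rw [mul_zero]; exact nn_zero
  · by_cases hI : ∃ c, c ∈ I
    · obtain ⟨c, hc⟩ := hI
      have hsh : ∀ w : W, Short cs I w → w = 1 := by
        intro w hw
        rcases hel w with h | ⟨d, rfl⟩
        · exact h
        · have hdc : d = c := @Subsingleton.elim B hs d c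
          have := hw c hc
          rw [hdc, cs.simple_mul_simple_self, cs.length_one] at this
          omega
      rw [hsh x hx, hsh y hy]
      have hn : n K I 1 1 = 1 := by
        unfold n
        rw [Finset.sum_eq_single (1 : W)]
        · rw [cs.length_one, pow_zero, Nat.cast_zero, T_zero, one_mul, one_mul, mul_one, p1,
            if_pos rfl]
        · intro w _ hw
          rw [one_mul, p1, if_neg (Ne.symm hw), mul_zero]
        · intro h
          exact absurd (Finset.mem_filter.2 ⟨Finset.mem_univ _, (Par cs I).one_mem⟩) h
      rw [hn]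
      exact nn_one
    · have hIe : I = ∅ := Set.eq_empty_iff_forall_notMem.2 fun c hc => hI ⟨c, hc⟩
      have hPar : Par cs I = ⊥ := by
        unfold Par
        rw [hIe, Set.image_empty, Subgroup.closure_empty]
      have hn : n K I x y = K.p x y := by
        unfold n
        rw [Finset.sum_eq_single (1 : W)]
        · rw [cs.length_one, pow_zero, Nat.cast_zero, T_zero, one_mul, one_mul, mul_one]
        · intro w hw hw1
          have := (Finset.mem_filter.1 hw).2
          rw [hPar, Subgroup.mem_bot] at this
          exact absurd this hw1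
        · intro h
          exact absurd (Finset.mem_filter.2 ⟨Finset.mem_univ _, (Par cs I).one_mem⟩) h
      rw [hn]
      exact hp x y

end Pool.Agent.Work.MP_a20dfd
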