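import Pool.Agent.Work.MP_a20dfd.PX
import Pool.Agent.Work.MP_a20dfd.Fin97

/-! XQ: positivity for all finite Coxeter systems whose components have rank at most two
(helper97). -/

set_option autoImplicit false

namespace Pool.Agent.Work.MP_a20dfd

open LaurentPolynomial

theorem good_rank_two {B W : Type} [Group W] [Fintype W] {M : CoxeterMatrix B}
    (cs : CoxeterSystem M W) (c c' : B) (hne : c ≠ c') (htwo : ∀ i : B, i = c ∨ i = c') :
    Good cs := by
  intro K
  obtain ⟨N, hR⟩ := p_R2A c_LON cs c c' hne htwo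
  refine ⟨⟨fun y w => ?_, fun x y z => p_R2H r_R2P p_R2S c_CDN c_FLK c_CSI p_LPF K c c' N hR x y z⟩,
    fun I x y hx hy => p_R2N r_R2P p_R2S K c c' N hR I _ _ hx hy⟩
  rw [(r_R2P K c c' N hR).1 y w]
  unfold d2
  split_ifs
  · rw [← T_zero]; exact R2h.nn_T 0
  · exact R2h.nn_T _
  · exact R2h.nn_zero

theorem good_split (hXC : Stmt_XC) (hXN : Stmt_XN)
    {B B₁ B₂ W W₁ W₂ : Type} [Group W] [Group W₁] [Group W₂] [Fintype W] [Fintype W₁]
    [Fintype W₂] {M : CoxeterMatrix B} {M₁ : CoxeterMatrix B₁} {M₂ : CoxeterMatrix B₂}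
    {cs : CoxeterSystem M W} {cs₁ : CoxeterSystem M₁ W₁} {cs₂ : CoxeterSystem M₂ W₂}
    (S : Split cs cs₁ cs₂) (h₁ : Good cs₁) (h₂ : Good cs₂) : Good cs := by
  intro K
  obtain ⟨K₁⟩ := kl_exists cs₁
  obtain ⟨K₂⟩ := kl_exists cs₂
  obtain ⟨⟨p₁, q₁⟩, n₁⟩ := h₁ K₁
  obtain ⟨⟨p₂, q₂⟩, n₂⟩ := h₂ K₂
  obtain ⟨hp, hh⟩ := hXC S K K₁ K₂
  have hmul := p_LPF.1
  refine ⟨⟨fun y w => ?_, fun x y z => ?_⟩, fun I x y hx hy => ?_⟩
  · obtain ⟨⟨y₁, y₂⟩, rfl⟩ := S.φ.surjective y
    obtain ⟨⟨w₁, w₂⟩, rfl⟩ := S.φ.surjective w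
    rw [hp]
    exact hmul _ _ (p₁ _ _) (p₂ _ _)
  · obtain ⟨⟨x₁, x₂⟩, rfl⟩ := S.φ.surjective x
    obtain ⟨⟨y₁, y₂⟩, rfl⟩ := S.φ.surjective y
    obtain ⟨⟨z₁, z₂⟩, rfl⟩ := S.φ.surjective z
    rw [hh]
    exact hmul _ _ (q₁ _ _ _) (q₂ _ _ _)
  · obtain ⟨⟨x₁, x₂⟩, rfl⟩ := S.φ.surjective x
    obtain ⟨⟨y₁, y₂⟩, rfl⟩ := S.φ.surjective y
    obtain ⟨hn, hsx⟩ := hXN S K K₁ K₂ I x₁ x₂ y₁ y₂
    obtain ⟨-, hsy⟩ := hXN S K K₁ K₂ I y₁ y₂ y₁ y₂
    rw [hn]
    exact hmul _ _ (n₁ _ _ _ (hsx hx).1 (hsy hy).1) (n₂ _ _ _ (hsx hx).2 (hsy hy).2)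

theorem card_lt_of_not_mem {B : Type} [Finite B] {J : Set B} (d : B) (hd : d ∉ J) :
    Nat.card J < Nat.card B := by
  have h : J ≠ Set.univ := fun h => hd (h ▸ Set.mem_univ d)
  have h2 := Set.ncard_lt_card h
  rwa [← Nat.card_coe_set_eq] at h2

theorem match_res {B : Type} {M : CoxeterMatrix B} (hM : Match M) (J : Set B) :
    Match (Mres M J) := by
  intro i j k hij hik h1 h2
  exact Subtype.ext (hM i.1 j.1 k.1 (fun h => hij (Subtype.ext h)) (fun h => hik (Subtype.ext h))
    h1 h2)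

theorem p_XQ (hXG : Stmt_XG) (hXC : Stmt_XC) (hXN : Stmt_XN) (hXO : Stmt_XO) :
    ∀ (m : ℕ) {B W : Type} [Group W] [Fintype W] [Finite B] {M : CoxeterMatrix B}
      (cs : CoxeterSystem M W), Nat.card B = m → Match M → Good cs := by
  intro m
  induction m using Nat.strong_induction_on with
  | _ m ih =>
    intro B W _ _ _ M cs hm hM
    by_cases hs : Subsingleton B
    · exact hXO cs hs
    · have hnt : Nontrivial B := not_subsingleton_iff_nontrivial.1 hs
      obtain ⟨c, c₂, hcc⟩ := hnt.exists_pair_ne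
      set J : Set B := {i | i = c ∨ M c i ≠ 2} with hJdef
      have hcJ : c ∈ J := Or.inl rfl
      have hsep : ∀ i ∈ J, ∀ j, j ∉ J → M i j = 2 := by
        intro i hi j hj
        by_contra hne
        have hj1 : j ≠ c := fun h => hj (Or.inl h)
        have hj2 : M c j = 2 := by
          by_contra h
          exact hj (Or.inr h)
        rcases eq_or_ne i c with rfl | hic
        · exact hne hj2
        · have hi2 : M c i ≠ 2 := by
            rcases hi with h | h
            · exact absurd h hic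
            · exact h
          have hij : i ≠ j := fun h => hj (h ▸ hi)
          have := hM i c j hic hij (by rw [M.symmetric i c]; exact hi2) hne
          exact hj1 this.symm
      by_cases hJ : J = Set.univ
      · have hall : ∀ i : B, i = c ∨ i = c₂ := by
          intro i
          by_contra hcon
          push Not at hcon
          have h1 : i ∈ J := by rw [hJ]; exact Set.mem_univ i
          have h2 : c₂ ∈ J := by rw [hJ]; exact Set.mem_univ c₂
          have h3 : M c i ≠ 2 := by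
            rcases h1 with h | h
            · exact absurd h hcon.1
            · exact h
          have h4 : M c c₂ ≠ 2 := by
            rcases h2 with h | h
            · exact absurd h.symm hcc
            · exact h
          exact hcon.2 (hM c i c₂ hcon.1.symm hcc h3 h4)
        exact good_rank_two cs c c₂ hcc hall
      · obtain ⟨d, hd⟩ : ∃ d, d ∉ J := by
          by_contra hcon
          push Not at hcon
          exact hJ (Set.eq_univ_of_forall hcon)
        obtain ⟨W₁, W₂, _, _, _, _, cs₁, cs₂, ⟨S⟩⟩ := hXG cs J hsep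
        have hc1 : Nat.card J < m := by
          rw [← hm]
          exact card_lt_of_not_mem d hd
        have hc2 : Nat.card (Jᶜ : Set B) < m := by
          rw [← hm]
          exact card_lt_of_not_mem c (fun h => h hcJ)
        exact good_split hXC hXN S (ih _ hc1 cs₁ rfl (match_res hM J))
          (ih _ hc2 cs₂ rfl (match_res hM Jᶜ))

end Pool.Agent.Work.MP_a20dfd
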