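import Pool.Agent.Work.MP_a20dfd.PX_G
import Pool.Agent.Work.MP_a20dfd.PX_I
import Pool.Agent.Work.MP_a20dfd.PX_C
import Pool.Agent.Work.MP_a20dfd.PX_N
import Pool.Agent.Work.MP_a20dfd.PX_O97
import Pool.Agent.Work.MP_a20dfd.PX_Q

/-!
# MP_a20dfd_al: positivity when all components have rank at most two
-/

set_option autoImplicit false

namespace Pool.Agent.Work.MP_a20dfd

theorem r_XC : Stmt_XC := p_XC (p_XI p_HRL) c_UNQ p_HRL p_LPF

theorem good_match {B W : Type} [Group W] [Fintype W] {M : CoxeterMatrix B}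
    (cs : CoxeterSystem M W) (hB : Finite B) (hM : Match M) : Good cs :=
  p_XQ p_XG r_XC (p_XN r_XC) (p_XO97 c_CSI c_CDN) (Nat.card B) cs rfl hM

/-- Positivity, all components of rank at most two. -/
theorem pos_match {B W : Type} [Group W] [Fintype W] {M : CoxeterMatrix B}
    {cs : CoxeterSystem M W} (K : KL cs) (hB : Finite B) (hM : Match M) (I : Set B) (w₀ wI : W)
    (hw₀ : ∀ x, cs.length x ≤ cs.length w₀) (hwI : IsLongest cs (Par cs I) wI) :
    K.Pos ∧ ∀ x y, Long cs I x → Long cs I y → Nonneg (n K I (w₀ * x) (w₀ * y)) := by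
  obtain ⟨hP, hn⟩ := good_match cs hB hM K
  refine ⟨hP, fun x y hx hy => ?_⟩
  obtain ⟨hLS, -, -⟩ := c_CBX cs I w₀ wI hw₀ hwI
  exact hn I _ _ ((hLS x).1 hx) ((hLS y).1 hy)

end Pool.Agent.Work.MP_a20dfd
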