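import Pool.Agent.Work.MP_a20dfd.Defs

/-!
Blocks of MP_a20dfd_al, part 1 (Coxeter groups and Hecke algebra). helper74.
Write v = T 1, s = cs.simple i, l = cs.length, H_w = K.std w, C_w = K.kl w.
-/

namespace Pool.Agent.Work.MP_a20dfd

open LaurentPolynomial

/-! ### Coxeter groups -/

/-- EXC (strong exchange condition). Proof: N(w,t) in ZMod 2 := parity of the number of
occurrences of t in rightInvSeq of a word of w. Well defined: let generator i act on W x ZMod 2
by (t, e) -> (s t s, e + [t = s]); this is an involution and (i j) has order dividing M i j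
(count of t in the inversion sequence of the alternating word of length 2 M i j is even: entries
k and k + M i j agree, see getElem_leftInvSeq_alternatingWord,
getElem_succ_leftInvSeq_alternatingWord in Mathlib.GroupTheory.Coxeter.Inversion); so
cs.lift gives a homomorphism W -> Perm (W x ZMod 2), and for a word the second component of the
image of (t, 0) is the parity of the count of t in rightInvSeq (up to inverse of the word,
choose the side). Cocycle: N(xy,t) = N(y,t) + N(x, y t y^-1). N(t,t) = 1 for a reflection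
t = u s u^-1 by the cocycle rule: N(t,t) = N(u^-1,t) + 1 + N(u,s) and
0 = N(1,t) = N(u^-1,t) + N(u,s). If N(w,t) = 0 then N(w t,t) = N(t,t) + N(w,t) = 1, so t is in
rightInvSeq of a reduced word of w t, so l(w t t) < l(w t)
(isRightInversion_of_mem_rightInvSeq), against l(w t) < l(w). So N(w,t) = 1, t is in
rightInvSeq of the given word: t = (rightInvSeq)[j]; then w t is the word with letter j
deleted (wordProd_mul_getD_rightInvSeq). -/
def Stmt_EXC : Prop :=
  ∀ {B W : Type} [Group W] {M : CoxeterMatrix B} (cs : CoxeterSystem M W) (ω : List B) (t : W),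
    cs.IsReflection t → cs.length (cs.wordProd ω * t) < cs.length (cs.wordProd ω) →
    ∃ j, j < ω.length ∧ cs.wordProd ω * t = cs.wordProd (ω.eraseIdx j)

/-- PAR (uses EXC): an element of W_I has a reduced word with letters in I. Proof: elements of
Par = closure of the simple reflections of I are products of letters in I (s is its own
inverse; Subgroup.closure_induction). Take an I-word of w of minimal number of letters. If it is
not reduced, let k be the first index such that the initial piece ω.take (k+1) is not reduced;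
ω.take k is reduced, u its product, l(u s) < l(u) with s the letter k (length_mul_simple), so
EXC deletes a letter j < k: ω with the letters j and k removed is a shorter I-word of w. -/
def Stmt_PAR : Prop :=
  ∀ {B W : Type} [Group W] {M : CoxeterMatrix B} (cs : CoxeterSystem M W) (I : Set B) (w : W),
    w ∈ Par cs I → ∃ ω : List B, cs.IsReduced ω ∧ cs.wordProd ω = w ∧ ∀ i ∈ ω, i ∈ I

/-- ADD (uses EXC, PAR). Proof: first let c be an element of minimal length of the coset b W_I.
Claim l(c w) = l(c) + l(w) for w in W_I, induction on the reduced I-word of w (PAR), w = w' s,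
l(w) = l(w') + 1, l(c w') = l(c) + l(w'). If l(c w' s) < l(c w') apply EXC to the concatenation
of reduced words of c and w' and t = s: either a letter of the word of w' is deleted, then
w' s = w'' with a word of l(w') - 1 letters, against l(w' s) = l(w') + 1; or a letter of c is
deleted, c w' s = c'' w' with l(c'') < l(c) and c'' = c w' s w'^-1 in c W_I = b W_I, against
minimality. Now b = c u, u in W_I. If u <> 1 its reduced I-word ends with some i in I, u = u' s,
l(b s) = l(c u') = l(c) + l(u') < l(b), against Short. So b = c. -/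
def Stmt_ADD : Prop :=
  ∀ {B W : Type} [Group W] {M : CoxeterMatrix B} (cs : CoxeterSystem M W) (I : Set B) (b w : W),
    Short cs I b → w ∈ Par cs I → cs.length (b * w) = cs.length b + cs.length w

/-- DEC (uses PAR, ADD): every y is x w with x short, w in W_I, in exactly one way. Proof: x := an
element of minimal length of y W_I (it is Short). Uniqueness: x' = x u, u in W_I, l(x') =
l(x) + l(u) and l(x) = l(x') + l(u^-1) by ADD, so u = 1. -/
def Stmt_DEC : Prop :=
  ∀ {B W : Type} [Group W] {M : CoxeterMatrix B} (cs : CoxeterSystem M W) (I : Set B) (y : W),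
    ∃! q : W × W, Short cs I q.1 ∧ q.2 ∈ Par cs I ∧ q.1 * q.2 = y

/-- LON (uses EXC). Proof by induction on l(x): let x' = x s, l(x') = l(x) + 1,
l(w0 x) + l(x) = l(w0). Suppose l(w0 x s) > l(w0 x). The concatenation of reduced words of w0 x
and of x^-1 is a word of w0 (of length l(w0)). t := x s x^-1 is a reflection, l(w0 t) <= l(w0)
and <> (length_mul_left_ne of Inversion), so l(w0 t) < l(w0) and EXC deletes a letter: if it is
in the part x^-1 then the shorter word represents (w0 x)^-1 w0 t = x^-1 t = s x^-1, so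
l(s x^-1) < l(x), but l(s x^-1) = l(x s) = l(x) + 1; if it is in the part w0 x then it
represents w0 t x = w0 x s, so l(w0 x s) < l(w0 x). Contradiction, so l(w0 x s) =
l(w0 x) - 1. -/
def Stmt_LON : Prop :=
  ∀ {B W : Type} [Group W] {M : CoxeterMatrix B} (cs : CoxeterSystem M W) (w₀ : W),
    (∀ x, cs.length x ≤ cs.length w₀) → ∀ x, cs.length (w₀ * x) + cs.length x = cs.length w₀

/-- CBX (uses ADD, LON). c = w0 wI. (1) x long iff w0 x short, from LON. (2) c is short: for i in
I: wI s in W_I so l(wI s) < l(wI) (<= and length_mul_simple_ne), l(c s) = l(w0) - l(wI s) >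
l(w0) - l(wI) = l(c). (3) u := c b^-1 = w0 (b wI^-1)^-1, l(u) = l(w0) - l(b wI^-1) = l(w0) -
l(b) - l(wI). -/
def Stmt_CBX : Prop :=
  ∀ {B W : Type} [Group W] {M : CoxeterMatrix B} (cs : CoxeterSystem M W) (I : Set B)
    (w₀ wI : W), (∀ x, cs.length x ≤ cs.length w₀) → IsLongest cs (Par cs I) wI →
    (∀ x, Long cs I x ↔ Short cs I (w₀ * x)) ∧ Short cs I (w₀ * wI) ∧
    ∀ b, Short cs I b → ∃ u, u * b = w₀ * wI ∧ cs.length (u * b) = cs.length u + cs.length b

/-! ### Hecke algebra -/

/-- HRL. Proof: (1) l(sw) + 1 = l(w): std w = std s * std (s w) by std_mul, and std_sq.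
(2) if l(x y) = l(x) + l(y) then std x * std y = std (x y): induction on l(x), x = s x'.
(3) right rules: up is (2); down: std w = std (w s) * std s and std_sq. -/
def Stmt_HRL : Prop :=
  ∀ {B W : Type} [Group W] {M : CoxeterMatrix B} {cs : CoxeterSystem M W} (K : KL cs),
    (∀ (i : B) (w : W), cs.length (cs.simple i * w) < cs.length w →
      K.std (cs.simple i) * K.std w = K.std (cs.simple i * w) + (T (-1) - T 1 : A) • K.std w) ∧
    (∀ (i : B) (w : W), cs.length (w * cs.simple i) < cs.length w →
      K.std w * K.std (cs.simple i) = K.std (w * cs.simple i) + (T (-1) - T 1 : A) • K.std w) ∧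
    ∀ x y : W, cs.length (x * y) = cs.length x + cs.length y →
      K.std x * K.std y = K.std (x * y)

/-- TAU (uses HRL). Proof: induction on l(x), for all y. x = 1 clear. x = x' s with
l(x) = l(x') + 1: H_x H_y = H_{x'} H_s H_y; if l(s y) > l(y) this is H_{x'} H_{s y}, tau is
[x' s y = 1]. If l(s y) < l(y): tau = [x' s y = 1] + (v^-1 - v) [x' y = 1]; x' y = 1 would give
y = x'^-1, l(s y) = l(x' s) = l(x') + 1 > l(y), a contradiction. Choose the decomposition of x
with exists_rightDescent_of_ne_one. -/
def Stmt_TAU : Prop :=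
  ∀ {B W : Type} [Group W] [DecidableEq W] {M : CoxeterMatrix B} {cs : CoxeterSystem M W}
    (K : KL cs) (x y : W), K.tau (K.std x * K.std y) = if x * y = 1 then 1 else 0

/-- FLT (uses HRL): the anti-automorphism H_w -> H_{w^-1}. Proof: F := std.constr ... (linear
map with F (H_w) = H_{w^-1}). F (H_s y) = F y * H_s for y = H_w (up: HRL(3); down: HRL(2));
then F (H_x y) = F y * F (H_x) by induction on l(x), then linearity. F and bar commute: both
F o bar and bar o F send f • x to (invert f) • .., are anti-multiplicative, and agree at H_s since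
bar H_s = H_s^-1 = H_s - (v^-1 - v) (from bar_std and std_sq) and F fixes H_s; H_w is a product
of H_s. -/
def Stmt_FLT : Prop :=
  ∀ {B W : Type} [Group W] {M : CoxeterMatrix B} {cs : CoxeterSystem M W} (K : KL cs),
    ∃ F : K.H →ₗ[A] K.H, (∀ w, F (K.std w) = K.std w⁻¹) ∧ (∀ x y, F (x * y) = F y * F x) ∧
      ∀ x, K.bar (F x) = F (K.bar x)

/-- BRU (uses HRL): bar (H_w) = H_w + terms of smaller length. Proof: induction on l(w),
w = s w', l(w) = l(w') + 1: bar H_w = (H_s - (v^-1 - v)) bar H_{w'}, bar H_{w'} = H_{w'} + sum of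
c_y H_y, l(y) < l(w'); H_s H_y is a combination of H_{sy} and H_y, lengths <= l(y) + 1 < l(w). -/
def Stmt_BRU : Prop :=
  ∀ {B W : Type} [Group W] {M : CoxeterMatrix B} {cs : CoxeterSystem M W} (K : KL cs) (w : W),
    K.std.repr (K.bar (K.std w)) w = 1 ∧
    ∀ y, y ≠ w → cs.length w ≤ cs.length y → K.std.repr (K.bar (K.std w)) y = 0

/-- UNQ (uses BRU). Proof: if x <> 0 take y of maximal length with nonzero coordinate f; the
coordinate of bar x at y is invert f (BRU), so invert f = f, but f has only exponents > 0: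
f = 0. (co (invert f) k = co f (-k).) -/
def Stmt_UNQ : Prop :=
  ∀ {B W : Type} [Group W] {M : CoxeterMatrix B} {cs : CoxeterSystem M W} (K : KL cs) (x : K.H),
    K.bar x = x → (∀ y, ∀ k : ℤ, k ≤ 0 → co (K.std.repr x y) k = 0) → x = 0

/-- TRI (uses BRU): p_{y,w} = 0 unless y = w or l(y) < l(w). Proof: otherwise take y <> w of
maximal length with l(w) <= l(y), p_{y,w} <> 0 (the support is finite); the coordinate of
bar (C_w) at y is invert p_{y,w} (w itself contributes 0 at y by BRU), so p = invert p with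
exponents > 0 only, p = 0. -/
def Stmt_TRI : Prop :=
  ∀ {B W : Type} [Group W] {M : CoxeterMatrix B} {cs : CoxeterSystem M W} (K : KL cs)
    (y w : W), y ≠ w → cs.length w ≤ cs.length y → K.p y w = 0

/-- FLK (uses FLT, UNQ). Proof: F (C_w) = C_{w^-1} because the difference is bar invariant and
satisfies the hypothesis of UNQ (at w^-1: 1 - 1 = 0). Coordinates: p_{y^-1,w^-1} = p_{y,w};
F (C_x C_y) = C_{y^-1} C_{x^-1}. -/
def Stmt_FLK : Prop :=
  ∀ {B W : Type} [Group W] {M : CoxeterMatrix B} {cs : CoxeterSystem M W} (K : KL cs),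
    (∀ y w, K.p y⁻¹ w⁻¹ = K.p y w) ∧ ∀ x y z, K.h y⁻¹ x⁻¹ z⁻¹ = K.h x y z

/-- SYM: the structure constants are invariant under v -> v^-1. Proof: bar (C_x C_y) = C_x C_y,
expand in the basis C, bar_smul, bar_kl, compare coordinates; co (invert f) k = co f (-k). -/
def Stmt_SYM : Prop :=
  ∀ {B W : Type} [Group W] {M : CoxeterMatrix B} {cs : CoxeterSystem M W} (K : KL cs)
    (x y z : W) (k : ℤ), co (K.h x y z) (-k) = co (K.h x y z) k

/-- CSI (uses UNQ, HRL). Proof: both differences are bar invariant with coordinates in v Z[v]: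
bar (H_s + v) = H_s - v^-1 + v + v^-1. -/
def Stmt_CSI : Prop :=
  ∀ {B W : Type} [Group W] {M : CoxeterMatrix B} {cs : CoxeterSystem M W} (K : KL cs),
    K.kl 1 = 1 ∧ ∀ i : B, K.kl (cs.simple i) = K.std (cs.simple i) + (T 1 : A) • (1 : K.H)

/-- CUP (uses CSI, HRL, TRI, UNQ): C_s C_w for l(w) < l(s w) has integer coordinates in the basis
C, zero unless l(s z) < l(z), and coordinate 1 at s w. Proof: coordinate of C_s C_w =
(H_s + v) C_w at H_z: if l(s z) < l(z) it is p_{sz,w} + v^-1 p_{z,w}; if l(s z) > l(z) it is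
p_{sz,w} + v p_{z,w} (from HRL(1) and std_mul, y = s z and y = z contribute). For z <> w,
p_{z,w} has exponents > 0 only; for z = w: l(s w) > l(w), it is p_{sw,w} + v = v (TRI). So all
exponents are >= 0. Constant terms m_z: 0 if l(s z) > l(z) (constant term of p_{sz,w} is not 0
only if s z = w, z = s w, then l(s z) < l(z)). At z = s w: p_{w,w} + v^-1 p_{sw,w} = 1 (TRI).
X := C_s C_w - sum_{z} m_z C_z (finite sum over the z with m_z <> 0) is bar invariant; the
coordinate at H_z is (coordinate of C_s C_w) - m_z - sum over z' <> z of m_{z'} p_{z,z'}, all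
exponents > 0. UNQ: X = 0. -/
def Stmt_CUP : Prop :=
  ∀ {B W : Type} [Group W] {M : CoxeterMatrix B} {cs : CoxeterSystem M W} (K : KL cs)
    (i : B) (w : W), cs.length w < cs.length (cs.simple i * w) →
    (∀ z, (∀ k : ℤ, k ≠ 0 → co (K.h (cs.simple i) w z) k = 0) ∧
      (K.h (cs.simple i) w z ≠ 0 → cs.length (cs.simple i * z) < cs.length z)) ∧
    K.h (cs.simple i) w (cs.simple i * w) = 1

/-- CDN (uses CSI, CUP, HRL, TRI). Proof: induction on l(w), w = s w', l(w') < l(w). C_s C_{w'} =
C_w + sum over z of m_z C_z with l(s z) < l(z), z <> w (CUP); these z have l(z) < l(w): from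
TRI, in C_s C_{w'} only H_y with l(y) <= l(w') + 1 occur, and of length l(w) only w: the
coordinate at y is p_{sy,w'} + v^(+-1) p_{y,w'}; take z <> w of maximal length with m_z <> 0.
C_s C_s = (v + v^-1) C_s. So C_s C_s C_{w'} = (v + v^-1) C_s C_{w'}; by induction C_s C_z =
(v + v^-1) C_z for those z; subtract. -/
def Stmt_CDN : Prop :=
  ∀ {B W : Type} [Group W] {M : CoxeterMatrix B} {cs : CoxeterSystem M W} (K : KL cs)
    (i : B) (w : W), cs.length (cs.simple i * w) < cs.length w →
    K.kl (cs.simple i) * K.kl w = (T 1 + T (-1) : A) • K.kl w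

/-- DSC (uses CUP, CDN, FLK). Proof (left): C_s C_x = (v + v^-1) C_x, so C_s (C_x C_y) =
(v + v^-1) C_x C_y. The coordinate of C_s C_u at C_z is 0 if not l(s z) < l(z) (CUP for
l(u) < l(s u), CDN otherwise: then u = z only). So the coordinate (v + v^-1) h_{x,y,z} is 0 if
not l(s z) < l(z), and v + v^-1 is not a zero divisor. Right: FLK, length_inv. -/
def Stmt_DSC : Prop :=
  ∀ {B W : Type} [Group W] {M : CoxeterMatrix B} {cs : CoxeterSystem M W} (K : KL cs)
    (x y z : W), K.h x y z ≠ 0 →
    (∀ i : B, cs.length (cs.simple i * x) < cs.length x →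
      cs.length (cs.simple i * z) < cs.length z) ∧
    ∀ i : B, cs.length (y * cs.simple i) < cs.length y →
      cs.length (z * cs.simple i) < cs.length z

/-- CUR (uses CUP, CDN, FLK): right versions of CUP and CDN, by FLK and length_inv. -/
def Stmt_CUR : Prop :=
  ∀ {B W : Type} [Group W] {M : CoxeterMatrix B} {cs : CoxeterSystem M W} (K : KL cs)
    (i : B) (w : W),
    (cs.length w < cs.length (w * cs.simple i) →
      (∀ z, ∀ k : ℤ, k ≠ 0 → co (K.h w (cs.simple i) z) k = 0) ∧
      K.h w (cs.simple i) (w * cs.simple i) = 1) ∧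
    (cs.length (w * cs.simple i) < cs.length w →
      K.kl w * K.kl (cs.simple i) = (T 1 + T (-1) : A) • K.kl w)

/-- RED (uses HRL, TRI). Proof: H_a H_b is a combination of H_z with l(z) <= l(a) + l(b)
(induction on l(a)); so in C_x C_y the H_z have l(z) <= l(x) + l(y), and for l(z) = l(x) + l(y)
only H_x H_y = H_{xy} contributes (TRI): the coordinate of C_x C_y at H_z is [z = x y]. Write
C_x C_y = sum h_{x,y,u} C_u; take u of maximal length with h <> 0: its coordinate at H_u is h (TRI,
kl_self) so l(u) <= l(x) + l(y). The coordinate at H_{xy} is h_{x,y,xy} (TRI), so it is 1. -/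
def Stmt_RED : Prop :=
  ∀ {B W : Type} [Group W] {M : CoxeterMatrix B} {cs : CoxeterSystem M W} (K : KL cs)
    (x y : W), cs.length (x * y) = cs.length x + cs.length y → K.h x y (x * y) = 1

/-- ASC: associativity. Proof: coordinate of (C_x C_y) C_z = C_x (C_y C_z) at C_v. -/
def Stmt_ASC : Prop :=
  ∀ {B W : Type} [Group W] [Fintype W] {M : CoxeterMatrix B} {cs : CoxeterSystem M W}
    (K : KL cs) (x y z v : W),
    ∑ w : W, K.h x y w * K.h w z v = ∑ w : W, K.h y z w * K.h x w v

/-- TRC (uses TAU). Proof: expand C_x C_y = sum p_{a,x} p_{b,y} H_a H_b and TAU for (1); expand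
C_x C_y in the basis C for (2). (3), (4): in (1) all p have exponents >= 0, and the constant term
of p_{w,x} p_{w^-1,y} is [w = x][w^-1 = y] (kl_self, kl_lt). -/
def Stmt_TRC : Prop :=
  ∀ {B W : Type} [Group W] [Fintype W] [DecidableEq W] {M : CoxeterMatrix B}
    {cs : CoxeterSystem M W} (K : KL cs) (x y : W),
    K.tau (K.kl x * K.kl y) = ∑ w : W, K.p w x * K.p w⁻¹ y ∧
    K.tau (K.kl x * K.kl y) = ∑ u : W, K.h x y u * K.p 1 u ∧
    (∀ k : ℤ, k < 0 → co (K.tau (K.kl x * K.kl y)) k = 0) ∧
    co (K.tau (K.kl x * K.kl y)) 0 = if x * y = 1 then 1 else 0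

/-- LPF: Laurent polynomials. (1) nonneg closed under product and finite sums; (2), (3)
coefficients of a product: co (f g) k = sum over i of co f i * co g (k - i); (4), (5) sums;
(6), (7) facts on dg. -/
def Stmt_LPF : Prop :=
  (∀ f g : A, Nonneg f → Nonneg g → Nonneg (f * g)) ∧
  (∀ f g : A, Nonneg f → Nonneg g → ∀ i j : ℤ, co f i * co g j ≤ co (f * g) (i + j)) ∧
  (∀ (f g : A) (k : ℤ), co (f * g) k ≠ 0 → ∃ i j : ℤ, i + j = k ∧ co f i ≠ 0 ∧ co g j ≠ 0) ∧
  (∀ {ι : Type} (S : Finset ι) (f : ι → A) (k : ℤ),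
    co (∑ x ∈ S, f x) k = ∑ x ∈ S, co (f x) k) ∧
  (∀ {ι : Type} (S : Finset ι) (f : ι → A), (∀ x ∈ S, Nonneg (f x)) →
    Nonneg (∑ x ∈ S, f x) ∧ ∀ x ∈ S, ∀ k, co (f x) k ≤ co (∑ x ∈ S, f x) k) ∧
  (∀ (f : A) (k : ℤ), co f k ≠ 0 → k ≤ dg f) ∧
  (∀ f : A, dg f ≠ 0 → co f (dg f) ≠ 0)

end Pool.Agent.Work.MP_a20dfd
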