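import Pool.Agent.Work.MP_a20dfd.Interface

/-!
Blocks of MP_a20dfd_al, part 2 (positivity, parabolic part, final theorem). helper74.
Notation as in Interface.lean. D = set of the d with co (K.p 1 d) (K.a d) <> 0 (Duflo elements).
In all blocks hP : K.Pos is Kazhdan-Lusztig positivity. For f with nonneg coefficients there are
no cancellations: use LPF.
-/

namespace Pool.Agent.Work.MP_a20dfd

open LaurentPolynomial

/-- d is a Duflo element. -/
def IsDuf {B W : Type} [Group W] [Fintype W] {M : CoxeterMatrix B} {cs : CoxeterSystem M W}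
    (K : KL cs) (d : W) : Prop := co (K.p 1 d) (K.a d) ≠ 0

/-- AZF (uses LPF, SYM, CSI): facts on a. Proof: (1) LPF(6) and the definition of a as a sup,
applied to k and, by SYM, to -k. (2) the sup is attained at some x, y; if a z <> 0 then dg <> 0
and LPF(7); if a z = 0 take x = 1, y = z: h_{1,z,z} = 1 because C_1 = 1. -/
def Stmt_AZF : Prop :=
  ∀ {B W : Type} [Group W] [Fintype W] {M : CoxeterMatrix B} {cs : CoxeterSystem M W}
    (K : KL cs),
    (∀ (x y z : W) (k : ℤ), co (K.h x y z) k ≠ 0 → k ≤ K.a z ∧ -k ≤ K.a z) ∧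
    ∀ z : W, ∃ x y : W, co (K.h x y z) (K.a z) ≠ 0

/-- AIN (uses AZF, FLK): a(z^-1) = a(z). Proof: FLK and AZF in both directions. -/
def Stmt_AIN : Prop :=
  ∀ {B W : Type} [Group W] [Fintype W] {M : CoxeterMatrix B} {cs : CoxeterSystem M W}
    (K : KL cs) (z : W), K.a z⁻¹ = K.a z

/-- EDG (uses LPF, ASC, CUP, DSC), THE KEY STEP. Let l(u) < l(s u), h_{s,u,v} <> 0. If v^k occurs
in h_{z,x,u} then v^k occurs in some h_{t,x,v}. Proof: l(z) < l(s z), otherwise DSC (left) gives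
l(s u) < l(u). ASC for (s, z, x) at v:
sum_t h_{s,z,t} h_{t,x,v} = sum_w h_{z,x,w} h_{s,w,v}. The right side has the summand
h_{z,x,u} h_{s,u,v}, h_{s,u,v} a nonzero constant (CUP for u), all summands are Nonneg, so its
coefficient at k is > 0 (LPF). So some co (h_{s,z,t} h_{t,x,v}) k <> 0; by CUP for z the factor
h_{s,z,t} has only the exponent 0, so co (h_{t,x,v}) k <> 0 (LPF(3)). -/
def Stmt_EDG : Prop :=
  ∀ {B W : Type} [Group W] [Fintype W] {M : CoxeterMatrix B} {cs : CoxeterSystem M W}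
    (K : KL cs), K.Pos → ∀ (i : B) (u v z x : W) (k : ℤ),
    cs.length u < cs.length (cs.simple i * u) → K.h (cs.simple i) u v ≠ 0 →
    co (K.h z x u) k ≠ 0 → ∃ t : W, co (K.h t x v) k ≠ 0

/-- Left W-graph edge u -> v. -/
def LE {B W : Type} [Group W] {M : CoxeterMatrix B} {cs : CoxeterSystem M W}
    (K : KL cs) (u v : W) : Prop :=
  ∃ i : B, cs.length u < cs.length (cs.simple i * u) ∧ K.h (cs.simple i) u v ≠ 0

/-- GEN (uses LPF, ASC, CUP, CDN, CSI): if C_z occurs in C_x C_y then there is a chain of left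
edges from y to z. Proof: induction on l(x). x = 1: C_1 = 1, z = y. x = s x', l(x') < l(x):
ASC for (s, x', y) at z: sum_t h_{s,x',t} h_{t,y,z} = sum_w h_{x',y,w} h_{s,w,z}; the summand
t = x has h_{s,x',x} = 1 (CUP), h_{x,y,z} <> 0; everything Nonneg, so some w has h_{x',y,w} <> 0 and
h_{s,w,z} <> 0. Chain from y to w by induction; if l(w) < l(s w) add the edge w -> z, otherwise
CDN gives h_{s,w,z} = 0 for z <> w, so z = w. -/
def Stmt_GEN : Prop :=
  ∀ {B W : Type} [Group W] [Fintype W] {M : CoxeterMatrix B} {cs : CoxeterSystem M W}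
    (K : KL cs), K.Pos → ∀ x y z : W, K.h x y z ≠ 0 → Relation.ReflTransGen (LE K) y z

/-- PFO (uses EDG, GEN, AZF, AIN, FLK), Lusztig's P4. Proof: (y) along a chain of left edges: for an
edge u -> v let z, x with co (h_{z,x,u}) (a u) <> 0 (AZF(2)); EDG gives t with
co (h_{t,x,v}) (a u) <> 0, so a u <= a v (AZF(1)). (x) by FLK and AIN: h_{y^-1,x^-1,z^-1} <> 0
gives a(x^-1) <= a(z^-1). -/
def Stmt_PFO : Prop :=
  ∀ {B W : Type} [Group W] [Fintype W] {M : CoxeterMatrix B} {cs : CoxeterSystem M W}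
    (K : KL cs), K.Pos → ∀ x y z : W, K.h x y z ≠ 0 → K.a x ≤ K.a z ∧ K.a y ≤ K.a z

/-- PON (uses LPF, TRC, SYM, AZF), Lusztig's P1. Proof: take x, y with co (h_{x,y,z}) (a z) <> 0,
so co (h_{x,y,z}) (-a z) > 0 (SYM, Pos). If co (p_{1,z}) k <> 0, it is > 0, and TRC(2), LPF give
co (tau (C_x C_y)) (k - a z) > 0, so k - a z >= 0 by TRC(3). -/
def Stmt_PON : Prop :=
  ∀ {B W : Type} [Group W] [Fintype W] {M : CoxeterMatrix B} {cs : CoxeterSystem M W}
    (K : KL cs), K.Pos → ∀ (z : W) (k : ℤ), co (K.p 1 z) k ≠ 0 → (K.a z : ℤ) ≤ k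

/-- PTH (uses LPF, TRC, AZF, PON, SYM), Lusztig's P2, P3. (1) Proof: co (p_{1,d}) (a d) > 0 and
co (h_{x,y,d}) (-a d) > 0, so the constant term of tau (C_x C_y) is > 0 (TRC(2)), so x y = 1
(TRC(4)). (2) existence: the constant term of tau (C_{y^-1} C_y) = sum_u h_{y^-1,y,u} p_{1,u} is
1, so some u has exponents i + j = 0, co (h_{y^-1,y,u}) i <> 0, co (p_{1,u}) j <> 0, j >= a u
(PON), -i <= a u (AZF): j = a u, i = -a u. (3) uniqueness: two different d, d' would contribute at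
least 1 each to the constant term, which is 1. -/
def Stmt_PTH : Prop :=
  ∀ {B W : Type} [Group W] [Fintype W] {M : CoxeterMatrix B} {cs : CoxeterSystem M W}
    (K : KL cs), K.Pos →
    (∀ x y d : W, IsDuf K d → co (K.h x y d) (-(K.a d : ℤ)) ≠ 0 → x * y = 1) ∧
    (∀ y : W, ∃ d : W, IsDuf K d ∧ co (K.h y⁻¹ y d) (-(K.a d : ℤ)) ≠ 0) ∧
    ∀ y d d' : W, IsDuf K d → co (K.h y⁻¹ y d) (-(K.a d : ℤ)) ≠ 0 → IsDuf K d' →
      co (K.h y⁻¹ y d') (-(K.a d' : ℤ)) ≠ 0 → d = d'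

/-- CYC (uses LPF, ASC, AZF, PFO, PTH, AIN), cyclicity. Proof: n := a d = a z. ASC for
(x, y, z^-1) at d: L = sum_u h_{x,y,u} h_{u,z^-1,d} = sum_u h_{y,z^-1,u} h_{x,u,d}. The summand
u = z of L gives co L (-2n) > 0. So some u on the right has exponents i + j = -2n,
co (h_{y,z^-1,u}) i <> 0, co (h_{x,u,d}) j <> 0. -i <= a u <= a d = n (AZF, PFO), -j <= n, so
i = -n = -a u, j = -n. By PTH(1): x u = 1, u = x^-1. So a(x) = a(x^-1) = n (AIN). -/
def Stmt_CYC : Prop :=
  ∀ {B W : Type} [Group W] [Fintype W] {M : CoxeterMatrix B} {cs : CoxeterSystem M W}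
    (K : KL cs), K.Pos → ∀ x y z d : W, IsDuf K d → co (K.h x y z) (-(K.a z : ℤ)) ≠ 0 →
    co (K.h z z⁻¹ d) (-(K.a d : ℤ)) ≠ 0 → K.a d = K.a z →
    K.a x = K.a d ∧ co (K.h y z⁻¹ x⁻¹) (-(K.a x : ℤ)) ≠ 0

/-- QDN (uses PTH, CYC, PFO). Proof: induction on N - a z, N = sup of a (strong downward
induction on a z). a z <= a d by PFO (h_{z,z^-1,d} <> 0). Suppose a z < a d. PTH(2) for
y = d^-1: d' Duflo with co (h_{d,d^-1,d'}) (-a d') <> 0; by induction (applied to d, a d > a z)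
a d' = a d. CYC with (x,y,z,d) := (z, z^-1, d, d'): a z = a d', contradiction. -/
def Stmt_QDN : Prop :=
  ∀ {B W : Type} [Group W] [Fintype W] {M : CoxeterMatrix B} {cs : CoxeterSystem M W}
    (K : KL cs), K.Pos → ∀ z d : W, IsDuf K d → co (K.h z z⁻¹ d) (-(K.a d : ℤ)) ≠ 0 →
    K.a d = K.a z

/-- DUF (uses PTH, QDN, CYC, FLK, SYM, AIN). Proof: PTH(2) for y = z^-1: Duflo d with
co (h_{z,z^-1,d}) (-a d) <> 0; a d = a z by QDN. d^-1 = d: d^-1 is Duflo (p_{1,d^-1} = p_{1,d} by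
FLK, AIN) and h_{z,z^-1,d^-1} = h_{z,z^-1,d} (FLK), uniqueness PTH(3). Again PTH(2), QDN for d:
d' Duflo with co (h_{d,d^-1,d'}) (-a d') <> 0, a d' = a d. CYC with (z, z^-1, d, d'): co
(h_{z^-1,d^-1,z^-1}) (-a z) <> 0, this is h_{d,z,z} by FLK; SYM turns -a into a. -/
def Stmt_DUF : Prop :=
  ∀ {B W : Type} [Group W] [Fintype W] {M : CoxeterMatrix B} {cs : CoxeterSystem M W}
    (K : KL cs), K.Pos → ∀ z : W, ∃ d : W, IsDuf K d ∧ d⁻¹ = d ∧ K.a d = K.a z ∧
      K.h z z⁻¹ d ≠ 0 ∧ co (K.h d z z) (K.a z) ≠ 0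

/-- LLE (uses GEN, EDG, DUF), THE MAIN LEMMA: if C_y occurs in C_u C_x then some h_{z,x,y}
contains v^{a(x)}. Proof: chain of left edges from x to y (GEN); at x take z = d (DUF for x);
along an edge EDG with k = a x. -/
def Stmt_LLE : Prop :=
  ∀ {B W : Type} [Group W] [Fintype W] {M : CoxeterMatrix B} {cs : CoxeterSystem M W}
    (K : KL cs), K.Pos → ∀ u x y : W, K.h u x y ≠ 0 → ∃ z : W, co (K.h z x y) (K.a x) ≠ 0

/-- DGB (uses LPF, ASC, PAR, CUR, DSC): w in W_I, w <> 1, d short: the exponents of h_{d,w,u} are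
at most l(w) - 1 in absolute value. Proof: for a reduced nonempty word with letters in I (PAR),
induction on its length. One letter s: l(d) < l(d s) (Short), CUR: exponent 0 only.
w = w' s, w' <> 1, l(w) = l(w') + 1: ASC for (d, w', s) at u:
sum_t h_{d,w',t} h_{t,s,u} = sum_t h_{w',s,t} h_{d,t,u}; the summand t = w on the right is
h_{w',s,w} h_{d,w,u} = h_{d,w,u} (CUR), everything Nonneg; so some t has exponents i1 + i2 = i,
|i1| <= l(w') - 1 (induction), |i2| <= 1 (CUR). -/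
def Stmt_DGB : Prop :=
  ∀ {B W : Type} [Group W] [Fintype W] {M : CoxeterMatrix B} {cs : CoxeterSystem M W}
    (K : KL cs), K.Pos → ∀ (I : Set B) (d w u : W) (k : ℤ), Short cs I d → w ∈ Par cs I →
    w ≠ 1 → co (K.h d w u) k ≠ 0 → -k + 1 ≤ cs.length w

/-- NDF (uses LPF, TRC, PON, PFO, FLK, DGB): for a short Duflo element d the coefficient of
v^{a(d)} in n_{1,d} is not 0. Proof: n_{1,d} = sum over w in W_I of (-v)^{l(w)} p_{w,d}. The
summand w = 1 contributes co (p_{1,d}) (a d) <> 0. Let w <> 1 and suppose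
co (p_{w,d}) (a d - l(w)) <> 0, so > 0. TRC(1) for (d, w^-1): tau (C_d C_{w^-1}) =
sum_x p_{x,d} p_{x^-1,w^-1}, the summand x = w is p_{w,d} p_{w^-1,w^-1} = p_{w,d}; so
co (tau ..) (a d - l(w)) > 0, and TRC(2): some u with exponents i + j = a d - l(w),
co (h_{d,w^-1,u}) i <> 0, co (p_{1,u}) j <> 0, j >= a u (PON) >= a d (PFO), so i <= -l(w);
but -i + 1 <= l(w^-1) = l(w) by DGB (w^-1 in W_I, <> 1). Contradiction. -/
def Stmt_NDF : Prop :=
  ∀ {B W : Type} [Group W] [Fintype W] {M : CoxeterMatrix B} {cs : CoxeterSystem M W}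
    (K : KL cs), K.Pos → ∀ (I : Set B) (d : W), Short cs I d → IsDuf K d →
    co (n K I 1 d) (K.a d) ≠ 0

/-- NZR (uses CUR, CSI, HRL, ADD): n_{x,u} = 0 if x is short and u is not. Proof: there is i in I
with l(u s) < l(u) (length_mul_simple_ne). C_u C_s = (v + v^-1) C_u (CUR), C_s = H_s + v, so
C_u H_s = v^-1 C_u. For l(y) < l(y s) compare the coordinates at H_{ys} (HRL(2), HRL(3)):
p_{y,u} + (v^-1 - v) p_{ys,u} = v^-1 p_{ys,u}, so p_{y,u} = v p_{ys,u}. In the sum n the summands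
of w and w s cancel (w in W_I; l(x w) = l(x) + l(w), l(x w s) = l(x) + l(w s) by ADD):
Finset.sum_involution with w -> w s. -/
def Stmt_NZR : Prop :=
  ∀ {B W : Type} [Group W] [Fintype W] {M : CoxeterMatrix B} {cs : CoxeterSystem M W}
    (K : KL cs) (I : Set B) (x u : W), Short cs I x → ¬ Short cs I u → n K I x u = 0

open Classical in
/-- NFO (uses HRL, TAU, DEC, ADD, FLK): sum over short x of n_{x,b} n_{x,z} =
sum_u h_{z^-1,b,u} n_{1,u}. Proof: E := sum over w in W_I of (-v)^{l(w)} H_w. (i) H_s E = -v E for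
i in I: pair w with s w: for l(w) < l(s w): H_s (H_w - v H_{sw}) = H_{sw} - v (H_w +
(v^-1 - v) H_{sw}) = -v (H_w - v H_{sw}). (ii) H_w E = (-v)^{l(w)} E for w in W_I (reduced I-word,
or induction), so for x short, w in W_I: H_{xw} E = H_x H_w E = (-v)^{l(w)} H_x E (ADD, HRL(3)).
(iii) C_b E = sum_y p_{y,b} H_y E = sum over short x of n_{x,b} H_x E (DEC: y = x w).
(iv) tau (C_{z^-1} H_x E) = sum_w (-v)^{l(w)} tau (C_{z^-1} H_{xw}) = sum_w (-v)^{l(w)}
p_{(xw)^-1,z^-1} = n_{x,z} (TAU, FLK). (v) tau (C_u E) = sum_w (-v)^{l(w)} p_{w^-1,u} = n_{1,u}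
(w -> w^-1). Compute tau (C_{z^-1} C_b E) in two ways. -/
def Stmt_NFO : Prop :=
  ∀ {B W : Type} [Group W] [Fintype W] {M : CoxeterMatrix B} {cs : CoxeterSystem M W}
    (K : KL cs) (I : Set B) (b z : W),
    ∑ x ∈ Finset.univ.filter (fun x : W => Short cs I x), n K I x b * n K I x z =
      ∑ u : W, K.h z⁻¹ b u * n K I 1 u

/-- FIN (uses LPF, SYM, CBX, RED, DUF, LLE, NDF, NZR, NFO, DSC, PFO, GEN): the inequality in the
form: for b short there are short x, z and i, j >= 0 with i + j >= a(b) + a(w0 wI), v^i in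
n_{x,b}, v^j in n_{x,z}. Hypothesis: the n_{x,y}, x, y short, have nonnegative coefficients and
exponents >= 0. Proof: c := w0 wI, short (CBX). DUF for z := c^-1: d Duflo, d^-1 = d, a d =
a(c^-1) = a c, h_{c^-1,c,d} <> 0, h_{d,c^-1,c^-1} <> 0, so h_{c,d,c} <> 0 (FLK). d is short: if
l(d s) < l(d), i in I, then DSC (right) for h_{c,d,c} gives l(c s) < l(c), false (use
length_mul_simple_ne). u b = c with h_{u,b,c} = 1 (CBX, RED). So
C_d occurs in C_{c^-1} C_c and C_c in C_u C_b; chains (GEN) b -> c -> d; conclude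
h_{t,b,d} <> 0 for some t: simplest: ASC for (c^-1, u, b) at d: the summand w = c of
sum_w h_{u,b,w} h_{c^-1,w,d} is not 0 (Nonneg, no cancellation), so some h_{t,b,d} <> 0.
LLE: some z' with co (h_{z',b,d}) (a b) <> 0. Put z := z'^-1. NDF: co (n_{1,d}) (a d) <> 0, > 0.
In NFO for (b, z) the right side is a sum of Nonneg terms (h Nonneg; n_{1,u} Nonneg for u short by
hypothesis, 0 otherwise by NZR; 1 is short) and its coefficient at a b + a d is > 0 (LPF). So some
short x has co (n_{x,b} n_{x,z}) (a b + a d) <> 0: exponents i + j = a b + a d, >= 0 both by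
hypothesis; z is short, otherwise n_{x,z} = 0 (NZR). -/
def Stmt_FIN : Prop :=
  ∀ {B W : Type} [Group W] [Fintype W] {M : CoxeterMatrix B} {cs : CoxeterSystem M W}
    (K : KL cs), K.Pos → ∀ (I : Set B) (w₀ wI : W), (∀ x, cs.length x ≤ cs.length w₀) →
    IsLongest cs (Par cs I) wI →
    (∀ x y, Short cs I x → Short cs I y → Nonneg (n K I x y)) →
    (∀ x y, Short cs I x → Short cs I y → ∀ k : ℤ, k < 0 → co (n K I x y) k = 0) →
    ∀ b, Short cs I b → ∃ x z : W, ∃ i j : ℕ, Short cs I x ∧ Short cs I z ∧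
      co (n K I x b) i ≠ 0 ∧ co (n K I x z) j ≠ 0 ∧ K.a b + K.a (w₀ * wI) ≤ i + j

end Pool.Agent.Work.MP_a20dfd
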