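import Pool.Agent.Work.MP_a20dfd.Interface2

/-!
MP_a20dfd_al: products (helper97). Table px_blocks.
H_w = K.std w, C_w = K.kl w, v = T 1, l = cs.length, s_i = cs.simple i.
-/

namespace Pool.Agent.Work.MP_a20dfd

open LaurentPolynomial

/-- The Coxeter system cs is the product of cs₁ and cs₂. -/
structure Split {B B₁ B₂ W W₁ W₂ : Type} [Group W] [Group W₁] [Group W₂] {M : CoxeterMatrix B}
    {M₁ : CoxeterMatrix B₁} {M₂ : CoxeterMatrix B₂} (cs : CoxeterSystem M W)
    (cs₁ : CoxeterSystem M₁ W₁) (cs₂ : CoxeterSystem M₂ W₂) where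
  φ : W₁ × W₂ ≃* W
  e : B₁ ⊕ B₂ ≃ B
  s₁ : ∀ i, φ (cs₁.simple i, 1) = cs.simple (e (Sum.inl i))
  s₂ : ∀ i, φ (1, cs₂.simple i) = cs.simple (e (Sum.inr i))
  len : ∀ u v, cs.length (φ (u, v)) = cs₁.length u + cs₂.length v

/-- The Coxeter matrix restricted to J. -/
def Mres {B : Type} (M : CoxeterMatrix B) (J : Set B) : CoxeterMatrix J where
  M := fun i j => M i.1 j.1
  isSymm := by
    ext i j
    exact congrFun (congrFun M.isSymm i.1) j.1
  diagonal := fun i => M.diagonal i.1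
  off_diagonal := fun i j h => M.off_diagonal i.1 j.1 (fun h' => h (Subtype.ext h'))

/-- XG (group theory only). Proof: W₁ := (Mres M J).Group with its Coxeter system
(CoxeterMatrix.toCoxeterSystem), W₂ the same for Jᶜ. φ: the two lifts
(CoxeterSystem.lift / CoxeterMatrix group lift i -> cs.simple i) commute (M i j = 2 gives
s_i s_j = s_j s_i), MonoidHom.noncommCoprod. Back: cs.lift (i -> (s_i, 1) if i in J, (1, s_i) if
not); liftable: both in J / both not in J: the relation of the factor; mixed: M i j = 2 and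
((s_i, 1) (1, s_j))^2 = 1. The two maps are inverse to each other (check on generators:
CoxeterSystem.ext_simple / MonoidHom ext). len: a reduced word of u and one of v give a word of
φ (u, v), so <=; a reduced word of φ (u, v): the letters in J give a word of u (apply the back map
and project), the others a word of v, so >=. Fintype: φ is a bijection and W is finite. e is the
sum of J and its complement (Equiv.Set.sumCompl). -/
def Stmt_XG : Prop :=
  ∀ {B W : Type} [Group W] [Finite W] {M : CoxeterMatrix B} (cs : CoxeterSystem M W) (J : Set B),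
    (∀ i ∈ J, ∀ j, j ∉ J → M i j = 2) →
    ∃ (W₁ W₂ : Type) (_ : Group W₁) (_ : Group W₂) (_ : Fintype W₁) (_ : Fintype W₂)
      (cs₁ : CoxeterSystem (Mres M J) W₁) (cs₂ : CoxeterSystem (Mres M Jᶜ) W₂),
      Nonempty (Split cs cs₁ cs₂)

/-- XI (uses HRL): an embedding of Coxeter systems gives one of Hecke algebras. Proof: ι :=
K₁.std.constr (u -> K.std (j u)). ι (H_s H_u) = ι (H_s) ι (H_u): up: std_mul on both sides; down:
HRL(1) on both sides (lengths agree). ι (H_u y) = ι (H_u) ι (y) by induction on l(u), then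
linearity. bar: both x -> bar (ι x) and x -> ι (bar x) are additive, multiplicative, send f • x to
(invert f) • ..; they agree at H_s: bar H_s = H_s - (v⁻¹ - v) from bar_std and std_sq; H_u is a
product of H_s (HRL(3) or std_mul). -/
def Stmt_XI : Prop :=
  ∀ {B B₁ W W₁ : Type} [Group W] [Group W₁] {M : CoxeterMatrix B} {M₁ : CoxeterMatrix B₁}
    {cs : CoxeterSystem M W} {cs₁ : CoxeterSystem M₁ W₁} (K : KL cs) (K₁ : KL cs₁)
    (j : W₁ →* W) (e : B₁ → B), (∀ i, j (cs₁.simple i) = cs.simple (e i)) →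
    (∀ u, cs.length (j u) = cs₁.length u) →
    ∃ ι : K₁.H →ₗ[A] K.H, (∀ u, ι (K₁.std u) = K.std (j u)) ∧ (∀ x y, ι (x * y) = ι x * ι y) ∧
      ∀ x, K.bar (ι x) = ι (K₁.bar x)

/-- XC (uses XI, UNQ, HRL, LPF): the Kazhdan-Lusztig basis of a product. Proof: ι₁, ι₂ from XI
for j = u -> φ (u, 1), v -> φ (1, v). H_{φ(u,1)} H_{φ(1,v)} = H_{φ(u,v)} = H_{φ(1,v)} H_{φ(u,1)}
(HRL(3), len), so ι₁ x and ι₂ y commute. X := ι₁ (C_{w₁}) ι₂ (C_{w₂}) is bar invariant; its
coordinate at H_{φ(y₁,y₂)} is p_{y₁,w₁} p_{y₂,w₂}: 1 at (w₁, w₂), otherwise one factor has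
exponents > 0 only and the other >= 0. UNQ for X - C_{φ(w₁,w₂)}: X = C_{φ(w₁,w₂)}. So the formula
for p. C_x C_y = ι₁ (C_{x₁} C_{y₁}) ι₂ (C_{x₂} C_{y₂}) = sum over a, b of h_{x₁,y₁,a} h_{x₂,y₂,b}
C_{φ(a,b)}: the formula for h. -/
def Stmt_XC : Prop :=
  ∀ {B B₁ B₂ W W₁ W₂ : Type} [Group W] [Group W₁] [Group W₂] [Fintype W] [Fintype W₁]
    [Fintype W₂] {M : CoxeterMatrix B} {M₁ : CoxeterMatrix B₁} {M₂ : CoxeterMatrix B₂}
    {cs : CoxeterSystem M W} {cs₁ : CoxeterSystem M₁ W₁} {cs₂ : CoxeterSystem M₂ W₂}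
    (S : Split cs cs₁ cs₂) (K : KL cs) (K₁ : KL cs₁) (K₂ : KL cs₂),
    (∀ y₁ y₂ w₁ w₂, K.p (S.φ (y₁, y₂)) (S.φ (w₁, w₂)) = K₁.p y₁ w₁ * K₂.p y₂ w₂) ∧
    ∀ x₁ x₂ y₁ y₂ z₁ z₂, K.h (S.φ (x₁, x₂)) (S.φ (y₁, y₂)) (S.φ (z₁, z₂)) =
      K₁.h x₁ y₁ z₁ * K₂.h x₂ y₂ z₂

/-- XN (uses XC): the polynomials n of a product. Proof: I₁ = the i with e (inl i) in I, I₂ the same
for inr. φ (w₁, w₂) in W_I iff w₁ in W_{I₁} and w₂ in W_{I₂} (Subgroup.closure; the image under φ of
the product of the closures is the closure of the union of the images). l(φ (w₁, w₂)) = l(w₁) +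
l(w₂), φ x * φ w = φ (x w), formula for p; the sum over W_I is a product of two sums. Short: for i
in I₁: l(φ x * s_{e (inl i)}) = l(x₁ s_i) + l(x₂). -/
def Stmt_XN : Prop :=
  ∀ {B B₁ B₂ W W₁ W₂ : Type} [Group W] [Group W₁] [Group W₂] [Fintype W] [Fintype W₁]
    [Fintype W₂] {M : CoxeterMatrix B} {M₁ : CoxeterMatrix B₁} {M₂ : CoxeterMatrix B₂}
    {cs : CoxeterSystem M W} {cs₁ : CoxeterSystem M₁ W₁} {cs₂ : CoxeterSystem M₂ W₂}
    (S : Split cs cs₁ cs₂) (K : KL cs) (K₁ : KL cs₁) (K₂ : KL cs₂) (I : Set B)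
    (x₁ : W₁) (x₂ : W₂) (y₁ : W₁) (y₂ : W₂),
    n K I (S.φ (x₁, x₂)) (S.φ (y₁, y₂)) =
      n K₁ {i | S.e (Sum.inl i) ∈ I} x₁ y₁ * n K₂ {i | S.e (Sum.inr i) ∈ I} x₂ y₂ ∧
    (Short cs I (S.φ (x₁, x₂)) →
      Short cs₁ {i | S.e (Sum.inl i) ∈ I} x₁ ∧ Short cs₂ {i | S.e (Sum.inr i) ∈ I} x₂)

/-- All polynomials p, h, n have nonnegative coefficients. -/
def Good {B W : Type} [Group W] [Fintype W] {M : CoxeterMatrix B} (cs : CoxeterSystem M W) :
    Prop :=
  ∀ K : KL cs, K.Pos ∧ ∀ (I : Set B) (x y : W), Short cs I x → Short cs I y → Nonneg (n K I x y)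

/-- XO (uses CSI, CDN, TRI): rank 0 and 1. Proof: every element is 1 or s (the group is generated by
at most one involution). C_1 = 1, C_s = H_s + v (CSI), C_s C_s = (v + v⁻¹) C_s (CDN). n: for x, y
short with respect to I: if I is empty (or has no element) W_I = 1 and n = p; otherwise x = y = 1
and n_{1,1} = p_{1,1} - v p_{s,1} = 1. -/
def Stmt_XO : Prop :=
  ∀ {B W : Type} [Group W] [Fintype W] {M : CoxeterMatrix B} (cs : CoxeterSystem M W),
    Subsingleton B → Good cs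

/-- Every vertex of the Coxeter graph has at most one neighbour: the components have at most two
vertices. -/
def Match {B : Type} (M : CoxeterMatrix B) : Prop :=
  ∀ i j k : B, i ≠ j → i ≠ k → M i j ≠ 2 → M i k ≠ 2 → j = k

/-- XQ (uses XG, XC, XN, XO, LPF, good rank two): helper97 types this one. -/
def Stmt_XQ : Prop :=
  ∀ {B W : Type} [Group W] [Fintype W] {M : CoxeterMatrix B} (cs : CoxeterSystem M W),
    Match M → Good cs

end Pool.Agent.Work.MP_a20dfd
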