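import Pool.Agent.Work.MP_a20dfd.PX

/-!
# Block XG: splitting a Coxeter system
-/

set_option autoImplicit false

namespace Pool.Agent.Work.MP_a20dfd

namespace Pxg

/-- commuting simple reflections -/
theorem comm_simple {B W : Type} [Group W] {M : CoxeterMatrix B} (cs : CoxeterSystem M W)
    {i j : B} (h : M i j = 2) : cs.simple i * cs.simple j = cs.simple j * cs.simple i := by
  have h1 := cs.simple_mul_simple_pow i j
  rw [h, pow_two] at h1
  have h2 : cs.simple i * cs.simple i = 1 := cs.simple_mul_simple_self i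
  have h3 : cs.simple j * cs.simple j = 1 := cs.simple_mul_simple_self j
  calc cs.simple i * cs.simple j = (cs.simple i * cs.simple j) *
        (cs.simple i * cs.simple j * (cs.simple j * cs.simple i)) := by
        rw [mul_assoc (cs.simple i) (cs.simple j) (cs.simple j * cs.simple i),
          ← mul_assoc (cs.simple j) (cs.simple j) (cs.simple i), h3, one_mul, h2, mul_one]
    _ = cs.simple j * cs.simple i := by
        rw [← mul_assoc (cs.simple i * cs.simple j), h1, one_mul]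

/-- words go to words -/
theorem wordProd_map {B B₁ W W₁ : Type} [Group W] [Group W₁] {M : CoxeterMatrix B}
    {M₁ : CoxeterMatrix B₁} (cs : CoxeterSystem M W) (cs₁ : CoxeterSystem M₁ W₁) (f : B₁ → B)
    (φ : W₁ →* W) (h : ∀ i, φ (cs₁.simple i) = cs.simple (f i)) (ω : List B₁) :
    cs.wordProd (ω.map f) = φ (cs₁.wordProd ω) := by
  induction ω with
  | nil => simp
  | cons i ω ih => rw [List.map_cons, cs.wordProd_cons, cs₁.wordProd_cons, map_mul, h, ih]

end Pxg

theorem p_XG : Stmt_XG := by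
  classical
  intro B W _ _ M cs J hJ
  let cs₁ := (Mres M J).toCoxeterSystem
  let cs₂ := (Mres M Jᶜ).toCoxeterSystem
  have hf₁ : (Mres M J).IsLiftable (fun i : J => cs.simple i.1) :=
    fun i j => cs.simple_mul_simple_pow i.1 j.1
  have hf₂ : (Mres M Jᶜ).IsLiftable (fun i : (Jᶜ : Set B) => cs.simple i.1) :=
    fun i j => cs.simple_mul_simple_pow i.1 j.1
  let φ₁ : (Mres M J).Group →* W := cs₁.lift ⟨_, hf₁⟩
  let φ₂ : (Mres M Jᶜ).Group →* W := cs₂.lift ⟨_, hf₂⟩
  have h₁ : ∀ i : J, φ₁ (cs₁.simple i) = cs.simple i.1 := fun i => cs₁.lift_apply_simple hf₁ i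
  have h₂ : ∀ i : (Jᶜ : Set B), φ₂ (cs₂.simple i) = cs.simple i.1 :=
    fun i => cs₂.lift_apply_simple hf₂ i
  have hcomm : ∀ u v, Commute (φ₁ u) (φ₂ v) := by
    intro u v
    refine cs₁.simple_induction (p := fun u => Commute (φ₁ u) (φ₂ v)) u (fun i => ?_) ?_
      (fun a b ha hb => ?_)
    · refine cs₂.simple_induction (p := fun v => Commute (φ₁ (cs₁.simple i)) (φ₂ v)) v
        (fun j => ?_) ?_ (fun a b ha hb => ?_)
      · rw [h₁, h₂]
        exact Pxg.comm_simple cs (hJ i.1 i.2 j.1 j.2)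
      · rw [map_one]; exact Commute.one_right _
      · rw [map_mul]; exact ha.mul_right hb
    · rw [map_one]; exact Commute.one_left _
    · rw [map_mul]; exact ha.mul_left hb
  let Φ : (Mres M J).Group × (Mres M Jᶜ).Group →* W := MonoidHom.noncommCoprod φ₁ φ₂ hcomm
  have hΦ : ∀ u v, Φ (u, v) = φ₁ u * φ₂ v := fun u v => rfl
  let g : B → (Mres M J).Group × (Mres M Jᶜ).Group := fun i =>
    if h : i ∈ J then (cs₁.simple ⟨i, h⟩, 1) else (1, cs₂.simple ⟨i, h⟩)
  have g1 : ∀ i (h : i ∈ J), g i = (cs₁.simple ⟨i, h⟩, 1) := fun i h => dif_pos h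
  have g2 : ∀ i (h : i ∉ J), g i = (1, cs₂.simple ⟨i, h⟩) := fun i h => dif_neg h
  have hg : M.IsLiftable g := by
    intro i j
    by_cases hi : i ∈ J
    · by_cases hj : j ∈ J
      · rw [g1 i hi, g1 j hj, Prod.mk_mul_mk, Prod.pow_mk, one_mul, one_pow]
        have h := cs₁.simple_mul_simple_pow ⟨i, hi⟩ ⟨j, hj⟩
        have h' : (cs₁.simple ⟨i, hi⟩ * cs₁.simple ⟨j, hj⟩) ^ M i j = 1 := h
        rw [h']
        rfl
      · rw [g1 i hi, g2 j hj, hJ i hi j hj, Prod.mk_mul_mk, Prod.pow_mk, one_mul, mul_one,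
          pow_two, pow_two, cs₁.simple_mul_simple_self, cs₂.simple_mul_simple_self]
        rfl
    · by_cases hj : j ∈ J
      · have h2 : M i j = 2 := by
          rw [M.symmetric i j]
          exact hJ j hj i hi
        rw [g2 i hi, g1 j hj, h2, Prod.mk_mul_mk, Prod.pow_mk, one_mul, mul_one,
          pow_two, pow_two, cs₁.simple_mul_simple_self, cs₂.simple_mul_simple_self]
        rfl
      · rw [g2 i hi, g2 j hj, Prod.mk_mul_mk, Prod.pow_mk, one_mul, one_pow]
        have h := cs₂.simple_mul_simple_pow ⟨i, hi⟩ ⟨j, hj⟩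
        have h' : (cs₂.simple ⟨i, hi⟩ * cs₂.simple ⟨j, hj⟩) ^ M i j = 1 := h
        rw [h']
        rfl
  let Ψ : W →* (Mres M J).Group × (Mres M Jᶜ).Group := cs.lift ⟨g, hg⟩
  have hΨ : ∀ i, Ψ (cs.simple i) = g i := fun i => cs.lift_apply_simple hg i
  have hΦΨ : Φ.comp Ψ = MonoidHom.id W := by
    apply cs.ext_simple
    intro i
    rw [MonoidHom.comp_apply, MonoidHom.id_apply, hΨ]
    by_cases hi : i ∈ J
    · rw [g1 i hi, hΦ, map_one, mul_one, h₁]
    · rw [g2 i hi, hΦ, map_one, one_mul, h₂]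
  have e₁ : Ψ.comp φ₁ = MonoidHom.inl _ _ := by
    apply cs₁.ext_simple
    intro i
    rw [MonoidHom.comp_apply, h₁, hΨ, g1 i.1 i.2]
    rfl
  have e₂ : Ψ.comp φ₂ = MonoidHom.inr _ _ := by
    apply cs₂.ext_simple
    intro i
    rw [MonoidHom.comp_apply, h₂, hΨ, g2 i.1 i.2]
    rfl
  have hΨΦ : Ψ.comp Φ = MonoidHom.id _ := by
    apply MonoidHom.ext
    rintro ⟨u, v⟩
    have h1 : Ψ (φ₁ u) = (u, 1) := DFunLike.congr_fun e₁ u
    have h2 : Ψ (φ₂ v) = (1, v) := DFunLike.congr_fun e₂ v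
    show Ψ (Φ (u, v)) = (u, v)
    rw [hΦ, map_mul, h1, h2, Prod.mk_mul_mk, mul_one, one_mul]
  let φ : (Mres M J).Group × (Mres M Jᶜ).Group ≃* W := MonoidHom.toMulEquiv Φ Ψ hΨΦ hΦΨ
  have hfin : Finite ((Mres M J).Group × (Mres M Jᶜ).Group) := Finite.of_equiv W φ.symm.toEquiv
  have hfin₁ : Finite (Mres M J).Group := Finite.of_injective
    (fun u => ((u, 1) : (Mres M J).Group × (Mres M Jᶜ).Group)) fun u v h => (Prod.mk.inj h).1
  have hfin₂ : Finite (Mres M Jᶜ).Group := Finite.of_injective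
    (fun u => ((1, u) : (Mres M J).Group × (Mres M Jᶜ).Group)) fun u v h => (Prod.mk.inj h).2
  have hlow : ∀ ω : List B, cs₁.length (Ψ (cs.wordProd ω)).1 + cs₂.length (Ψ (cs.wordProd ω)).2
      ≤ ω.length := by
    intro ω
    induction ω with
    | nil => simp
    | cons i ω ih =>
      rw [cs.wordProd_cons, map_mul, hΨ, List.length_cons]
      by_cases hi : i ∈ J
      · rw [g1 i hi]
        show cs₁.length (cs₁.simple ⟨i, hi⟩ * (Ψ (cs.wordProd ω)).1) +
          cs₂.length (1 * (Ψ (cs.wordProd ω)).2) ≤ ω.length + 1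
        rw [one_mul]
        have h1 := cs₁.length_mul_le (cs₁.simple ⟨i, hi⟩) (Ψ (cs.wordProd ω)).1
        rw [cs₁.length_simple] at h1
        omega
      · rw [g2 i hi]
        show cs₁.length (1 * (Ψ (cs.wordProd ω)).1) +
          cs₂.length (cs₂.simple ⟨i, hi⟩ * (Ψ (cs.wordProd ω)).2) ≤ ω.length + 1
        rw [one_mul]
        have h1 := cs₂.length_mul_le (cs₂.simple ⟨i, hi⟩) (Ψ (cs.wordProd ω)).2
        rw [cs₂.length_simple] at h1
        omega
  refine ⟨(Mres M J).Group, (Mres M Jᶜ).Group, inferInstance, inferInstance,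
    Fintype.ofFinite _, Fintype.ofFinite _, cs₁, cs₂, ⟨⟨φ, Equiv.Set.sumCompl J, ?_, ?_, ?_⟩⟩⟩
  · intro i
    show Φ (cs₁.simple i, 1) = _
    rw [hΦ, map_one, mul_one, h₁]
    simp
  · intro i
    show Φ (1, cs₂.simple i) = _
    rw [hΦ, map_one, one_mul, h₂]
    simp
  · intro u v
    show cs.length (Φ (u, v)) = _
    apply le_antisymm
    · obtain ⟨ω₁, hω₁, hu⟩ := cs₁.exists_isReduced u
      obtain ⟨ω₂, hω₂, hv⟩ := cs₂.exists_isReduced v
      have a1 := Pxg.wordProd_map cs cs₁ Subtype.val φ₁ h₁ ω₁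
      have a2 := Pxg.wordProd_map cs cs₂ Subtype.val φ₂ h₂ ω₂
      have a3 : Φ (u, v) = cs.wordProd (ω₁.map Subtype.val ++ ω₂.map Subtype.val) := by
        rw [cs.wordProd_append, a1, a2, hΦ, hu, hv]
      rw [a3]
      refine (cs.length_wordProd_le _).trans ?_
      rw [List.length_append, List.length_map, List.length_map, hu, hv, hω₁.eq, hω₂.eq]
    · obtain ⟨ω, hω, hw⟩ := cs.exists_isReduced (Φ (u, v))
      have h1 := hlow ω
      have h2 : Ψ (Φ (u, v)) = (u, v) := DFunLike.congr_fun hΨΦ (u, v)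
      rw [← hw, h2] at h1
      rw [hw, hω.eq]
      exact h1

end Pool.Agent.Work.MP_a20dfd
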