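import Pool.Agent.Work.MP_a20dfd.PX

/-!
Block XG: splitting of a finite Coxeter system (helper4, second copy).
-/

set_option autoImplicit false

namespace Pool.Agent.Work.MP_a20dfd

namespace Pxg4

theorem length_map_le {B B₁ W W₁ : Type} [Group W] [Group W₁] {M : CoxeterMatrix B}
    {M₁ : CoxeterMatrix B₁} (cs : CoxeterSystem M W) (cs₁ : CoxeterSystem M₁ W₁)
    (f : W₁ →* W) (e : B₁ → B) (he : ∀ i, f (cs₁.simple i) = cs.simple (e i)) (u : W₁) :
    cs.length (f u) ≤ cs₁.length u := by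
  have hw : ∀ ω : List B₁, f (cs₁.wordProd ω) = cs.wordProd (ω.map e) := by
    intro ω
    induction ω with
    | nil => simp
    | cons i ω ih => rw [cs₁.wordProd_cons, map_mul, he, ih, List.map_cons, cs.wordProd_cons]
  obtain ⟨ω, hω, rfl⟩ := cs₁.exists_isReduced u
  have h1 : cs₁.length (cs₁.wordProd ω) = ω.length := hω
  rw [h1, hw]
  have := cs.length_wordProd_le (ω.map e)
  rwa [List.length_map] at this

end Pxg4

theorem p_XG4 : Stmt_XG := by
  classical
  intro B W _ _ M cs J hJ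
  let cs₁ := (Mres M J).toCoxeterSystem
  let cs₂ := (Mres M Jᶜ).toCoxeterSystem
  obtain ⟨f₁, hf₁⟩ : ∃ f₁ : (Mres M J).Group →* W, ∀ i, f₁ (cs₁.simple i) = cs.simple i.1 :=
    ⟨cs₁.lift ⟨fun i => cs.simple i.1, fun i j => cs.simple_mul_simple_pow i.1 j.1⟩,
      fun i => cs₁.lift_apply_simple _ i⟩
  obtain ⟨f₂, hf₂⟩ : ∃ f₂ : (Mres M Jᶜ).Group →* W, ∀ i, f₂ (cs₂.simple i) = cs.simple i.1 :=
    ⟨cs₂.lift ⟨fun i => cs.simple i.1, fun i j => cs.simple_mul_simple_pow i.1 j.1⟩,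
      fun i => cs₂.lift_apply_simple _ i⟩
  have hss : ∀ i ∈ J, ∀ j, j ∉ J → Commute (cs.simple i) (cs.simple j) := by
    intro i hi j hj
    have h1 := cs.simple_mul_simple_pow i j
    rw [hJ i hi j hj, pow_two] at h1
    have h2 : cs.simple i * cs.simple j = (cs.simple i * cs.simple j)⁻¹ :=
      eq_inv_of_mul_eq_one_left h1
    rw [mul_inv_rev, cs.inv_simple, cs.inv_simple] at h2
    exact h2
  have hcomm : ∀ u v, Commute (f₁ u) (f₂ v) := by
    intro u v
    refine cs₁.simple_induction (p := fun u => Commute (f₁ u) (f₂ v)) u ?_ ?_ ?_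
    · intro i
      refine cs₂.simple_induction (p := fun v => Commute (f₁ (cs₁.simple i)) (f₂ v)) v ?_ ?_ ?_
      · intro j
        rw [hf₁, hf₂]
        exact hss i.1 i.2 j.1 j.2
      · rw [map_one]
        exact Commute.one_right _
      · intro a b ha hb
        rw [map_mul]
        exact ha.mul_right hb
    · rw [map_one]
      exact Commute.one_left _
    · intro a b ha hb
      rw [map_mul]
      exact ha.mul_left hb
  let g : B → (Mres M J).Group × (Mres M Jᶜ).Group := fun i =>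
    if h : i ∈ J then (cs₁.simple ⟨i, h⟩, 1) else (1, cs₂.simple ⟨i, h⟩)
  have hg₁ : ∀ i (h : i ∈ J), g i = (cs₁.simple ⟨i, h⟩, 1) := fun i h => dif_pos h
  have hg₂ : ∀ i (h : i ∉ J), g i = (1, cs₂.simple ⟨i, h⟩) := fun i h => dif_neg h
  have hg : M.IsLiftable g := by
    intro i j
    by_cases hi : i ∈ J
    · by_cases hj : j ∈ J
      · rw [hg₁ i hi, hg₁ j hj, Prod.mk_mul_mk, Prod.pow_mk, one_mul, one_pow]
        have h1 := cs₁.simple_mul_simple_pow ⟨i, hi⟩ ⟨j, hj⟩
        exact Prod.ext h1 rfl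
      · rw [hg₁ i hi, hg₂ j hj, Prod.mk_mul_mk, Prod.pow_mk, one_mul, mul_one, hJ i hi j hj,
          cs₁.simple_sq, cs₂.simple_sq]
        rfl
    · by_cases hj : j ∈ J
      · rw [hg₂ i hi, hg₁ j hj, Prod.mk_mul_mk, Prod.pow_mk, one_mul, mul_one,
          M.symmetric i j, hJ j hj i hi, cs₁.simple_sq, cs₂.simple_sq]
        rfl
      · rw [hg₂ i hi, hg₂ j hj, Prod.mk_mul_mk, Prod.pow_mk, one_mul, one_pow]
        have h1 := cs₂.simple_mul_simple_pow ⟨i, hi⟩ ⟨j, hj⟩
        exact Prod.ext rfl h1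
  obtain ⟨ψ, hψ⟩ : ∃ ψ : W →* (Mres M J).Group × (Mres M Jᶜ).Group,
      ∀ i, ψ (cs.simple i) = g i := ⟨cs.lift ⟨g, hg⟩, fun i => cs.lift_apply_simple hg i⟩
  have hψ₁ : ∀ u, ψ (f₁ u) = (u, 1) := by
    intro u
    have h1 : ψ.comp f₁ = MonoidHom.inl _ _ := by
      apply cs₁.ext_simple
      intro i
      rw [MonoidHom.comp_apply, hf₁, hψ, hg₁ i.1 i.2]
      rfl
    exact DFunLike.congr_fun h1 u
  have hψ₂ : ∀ v, ψ (f₂ v) = (1, v) := by
    intro v
    have h1 : ψ.comp f₂ = MonoidHom.inr _ _ := by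
      apply cs₂.ext_simple
      intro i
      rw [MonoidHom.comp_apply, hf₂, hψ, hg₂ i.1 i.2]
      rfl
    exact DFunLike.congr_fun h1 v
  let φ' : (Mres M J).Group × (Mres M Jᶜ).Group →* W := MonoidHom.noncommCoprod f₁ f₂ hcomm
  have hφ' : ∀ u v, φ' (u, v) = f₁ u * f₂ v := fun u v => rfl
  have h1 : ψ.comp φ' = MonoidHom.id _ := by
    ext x
    · obtain ⟨u, v⟩ := x
      rw [MonoidHom.comp_apply, hφ', map_mul, hψ₁, hψ₂, Prod.mk_mul_mk, mul_one, one_mul]
      rfl
    · obtain ⟨u, v⟩ := x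
      rw [MonoidHom.comp_apply, hφ', map_mul, hψ₁, hψ₂, Prod.mk_mul_mk, mul_one, one_mul]
      rfl
  have h2 : φ'.comp ψ = MonoidHom.id _ := by
    apply cs.ext_simple
    intro i
    rw [MonoidHom.comp_apply, hψ]
    by_cases hi : i ∈ J
    · rw [hg₁ i hi, hφ', map_one, mul_one, hf₁]
      rfl
    · rw [hg₂ i hi, hφ', map_one, one_mul, hf₂]
      rfl
  let φ : (Mres M J).Group × (Mres M Jᶜ).Group ≃* W := MonoidHom.toMulEquiv φ' ψ h1 h2
  have hφ : ∀ u v, φ (u, v) = f₁ u * f₂ v := fun u v => rfl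
  have hψφ : ∀ u v, ψ (φ (u, v)) = (u, v) := by
    intro u v
    exact DFunLike.congr_fun h1 (u, v)
  have : Finite (Mres M J).Group := Finite.of_injective (fun u => φ (u, 1)) (by
    intro a b hab
    exact congrArg Prod.fst (φ.injective hab))
  have : Finite (Mres M Jᶜ).Group := Finite.of_injective (fun v => φ (1, v)) (by
    intro a b hab
    exact congrArg Prod.snd (φ.injective hab))
  refine ⟨(Mres M J).Group, (Mres M Jᶜ).Group, inferInstance, inferInstance, Fintype.ofFinite _,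
    Fintype.ofFinite _, cs₁, cs₂, ⟨⟨φ, Equiv.Set.sumCompl J, ?_, ?_, ?_⟩⟩⟩
  · intro i
    rw [hφ, map_one, mul_one, hf₁, Equiv.Set.sumCompl_apply_inl]
  · intro i
    rw [hφ, map_one, one_mul, hf₂, Equiv.Set.sumCompl_apply_inr]
  · intro u v
    apply le_antisymm
    · rw [hφ]
      have h3 := Pxg4.length_map_le cs cs₁ f₁ (fun i => i.1) hf₁ u
      have h4 := Pxg4.length_map_le cs cs₂ f₂ (fun i => i.1) hf₂ v
      have h5 := cs.length_mul_le (f₁ u) (f₂ v)
      omega
    · have h6 : ∀ ω : List B, cs₁.length (ψ (cs.wordProd ω)).1 +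
          cs₂.length (ψ (cs.wordProd ω)).2 ≤ ω.length := by
        intro ω
        induction ω with
        | nil => simp
        | cons i ω ih =>
          rw [cs.wordProd_cons, map_mul, hψ, List.length_cons]
          by_cases hi : i ∈ J
          · rw [hg₁ i hi]
            have h7 := cs₁.length_simple_mul (ψ (cs.wordProd ω)).1 ⟨i, hi⟩
            show cs₁.length (cs₁.simple ⟨i, hi⟩ * (ψ (cs.wordProd ω)).1) +
              cs₂.length (1 * (ψ (cs.wordProd ω)).2) ≤ _
            rw [one_mul]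
            omega
          · rw [hg₂ i hi]
            have h7 := cs₂.length_simple_mul (ψ (cs.wordProd ω)).2 ⟨i, hi⟩
            show cs₁.length (1 * (ψ (cs.wordProd ω)).1) +
              cs₂.length (cs₂.simple ⟨i, hi⟩ * (ψ (cs.wordProd ω)).2) ≤ _
            rw [one_mul]
            omega
      obtain ⟨ω, hω, hω'⟩ := cs.exists_isReduced (φ (u, v))
      have h8 : cs.length (cs.wordProd ω) = ω.length := hω
      have h9 := h6 ω
      rw [← hω', hψφ, ← h8, ← hω'] at h9
      exact h9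

end Pool.Agent.Work.MP_a20dfd
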