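import Pool.Agent.Work.MP_a20dfd.PX

set_option autoImplicit false

/-! Block XO (helper1): rank 0 and 1. -/

namespace Pool.Agent.Work.MP_a20dfd

open LaurentPolynomial

namespace Pxo

theorem co_T (m k : ℤ) : co (T m : A) k = if m = k then 1 else 0 := by
  exact T_apply k m

theorem co_add (f g : A) (k : ℤ) : co (f + g) k = co f k + co g k := by simp [co]

theorem nn_zero : Nonneg (0 : A) := fun k => by simp [co]

theorem nn_T (m : ℤ) : Nonneg (T m : A) := fun k => by
  rw [co_T]
  split_ifs <;> norm_num

theorem nn_one : Nonneg (1 : A) := by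
  rw [← T_zero]
  exact nn_T 0

theorem nn_add {f g : A} (hf : Nonneg f) (hg : Nonneg g) : Nonneg (f + g) := fun k => by
  rw [co_add]
  exact add_nonneg (hf k) (hg k)

theorem nn_ite {P : Prop} [Decidable P] {f : A} (hf : Nonneg f) :
    Nonneg (if P then f else 0) := by
  split_ifs
  · exact hf
  · exact nn_zero

variable {B W : Type} [Group W] {M : CoxeterMatrix B}

theorem elem (cs : CoxeterSystem M W) (hB : Subsingleton B) (w : W) :
    w = 1 ∨ ∃ i, w = cs.simple i := by
  obtain ⟨ω, -, rfl⟩ := cs.exists_reduced_word w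
  induction ω with
  | nil => exact Or.inl cs.wordProd_nil
  | cons a ω ih =>
    rw [cs.wordProd_cons]
    rcases ih with h | ⟨i, h⟩
    · rw [h, mul_one]
      exact Or.inr ⟨a, rfl⟩
    · rw [h, Subsingleton.elim i a, cs.simple_mul_simple_self]
      exact Or.inl rfl

end Pxo

open Pxo in
theorem p_XO (hCSI : Stmt_CSI) (hCDN : Stmt_CDN) (_hTRI : Stmt_TRI) : Stmt_XO := by
  intro B W _ _ M cs hB K
  classical
  obtain ⟨hc1, hcs⟩ := hCSI K
  have hs1 : ∀ i, cs.simple i ≠ 1 := fun i h => by
    have := cs.length_simple i
    rw [h, cs.length_one] at this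
    omega
  have p1 : ∀ y, K.p y 1 = if (1 : W) = y then (1 : A) else 0 := by
    intro y
    unfold KL.p
    rw [hc1, ← K.std_one, K.std.repr_self, Finsupp.single_apply]
  have ps : ∀ y i, K.p y (cs.simple i) = (if cs.simple i = y then (1 : A) else 0) +
      if (1 : W) = y then (T 1 : A) else 0 := by
    intro y i
    unfold KL.p
    rw [hcs i, map_add, map_smul, ← K.std_one, K.std.repr_self, K.std.repr_self,
      Finsupp.add_apply, Finsupp.smul_apply, Finsupp.single_apply, Finsupp.single_apply,
      smul_eq_mul, mul_ite, mul_one, mul_zero]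
  have hp : ∀ y w, Nonneg (K.p y w) := by
    intro y w
    rcases elem cs hB w with rfl | ⟨i, rfl⟩
    · rw [p1]
      exact nn_ite nn_one
    · rw [ps]
      exact nn_add (nn_ite nn_one) (nn_ite (nn_T 1))
  refine ⟨⟨hp, ?_⟩, ?_⟩
  · intro x y z
    unfold KL.h
    rcases elem cs hB x with rfl | ⟨i, rfl⟩
    · rw [hc1, one_mul, K.kl.repr_self, Finsupp.single_apply]
      exact nn_ite nn_one
    · rcases elem cs hB y with rfl | ⟨j, rfl⟩
      · rw [hc1, mul_one, K.kl.repr_self, Finsupp.single_apply]
        exact nn_ite nn_one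
      · rw [Subsingleton.elim j i, hCDN K i (cs.simple i) (by
          rw [cs.simple_mul_simple_self, cs.length_one, cs.length_simple]
          omega), map_smul, K.kl.repr_self, Finsupp.smul_apply, Finsupp.single_apply,
          smul_eq_mul, mul_ite, mul_one, mul_zero]
        exact nn_ite (nn_add (nn_T 1) (nn_T (-1)))
  · intro I x y hx hy
    unfold n
    by_cases hI : ∃ i, i ∈ I
    · obtain ⟨i, hi⟩ := hI
      have hone : ∀ u : W, Short cs I u → u = 1 := by
        intro u hu
        rcases elem cs hB u with h | ⟨j, h⟩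
        · exact h
        · have := hu i hi
          rw [h, Subsingleton.elim j i, cs.simple_mul_simple_self, cs.length_one] at this
          omega
      rw [hone x hx, hone y hy]
      rw [Finset.sum_eq_single (1 : W)]
      · rw [cs.length_one, pow_zero, one_mul, mul_one, p1, if_pos rfl, mul_one]
        exact nn_T _
      · intro w _ hw
        rw [one_mul, p1, if_neg (Ne.symm hw), mul_zero]
      · intro h
        exact absurd (Finset.mem_filter.mpr ⟨Finset.mem_univ _, one_mem _⟩) h
    · have hI' : I = ∅ := by
        ext i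
        exact ⟨fun h => hI ⟨i, h⟩, fun h => h.elim⟩
      rw [Finset.sum_eq_single (1 : W)]
      · rw [cs.length_one, pow_zero, one_mul, mul_one, Nat.cast_zero, T_zero, one_mul]
        exact hp x y
      · intro w hw hw1
        have h1 := (Finset.mem_filter.mp hw).2
        unfold Par at h1
        rw [hI', Set.image_empty, Subgroup.closure_empty, Subgroup.mem_bot] at h1
        exact absurd h1 hw1
      · intro h
        exact absurd (Finset.mem_filter.mpr ⟨Finset.mem_univ _, one_mem _⟩) h

end Pool.Agent.Work.MP_a20dfd
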