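import Pool.Agent.Work.MP_a20dfd.ExDefs

/-!
Block HCK of MP_a20dfd_al (helper3, second copy).
-/

set_option autoImplicit false

namespace Pool.Agent.Work.MP_a20dfd

open LaurentPolynomial

namespace Hck3

section
variable {B W : Type} [Group W] {M : CoxeterMatrix B} (cs : CoxeterSystem M W)

theorem lop_up (i : B) (w : W) (h : cs.length w < cs.length (cs.simple i * w)) :
    Lop cs i (Finsupp.single w (1 : A)) = Finsupp.single (cs.simple i * w) (1 : A) := by
  classical
  unfold Lop
  rw [Finsupp.linearCombination_single, one_smul, if_pos h]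

theorem lop_down (i : B) (w : W) (h : cs.length (cs.simple i * w) < cs.length w) :
    Lop cs i (Finsupp.single w (1 : A)) = Finsupp.single (cs.simple i * w) (1 : A) +
      (T (-1) - T 1 : A) • Finsupp.single w (1 : A) := by
  classical
  unfold Lop
  rw [Finsupp.linearCombination_single, one_smul, if_neg (by omega)]

theorem rop_up (i : B) (w : W) (h : cs.length w < cs.length (w * cs.simple i)) :
    Rop cs i (Finsupp.single w (1 : A)) = Finsupp.single (w * cs.simple i) (1 : A) := by
  classical
  unfold Rop
  rw [Finsupp.linearCombination_single, one_smul, if_pos h]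

/-- the algebra of the left operators -/
noncomputable def LA : Subalgebra A (Module.End A (W →₀ A)) :=
  Algebra.adjoin A (Set.range (Lop cs))

noncomputable instance instLARing : Ring (LA cs) :=
  @Subalgebra.toRing A (Module.End A (W →₀ A)) _ _ _ (LA cs)

theorem lop_mem (i : B) : Lop cs i ∈ LA cs := Algebra.subset_adjoin ⟨i, rfl⟩

theorem comm (hCOM : Stmt_COM) (t : Module.End A (W →₀ A)) (ht : t ∈ LA cs) (j : B) :
    t * Rop cs j = Rop cs j * t := by
  unfold LA at ht
  induction ht using Algebra.adjoin_induction with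
  | mem x hx =>
    obtain ⟨i, rfl⟩ := hx
    exact hCOM cs i j
  | algebraMap r => exact Algebra.commutes r _
  | add x y _ _ hx hy => rw [add_mul, mul_add, hx, hy]
  | mul x y _ _ hx hy => rw [mul_assoc, hy, ← mul_assoc, hx, mul_assoc]

/-- evaluation at `1` -/
noncomputable def ev : LA cs →ₗ[A] (W →₀ A) :=
  (LinearMap.applyₗ (Finsupp.single (1 : W) (1 : A))) ∘ₗ (LA cs).val.toLinearMap

theorem ev_apply (t : LA cs) : ev cs t = (t : Module.End A (W →₀ A)) (Finsupp.single 1 1) := rfl

theorem zero_of (hCOM : Stmt_COM) (t : Module.End A (W →₀ A)) (ht : t ∈ LA cs)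
    (h0 : t (Finsupp.single 1 1) = 0) : ∀ (k : ℕ) (w : W), cs.length w = k →
      t (Finsupp.single w 1) = 0 := by
  intro k
  induction k with
  | zero =>
    intro w hw
    rw [cs.length_eq_zero_iff] at hw
    rw [hw]
    exact h0
  | succ k ih =>
    intro w hw
    have hne : w ≠ 1 := by
      rintro rfl
      rw [cs.length_one] at hw
      omega
    obtain ⟨i, hi⟩ := cs.exists_rightDescent_of_ne_one hne
    have h1 : cs.length (w * cs.simple i) + 1 = cs.length w := cs.isRightDescent_iff.1 hi
    have h2 : Rop cs i (Finsupp.single (w * cs.simple i) (1 : A)) = Finsupp.single w (1 : A) := by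
      rw [rop_up cs i (w * cs.simple i) (by rw [cs.simple_mul_simple_cancel_right]; omega),
        cs.simple_mul_simple_cancel_right]
    rw [← h2]
    have h3 := congrArg (fun f : Module.End A (W →₀ A) => f (Finsupp.single (w * cs.simple i) 1))
      (comm cs hCOM t ht i)
    change t (Rop cs i (Finsupp.single (w * cs.simple i) 1)) =
      Rop cs i (t (Finsupp.single (w * cs.simple i) 1)) at h3
    rw [h3, ih (w * cs.simple i) (by omega), map_zero]

theorem ev_inj (hCOM : Stmt_COM) : Function.Injective (ev cs) := by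
  intro t t' htt
  have hd : (t : Module.End A (W →₀ A)) + (-1 : A) • (t' : Module.End A (W →₀ A)) ∈ LA cs :=
    (LA cs).add_mem t.2 ((LA cs).smul_mem t'.2 (-1))
  have h0 : ((t : Module.End A (W →₀ A)) + (-1 : A) • (t' : Module.End A (W →₀ A)))
      (Finsupp.single 1 1) = 0 := by
    rw [LinearMap.add_apply, LinearMap.smul_apply, ← ev_apply, ← ev_apply, htt, neg_one_smul,
      add_neg_cancel]
  have h1 : (t : Module.End A (W →₀ A)) + (-1 : A) • (t' : Module.End A (W →₀ A)) = 0 := by
    apply Finsupp.lhom_ext'
    intro w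
    apply LinearMap.ext_ring
    exact zero_of cs hCOM _ hd h0 _ w rfl
  apply Subtype.ext
  have h2 : (-1 : A) • (t' : Module.End A (W →₀ A)) = -(t' : Module.End A (W →₀ A)) := by
    apply LinearMap.ext
    intro x
    rw [LinearMap.smul_apply, LinearMap.neg_apply, neg_one_smul]
  rw [h2] at h1
  exact add_neg_eq_zero.1 h1

theorem ev_surj_single : ∀ (k : ℕ) (w : W), cs.length w = k → ∃ t : LA cs,
    ev cs t = Finsupp.single w 1 := by
  intro k
  induction k with
  | zero =>
    intro w hw
    rw [cs.length_eq_zero_iff] at hw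
    rw [hw]
    exact ⟨1, rfl⟩
  | succ k ih =>
    intro w hw
    have hne : w ≠ 1 := by
      rintro rfl
      rw [cs.length_one] at hw
      omega
    obtain ⟨i, hi⟩ := cs.exists_leftDescent_of_ne_one hne
    have h1 : cs.length (cs.simple i * w) + 1 = cs.length w := cs.isLeftDescent_iff.1 hi
    obtain ⟨t, ht⟩ := ih (cs.simple i * w) (by omega)
    refine ⟨⟨Lop cs i, lop_mem cs i⟩ * t, ?_⟩
    change Lop cs i (ev cs t) = _
    rw [ht, lop_up cs i (cs.simple i * w) (by rw [cs.simple_mul_simple_cancel_left]; omega),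
      cs.simple_mul_simple_cancel_left]

theorem ev_surj : Function.Surjective (ev cs) := by
  rw [← LinearMap.range_eq_top, eq_top_iff]
  intro f _
  induction f using Finsupp.induction_linear with
  | zero => exact Submodule.zero_mem _
  | add f g hf hg => exact Submodule.add_mem _ (hf trivial) (hg trivial)
  | single w a =>
    obtain ⟨t, ht⟩ := ev_surj_single cs _ w rfl
    refine ⟨a • t, ?_⟩
    rw [map_smul, ht, Finsupp.smul_single, smul_eq_mul, mul_one]

end

end Hck3

open Hck3

theorem p_HCK_h3 (hCOM : Stmt_COM) : Stmt_HCK := by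
  intro B W _ M cs
  let φ : LA cs ≃ₗ[A] (W →₀ A) := LinearEquiv.ofBijective (ev cs) ⟨ev_inj cs hCOM, ev_surj cs⟩
  let st : Module.Basis W A (LA cs) := Module.Basis.ofRepr φ
  have hst : ∀ w, ev cs (st w) = Finsupp.single w 1 := fun w => φ.apply_symm_apply _
  have hs1 : st 1 = 1 := ev_inj cs hCOM ((hst 1).trans rfl)
  have hsi : ∀ i, st (cs.simple i) = ⟨Lop cs i, lop_mem cs i⟩ := by
    intro i
    apply ev_inj cs hCOM
    rw [hst, ev_apply]
    change _ = Lop cs i (Finsupp.single 1 1)
    rw [lop_up cs i 1 (by rw [mul_one, cs.length_one, cs.length_simple]; exact Nat.one_pos), mul_one]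
  have hmul : ∀ i w, ev cs (st (cs.simple i) * st w) = Lop cs i (Finsupp.single w 1) := by
    intro i w
    rw [hsi, ← hst w]
    rfl
  exact ⟨{
    H := LA cs
    std := st
    std_one := hs1
    std_up := fun i w h => ev_inj cs hCOM (by rw [hmul, hst, lop_up cs i w h])
    std_down := fun i w h => ev_inj cs hCOM (by
      rw [hmul, map_add, map_smul, hst, hst, lop_down cs i w h]) }⟩

end Pool.Agent.Work.MP_a20dfd
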