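import Pool.Agent.Work.MP_a20dfd.ExDefs

/-!
Block KLB (helper31): a unitriangular family is a basis.
-/

set_option autoImplicit false

namespace Pool.Agent.Work.MP_a20dfd

theorem p_KLB : Stmt_KLB := by
  intro W H _ _ _ l std c h1 h2
  classical
  have hli : LinearIndependent A c := by
    rw [Fintype.linearIndependent_iff]
    intro g hg
    by_contra hne
    push Not at hne
    obtain ⟨w0, hw0⟩ := hne
    obtain ⟨w, hw, hmax⟩ := Finset.exists_max_image (Finset.univ.filter fun w => g w ≠ 0) l
      ⟨w0, by simp [hw0]⟩
    have hgw : g w ≠ 0 := (Finset.mem_filter.1 hw).2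
    apply hgw
    have h3 := congrArg (fun x => std.repr x w) hg
    simp only [map_sum, map_smul, map_zero, Finsupp.coe_zero, Pi.zero_apply,
      Finsupp.coe_finsetSum, Finset.sum_apply, Finsupp.coe_smul, Pi.smul_apply,
      smul_eq_mul] at h3
    rw [Finset.sum_eq_single w] at h3
    · rwa [h1, mul_one] at h3
    · intro y _ hy
      by_cases hgy : g y = 0
      · rw [hgy, zero_mul]
      · rw [h2 y w (Ne.symm hy) (hmax y (by simp [hgy])), mul_zero]
    · intro h
      exact absurd (Finset.mem_univ w) h
  have hsp : ⊤ ≤ Submodule.span A (Set.range c) := by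
    have key : ∀ m, ∀ w, l w = m → std w ∈ Submodule.span A (Set.range c) := by
      intro m
      induction m using Nat.strong_induction_on with
      | _ m ih =>
        intro w hw
        have h3 := std.sum_repr (c w)
        rw [← Finset.add_sum_erase _ _ (Finset.mem_univ w), h1, one_smul] at h3
        rw [eq_sub_of_add_eq h3]
        refine Submodule.sub_mem _ (Submodule.subset_span ⟨w, rfl⟩)
          (Submodule.sum_mem _ fun y hy => ?_)
        have hy' : y ≠ w := (Finset.mem_erase.1 hy).1
        rcases lt_or_ge (l y) (l w) with h | h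
        · exact Submodule.smul_mem _ _ (ih (l y) (hw ▸ h) y rfl)
        · rw [h2 w y hy' h, zero_smul]
          exact Submodule.zero_mem _
    rw [← std.span_eq, Submodule.span_le]
    rintro _ ⟨w, rfl⟩
    exact key _ w rfl
  exact ⟨Module.Basis.mk hli hsp, fun w => Module.Basis.mk_apply hli hsp w⟩

end Pool.Agent.Work.MP_a20dfd
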