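import Pool.Agent.Work.MP_a20dfd.ExDefs

/-!
# Block KLE (second copy, helper62)
-/

namespace Pool.Agent.Work.MP_a20dfd

open LaurentPolynomial

namespace XKLE62

theorem co_add (f g : A) (k : ℤ) : co (f + g) k = co f k + co g k := by simp [co]

theorem co_sub (f g : A) (k : ℤ) : co (f - g) k = co f k - co g k := by simp [co]

theorem co_zero (k : ℤ) : co 0 k = 0 := by simp [co]

theorem co_C_mul (m : ℤ) (f : A) (k : ℤ) : co (C m * f) k = m * co f k := by
  show ((AddMonoidAlgebra.single (0 : ℤ) m : A) * f).coeff k = m * f.coeff k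
  rw [AddMonoidAlgebra.coeff_single_mul_apply, neg_zero, zero_add]

theorem co_T_mul (j : ℤ) (f : A) (k : ℤ) : co (T j * f) k = co f (k - j) := by
  show ((AddMonoidAlgebra.single j (1 : ℤ) : A) * f).coeff k = f.coeff (k - j)
  rw [AddMonoidAlgebra.coeff_single_mul_apply, one_mul, neg_add_eq_sub]

theorem co_one (k : ℤ) : co 1 k = if k = 0 then 1 else 0 := by
  show (1 : A).coeff k = _
  rw [AddMonoidAlgebra.one_def, AddMonoidAlgebra.coeff_single, Finsupp.single_apply]
  exact if_congr eq_comm rfl rfl

theorem co_sum {ι : Type} (S : Finset ι) (f : ι → A) (k : ℤ) :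
    co (∑ x ∈ S, f x) k = ∑ x ∈ S, co (f x) k := by
  classical
  induction S using Finset.induction_on with
  | empty => simp [co_zero]
  | insert a s ha ih => rw [Finset.sum_insert ha, Finset.sum_insert ha, co_add, ih]

variable {B W : Type} [Group W] {M : CoxeterMatrix B} {cs : CoxeterSystem M W}

theorem coord (K : HS cs) (i : B) (z : W) (x : K.H) :
    K.std.repr (K.std (cs.simple i) * x) z = K.std.repr x (cs.simple i * z) +
      (if cs.length (cs.simple i * z) < cs.length z then (T (-1) - T 1 : A) * K.std.repr x z
        else 0) := by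
  classical
  have hss : ∀ y : W, cs.simple i * (cs.simple i * y) = y := fun y => by
    rw [← mul_assoc, cs.simple_mul_simple_self, one_mul]
  let f1 : K.H →ₗ[A] A := (Finsupp.lapply z).comp
    (K.std.repr.toLinearMap.comp (LinearMap.mulLeft A (K.std (cs.simple i))))
  let f2 : K.H →ₗ[A] A := (Finsupp.lapply (cs.simple i * z)).comp K.std.repr.toLinearMap +
    (if cs.length (cs.simple i * z) < cs.length z then (T (-1) - T 1 : A) else 0) •
      ((Finsupp.lapply z).comp K.std.repr.toLinearMap)
  have h12 : f1 = f2 := by
    apply K.std.ext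
    intro y
    show K.std.repr (K.std (cs.simple i) * K.std y) z = K.std.repr (K.std y) (cs.simple i * z) +
      (if cs.length (cs.simple i * z) < cs.length z then (T (-1) - T 1 : A) else 0) *
        K.std.repr (K.std y) z
    have hiff : y = cs.simple i * z ↔ cs.simple i * y = z := by
      constructor
      · intro h; rw [h, hss]
      · intro h; rw [← h, hss]
    rw [Module.Basis.repr_self, Finsupp.single_apply, Finsupp.single_apply]
    rcases lt_or_gt_of_ne (cs.length_simple_mul_ne y i) with h | h
    · rw [K.std_down i y h, map_add, map_smul, Finsupp.add_apply, Finsupp.smul_apply,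
        Module.Basis.repr_self, Module.Basis.repr_self, Finsupp.single_apply, Finsupp.single_apply,
        smul_eq_mul]
      congr 1
      · exact if_congr hiff.symm rfl rfl
      · by_cases hyz : y = z
        · subst hyz
          rw [if_pos rfl, if_pos h]
        · rw [if_neg hyz, mul_zero, mul_zero]
    · rw [K.std_up i y h, Module.Basis.repr_self, Finsupp.single_apply]
      have h3 : (if cs.length (cs.simple i * z) < cs.length z then (T (-1) - T 1 : A) else 0) *
          (if y = z then (1 : A) else 0) = 0 := by
        by_cases hyz : y = z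
        · subst hyz
          rw [if_neg (by omega), zero_mul]
        · rw [if_neg hyz, mul_zero]
      rw [h3, add_zero]
      exact if_congr hiff.symm rfl rfl
  have h := LinearMap.congr_fun h12 x
  have h' : K.std.repr (K.std (cs.simple i) * x) z = K.std.repr x (cs.simple i * z) +
      (if cs.length (cs.simple i * z) < cs.length z then (T (-1) - T 1 : A) else 0) *
        K.std.repr x z := h
  rw [h', ite_mul, zero_mul]

theorem coord2 (K : HS cs) (i : B) (z : W) (x : K.H) :
    K.std.repr ((K.std (cs.simple i) + (T 1 : A) • (1 : K.H)) * x) z =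
      K.std.repr x (cs.simple i * z) +
      (if cs.length (cs.simple i * z) < cs.length z then T (-1) * K.std.repr x z
        else T 1 * K.std.repr x z) := by
  rw [add_mul, smul_mul_assoc, one_mul, map_add, map_smul, Finsupp.add_apply,
    Finsupp.smul_apply, coord, smul_eq_mul]
  split_ifs <;> ring

/-- the properties of a Kazhdan-Lusztig element -/
def Good (K : HS cs) (bar : K.H →+* K.H) (w : W) (c : K.H) : Prop :=
  bar c = c ∧ K.std.repr c w = 1 ∧
    (∀ y : W, y ≠ w → ∀ k : ℤ, k ≤ 0 → co (K.std.repr c y) k = 0) ∧
    ∀ y : W, y ≠ w → cs.length w ≤ cs.length y → K.std.repr c y = 0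

theorem step [Fintype W] (hTRS : Stmt_TRS) (K : HS cs) (bar : K.H →+* K.H) (hbar : IsBar K bar)
    (w : W) (i : B) (hw : cs.length (cs.simple i * w) < cs.length w)
    (IH : ∀ t : W, cs.length t < cs.length w → ∃ c : K.H, Good K bar t c) :
    ∃ c : K.H, Good K bar w c := by
  classical
  have hss : ∀ y : W, cs.simple i * (cs.simple i * y) = y := fun y => by
    rw [← mul_assoc, cs.simple_mul_simple_self, one_mul]
  set w' := cs.simple i * w with hw'
  have hsw' : cs.simple i * w' = w := hss w
  have hlen : cs.length w = cs.length w' + 1 := by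
    rcases cs.length_simple_mul w i with h | h
    · rw [← hw'] at h; omega
    · rw [← hw'] at h; omega
  have hww' : w ≠ w' := fun h => by rw [← h] at hlen; omega
  obtain ⟨c', hc1, hc2, hc3, hc4⟩ := IH w' (by omega)
  obtain ⟨htrs, -⟩ := hTRS K bar hbar
  set X : K.H := (K.std (cs.simple i) + (T 1 : A) • (1 : K.H)) * c' with hX
  have hbX : bar X = X := by
    rw [hX, map_mul, map_add, htrs, hbar.1, map_one, hc1, invert_T]
    congr 1
    rw [add_assoc, ← add_smul]
    congr 2
    ring
  have hq : ∀ y : W, K.std.repr X y = K.std.repr c' (cs.simple i * y) +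
      (if cs.length (cs.simple i * y) < cs.length y then T (-1) * K.std.repr c' y
        else T 1 * K.std.repr c' y) := fun y => coord2 K i y c'
  have hle : ∀ y : W, cs.length y ≤ cs.length (cs.simple i * y) + 1 := fun y => by
    rcases cs.length_simple_mul y i with h | h <;> omega
  have hne : ∀ y : W, y ≠ w → cs.simple i * y ≠ w' := fun y hy h => hy (by
    rw [← hss y, h, hsw'])
  have q1 : K.std.repr X w = 1 := by
    rw [hq, ← hw', if_pos hw, hc2, hc4 w hww' (by omega), mul_zero, add_zero]
  have q2 : ∀ y : W, y ≠ w → cs.length w ≤ cs.length y → K.std.repr X y = 0 := by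
    intro y hy hl
    have h1 := hle y
    have h2 : K.std.repr c' (cs.simple i * y) = 0 := hc4 _ (hne y hy) (by omega)
    have h3 : K.std.repr c' y = 0 := hc4 y (fun h => by rw [h] at hl; omega) (by omega)
    rw [hq, h2, h3]
    split_ifs <;> simp
  have q3 : ∀ y : W, y ≠ w → ∀ k : ℤ, k < 0 → co (K.std.repr X y) k = 0 := by
    intro y hy k hk
    rw [hq, co_add, hc3 _ (hne y hy) k hk.le, zero_add]
    by_cases hyw : y = w'
    · have h1 : ¬ cs.length (cs.simple i * y) < cs.length y := by
        rw [hyw, hsw']; omega
      rw [if_neg h1, hyw, hc2, co_T_mul, co_one, if_neg (by omega)]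
    · split_ifs
      · rw [co_T_mul]
        exact hc3 y hyw _ (by omega)
      · rw [co_T_mul]
        exact hc3 y hyw _ (by omega)
  have IH' : ∀ t : W, ∃ c : K.H, cs.length t < cs.length w → Good K bar t c := by
    intro t
    by_cases h : cs.length t < cs.length w
    · obtain ⟨c, hc⟩ := IH t h
      exact ⟨c, fun _ => hc⟩
    · exact ⟨0, fun h' => absurd h' h⟩
  choose ct hct using IH'
  let S : Finset W := Finset.univ.filter (fun t => cs.length t < cs.length w)
  have hS : ∀ t, t ∈ S ↔ cs.length t < cs.length w := fun t => by simp [S]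
  let m : W → ℤ := fun t => co (K.std.repr X t) 0
  have hrepr : ∀ y : W, K.std.repr (X - ∑ t ∈ S, (C (m t) : A) • ct t) y
      = K.std.repr X y - ∑ t ∈ S, C (m t) * K.std.repr (ct t) y := by
    intro y
    rw [map_sub, map_sum, Finsupp.sub_apply, Finsupp.finsetSum_apply]
    congr 1
    refine Finset.sum_congr rfl fun t _ => ?_
    rw [map_smul, Finsupp.smul_apply, smul_eq_mul]
  have hzero : ∀ y : W, cs.length w ≤ cs.length y →
      ∑ t ∈ S, C (m t) * K.std.repr (ct t) y = 0 := by
    intro y hy
    refine Finset.sum_eq_zero fun t ht => ?_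
    have h1 := (hS t).1 ht
    rw [(hct t h1).2.2.2 y (fun h => by rw [h] at hy; omega) (by omega), mul_zero]
  refine ⟨X - ∑ t ∈ S, (C (m t) : A) • ct t, ?_, ?_, ?_, ?_⟩
  · rw [map_sub, map_sum, hbX]
    congr 1
    refine Finset.sum_congr rfl fun t ht => ?_
    rw [hbar.1, (hct t ((hS t).1 ht)).1, invert_C]
  · rw [hrepr, hzero w le_rfl, q1, sub_zero]
  · intro y hy k hk
    rw [hrepr]
    by_cases hl : cs.length w ≤ cs.length y
    · rw [hzero y hl, q2 y hy hl, sub_zero, co_zero]
    · have hyS : y ∈ S := (hS y).2 (by omega)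
      rw [co_sub, co_sum, Finset.sum_eq_single_of_mem y hyS]
      · rw [(hct y (by omega)).2.1, mul_one]
        have h1 : co (C (m y) : A) k = m y * co 1 k := by
          have := co_C_mul (m y) 1 k
          rwa [mul_one] at this
        rw [h1, co_one]
        rcases hk.lt_or_eq with hk' | hk'
        · rw [q3 y hy k hk', if_neg (by omega)]; simp
        · rw [hk', if_pos rfl, mul_one]
          exact sub_self _
      · intro t ht hty
        rw [co_C_mul, (hct t ((hS t).1 ht)).2.2.1 y hty.symm k hk, mul_zero]
  · intro y hy hl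
    rw [hrepr, hzero y hl, q2 y hy hl, sub_zero]

end XKLE62

open XKLE62 in
theorem p_KLE62 (hTRS : Stmt_TRS) : Stmt_KLE := by
  classical
  intro B W _ _ M cs K bar hbar w
  have key : ∀ n : ℕ, ∀ w : W, cs.length w = n → ∃ c : K.H, Good K bar w c := by
    intro n
    induction n using Nat.strong_induction_on with
    | _ n ih =>
      intro w hw
      by_cases h1 : w = 1
      · subst h1
        refine ⟨K.std 1, ?_, ?_, ?_, ?_⟩
        · rw [K.std_one, map_one]
        · rw [Module.Basis.repr_self, Finsupp.single_eq_same]
        · intro y hy k _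
          rw [Module.Basis.repr_self, Finsupp.single_apply, if_neg (fun h => hy h.symm), co_zero]
        · intro y hy _
          rw [Module.Basis.repr_self, Finsupp.single_apply, if_neg (fun h => hy h.symm)]
      · obtain ⟨i, hi⟩ := cs.exists_leftDescent_of_ne_one h1
        exact step hTRS K bar hbar w i hi (fun t ht => ih _ (by omega) t rfl)
  exact key _ w rfl

end Pool.Agent.Work.MP_a20dfd
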