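import Pool.Agent.Work.MP_a20dfd.ExDefs

/-!
Block KLE of MP_a20dfd_al (second copy, helper58).
-/

namespace Pool.Agent.Work.MP_a20dfd

open LaurentPolynomial

namespace XKLEx

variable {B W : Type} [Group W] {M : CoxeterMatrix B} {cs : CoxeterSystem M W} (K : HS cs)

theorem co_T_mul (m : ℤ) (f : A) (k : ℤ) : co (T m * f) k = co f (k - m) := by
  unfold co T
  rw [AddMonoidAlgebra.coeff_single_mul_apply, one_mul]
  congr 1
  ring

theorem co_add (f g : A) (k : ℤ) : co (f + g) k = co f k + co g k := rfl

theorem co_sub (f g : A) (k : ℤ) : co (f - g) k = co f k - co g k := rfl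

theorem co_zero (k : ℤ) : co (0 : A) k = 0 := rfl

theorem co_sum {ι : Type} (S : Finset ι) (f : ι → A) (k : ℤ) : co (∑ z ∈ S, f z) k = ∑ z ∈ S, co (f z) k := by
  unfold co
  rw [AddMonoidAlgebra.coeff_sum, Finsupp.finset_sum_apply]

theorem co_C_mul (m : ℤ) (f : A) (k : ℤ) : co (C m * f) k = m * co f k := by
  unfold co
  rw [← LaurentPolynomial.smul_eq_C_mul]
  rfl

theorem co_C (m : ℤ) (k : ℤ) : co (C m : A) k = if k = 0 then m else 0 := by
  unfold co
  rw [C_apply]

theorem co_one (k : ℤ) : co (1 : A) k = if k = 0 then 1 else 0 := by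
  have := co_C 1 k
  rwa [map_one] at this

/-- coordinates of `H_s x` -/
theorem coord (i : B) (x : K.H) (z : W) :
    K.std.repr (K.std (cs.simple i) * x) z = K.std.repr x (cs.simple i * z) +
      (if cs.length (cs.simple i * z) < cs.length z then (T (-1) - T 1 : A) * K.std.repr x z else 0) := by
  classical
  have key : ∀ u : W, K.std.repr (K.std (cs.simple i) * K.std u) z = K.std.repr (K.std u) (cs.simple i * z) +
      (if cs.length (cs.simple i * z) < cs.length z then (T (-1) - T 1 : A) * K.std.repr (K.std u) z else 0) := by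
    intro u
    have he : (cs.simple i * u = z) ↔ (u = cs.simple i * z) := by
      constructor
      · rintro rfl
        rw [cs.simple_mul_simple_cancel_left]
      · rintro rfl
        rw [cs.simple_mul_simple_cancel_left]
    rcases cs.length_simple_mul u i with h | h
    · rw [K.std_up i u (by omega), K.std.repr_self, K.std.repr_self, Finsupp.single_apply, Finsupp.single_apply,
        Finsupp.single_apply]
      by_cases huz : u = z
      · subst huz
        rw [if_neg (c := cs.length (cs.simple i * u) < cs.length u) (by omega), add_zero]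
        simp only [he]
      · rw [if_neg huz, mul_zero, ite_self, add_zero]
        simp only [he]
    · rw [K.std_down i u (by omega), map_add, map_smul, Finsupp.add_apply, Finsupp.smul_apply, K.std.repr_self,
        K.std.repr_self, Finsupp.single_apply, Finsupp.single_apply, Finsupp.single_apply, smul_eq_mul]
      by_cases huz : u = z
      · subst huz
        rw [if_pos (c := cs.length (cs.simple i * u) < cs.length u) (by omega)]
        simp only [he]
      · rw [if_neg huz, mul_zero, ite_self]
        simp only [he]
  have hx : x ∈ Submodule.span A (Set.range K.std) := by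
    rw [K.std.span_eq]
    trivial
  induction hx using Submodule.span_induction with
  | mem x hx =>
    obtain ⟨u, rfl⟩ := hx
    exact key u
  | zero => simp
  | add x y _ _ hx hy =>
    rw [mul_add, map_add, Finsupp.add_apply, hx, hy, map_add, Finsupp.add_apply, Finsupp.add_apply]
    split_ifs
    · ring
    · ring
  | smul a x _ hx =>
    rw [mul_smul_comm, map_smul, Finsupp.smul_apply, hx, map_smul, Finsupp.smul_apply, Finsupp.smul_apply, smul_eq_mul,
      smul_eq_mul, smul_eq_mul]
    split_ifs
    · ring
    · ring

/-- coordinates of `(H_s + v) x` -/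
theorem coord2 (i : B) (x : K.H) (z : W) :
    K.std.repr ((K.std (cs.simple i) + (T 1 : A) • (1 : K.H)) * x) z = K.std.repr x (cs.simple i * z) +
      (if cs.length (cs.simple i * z) < cs.length z then T (-1) else T 1) * K.std.repr x z := by
  rw [add_mul, smul_mul_assoc, one_mul, map_add, map_smul, Finsupp.add_apply, Finsupp.smul_apply,
    coord K, smul_eq_mul]
  split_ifs
  · ring
  · ring

/-- a good element for `w` -/
def Good (bar : K.H →+* K.H) (w : W) (c : K.H) : Prop := bar c = c ∧ K.std.repr c w = 1 ∧
      (∀ y : W, y ≠ w → ∀ k : ℤ, k ≤ 0 → co (K.std.repr c y) k = 0) ∧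
      ∀ y : W, y ≠ w → cs.length w ≤ cs.length y → K.std.repr c y = 0

theorem good_neg {bar : K.H →+* K.H} {w : W} {c : K.H} (h : Good K bar w c) (y : W) (k : ℤ) (hk : k < 0) :
    co (K.std.repr c y) k = 0 := by
  by_cases hy : y = w
  · rw [hy, h.2.1, co_one, if_neg hk.ne]
  · exact h.2.2.1 y hy k hk.le

end XKLEx

open XKLEx in
theorem p_KLEx (hTRS : Stmt_TRS) : Stmt_KLE := by
  classical
  intro B W _ _ M cs K bar hbar w
  obtain ⟨hs, -⟩ := hTRS K bar hbar
  suffices H : ∃ c, Good K bar w c from H
  induction hn : cs.length w using Nat.strong_induction_on generalizing w with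
  | _ n ih =>
  by_cases hw1 : w = 1
  · subst hw1
    refine ⟨K.std 1, ?_, ?_, ?_, ?_⟩
    · rw [K.std_one, map_one]
    · rw [K.std.repr_self, Finsupp.single_eq_same]
    · intro y hy k _
      rw [K.std.repr_self, Finsupp.single_eq_of_ne hy]
      rfl
    · intro y hy _
      rw [K.std.repr_self, Finsupp.single_eq_of_ne hy]
  · obtain ⟨i, hi⟩ := cs.exists_leftDescent_of_ne_one hw1
    have hi' : cs.length (cs.simple i * w) < cs.length w := hi
    obtain ⟨w', hw'⟩ : ∃ w', w' = cs.simple i * w := ⟨_, rfl⟩
    have hww : cs.simple i * w' = w := by rw [hw', cs.simple_mul_simple_cancel_left]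
    rw [← hw'] at hi'
    have hl : cs.length w = cs.length w' + 1 := by
      rcases cs.length_simple_mul w' i with h | h
      · rw [hww] at h
        exact h
      · rw [hww] at h
        omega
    obtain ⟨c', hc'⟩ := ih (cs.length w') (by omega) w' rfl
    have hpick : ∀ t : W, ∃ c, cs.length t < cs.length w → Good K bar t c := by
      intro t
      by_cases ht : cs.length t < cs.length w
      · obtain ⟨c, hc⟩ := ih (cs.length t) (by omega) t rfl
        exact ⟨c, fun _ => hc⟩
      · exact ⟨0, fun h => absurd h ht⟩
    choose cc hcc using hpick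
    set X : K.H := (K.std (cs.simple i) + (T 1 : A) • (1 : K.H)) * c' with hX
    obtain ⟨q, hq⟩ : ∃ q : W → A, ∀ z, q z = K.std.repr X z := ⟨_, fun _ => rfl⟩
    have hq2 : ∀ z, q z = K.std.repr c' (cs.simple i * z) +
        (if cs.length (cs.simple i * z) < cs.length z then T (-1) else T 1) * K.std.repr c' z := fun z => by
      rw [hq, hX, coord2]
    have hXbar : bar X = X := by
      rw [hX, map_mul, hc'.1, map_add, hs, hbar.1, map_one, invert_T]
      congr 1
      rw [add_assoc, ← add_smul]
      congr 2
      ring
    -- exponents of `q`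
    have ha : ∀ z k, k < 0 → co (q z) k = 0 := by
      intro z k hk
      rw [hq2, co_add, good_neg K hc' _ _ hk, zero_add]
      split_ifs with h
      · rw [co_T_mul]
        have hzw : z ≠ w' := by
          rintro rfl
          rw [hww] at h
          omega
        exact hc'.2.2.1 z hzw _ (by omega)
      · rw [co_T_mul]
        exact good_neg K hc' _ _ (by omega)
    have hqw : q w = 1 := by
      have h1 : cs.simple i * w = w' := hw'.symm
      rw [hq2, h1, hc'.2.1, hc'.2.2.2 w (by rintro rfl; omega) (by omega), mul_zero, add_zero]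
    have hqy : ∀ y, y ≠ w → cs.length w ≤ cs.length y → q y = 0 := by
      intro y hy hly
      have h1 : cs.simple i * y ≠ w' := by
        intro h
        apply hy
        rw [← hww, ← h, cs.simple_mul_simple_cancel_left]
      have h2 : y ≠ w' := by
        rintro rfl
        omega
      rw [hq2, hc'.2.2.2 y h2 (by omega), mul_zero, add_zero]
      apply hc'.2.2.2 _ h1
      rcases cs.length_simple_mul y i with h | h
      · omega
      · omega
    set S := Finset.univ.filter (fun t : W => cs.length t < cs.length w) with hS
    have hSm : ∀ t, t ∈ S ↔ cs.length t < cs.length w := fun t => by rw [hS]; simp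
    have hcoef : ∀ y, K.std.repr (X - ∑ t ∈ S, (C (co (q t) 0) : A) • cc t) y =
        q y - ∑ t ∈ S, C (co (q t) 0) * K.std.repr (cc t) y := by
      intro y
      rw [map_sub, map_sum, Finsupp.sub_apply, Finsupp.finset_sum_apply, ← hq]
      congr 1
      refine Finset.sum_congr rfl fun t _ => ?_
      rw [map_smul, Finsupp.smul_apply, smul_eq_mul]
    have hbig : ∀ y, cs.length w ≤ cs.length y → ∑ t ∈ S, C (co (q t) 0) * K.std.repr (cc t) y = 0 := by
      intro y hy
      refine Finset.sum_eq_zero fun t ht => ?_
      have ht' := (hSm t).1 ht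
      rw [(hcc t ht').2.2.2 y (by rintro rfl; omega) (by omega), mul_zero]
    refine ⟨X - ∑ t ∈ S, (C (co (q t) 0) : A) • cc t, ?_, ?_, ?_, ?_⟩
    · rw [map_sub, hXbar, map_sum]
      congr 1
      refine Finset.sum_congr rfl fun t ht => ?_
      rw [hbar.1, invert_C, (hcc t ((hSm t).1 ht)).1]
    · rw [hcoef, hbig w le_rfl, sub_zero, hqw]
    · intro y hy k hk
      rw [hcoef]
      by_cases hly : cs.length w ≤ cs.length y
      · rw [hbig y hly, hqy y hy hly, sub_zero]
        rfl
      · have hyS : y ∈ S := (hSm y).2 (by omega)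
        rw [co_sub, co_sum]
        rcases hk.lt_or_eq with hk | rfl
        · rw [ha y k hk, Finset.sum_eq_zero, sub_zero]
          intro t ht
          rw [co_C_mul, good_neg K (hcc t ((hSm t).1 ht)) _ _ hk, mul_zero]
        · rw [Finset.sum_eq_single y]
          · rw [co_C_mul, (hcc y ((hSm y).1 hyS)).2.1, co_one, if_pos rfl, mul_one, sub_self]
          · intro t ht hty
            rw [co_C_mul, (hcc t ((hSm t).1 ht)).2.2.1 y hty.symm 0 le_rfl, mul_zero]
          · intro h
            exact absurd hyS h
    · intro y hy hly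
      rw [hcoef, hbig y hly, hqy y hy hly, sub_zero]

end Pool.Agent.Work.MP_a20dfd
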